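import Pool.Agent.Helper819.Desc

/-!
Invariance of the Reynolds functional under right translations; ideals killed by it.
-/

open MvPolynomial

namespace Pool.Agent.NH60

open Pool.Agent.Helper819.Apolar Pool.Agent.Helper819.Dyn

noncomputable section

set_option linter.unusedSectionVars false

section rey

variable {n : ℕ} {k : Type} [Field k]

/-- the big matrix for right translations -/
def hatR (B : Matrix (Fin n) (Fin n) k) : Matrix (Fin n × Fin n) (Fin n × Fin n) k :=
  fun p q => if p.1 = q.1 then B q.2 p.2 else 0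

theorem lsub_hatR (B : Matrix (Fin n) (Fin n) k) : lsub (hatR B) = Rsub B := by
  unfold lsub Rsub
  congr 1
  funext p
  rw [Fintype.sum_prod_type, Finset.sum_eq_single p.1]
  · refine Finset.sum_congr rfl fun l _ => ?_
    simp [hatR]
  · intro j _ hj
    refine Finset.sum_eq_zero fun l _ => ?_
    simp [hatR, hj.symm]
  · simp

theorem hatR_transpose (B : Matrix (Fin n) (Fin n) k) :
    (hatR B).transpose = hatR B.transpose := by
  ext p q
  simp only [hatR, Matrix.transpose_apply, eq_comm]

theorem pr_Rsub (B : Matrix (Fin n) (Fin n) k) (f g : MvPolynomial (Fin n × Fin n) k) :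
    pr (Rsub B.transpose f) g = pr f (Rsub B g) := by
  rw [← lsub_hatR, ← lsub_hatR, ← hatR_transpose]
  exact pr_lsub (hatR B) f g

theorem Rsub_dt [Infinite k] (B : Matrix (Fin n) (Fin n) k) (w : ℕ) :
    Rsub B (dt n k ^ w) = C (B.det ^ w) * dt n k ^ w := by
  apply poly_ext
  intro A _
  rw [eval_Rsub, map_pow, eval_dt, map_mul, eval_C, map_pow, eval_dt, Matrix.det_mul, mul_pow,
    mul_comm]

theorem rho_Rsub [CharZero k] (w : ℕ) (B : Matrix (Fin n) (Fin n) k)
    (p : MvPolynomial (Fin n × Fin n) k) : rho w (Rsub B p) = B.det ^ w * rho w p := by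
  have hinf : Infinite k := inferInstance
  unfold rho
  rw [← pr_Rsub, Rsub_dt, pr_smul_left, Matrix.det_transpose, mul_div_assoc]

end rey

variable {k : Type} [Field k] {N d : ℕ}

/-- the derivative along a vector is a derivation -/
theorem dd_mul {R σ : Type} [CommRing R] [Fintype σ] (P Q : MvPolynomial σ R) (c v : σ → R) :
    dd (P * Q) c v = eval c P * dd Q c v + eval c Q * dd P c v := by
  unfold dd
  rw [Finset.mul_sum, Finset.mul_sum, ← Finset.sum_add_distrib]
  refine Finset.sum_congr rfl fun p _ => ?_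
  rw [Derivation.leibniz]
  simp only [smul_eq_mul, map_add, map_mul]
  ring

theorem dd_add {R σ : Type} [CommRing R] [Fintype σ] (P Q : MvPolynomial σ R) (c v : σ → R) :
    dd (P + Q) c v = dd P c v + dd Q c v := by
  unfold dd
  rw [← Finset.sum_add_distrib]
  refine Finset.sum_congr rfl fun p _ => ?_
  rw [map_add, map_add]
  ring

theorem dd_C {R σ : Type} [CommRing R] [Fintype σ] (a : R) (c v : σ → R) :
    dd (C a) c v = 0 := by
  unfold dd
  refine Finset.sum_eq_zero fun p _ => ?_
  rw [pderiv_C, map_zero, mul_zero]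

theorem dd_one {R σ : Type} [CommRing R] [Fintype σ] (c v : σ → R) :
    dd (1 : MvPolynomial σ R) c v = 0 := by
  rw [← C_1]
  exact dd_C _ _ _

theorem dd_vadd {R σ : Type} [CommRing R] [Fintype σ] (P : MvPolynomial σ R) (c v w : σ → R) :
    dd P c (v + w) = dd P c v + dd P c w := by
  unfold dd
  rw [← Finset.sum_add_distrib]
  refine Finset.sum_congr rfl fun p _ => ?_
  rw [Pi.add_apply]
  ring

theorem dd_vsmul {R σ : Type} [CommRing R] [Fintype σ] (P : MvPolynomial σ R) (c v : σ → R)
    (r : R) : dd P c (r • v) = r * dd P c v := by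
  unfold dd
  rw [Finset.mul_sum]
  refine Finset.sum_congr rfl fun p _ => ?_
  rw [Pi.smul_apply, smul_eq_mul]
  ring

theorem dd_pow_zero {R σ : Type} [CommRing R] [Fintype σ] (P : MvPolynomial σ R) (c v : σ → R)
    (h : dd P c v = 0) (j : ℕ) : dd (P ^ j) c v = 0 := by
  induction j with
  | zero => rw [pow_zero]; exact dd_one _ _
  | succ j ih => rw [pow_succ, dd_mul, h, ih, mul_zero, mul_zero, add_zero]

theorem qq_mul (c v : Ix N d → k) (P Q : SS k N d) :
    qq c v (P * Q) = aeval (orb c) P * qq c v Q + aeval (orb c) Q * qq c v P := by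
  unfold qq
  rw [Finset.mul_sum, Finset.mul_sum, ← Finset.sum_add_distrib]
  refine Finset.sum_congr rfl fun p _ => ?_
  rw [Derivation.leibniz]
  simp only [smul_eq_mul, map_add, map_mul]
  ring

variable [IsAlgClosed k] [CharZero k]

theorem compT_inv {B : Matrix (Fin (N + 1)) (Fin (N + 1)) k} (hB : B.det ≠ 0) (U : SS k N d) :
    compT B (compT B⁻¹ U) = U := by
  have hinf : Infinite k := inferInstance
  apply MvPolynomial.funext
  intro c
  rw [eval_compT, eval_compT, actT_actT, Matrix.mul_nonsing_inv _ (isUnit_iff_ne_zero.mpr hB),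
    actT_one]

/-- Nondegeneracy of the averaging pairing on the coordinate ring of an orbit. -/
theorem ortho (hd : 2 ≤ d) {s : Ix N d → k} (hs : NZ (tup s)) {w : ℕ} {R : SS k N d}
    (hR : IsSemi w R) (hRs : eval s R ≠ 0) (hRv : ∀ c, eval c R ≠ 0 → NZ (tup c))
    (P : SS k N d)
    (h : ∀ (U : SS k N d) (j : ℕ), rho (w * j) (aeval (orb s) (U * P)) = 0) :
    aeval (orb s) P = 0 := by
  have hinf : Infinite k := inferInstance
  by_contra hP
  let T : Set (SS k N d) := {V | aeval (orb s) V = 0} ∪
    {V | ∃ B : Matrix (Fin (N + 1)) (Fin (N + 1)) k, B.det ≠ 0 ∧ V = compT B P}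
  have hrad : R ∈ (Ideal.span T).radical := by
    rw [← vanishingIdeal_zeroLocus_eq_radical (K := k), mem_vanishingIdeal_iff]
    intro c hc
    have hc' : ∀ V ∈ T, eval c V = 0 := by
      intro V hV
      have := (mem_zeroLocus_iff.mp hc) V (Ideal.subset_span hV)
      rw [← coe_aeval_eq_eval]
      exact this
    have goal : eval c R = 0 := by
      by_contra hne
      obtain ⟨A, hA, hAc⟩ := closed_GL hd hs c (hRv c hne) (by
        intro V hV
        apply hc'
        left
        apply poly_ext
        intro A hA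
        rw [eval_aeval_orb, map_zero]
        exact hV A hA)
      apply hP
      apply poly_ext
      intro M hM
      rw [eval_aeval_orb, map_zero]
      have hAu : IsUnit A.det := isUnit_iff_ne_zero.mpr hA
      have h1 := hc' (compT (A⁻¹ * M) P) (Or.inr ⟨A⁻¹ * M, by
        rw [Matrix.det_mul, Matrix.det_nonsing_inv, Ring.inverse_eq_inv']
        exact mul_ne_zero (inv_ne_zero hA) hM, rfl⟩)
      rw [eval_compT, ← hAc, actT_actT, ← mul_assoc, Matrix.mul_nonsing_inv _ hAu, one_mul] at h1
      exact h1
    rw [← coe_aeval_eq_eval] at goal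
    exact goal
  obtain ⟨j, hj⟩ := hrad
  have key : ∀ b ∈ Ideal.span T, ∀ i : ℕ, rho (w * i) (aeval (orb s) b) = 0 := by
    intro b hb
    refine Submodule.span_induction (p := fun b _ => ∀ (U : SS k N d) (i : ℕ),
      rho (w * i) (aeval (orb s) (U * b)) = 0) ?_ ?_ ?_ ?_ hb |> fun h => fun i => by
        have := h 1 i
        rwa [one_mul] at this
    · rintro V (hV | ⟨B, hB, rfl⟩) U i
      · rw [map_mul, hV, mul_zero, rho_zero]
      · rw [← compT_inv hB U, ← map_mul, ← Rsub_aeval_orb, rho_Rsub, h, mul_zero]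
    · intro U i
      rw [mul_zero, map_zero, rho_zero]
    · intro x y _ _ hx hy U i
      rw [mul_add, map_add, rho_add, hx, hy, add_zero]
    · intro a x _ hx U i
      rw [smul_eq_mul, ← mul_assoc]
      exact hx _ i
  have h1 := key _ hj j
  have h2 : aeval (orb s) (R ^ j) = C (eval s R ^ j) * dt (N + 1) k ^ (w * j) := by
    apply poly_ext
    intro A _
    rw [eval_aeval_orb, hR.pow j A s, map_mul, eval_C, map_pow, map_pow, eval_dt, mul_comm]
  rw [h2, rho_smul, rho_dt, mul_one] at h1
  exact pow_ne_zero _ hRs h1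

end

end Pool.Agent.NH60
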