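import Pool.Agent.NH60.Conv2

/-!
Automorphism groups and stabilisers.
-/

open MvPolynomial

namespace Pool.Agent.NH60

open Pool.Agent.Helper819.Apolar Pool.Agent.Helper819.Dyn Sing

noncomputable section

set_option linter.unusedSectionVars false

variable {k : Type} [Field k] {N d : ℕ}

theorem scalar_eq (a : k) : Matrix.scalar (Fin (N + 1)) a =
    a • (1 : Matrix (Fin (N + 1)) (Fin (N + 1)) k) := by
  ext i j
  rw [Matrix.scalar_apply, Matrix.smul_apply]
  by_cases h : i = j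
  · rw [h, Matrix.diagonal_apply_eq, Matrix.one_apply_eq, smul_eq_mul, mul_one]
  · rw [Matrix.diagonal_apply_ne _ h, Matrix.one_apply_ne h, smul_zero]

theorem mk_eq_one_iff (φ : GL (Fin (N + 1)) k) : Matrix.ProjGenLinGroup.mk φ = 1 ↔
    ∃ a : k, (φ : Matrix (Fin (N + 1)) (Fin (N + 1)) k) =
      a • (1 : Matrix (Fin (N + 1)) (Fin (N + 1)) k) := by
  rw [Matrix.ProjGenLinGroup.mk_eq_one,
    Matrix.GeneralLinearGroup.mem_center_iff_val_mem_range_scalar]
  constructor
  · rintro ⟨a, ha⟩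
    exact ⟨a, by rw [← scalar_eq]; exact ha.symm⟩
  · rintro ⟨a, ha⟩
    exact ⟨a, by rw [scalar_eq]; exact ha.symm⟩

variable [IsAlgClosed k]

theorem autGroup_iff (hd : 2 ≤ d) (F : EndTuple k N d) : autGroup F ≠ ⊥ ↔ ¬ Triv (cfE F) := by
  have hinf : Infinite k := IsAlgClosed.instInfinite
  rw [not_triv_iff]
  constructor
  · intro h
    obtain ⟨g, hg, hg1⟩ : ∃ g ∈ autGroup F, g ≠ 1 := by
      by_contra hcon
      push Not at hcon
      apply h
      rw [eq_bot_iff]
      intro g hg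
      exact Subgroup.mem_bot.mpr (hcon g hg)
    obtain ⟨φ, rfl, c, hc⟩ := hg
    have hdet : (φ : Matrix (Fin (N + 1)) (Fin (N + 1)) k).det ≠ 0 :=
      ((Matrix.isUnit_iff_isUnit_det _).mp φ.isUnit).ne_zero
    obtain ⟨a, ha⟩ := IsAlgClosed.exists_pow_nat_eq
      (((φ : Matrix (Fin (N + 1)) (Fin (N + 1)) k).det * (c : k))⁻¹)
      (by omega : 0 < N + d)
    have hdc : (φ : Matrix (Fin (N + 1)) (Fin (N + 1)) k).det * (c : k) ≠ 0 :=
      mul_ne_zero hdet c.ne_zero
    have ha0 : a ≠ 0 := by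
      rintro rfl
      rw [zero_pow (by omega)] at ha
      exact inv_ne_zero hdc ha.symm
    refine ⟨a • (φ : Matrix (Fin (N + 1)) (Fin (N + 1)) k), ?_, ?_, ?_⟩
    · rw [Matrix.det_smul]
      exact mul_ne_zero (pow_ne_zero _ ha0) hdet
    · rw [actT_smul_mat, ha]
      have h1 : actT (φ : Matrix (Fin (N + 1)) (Fin (N + 1)) k) (cfE F) =
          ((φ : Matrix (Fin (N + 1)) (Fin (N + 1)) k).det * (c : k)) • cfE F := by
        unfold actT
        rw [tup_cfE]
        have h2 : act (φ : Matrix (Fin (N + 1)) (Fin (N + 1)) k) F.1 =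
            fun i => C ((φ : Matrix (Fin (N + 1)) (Fin (N + 1)) k).det * (c : k)) * F.1 i := by
          funext i
          rw [conj_eq_act, hc, C_mul, mul_assoc]
        rw [h2]
        funext p
        change coeff p.2.1 (C _ * F.1 p.1) = _
        rw [coeff_C_mul]
        rfl
      rw [h1, smul_smul, inv_mul_cancel₀ hdc, one_smul]
    · intro r hr
      apply hg1
      rw [mk_eq_one_iff]
      refine ⟨a⁻¹ * r, ?_⟩
      rw [← smul_smul, ← hr, smul_smul, inv_mul_cancel₀ ha0, one_smul]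
  · rintro ⟨A, hA, hAc, hAn⟩ hbot
    have hu : IsUnit A := (Matrix.isUnit_iff_isUnit_det A).mpr (isUnit_iff_ne_zero.mpr hA)
    obtain ⟨φ, hφ⟩ := hu
    have h1 : Matrix.ProjGenLinGroup.mk φ ∈ autGroup F := by
      refine ⟨φ, rfl, (Units.mk0 A.det hA)⁻¹, ?_⟩
      have h2 : act A F.1 = F.1 := by
        rw [← tup_cfE F, ← tup_actT, hAc]
      funext i
      have h3 := conj_eq_act φ F.1 i
      rw [hφ, h2] at h3
      rw [h3, ← mul_assoc, ← C_mul, Units.val_inv_eq_inv_val, Units.val_mk0,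
        inv_mul_cancel₀ hA, C_1, one_mul]
    rw [hbot, Subgroup.mem_bot, mk_eq_one_iff] at h1
    obtain ⟨a, ha⟩ := h1
    rw [hφ] at ha
    exact hAn a ha

end

end Pool.Agent.NH60
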