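import Pool.Agent.NH60.Cod

/-!
The ring of quotients of semi-invariants near a point.
-/

open MvPolynomial

namespace Pool.Agent.NH60

open Pool.Agent.Helper819.Apolar Pool.Agent.Helper819.Dyn

noncomputable section

set_option linter.unusedSectionVars false

variable {k : Type} [Field k] {N d : ℕ}

/-- admissible pairs at `f` -/
def Adm (f : Ix N d → k) (P Q : SS k N d) : Prop :=
  ∃ w, IsSemi w P ∧ IsSemi w Q ∧ eval f Q ≠ 0

theorem Adm.mul {f : Ix N d → k} {P Q P' Q' : SS k N d} (h : Adm f P Q) (h' : Adm f P' Q') :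
    Adm f (P * P') (Q * Q') := by
  obtain ⟨w, h1, h2, h3⟩ := h
  obtain ⟨w', h1', h2', h3'⟩ := h'
  exact ⟨w + w', h1.mul h1', h2.mul h2', by rw [map_mul]; exact mul_ne_zero h3 h3'⟩

theorem Adm.add {f : Ix N d → k} {P Q P' Q' : SS k N d} (h : Adm f P Q) (h' : Adm f P' Q') :
    Adm f (P * Q' + P' * Q) (Q * Q') := by
  obtain ⟨w, h1, h2, h3⟩ := h
  obtain ⟨w', h1', h2', h3'⟩ := h'
  refine ⟨w + w', (h1.mul h2').add ?_, h2.mul h2', by rw [map_mul]; exact mul_ne_zero h3 h3'⟩
  rw [add_comm w w']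
  exact h1'.mul h2

theorem Adm.const (f : Ix N d → k) (r : k) : Adm f (C r) (1 : SS k N d) := by
  refine ⟨0, ?_, IsSemi.one, ?_⟩
  · have := (IsSemi.one (k := k) (N := N) (d := d)).C_mul r
    rwa [mul_one] at this
  · rw [map_one]; exact one_ne_zero

theorem Adm.inv {f : Ix N d → k} {P Q : SS k N d} (h : Adm f P Q) (hP : eval f P ≠ 0) :
    Adm f Q P := by
  obtain ⟨w, h1, h2, _⟩ := h
  exact ⟨w, h2, h1, hP⟩

theorem Adm.compl {f : Ix N d → k} {P Q : SS k N d} (h : Adm f P Q) : Adm f (Q - P) Q := by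
  obtain ⟨w, h1, h2, h3⟩ := h
  exact ⟨w, h2.sub h1, h2, h3⟩

theorem Adm.ne_zero {f : Ix N d → k} {P Q : SS k N d} (h : Adm f P Q) : Q ≠ 0 := by
  rintro rfl
  obtain ⟨_, _, _, h3⟩ := h
  exact h3 (map_zero _)

theorem Adm.eval_ne {f : Ix N d → k} {P Q : SS k N d} (h : Adm f P Q) : eval f Q ≠ 0 := by
  obtain ⟨_, _, _, h3⟩ := h
  exact h3

/-- the field of rational functions -/
abbrev KK (k : Type) [Field k] (N d : ℕ) : Type := FractionRing (SS k N d)

/-- the embedding of polynomials -/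
abbrev em (k : Type) [Field k] (N d : ℕ) : SS k N d →+* KK k N d :=
  algebraMap (SS k N d) (KK k N d)

theorem em_inj : Function.Injective (em k N d) := IsFractionRing.injective _ _

theorem em_ne {Q : SS k N d} (hQ : Q ≠ 0) : em k N d Q ≠ 0 := by
  intro h
  apply hQ
  apply em_inj
  rw [h, map_zero]

/-- The ring of quotients of semi-invariants of equal weight with denominator nonvanishing
at `f`. -/
def BK (f : Ix N d → k) : Subalgebra k (KK k N d) where
  carrier := {x | ∃ P Q, Adm f P Q ∧ x * em k N d Q = em k N d P}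
  mul_mem' := by
    rintro a b ⟨P, Q, h, e⟩ ⟨P', Q', h', e'⟩
    refine ⟨P * P', Q * Q', h.mul h', ?_⟩
    rw [map_mul, map_mul, ← e, ← e']
    ring
  add_mem' := by
    rintro a b ⟨P, Q, h, e⟩ ⟨P', Q', h', e'⟩
    refine ⟨P * Q' + P' * Q, Q * Q', h.add h', ?_⟩
    rw [map_add, map_mul, map_mul, map_mul, ← e, ← e']
    ring
  algebraMap_mem' := by
    intro r
    refine ⟨C r, 1, Adm.const f r, ?_⟩
    rw [map_one, mul_one]
    exact IsScalarTower.algebraMap_apply k (SS k N d) (KK k N d) r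

/-- representation of an element by a pair -/
def Rep (f : Ix N d → k) (b : BK f) (P Q : SS k N d) : Prop :=
  Adm f P Q ∧ (b : KK k N d) * em k N d Q = em k N d P

theorem exists_rep {f : Ix N d → k} (b : BK f) : ∃ P Q, Rep f b P Q := b.2

theorem Rep.unique {f : Ix N d → k} {b : BK f} {P Q P' Q' : SS k N d} (h : Rep f b P Q)
    (h' : Rep f b P' Q') : P * Q' = P' * Q := by
  apply em_inj
  rw [map_mul, map_mul, ← h.2, ← h'.2]
  ring

theorem Rep.mul {f : Ix N d → k} {b b' : BK f} {P Q P' Q' : SS k N d} (h : Rep f b P Q)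
    (h' : Rep f b' P' Q') : Rep f (b * b') (P * P') (Q * Q') := by
  refine ⟨h.1.mul h'.1, ?_⟩
  rw [map_mul, map_mul, ← h.2, ← h'.2, Subalgebra.coe_mul]
  ring

theorem Rep.add {f : Ix N d → k} {b b' : BK f} {P Q P' Q' : SS k N d} (h : Rep f b P Q)
    (h' : Rep f b' P' Q') : Rep f (b + b') (P * Q' + P' * Q) (Q * Q') := by
  refine ⟨h.1.add h'.1, ?_⟩
  rw [map_add, map_mul, map_mul, map_mul, ← h.2, ← h'.2, Subalgebra.coe_add]
  ring

theorem Rep.const (f : Ix N d → k) (r : k) : Rep f (algebraMap k (BK f) r) (C r) 1 := by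
  refine ⟨Adm.const f r, ?_⟩
  rw [map_one, mul_one]
  exact IsScalarTower.algebraMap_apply k (SS k N d) (KK k N d) r

/-- the element of an admissible pair -/
def mk (f : Ix N d → k) (P Q : SS k N d) (h : Adm f P Q) : BK f :=
  ⟨em k N d P / em k N d Q, P, Q, h, div_mul_cancel₀ _ (em_ne h.ne_zero)⟩

theorem rep_mk (f : Ix N d → k) (P Q : SS k N d) (h : Adm f P Q) : Rep f (mk f P Q h) P Q :=
  ⟨h, div_mul_cancel₀ _ (em_ne h.ne_zero)⟩

theorem Rep.eq {f : Ix N d → k} {b b' : BK f} {P Q P' Q' : SS k N d} (h : Rep f b P Q)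
    (h' : Rep f b' P' Q') (e : P * Q' = P' * Q) : b = b' := by
  apply Subtype.ext
  have h1 := em_ne h.1.ne_zero
  have h2 := em_ne h'.1.ne_zero
  have h3 := congrArg (em k N d) e
  rw [map_mul, map_mul, ← h.2, ← h'.2] at h3
  apply mul_right_cancel₀ (mul_ne_zero h1 h2)
  linear_combination h3

theorem Rep.isUnit {f : Ix N d → k} {b : BK f} {P Q : SS k N d} (h : Rep f b P Q)
    (hP : eval f P ≠ 0) : IsUnit b := by
  have h1 := rep_mk f Q P (h.1.inv hP)
  refine IsUnit.of_mul_eq_one (mk f Q P (h.1.inv hP)) ?_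
  have h2 := Rep.const f (1 : k)
  rw [map_one, C_1] at h2
  exact (h.mul h1).eq h2 (by ring)

theorem Rep.isUnit_iff {f : Ix N d → k} {b : BK f} {P Q : SS k N d} (h : Rep f b P Q) :
    IsUnit b ↔ eval f P ≠ 0 := by
  constructor
  · intro hb hP
    obtain ⟨c, hc⟩ := hb.exists_right_inv
    obtain ⟨P', Q', h'⟩ := exists_rep c
    have h1 := h.mul h'
    rw [hc] at h1
    have h2 := Rep.const f (1 : k)
    rw [map_one, C_1] at h2
    have h3 := congrArg (eval f) (h1.unique h2)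
    simp only [map_mul, map_one, hP, zero_mul, one_mul] at h3
    exact mul_ne_zero h.1.eval_ne h'.1.eval_ne h3.symm
  · exact h.isUnit

instance (f : Ix N d → k) : IsLocalRing (BK f) := by
  apply IsLocalRing.of_isUnit_or_isUnit_one_sub_self
  intro a
  obtain ⟨P, Q, h⟩ := exists_rep a
  by_cases hP : eval f P = 0
  · right
    have h1 : Rep f (1 - a) (Q - P) Q := by
      refine ⟨h.1.compl, ?_⟩
      rw [map_sub, ← h.2, Subalgebra.coe_sub, Subalgebra.coe_one]
      ring
    apply h1.isUnit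
    rw [map_sub, hP, sub_zero]
    exact h.1.eval_ne
  · left
    exact h.isUnit hP

theorem Rep.mem_iff {f : Ix N d → k} {b : BK f} {P Q : SS k N d} (h : Rep f b P Q) :
    b ∈ IsLocalRing.maximalIdeal (BK f) ↔ eval f P = 0 := by
  rw [IsLocalRing.mem_maximalIdeal, mem_nonunits_iff, h.isUnit_iff, not_not]

theorem Rep.sub_const {f : Ix N d → k} {b : BK f} {P Q : SS k N d} (h : Rep f b P Q) :
    ∃ r : k, b - algebraMap k (BK f) r ∈ IsLocalRing.maximalIdeal (BK f) := by
  refine ⟨eval f P / eval f Q, ?_⟩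
  have h1 : Rep f (b - algebraMap k (BK f) (eval f P / eval f Q))
      (P * 1 + C (-(eval f P / eval f Q)) * Q) (Q * 1) := by
    rw [sub_eq_add_neg, ← map_neg]
    exact h.add (Rep.const f _)
  rw [h1.mem_iff]
  simp only [map_add, map_mul, mul_one, eval_C]
  have := h.1.eval_ne
  field_simp
  ring

end

end Pool.Agent.NH60
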