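import Mathlib

/-!
# Polynomial vector fields: the algebra of the integrability conditions
-/

set_option autoImplicit false

namespace Pool.Agent.NH60.Cen

open MvPolynomial

noncomputable section

variable {R : Type*} [CommRing R]

/-- the maximal ideal of the origin -/
abbrev mI (R : Type*) [CommRing R] : Ideal (MvPolynomial (Fin 2) R) := idealOfVars (Fin 2) R

/-- the derivation `P ∂₀ + Q ∂₁` as a linear map -/
def VL (P Q : MvPolynomial (Fin 2) R) : MvPolynomial (Fin 2) R →ₗ[R] MvPolynomial (Fin 2) R :=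
  ((P • pderiv 0 + Q • pderiv 1 : Derivation R (MvPolynomial (Fin 2) R) (MvPolynomial (Fin 2) R)) :
    MvPolynomial (Fin 2) R →ₗ[R] MvPolynomial (Fin 2) R)

theorem VL_apply (P Q f : MvPolynomial (Fin 2) R) : VL P Q f = P * pderiv 0 f + Q * pderiv 1 f := by
  simp [VL]

theorem VL_mul (P Q f g : MvPolynomial (Fin 2) R) : VL P Q (f * g) = f * VL P Q g + g * VL P Q f := by
  simp only [VL_apply, pderiv_mul]; ring

theorem VL_pow (P Q f : MvPolynomial (Fin 2) R) (k : ℕ) :
    VL P Q (f ^ (k + 1)) = ((k + 1 : ℕ) : MvPolynomial (Fin 2) R) * f ^ k * VL P Q f := by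
  simp only [VL_apply, pderiv_pow]
  simp only [Nat.add_sub_cancel]
  ring

theorem degree_two (m : Fin 2 →₀ ℕ) : m.degree = m 0 + m 1 := by
  rw [Finsupp.degree_eq_sum, Fin.sum_univ_two]

theorem mem_mI_pow (k : ℕ) (f : MvPolynomial (Fin 2) R) :
    f ∈ mI R ^ k ↔ ∀ m : Fin 2 →₀ ℕ, m 0 + m 1 < k → f.coeff m = 0 := by
  rw [mem_pow_idealOfVars_iff']
  simp only [degree_two]

theorem pderiv_mem {k : ℕ} {f : MvPolynomial (Fin 2) R} (hf : f ∈ mI R ^ (k + 1)) (i : Fin 2) :
    pderiv i f ∈ mI R ^ k := by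
  rw [mem_mI_pow] at hf ⊢
  intro m hm
  rw [coeff_pderiv, hf, zero_mul]
  fin_cases i
  · simp; omega
  · simp; omega

theorem VL_mem {P Q : MvPolynomial (Fin 2) R} {j k : ℕ} (hP : P ∈ mI R ^ (j + 1)) (hQ : Q ∈ mI R ^ (j + 1))
    {f : MvPolynomial (Fin 2) R} (hf : f ∈ mI R ^ k) : VL P Q f ∈ mI R ^ (k + j) := by
  rw [VL_apply]
  rcases Nat.eq_zero_or_pos k with hk | hk
  · subst hk
    have h1 : mI R ^ (j + 1) ≤ mI R ^ (0 + j) := Ideal.pow_le_pow_right (by omega)
    exact add_mem (Ideal.mul_mem_right _ _ (h1 hP)) (Ideal.mul_mem_right _ _ (h1 hQ))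
  · obtain ⟨k, rfl⟩ := Nat.exists_eq_add_of_le' hk
    have h1 : k + 1 + j = (j + 1) + k := by ring
    rw [h1, pow_add]
    exact add_mem (Ideal.mul_mem_mul hP (pderiv_mem hf 0)) (Ideal.mul_mem_mul hQ (pderiv_mem hf 1))

/-- intertwining of polynomial expressions in operators -/
theorem aeval_intertwine {S : Type*} [CommRing S] {M N : Type*} [AddCommGroup M] [Module R M] [AddCommGroup N]
    [Module S N] (φ : R →+* S) (T : M →+ N) (hT : ∀ (r : R) (x : M), T (r • x) = φ r • T x)
    (A : Module.End R M) (B : Module.End S N) (hAB : ∀ x, T (A x) = B (T x)) (ψ : Polynomial R) (x : M) :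
    T (Polynomial.aeval A ψ x) = Polynomial.aeval B (ψ.map φ) (T x) := by
  have hpow : ∀ (n : ℕ) (x : M), T ((A ^ n) x) = (B ^ n) (T x) := by
    intro n
    induction n with
    | zero => intro x; simp
    | succ n ih => intro x; rw [pow_succ, pow_succ, Module.End.mul_apply, Module.End.mul_apply, ih, hAB]
  induction ψ using Polynomial.induction_on' with
  | add p q hp hq =>
    rw [map_add, Polynomial.map_add, map_add, LinearMap.add_apply, LinearMap.add_apply, map_add, hp, hq]
  | monomial n a =>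
    rw [Polynomial.map_monomial, Polynomial.aeval_monomial, Polynomial.aeval_monomial,
      Module.algebraMap_end_eq_smul_id, Module.algebraMap_end_eq_smul_id, Module.End.mul_apply,
      Module.End.mul_apply, LinearMap.smul_apply, LinearMap.smul_apply, LinearMap.id_apply,
      LinearMap.id_apply, hT, hpow]

/-- the polynomial `∏ (X² + (m+1)² J)` -/
def psi1 (J : R) (n : ℕ) : Polynomial R :=
  ∏ m ∈ Finset.range n, (Polynomial.X ^ 2 + Polynomial.C (((m : R) + 1) ^ 2 * J))

/-- the polynomial `X ∏ (X² + (m+1)² J)^n` -/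
def psi (J : R) (n : ℕ) : Polynomial R := Polynomial.X * psi1 J n ^ n

theorem psi1_map {S : Type*} [CommRing S] (φ : R →+* S) (J : R) (n : ℕ) : (psi1 J n).map φ = psi1 (φ J) n := by
  simp [psi1, Polynomial.map_prod]

theorem psi_map {S : Type*} [CommRing S] (φ : R →+* S) (J : R) (n : ℕ) : (psi J n).map φ = psi (φ J) n := by
  simp [psi, psi1_map]

/-- the integrability operator of order `n` -/
def Psi (P Q : MvPolynomial (Fin 2) R) (J : R) (n : ℕ) (f : MvPolynomial (Fin 2) R) : MvPolynomial (Fin 2) R :=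
  Polynomial.aeval (VL P Q) (psi J n) f

/-- functoriality of the integrability operator -/
theorem Psi_map {S : Type*} [CommRing S] (φ : R →+* S) (P Q : MvPolynomial (Fin 2) R) (J : R) (n : ℕ)
    (f : MvPolynomial (Fin 2) R) : map φ (Psi P Q J n f) = Psi (map φ P) (map φ Q) (φ J) n (map φ f) := by
  unfold Psi
  rw [← psi_map]
  refine aeval_intertwine φ (map φ : MvPolynomial (Fin 2) R →+* MvPolynomial (Fin 2) S).toAddMonoidHom ?_ _ _ ?_ _ f
  · intro r x
    simp [smul_eq_C_mul]
  · intro x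
    simp [VL_apply, pderiv_map]

/-- the coefficients of the integrability conditions -/
def GG (P Q : MvPolynomial (Fin 2) R) (J : R) (n : ℕ) (b m : Fin 2 →₀ ℕ) : R :=
  (Psi P Q J n (monomial b 1)).coeff m

theorem GG_map {S : Type*} [CommRing S] (φ : R →+* S) (P Q : MvPolynomial (Fin 2) R) (J : R) (n : ℕ)
    (b m : Fin 2 →₀ ℕ) : φ (GG P Q J n b m) = GG (map φ P) (map φ Q) (φ J) n b m := by
  unfold GG
  rw [← coeff_map, Psi_map, map_monomial, map_one]

end

end Pool.Agent.NH60.Cen
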