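import Mathlib

/-!
# Banach algebra of functions on the closed bidisc, averaging operators along the circle action
-/

set_option autoImplicit false

namespace Pool.Agent.NH60.Cen

open Complex MeasureTheory Topology Filter Set

noncomputable section

/-- the affine plane -/
abbrev E2 : Type := Fin 2 → ℂ
/-- the closed bidisc -/
abbrev KK : Type := ↥(Metric.closedBall (0 : E2) 1)

instance : CompactSpace KK := isCompact_iff_compactSpace.1 (isCompact_closedBall _ _)

/-- continuous functions on the closed bidisc -/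
abbrev CC : Type := C(KK, ℂ)

theorem mem_KK {z : E2} : z ∈ Metric.closedBall (0 : E2) 1 ↔ ‖z 0‖ ≤ 1 ∧ ‖z 1‖ ≤ 1 := by
  rw [mem_closedBall_zero_iff, pi_norm_le_iff_of_nonneg zero_le_one, Fin.forall_fin_two]

/-- the circle action -/
def rot (θ : ℝ) (z : E2) : E2 := ![exp (θ * I) * z 0, exp (-(θ * I)) * z 1]

@[simp] theorem rot_zero' (θ : ℝ) (z : E2) : rot θ z 0 = exp (θ * I) * z 0 := rfl
@[simp] theorem rot_one' (θ : ℝ) (z : E2) : rot θ z 1 = exp (-(θ * I)) * z 1 := rfl

theorem norm_e (θ : ℝ) : ‖exp (θ * I)‖ = 1 := norm_exp_ofReal_mul_I θ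
theorem norm_e' (θ : ℝ) : ‖exp (-(θ * I))‖ = 1 := by
  have := norm_exp_ofReal_mul_I (-θ)
  rwa [ofReal_neg, neg_mul] at this

theorem rot_mem (θ : ℝ) {z : E2} (hz : z ∈ Metric.closedBall (0 : E2) 1) :
    rot θ z ∈ Metric.closedBall (0 : E2) 1 := by
  rw [mem_KK] at hz ⊢
  simpa [norm_e, norm_e'] using hz

theorem norm_rot (θ : ℝ) (z : E2) : ‖rot θ z‖ = ‖z‖ := by
  simp only [Pi.norm_def]
  congr 1
  apply Finset.sup_congr rfl
  intro i _
  apply NNReal.eq
  fin_cases i
  · simp [rot, norm_e]
  · simp [rot, norm_e']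

@[simp] theorem rot_at_zero (z : E2) : rot 0 z = z := by
  ext i; fin_cases i <;> simp [rot]

theorem rot_continuous : Continuous (fun q : ℝ × E2 => rot q.1 q.2) := by
  unfold rot
  refine continuous_pi fun i => ?_
  fin_cases i
  · simp only [Fin.zero_eta, Matrix.cons_val_zero]
    fun_prop
  · simp only [Fin.mk_one, Matrix.cons_val_one]
    fun_prop

/-- the circle action on the closed bidisc -/
def rotK (θ : ℝ) (z : KK) : KK := ⟨rot θ z.1, rot_mem θ z.2⟩

theorem rotK_continuous : Continuous (fun q : ℝ × KK => rotK q.1 q.2) := by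
  refine Continuous.subtype_mk ?_ _
  exact rot_continuous.comp (continuous_fst.prodMk (continuous_subtype_val.comp continuous_snd))

/-- averaging operator with kernel `k` -/
def avgF (k : ℝ → ℂ) (hk : Continuous k) (a : CC) : CC where
  toFun z := ((2 * Real.pi : ℝ) : ℂ)⁻¹ * ∫ θ in (0 : ℝ)..(2 * Real.pi), k θ * a (rotK θ z)
  continuous_toFun := by
    refine continuous_const.mul ?_
    apply intervalIntegral.continuous_parametric_intervalIntegral_of_continuous' 
    refine (hk.comp continuous_snd).mul (a.continuous.comp ?_)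
    exact rotK_continuous.comp (continuous_snd.prodMk continuous_fst)

theorem avgF_apply (k : ℝ → ℂ) (hk : Continuous k) (a : CC) (z : KK) :
    avgF k hk a z = ((2 * Real.pi : ℝ) : ℂ)⁻¹ * ∫ θ in (0 : ℝ)..(2 * Real.pi), k θ * a (rotK θ z) := rfl

theorem integrable_aux (k : ℝ → ℂ) (hk : Continuous k) (a : CC) (z : KK) :
    IntervalIntegrable (fun θ => k θ * a (rotK θ z)) volume 0 (2 * Real.pi) := by
  apply Continuous.intervalIntegrable
  exact hk.mul (a.continuous.comp (rotK_continuous.comp (continuous_id.prodMk continuous_const)))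

/-- averaging operator as a continuous linear map -/
def avg (k : ℝ → ℂ) (hk : Continuous k) : CC →L[ℂ] CC :=
  LinearMap.mkContinuousOfExistsBound
    { toFun := avgF k hk
      map_add' := by
        intro a b
        ext z
        simp only [avgF_apply, ContinuousMap.add_apply]
        rw [← mul_add, ← intervalIntegral.integral_add (integrable_aux k hk a z) (integrable_aux k hk b z)]
        congr 1
        apply intervalIntegral.integral_congr
        intro θ _
        simp only [mul_add]
      map_smul' := by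
        intro c a
        ext z
        simp only [avgF_apply, ContinuousMap.smul_apply, smul_eq_mul, RingHom.id_apply]
        have h : (∫ θ in (0 : ℝ)..(2 * Real.pi), k θ * (c * a (rotK θ z))) =
            c * ∫ θ in (0 : ℝ)..(2 * Real.pi), k θ * a (rotK θ z) := by
          rw [← intervalIntegral.integral_const_mul]
          apply intervalIntegral.integral_congr
          intro θ _
          simp only
          ring
        rw [h]
        ring }
    (by
      obtain ⟨M, hM⟩ := (isCompact_Icc (a := (0 : ℝ)) (b := 2 * Real.pi)).exists_bound_of_continuousOn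
        hk.continuousOn
      refine ⟨|M|, fun a => ?_⟩
      rw [ContinuousMap.norm_le _ (by positivity)]
      intro z
      change ‖avgF k hk a z‖ ≤ _
      rw [avgF_apply, norm_mul]
      have h1 : ‖∫ θ in (0 : ℝ)..(2 * Real.pi), k θ * a (rotK θ z)‖ ≤ |M| * ‖a‖ * |2 * Real.pi - 0| := by
        apply intervalIntegral.norm_integral_le_of_norm_le_const
        intro θ hθ
        rw [norm_mul]
        have h2 : θ ∈ Icc (0 : ℝ) (2 * Real.pi) := by
          rw [uIoc_of_le (by positivity)] at hθ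
          exact Ioc_subset_Icc_self hθ
        exact mul_le_mul ((hM θ h2).trans (le_abs_self M)) (a.norm_coe_le_norm _) (norm_nonneg _)
          (abs_nonneg _)
      have h3 : ‖((2 * Real.pi : ℝ) : ℂ)⁻¹‖ = (2 * Real.pi)⁻¹ := by
        rw [norm_inv, norm_real, Real.norm_of_nonneg (by positivity)]
      rw [h3]
      have h4 : |2 * Real.pi - 0| = 2 * Real.pi := by
        rw [sub_zero, abs_of_pos (by positivity)]
      rw [h4] at h1
      calc (2 * Real.pi)⁻¹ * ‖∫ θ in (0 : ℝ)..(2 * Real.pi), k θ * a (rotK θ z)‖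
          ≤ (2 * Real.pi)⁻¹ * (|M| * ‖a‖ * (2 * Real.pi)) := by gcongr
        _ = |M| * ‖a‖ := by
          have : (2 * Real.pi) ≠ 0 := by positivity
          field_simp)

theorem avg_apply (k : ℝ → ℂ) (hk : Continuous k) (a : CC) (z : KK) :
    avg k hk a z = ((2 * Real.pi : ℝ) : ℂ)⁻¹ * ∫ θ in (0 : ℝ)..(2 * Real.pi), k θ * a (rotK θ z) := rfl

/-- first coordinate -/
def UU : CC := ⟨fun z => z.1 0, (continuous_apply 0).comp continuous_subtype_val⟩
/-- second coordinate -/
def WW : CC := ⟨fun z => z.1 1, (continuous_apply 1).comp continuous_subtype_val⟩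

@[simp] theorem UU_apply (z : KK) : UU z = z.1 0 := rfl
@[simp] theorem WW_apply (z : KK) : WW z = z.1 1 := rfl

/-- a Fourier coefficient of the kernel -/
def kc (k : ℝ → ℂ) (j : ℤ) : ℂ :=
  ((2 * Real.pi : ℝ) : ℂ)⁻¹ * ∫ θ in (0 : ℝ)..(2 * Real.pi), k θ * exp (j * (θ * I))

theorem mon_rot (m n : ℕ) (θ : ℝ) (z : KK) :
    (UU ^ m * WW ^ n) (rotK θ z) = exp (((m : ℤ) - n : ℤ) * (θ * I)) * (UU ^ m * WW ^ n) z := by
  simp only [ContinuousMap.mul_apply, ContinuousMap.pow_apply, UU_apply, WW_apply, rotK, rot_zero',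
    rot_one', mul_pow, ← Complex.exp_nat_mul]
  push_cast
  rw [show ((m : ℂ) - n) * (θ * I) = m * (θ * I) + n * (-(θ * I)) by ring, Complex.exp_add]
  ring

theorem avg_mon (k : ℝ → ℂ) (hk : Continuous k) (m n : ℕ) :
    avg k hk (UU ^ m * WW ^ n) = kc k ((m : ℤ) - n) • (UU ^ m * WW ^ n) := by
  ext z
  rw [avg_apply, ContinuousMap.smul_apply, smul_eq_mul, kc, mul_assoc, ← intervalIntegral.integral_mul_const]
  congr 1
  apply intervalIntegral.integral_congr
  intro θ _
  simp only [mon_rot]
  ring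

/-! ## The kernels -/

theorem int_e (j : ℤ) : (∫ θ in (0 : ℝ)..(2 * Real.pi), exp (j * (θ * I))) =
    if j = 0 then ((2 * Real.pi : ℝ) : ℂ) else 0 := by
  split_ifs with h
  · subst h
    simp
  · have h1 : (j : ℂ) * I ≠ 0 := mul_ne_zero (by exact_mod_cast h) I_ne_zero
    have h2 : (∫ θ in (0 : ℝ)..(2 * Real.pi), exp (j * (θ * I))) =
        ∫ θ in (0 : ℝ)..(2 * Real.pi), exp ((j * I) * θ) := by
      apply intervalIntegral.integral_congr
      intro θ _
      simp only
      congr 1; ring
    rw [h2, integral_exp_mul_complex h1]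
    have h3 : exp (j * I * ((2 * Real.pi : ℝ) : ℂ)) = 1 := by
      rw [Complex.exp_eq_one_iff]
      exact ⟨j, by push_cast; ring⟩
    rw [h3]
    simp

theorem int_te (j : ℤ) (h : j ≠ 0) : (∫ θ in (0 : ℝ)..(2 * Real.pi), (θ : ℂ) * exp (j * (θ * I))) =
    ((2 * Real.pi : ℝ) : ℂ) / (j * I) := by
  have h1 : (j : ℂ) * I ≠ 0 := mul_ne_zero (by exact_mod_cast h) I_ne_zero
  have hF : ∀ θ : ℝ, HasDerivAt (fun θ : ℝ => (θ : ℂ) * exp (j * (θ * I)) / (j * I) -
      exp (j * (θ * I)) / (j * I) ^ 2) ((θ : ℂ) * exp (j * (θ * I))) θ := by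
    intro θ
    have e0 : HasDerivAt (fun θ : ℝ => (θ : ℂ)) 1 θ := Complex.ofRealCLM.hasDerivAt
    have e1 : HasDerivAt (fun θ : ℝ => exp (j * (θ * I))) (exp (j * (θ * I)) * (j * (1 * I))) θ := by
      exact ((e0.mul_const I).const_mul (j : ℂ)).cexp
    have e2 := ((e0.mul e1).div_const ((j : ℂ) * I)).sub (e1.div_const (((j : ℂ) * I) ^ 2))
    refine e2.congr_deriv ?_
    field_simp
    ring
  rw [intervalIntegral.integral_eq_sub_of_hasDerivAt (fun θ _ => hF θ)
    (Continuous.intervalIntegrable (by fun_prop) _ _)]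
  have h3 : exp (j * (((2 * Real.pi : ℝ) : ℂ) * I)) = 1 := by
    rw [Complex.exp_eq_one_iff]
    exact ⟨j, by push_cast; ring⟩
  rw [h3]
  simp

theorem kc_shift (c : ℝ → ℂ) (n j : ℤ) : kc (fun θ => c θ * exp (n * (θ * I))) j = kc c (n + j) := by
  unfold kc
  congr 1
  apply intervalIntegral.integral_congr
  intro θ _
  simp only
  rw [mul_assoc, ← Complex.exp_add]
  congr 2
  push_cast
  ring

theorem kc_one (j : ℤ) : kc (fun _ => 1) j = if j = 0 then 1 else 0 := by
  unfold kc
  simp only [one_mul]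
  rw [int_e]
  split_ifs
  · apply inv_mul_cancel₀
    exact_mod_cast (by positivity : (2 * Real.pi : ℝ) ≠ 0)
  · simp

theorem kc_saw (j : ℤ) : kc (fun θ => (θ - Real.pi) * I) j = if j = 0 then 0 else (j : ℂ)⁻¹ := by
  unfold kc
  have hpi : (Real.pi : ℂ) ≠ 0 := by exact_mod_cast Real.pi_ne_zero
  have h0 : (∫ θ in (0 : ℝ)..(2 * Real.pi), ((θ : ℂ) - Real.pi) * I * exp (j * (θ * I))) =
      I * (∫ θ in (0 : ℝ)..(2 * Real.pi), (θ : ℂ) * exp (j * (θ * I))) -
      Real.pi * I * ∫ θ in (0 : ℝ)..(2 * Real.pi), exp (j * (θ * I)) := by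
    rw [← intervalIntegral.integral_const_mul, ← intervalIntegral.integral_const_mul,
      ← intervalIntegral.integral_sub (Continuous.intervalIntegrable (by fun_prop) _ _)
        (Continuous.intervalIntegrable (by fun_prop) _ _)]
    apply intervalIntegral.integral_congr
    intro θ _
    simp only
    ring
  rw [h0, int_e]
  split_ifs with h
  · subst h
    have h2 : (∫ θ in (0 : ℝ)..(2 * Real.pi), (θ : ℂ) * exp ((0 : ℤ) * (θ * I))) =
        ((2 * Real.pi ^ 2 : ℝ) : ℂ) := by
      have : (∫ θ in (0 : ℝ)..(2 * Real.pi), (θ : ℂ) * exp ((0 : ℤ) * (θ * I))) =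
        ∫ θ in (0 : ℝ)..(2 * Real.pi), ((θ : ℝ) : ℂ) := by
        apply intervalIntegral.integral_congr
        intro θ _
        simp
      rw [this, intervalIntegral.integral_ofReal, integral_id]
      push_cast
      ring
    rw [h2]
    push_cast
    ring_nf
  · rw [int_te j h]
    have hj : (j : ℂ) ≠ 0 := by exact_mod_cast h
    push_cast
    have hI : I ≠ 0 := I_ne_zero
    field_simp
    simp

end

end Pool.Agent.NH60.Cen
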