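import Mathlib
import Pool.Agent.NH60.CenOps

/-!
# The bidisc algebra and the operators on it
-/

set_option autoImplicit false

namespace Pool.Agent.NH60.Cen

open Complex MeasureTheory Topology Filter Set

noncomputable section

/-- the polynomial subalgebra -/
def Pol : Subalgebra ℂ CC := Algebra.adjoin ℂ {UU, WW}

/-- the bidisc algebra -/
def BA : Subalgebra ℂ CC := Pol.topologicalClosure

theorem mem_Pol_iff (a : CC) : a ∈ Pol ↔ a ∈ Submodule.span ℂ (Set.range fun q : ℕ × ℕ => UU ^ q.1 * WW ^ q.2) := by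
  have h1 : (Submonoid.closure ({UU, WW} : Set CC) : Set CC) = Set.range fun q : ℕ × ℕ => UU ^ q.1 * WW ^ q.2 := by
    ext x
    rw [SetLike.mem_coe, Submonoid.mem_closure_pair]
    constructor
    · rintro ⟨m, n, h⟩; exact ⟨(m, n), h⟩
    · rintro ⟨⟨m, n⟩, h⟩; exact ⟨m, n, h⟩
  unfold Pol
  rw [← Subalgebra.mem_toSubmodule, Algebra.adjoin_eq_span, h1]

theorem mon_mem_Pol (m n : ℕ) : UU ^ m * WW ^ n ∈ Pol :=
  mul_mem (pow_mem (Algebra.subset_adjoin (by simp)) _) (pow_mem (Algebra.subset_adjoin (by simp)) _)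

theorem Pol_le_BA : Pol ≤ BA := Subalgebra.le_topologicalClosure _

theorem mon_mem (m n : ℕ) : UU ^ m * WW ^ n ∈ BA := Pol_le_BA (mon_mem_Pol m n)

theorem BA_closed : IsClosed (BA : Set CC) := Subalgebra.isClosed_topologicalClosure _

/-- induction principle: a closed linear condition holding on monomials holds on the bidisc algebra -/
theorem BA_induction {P : CC → Prop} (hc : IsClosed {a | P a}) (hm : ∀ m n : ℕ, P (UU ^ m * WW ^ n))
    (h0 : P 0) (hadd : ∀ a b, P a → P b → P (a + b)) (hsmul : ∀ (c : ℂ) a, P a → P (c • a))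
    {a : CC} (ha : a ∈ BA) : P a := by
  have h1 : (Pol : Set CC) ⊆ {a | P a} := by
    intro x hx
    rw [SetLike.mem_coe, mem_Pol_iff] at hx
    induction hx using Submodule.span_induction with
    | mem x hx => obtain ⟨q, rfl⟩ := hx; exact hm _ _
    | zero => exact h0
    | add x y _ _ hx hy => exact hadd _ _ hx hy
    | smul c x _ hx => exact hsmul _ _ hx
  exact closure_minimal h1 hc ha

/-- equality of continuous linear maps on the bidisc algebra -/
theorem BA_eq {F : Type*} [NormedAddCommGroup F] [NormedSpace ℂ F] {S T : CC →L[ℂ] F}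
    (hm : ∀ m n : ℕ, S (UU ^ m * WW ^ n) = T (UU ^ m * WW ^ n)) {a : CC} (ha : a ∈ BA) : S a = T a := by
  refine BA_induction (P := fun a => S a = T a) ?_ hm (by simp) ?_ ?_ ha
  · exact isClosed_eq S.continuous T.continuous
  · intro a b h1 h2; rw [map_add, map_add, h1, h2]
  · intro c a h; rw [map_smul, map_smul, h]

/-- a continuous linear map sending monomials to the bidisc algebra preserves it -/
theorem BA_map {S : CC →L[ℂ] CC} (hm : ∀ m n : ℕ, S (UU ^ m * WW ^ n) ∈ BA) {a : CC} (ha : a ∈ BA) :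
    S a ∈ BA := by
  refine BA_induction (P := fun a => S a ∈ BA) ?_ hm (by simp) ?_ ?_ ha
  · exact BA_closed.preimage S.continuous
  · intro a b h1 h2; rw [map_add]; exact add_mem h1 h2
  · intro c a h; rw [map_smul]; exact Subalgebra.smul_mem _ h _

theorem avg_BA (k : ℝ → ℂ) (hk : Continuous k) {a : CC} (ha : a ∈ BA) : avg k hk a ∈ BA :=
  BA_map (fun m n => by rw [avg_mon]; exact Subalgebra.smul_mem _ (mon_mem m n) _) ha

/-! ## The operators -/

/-- inverse of `D - 1` -/
def opS : CC →L[ℂ] CC := avg (fun θ => (θ - Real.pi) * I * exp ((-1 : ℤ) * (θ * I))) (by fun_prop)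
/-- inverse of `D + 1` -/
def opT : CC →L[ℂ] CC := avg (fun θ => (θ - Real.pi) * I * exp ((1 : ℤ) * (θ * I))) (by fun_prop)
/-- projection to the mode `1` -/
def prP : CC →L[ℂ] CC := avg (fun θ => 1 * exp ((-1 : ℤ) * (θ * I))) (by fun_prop)
/-- projection to the mode `-1` -/
def prQ : CC →L[ℂ] CC := avg (fun θ => 1 * exp ((1 : ℤ) * (θ * I))) (by fun_prop)

theorem opS_mon (m n : ℕ) : opS (UU ^ m * WW ^ n) =
    (if (m : ℤ) - n - 1 = 0 then (0 : ℂ) else (((m : ℤ) - n - 1 : ℤ) : ℂ)⁻¹) • (UU ^ m * WW ^ n) := by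
  rw [opS, avg_mon, kc_shift (fun θ => (θ - Real.pi) * I), kc_saw]
  congr 1
  rw [show (-1 : ℤ) + ((m : ℤ) - n) = (m : ℤ) - n - 1 by ring]

theorem opT_mon (m n : ℕ) : opT (UU ^ m * WW ^ n) =
    (if (m : ℤ) - n + 1 = 0 then (0 : ℂ) else (((m : ℤ) - n + 1 : ℤ) : ℂ)⁻¹) • (UU ^ m * WW ^ n) := by
  rw [opT, avg_mon, kc_shift (fun θ => (θ - Real.pi) * I), kc_saw]
  congr 1
  rw [show (1 : ℤ) + ((m : ℤ) - n) = (m : ℤ) - n + 1 by ring]

theorem prP_mon (m n : ℕ) : prP (UU ^ m * WW ^ n) =
    (if (m : ℤ) - n - 1 = 0 then (1 : ℂ) else 0) • (UU ^ m * WW ^ n) := by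
  rw [prP, avg_mon, kc_shift (fun _ => 1), kc_one]
  congr 1
  rw [show (-1 : ℤ) + ((m : ℤ) - n) = (m : ℤ) - n - 1 by ring]

theorem prQ_mon (m n : ℕ) : prQ (UU ^ m * WW ^ n) =
    (if (m : ℤ) - n + 1 = 0 then (1 : ℂ) else 0) • (UU ^ m * WW ^ n) := by
  rw [prQ, avg_mon, kc_shift (fun _ => 1), kc_one]
  congr 1
  rw [show (1 : ℤ) + ((m : ℤ) - n) = (m : ℤ) - n + 1 by ring]

/-- the map `z ↦ (1, z₀ z₁)` of the closed bidisc -/
def mL (z : KK) : KK := ⟨![1, z.1 0 * z.1 1], by
  have h := mem_KK.1 z.2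
  rw [mem_KK]
  simp only [Matrix.cons_val_zero, Matrix.cons_val_one, norm_mul, norm_one, le_refl, true_and]
  exact mul_le_one₀ h.1 (norm_nonneg _) h.2⟩

/-- the map `z ↦ (z₀ z₁, 1)` of the closed bidisc -/
def mR (z : KK) : KK := ⟨![z.1 0 * z.1 1, 1], by
  have h := mem_KK.1 z.2
  rw [mem_KK]
  simp only [Matrix.cons_val_zero, Matrix.cons_val_one, norm_mul, norm_one, le_refl, and_true]
  exact mul_le_one₀ h.1 (norm_nonneg _) h.2⟩

theorem mL_cont : Continuous mL := by
  refine Continuous.subtype_mk (continuous_pi fun i => ?_) _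
  have h0 : Continuous fun z : KK => z.1 0 := UU.continuous
  have h1 : Continuous fun z : KK => z.1 1 := WW.continuous
  fin_cases i
  · exact continuous_const
  · exact h0.mul h1

theorem mR_cont : Continuous mR := by
  refine Continuous.subtype_mk (continuous_pi fun i => ?_) _
  have h0 : Continuous fun z : KK => z.1 0 := UU.continuous
  have h1 : Continuous fun z : KK => z.1 1 := WW.continuous
  fin_cases i
  · exact h0.mul h1
  · exact continuous_const

/-- composition operator -/
def compOp (φ : KK → KK) (hφ : Continuous φ) : CC →L[ℂ] CC :=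
  LinearMap.mkContinuous
    { toFun := fun a => a.comp ⟨φ, hφ⟩
      map_add' := fun a b => rfl
      map_smul' := fun c a => rfl } 1
    (by
      intro a
      rw [one_mul]
      change ‖a.comp ⟨φ, hφ⟩‖ ≤ ‖a‖
      rw [ContinuousMap.norm_le _ (norm_nonneg _)]
      intro z
      exact a.norm_coe_le_norm _)

@[simp] theorem compOp_apply (φ : KK → KK) (hφ : Continuous φ) (a : CC) (z : KK) :
    compOp φ hφ a z = a (φ z) := rfl

/-- `a ↦ a(1, z₀ z₁)` -/
def laL : CC →L[ℂ] CC := compOp mL mL_cont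
/-- `a ↦ a(z₀ z₁, 1)` -/
def laR : CC →L[ℂ] CC := compOp mR mR_cont

theorem laL_mon (m n : ℕ) : laL (UU ^ m * WW ^ n) = UU ^ n * WW ^ n := by
  ext z
  simp [laL, mL, mul_pow]

theorem laR_mon (m n : ℕ) : laR (UU ^ m * WW ^ n) = UU ^ m * WW ^ m := by
  ext z
  simp [laR, mR, mul_pow]

theorem laL_BA {a : CC} (ha : a ∈ BA) : laL a ∈ BA := BA_map (fun m n => by rw [laL_mon]; exact mon_mem _ _) ha
theorem laR_BA {a : CC} (ha : a ∈ BA) : laR a ∈ BA := BA_map (fun m n => by rw [laR_mon]; exact mon_mem _ _) ha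
theorem opS_BA {a : CC} (ha : a ∈ BA) : opS a ∈ BA := avg_BA _ _ ha
theorem opT_BA {a : CC} (ha : a ∈ BA) : opT a ∈ BA := avg_BA _ _ ha
theorem prP_BA {a : CC} (ha : a ∈ BA) : prP a ∈ BA := avg_BA _ _ ha
theorem prQ_BA {a : CC} (ha : a ∈ BA) : prQ a ∈ BA := avg_BA _ _ ha

/-- multiplication operator -/
def mulOp (b : CC) : CC →L[ℂ] CC := ContinuousLinearMap.mul ℂ CC b

@[simp] theorem mulOp_apply (b a : CC) : mulOp b a = b * a := rfl

/-- the mode `1` part is divisible by the first coordinate -/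
theorem UU_laL_prP {a : CC} (ha : a ∈ BA) : UU * laL (prP a) = prP a := by
  have := BA_eq (S := (mulOp UU).comp (laL.comp prP)) (T := prP) (fun m n => ?_) ha
  · simpa using this
  · simp only [ContinuousLinearMap.comp_apply, prP_mon, map_smul, laL_mon, mulOp_apply]
    split_ifs with h
    · have hm : m = n + 1 := by omega
      subst hm
      rw [one_smul, one_smul]; ring
    · simp

/-- the mode `-1` part is divisible by the second coordinate -/
theorem WW_laR_prQ {a : CC} (ha : a ∈ BA) : WW * laR (prQ a) = prQ a := by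
  have := BA_eq (S := (mulOp WW).comp (laR.comp prQ)) (T := prQ) (fun m n => ?_) ha
  · simpa using this
  · simp only [ContinuousLinearMap.comp_apply, prQ_mon, map_smul, laR_mon, mulOp_apply]
    split_ifs with h
    · have hm : n = m + 1 := by omega
      subst hm
      rw [one_smul, one_smul]; ring
    · simp

/-! ## Rotation identities -/

/-- the operator `a ↦ a ∘ rot θ` -/
def roOp (θ : ℝ) : CC →L[ℂ] CC := compOp (rotK θ)
  (rotK_continuous.comp (continuous_const.prodMk continuous_id))

theorem rotK_cont_left (z : KK) : Continuous fun θ : ℝ => rotK θ z :=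
  rotK_continuous.comp (continuous_id.prodMk continuous_const)

/-- evaluation at a rotated point, integrated in time -/
theorem rot_int {A B : CC →L[ℂ] CC} (hAB : ∀ m n : ℕ, ∃ c : ℂ, A (UU ^ m * WW ^ n) = c • (UU ^ m * WW ^ n) ∧
      B (UU ^ m * WW ^ n) = (((m : ℤ) - n : ℤ) * c) • (UU ^ m * WW ^ n)) {a : CC} (ha : a ∈ BA)
    (θ : ℝ) (z : KK) :
    A a (rotK θ z) - A a z = ∫ s in (0 : ℝ)..θ, I * B a (rotK s z) := by
  refine BA_induction (P := fun a => A a (rotK θ z) - A a z = ∫ s in (0 : ℝ)..θ, I * B a (rotK s z))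
    ?_ ?_ (by simp) ?_ ?_ ha
  · apply isClosed_eq
    · have h1 : Continuous fun a : CC => A a (rotK θ z) :=
        (continuous_eval_const _).comp A.continuous
      have h2 : Continuous fun a : CC => A a z :=
        (continuous_eval_const _).comp A.continuous
      exact h1.sub h2
    · apply intervalIntegral.continuous_parametric_intervalIntegral_of_continuous'
      have h3 : Continuous fun q : CC × ℝ => (B q.1) (rotK q.2 z) := by
        have h4 : Continuous fun q : CC × KK => q.1 q.2 := continuous_eval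
        exact h4.comp ((B.continuous.comp continuous_fst).prodMk ((rotK_cont_left z).comp continuous_snd))
      exact continuous_const.mul h3
  · intro m n
    obtain ⟨c, hA, hB⟩ := hAB m n
    rw [hA, hB]
    simp only [ContinuousMap.smul_apply, mon_rot, smul_eq_mul]
    set w := (UU ^ m * WW ^ n) z
    set j : ℤ := (m : ℤ) - n with hj
    have hF : ∀ s : ℝ, HasDerivAt (fun s : ℝ => c * (exp (j * (s * I)) * w))
        (I * (j * c * (exp (j * (s * I)) * w))) s := by
      intro s
      have e0 : HasDerivAt (fun θ : ℝ => (θ : ℂ)) 1 s := Complex.ofRealCLM.hasDerivAt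
      have e1 : HasDerivAt (fun θ : ℝ => exp (j * (θ * I))) (exp (j * (s * I)) * (j * (1 * I))) s :=
        ((e0.mul_const I).const_mul (j : ℂ)).cexp
      refine ((e1.mul_const w).const_mul c).congr_deriv ?_
      ring
    have hj' : ((m : ℤ) - n : ℤ) = j := rfl
    have := intervalIntegral.integral_eq_sub_of_hasDerivAt (a := 0) (b := θ) (fun s _ => hF s)
      (Continuous.intervalIntegrable (by fun_prop) _ _)
    rw [this]
    simp
  · intro a b h1 h2
    have hint : ∀ a : CC, IntervalIntegrable (fun s => I * B a (rotK s z)) volume 0 θ := fun a =>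
      Continuous.intervalIntegrable (continuous_const.mul ((B a).continuous.comp (rotK_cont_left z))) _ _
    have h3 : (∫ s in (0 : ℝ)..θ, I * B (a + b) (rotK s z)) =
        (∫ s in (0 : ℝ)..θ, I * B a (rotK s z)) + ∫ s in (0 : ℝ)..θ, I * B b (rotK s z) := by
      rw [← intervalIntegral.integral_add (hint a) (hint b)]
      apply intervalIntegral.integral_congr
      intro s _
      simp only [map_add, ContinuousMap.add_apply]
      ring
    rw [h3, ← h1, ← h2]
    simp only [map_add, ContinuousMap.add_apply]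
    ring
  · intro c a h
    have h3 : (∫ s in (0 : ℝ)..θ, I * B (c • a) (rotK s z)) =
        c * (∫ s in (0 : ℝ)..θ, I * B a (rotK s z)) := by
      rw [← intervalIntegral.integral_const_mul]
      apply intervalIntegral.integral_congr
      intro s _
      simp only [map_smul, ContinuousMap.smul_apply, smul_eq_mul]
      ring
    rw [h3, ← h]
    simp only [map_smul, ContinuousMap.smul_apply, smul_eq_mul]
    ring

/-- `D S a = S a + a - P a` in integrated form -/
theorem rot_S {a : CC} (ha : a ∈ BA) (θ : ℝ) (z : KK) :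
    opS a (rotK θ z) - opS a z = ∫ s in (0 : ℝ)..θ, I * (opS a + a - prP a) (rotK s z) := by
  have := rot_int (A := opS) (B := opS + ContinuousLinearMap.id ℂ CC - prP) (fun m n => ?_) ha θ z
  · exact this
  · refine ⟨_, opS_mon m n, ?_⟩
    simp only [ContinuousLinearMap.sub_apply, ContinuousLinearMap.add_apply, ContinuousLinearMap.id_apply,
      opS_mon, prP_mon]
    rw [← sub_eq_zero]
    rw [show ∀ (p q s : ℂ) (x : CC), p • x + x - q • x - s • x = (p + 1 - q - s) • x from
      fun p q s x => by rw [sub_smul, sub_smul, add_smul, one_smul]]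
    apply smul_eq_zero_of_left
    split_ifs with h
    · simp
    · have h' : (((m : ℤ) - n - 1 : ℤ) : ℂ) ≠ 0 := by exact_mod_cast h
      push_cast at h' ⊢
      field_simp
      ring

/-- `D T a = - T a + a - Q a` in integrated form -/
theorem rot_T {a : CC} (ha : a ∈ BA) (θ : ℝ) (z : KK) :
    opT a (rotK θ z) - opT a z = ∫ s in (0 : ℝ)..θ, I * (a - prQ a - opT a) (rotK s z) := by
  have := rot_int (A := opT) (B := ContinuousLinearMap.id ℂ CC - prQ - opT) (fun m n => ?_) ha θ z
  · exact this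
  · refine ⟨_, opT_mon m n, ?_⟩
    simp only [ContinuousLinearMap.sub_apply, ContinuousLinearMap.id_apply,
      opT_mon, prQ_mon]
    rw [← sub_eq_zero]
    rw [show ∀ (p q s : ℂ) (x : CC), x - q • x - p • x - s • x = (1 - q - p - s) • x from
      fun p q s x => by rw [sub_smul, sub_smul, sub_smul, one_smul]]
    apply smul_eq_zero_of_left
    split_ifs with h
    · simp
    · have h' : (((m : ℤ) - n + 1 : ℤ) : ℂ) ≠ 0 := by exact_mod_cast h
      push_cast at h' ⊢
      field_simp
      ring

end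

end Pool.Agent.NH60.Cen
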