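import Mathlib

/-!
# Foliations of the complex plane, centers, and their stability
-/

set_option autoImplicit false

namespace Pool.Agent.NH60.Cen

open MvPolynomial Topology Filter
open scoped LinearAlgebra.Projectivization

/-- The vector space of polynomial `1`-forms `P dy - Q dx` on the affine plane over `ℂ` with
`deg P, deg Q ≤ d`, as the space of pairs `(P, Q)`. -/
abbrev Forms (d : ℕ) : Type :=
  ↥((restrictTotalDegree (Fin 2) ℂ d).prod (restrictTotalDegree (Fin 2) ℂ d))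

/-- The polynomial `P` of the `1`-form `P dy - Q dx`. -/
noncomputable def Forms.P {d : ℕ} (w : Forms d) : MvPolynomial (Fin 2) ℂ := w.1.1

/-- The polynomial `Q` of the `1`-form `P dy - Q dx`. -/
noncomputable def Forms.Q {d : ℕ} (w : Forms d) : MvPolynomial (Fin 2) ℂ := w.1.2

/-- `p` is a singularity of `P dy - Q dx`. -/
def IsSing (P Q : MvPolynomial (Fin 2) ℂ) (p : Fin 2 → ℂ) : Prop := eval p P = 0 ∧ eval p Q = 0

/-- The determinant `P_x Q_y - P_y Q_x`. -/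
noncomputable def jac {R : Type*} [CommRing R] (P Q : MvPolynomial (Fin 2) R) : MvPolynomial (Fin 2) R :=
  pderiv 0 P * pderiv 1 Q - pderiv 1 P * pderiv 0 Q

/-- `p` is a center of `ω = P dy - Q dx`: it is a reduced singularity (`P_x Q_y - P_y Q_x` does not
vanish at `p`) and there are local holomorphic coordinates `(a, b)` centred at `p` with
`ω ∧ d(a² + b²) = 0`, that is `P ∂_x (a² + b²) + Q ∂_y (a² + b²) = 0` near `p`. -/
def IsCenter (P Q : MvPolynomial (Fin 2) ℂ) (p : Fin 2 → ℂ) : Prop :=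
  IsSing P Q p ∧ eval p (jac P Q) ≠ 0 ∧
    ∃ a b : (Fin 2 → ℂ) → ℂ, AnalyticAt ℂ a p ∧ AnalyticAt ℂ b p ∧ a p = 0 ∧ b p = 0 ∧
      LinearIndependent ℂ ![fderiv ℂ a p, fderiv ℂ b p] ∧
      ∀ᶠ z in 𝓝 p, fderiv ℂ (fun y => a y ^ 2 + b y ^ 2) z ![eval z P, eval z Q] = 0

section Zariski

variable (V : Type*) [AddCommGroup V] [Module ℂ V]

/-- The algebra of polynomial functions on a complex vector space. -/
def polyFun : Subalgebra ℂ (V → ℂ) := Algebra.adjoin ℂ {f | ∃ l : V →ₗ[ℂ] ℂ, f = ⇑l}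

variable {V}

/-- Zariski closed subsets of the projective space `ℙ(V)`: common zero loci of families of
homogeneous polynomial functions on `V`. -/
def ZClosed (Z : Set (ℙ ℂ V)) : Prop :=
  ∃ S : Set (V → ℂ), (∀ f ∈ S, f ∈ polyFun V ∧ ∃ k : ℕ, ∀ (t : ℂ) (v : V), f (t • v) = t ^ k * f v) ∧
    Z = {F | ∀ f ∈ S, f F.rep = 0}

/-- Zariski closure. -/
def zclosure (A : Set (ℙ ℂ V)) : Set (ℙ ℂ V) := {F | ∀ Z, ZClosed Z → A ⊆ Z → F ∈ Z}

/-- Irreducible Zariski closed subsets. -/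
def ZIrred (X : Set (ℙ ℂ V)) : Prop :=
  ZClosed X ∧ X.Nonempty ∧ ∀ Z Z' : Set (ℙ ℂ V), ZClosed Z → ZClosed Z' → X ⊆ Z ∪ Z' → X ⊆ Z ∨ X ⊆ Z'

/-- `X` is an irreducible component of `M`: a maximal irreducible Zariski closed subset. -/
def IsComponent (X M : Set (ℙ ℂ V)) : Prop :=
  ZIrred X ∧ X ⊆ M ∧ ∀ Y, ZIrred Y → X ⊆ Y → Y ⊆ M → Y = X

/-- `U` is a Zariski open dense subset of `X`. -/
def IsOpenDense (U X : Set (ℙ ℂ V)) : Prop :=
  (∃ Z, ZClosed Z ∧ U = X \ Z) ∧ ∀ Z, ZClosed Z → U ⊆ Z → X ⊆ Z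

end Zariski

/-- The foliations of degree `d`: the classes of `P dy - Q dx` with `P, Q` coprime and
`max (deg P) (deg Q) = d`, inside the projectivization of `Forms d`. -/
def folDeg (d : ℕ) : Set (ℙ ℂ (Forms d)) :=
  {F | IsRelPrime F.rep.P F.rep.Q ∧ max F.rep.P.totalDegree F.rep.Q.totalDegree = d}

/-- `M(d)`: the Zariski closure of the set of foliations of degree `d` having at least one center. -/
def centerVariety (d : ℕ) : Set (ℙ ℂ (Forms d)) :=
  zclosure {F | F ∈ folDeg d ∧ ∃ p, IsCenter F.rep.P F.rep.Q p}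

/-- The center `p` of `F ∈ X` is stable relative to `X`: for every holomorphic one-parameter
deformation `F_ε = [c(ε)]` of `F` inside `X` (every coefficient of `c(ε)` is holomorphic near `0`),
for all `ε` near `0` every singularity of `F_ε` near `p` (there is exactly one, `p_ε`) is a center. -/
def IsStable {d : ℕ} (X : Set (ℙ ℂ (Forms d))) (F : ℙ ℂ (Forms d)) (p : Fin 2 → ℂ) : Prop :=
  ∀ c : ℂ → Forms d, (∀ m, AnalyticAt ℂ (fun e => (c e).P.coeff m) 0) →
    (∀ m, AnalyticAt ℂ (fun e => (c e).Q.coeff m) 0) →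
    (∃ h : c 0 ≠ 0, Projectivization.mk ℂ (c 0) h = F) →
    (∀ᶠ e in 𝓝 (0 : ℂ), ∃ h : c e ≠ 0, Projectivization.mk ℂ (c e) h ∈ X) →
    ∀ᶠ z in 𝓝 ((0 : ℂ), p), IsSing (c z.1).P (c z.1).Q z.2 → IsCenter (c z.1).P (c z.1).Q z.2

end Pool.Agent.NH60.Cen
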