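import Mathlib
import Pool.Agent.NH60.CenB

/-!
# The fixed point
-/

set_option autoImplicit false

namespace Pool.Agent.NH60.Cen

open Complex MeasureTheory Topology Filter Set

noncomputable section

/-- the bidisc algebra as a type -/
abbrev BB : Type := ↥BA

instance : CompleteSpace BB := BA_closed.completeSpace_coe

/-- restriction of an operator -/
def res (T : CC →L[ℂ] CC) (h : ∀ a, a ∈ BA → T a ∈ BA) : BB →L[ℂ] BB :=
  (T.comp (Subalgebra.valA BA).toContinuousLinearMap).codRestrict (Subalgebra.toSubmodule BA) (fun a => h _ a.2)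

theorem res_coe (T : CC →L[ℂ] CC) (h : ∀ a, a ∈ BA → T a ∈ BA) (a : BB) : ((res T h a : BB) : CC) = T a := rfl

/-- coordinates in the algebra -/
def bU : BB := ⟨UU, by simpa using mon_mem 1 0⟩
/-- coordinates in the algebra -/
def bW : BB := ⟨WW, by simpa using mon_mem 0 1⟩

/-- restricted operators -/
def rS : BB →L[ℂ] BB := res opS fun _ h => opS_BA h
/-- restricted operators -/
def rT : BB →L[ℂ] BB := res opT fun _ h => opT_BA h
/-- restricted operators -/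
def rP : BB →L[ℂ] BB := res prP fun _ h => prP_BA h
/-- restricted operators -/
def rQ : BB →L[ℂ] BB := res prQ fun _ h => prQ_BA h
/-- restricted operators -/
def rL : BB →L[ℂ] BB := res laL fun _ h => laL_BA h

open MvPolynomial

/-- the scaled polynomial, divided by `ε` twice -/
def MX {A : Type*} [CommRing A] [Algebra ℂ A] (X : MvPolynomial (Fin 2) ℂ) (e : ℂ) (z0 z1 : A) : A :=
  ∑ m ∈ X.support, (X.coeff m * e ^ (m 0 + m 1 - 2)) • (z0 ^ m 0 * z1 ^ m 1)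

/-- the space of unknowns -/
abbrev EE : Type := ℂ × BB × BB

/-- first component -/
def N1 (X : MvPolynomial (Fin 2) ℂ) (q : EE) : BB :=
  q.1 • MX X q.1 (bU + rS q.2.1) (bW + rT q.2.2) - rL (rP q.2.1) * (rS q.2.1 + q.2.1 - rP q.2.1)

/-- second component -/
def N2 (Y : MvPolynomial (Fin 2) ℂ) (q : EE) : BB :=
  q.1 • MX Y q.1 (bU + rS q.2.1) (bW + rT q.2.2) - rL (rP q.2.1) * (q.2.2 - rQ q.2.2 - rT q.2.2)

theorem MX_contDiff (X : MvPolynomial (Fin 2) ℂ) :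
    ContDiff ℂ 1 (fun q : EE => MX X q.1 (bU + rS q.2.1) (bW + rT q.2.2)) := by
  unfold MX
  apply ContDiff.sum
  intro m _
  fun_prop

theorem N_aux (X : MvPolynomial (Fin 2) ℂ) (R : BB →L[ℂ] BB) (L : BB × BB →L[ℂ] BB) :
    HasStrictFDerivAt (fun q : EE => q.1 • MX X q.1 (bU + rS q.2.1) (bW + rT q.2.2) -
      R q.2.1 * L q.2)
      ((ContinuousLinearMap.fst ℂ ℂ (BB × BB)).smulRight (MX X 0 bU bW)) 0 := by
  have h1 : HasStrictFDerivAt (fun q : EE => MX X q.1 (bU + rS q.2.1) (bW + rT q.2.2))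
      (fderiv ℂ (fun q : EE => MX X q.1 (bU + rS q.2.1) (bW + rT q.2.2)) 0) 0 :=
    ((MX_contDiff X).contDiffAt).hasStrictFDerivAt (by norm_num)
  have h2 : HasStrictFDerivAt (fun q : EE => q.1) (ContinuousLinearMap.fst ℂ ℂ (BB × BB)) 0 :=
    hasStrictFDerivAt_fst
  have h3 := h2.fun_smul h1
  have h4 : HasStrictFDerivAt (fun q : EE => R q.2.1)
      (R.comp ((ContinuousLinearMap.fst ℂ BB BB).comp (ContinuousLinearMap.snd ℂ ℂ (BB × BB)))) 0 :=
    (R.comp ((ContinuousLinearMap.fst ℂ BB BB).comp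
      (ContinuousLinearMap.snd ℂ ℂ (BB × BB)))).hasStrictFDerivAt
  have h5 : HasStrictFDerivAt (fun q : EE => L q.2)
      (L.comp (ContinuousLinearMap.snd ℂ ℂ (BB × BB))) 0 :=
    (L.comp (ContinuousLinearMap.snd ℂ ℂ (BB × BB))).hasStrictFDerivAt
  have h6 := h4.fun_mul h5
  refine (h3.sub h6).congr_fderiv ?_
  ext q <;> simp

theorem N1_deriv (X : MvPolynomial (Fin 2) ℂ) :
    HasStrictFDerivAt (N1 X) ((ContinuousLinearMap.fst ℂ ℂ (BB × BB)).smulRight (MX X 0 bU bW)) 0 :=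
  N_aux X (rL.comp rP) ((rS + ContinuousLinearMap.id ℂ BB - rP).comp (ContinuousLinearMap.fst ℂ BB BB))

theorem N2_deriv (Y : MvPolynomial (Fin 2) ℂ) :
    HasStrictFDerivAt (N2 Y) ((ContinuousLinearMap.fst ℂ ℂ (BB × BB)).smulRight (MX Y 0 bU bW)) 0 :=
  N_aux Y (rL.comp rP) ((ContinuousLinearMap.id ℂ BB - rQ - rT).comp (ContinuousLinearMap.snd ℂ BB BB))

/-- a shear -/
def shear (c : BB × BB) : EE ≃L[ℂ] EE :=
  ContinuousLinearEquiv.equivOfInverse
    ((ContinuousLinearMap.fst ℂ ℂ (BB × BB)).prod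
      (ContinuousLinearMap.snd ℂ ℂ (BB × BB) - (ContinuousLinearMap.fst ℂ ℂ (BB × BB)).smulRight c))
    ((ContinuousLinearMap.fst ℂ ℂ (BB × BB)).prod
      (ContinuousLinearMap.snd ℂ ℂ (BB × BB) + (ContinuousLinearMap.fst ℂ ℂ (BB × BB)).smulRight c))
    (by intro q; ext <;> simp) (by intro q; ext <;> simp)

/-- existence of a small solution of the functional equation for a small scaling parameter -/
theorem exists_sol (X Y : MvPolynomial (Fin 2) ℂ) {δ : ℝ} (hδ : 0 < δ) :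
    ∃ (e : ℂ) (a b : BB), e ≠ 0 ∧ ‖e‖ < δ ∧ ‖a‖ < δ ∧ ‖b‖ < δ ∧ a = N1 X (e, a, b) ∧ b = N2 Y (e, a, b) := by
  set H : EE → EE := fun q => (q.1, q.2 - (N1 X q, N2 Y q)) with hH
  have h1 : HasStrictFDerivAt H (shear (MX X 0 bU bW, MX Y 0 bU bW) : EE →L[ℂ] EE) 0 := by
    have h2 : HasStrictFDerivAt (fun q : EE => q.1) (ContinuousLinearMap.fst ℂ ℂ (BB × BB)) 0 :=
      hasStrictFDerivAt_fst
    have h3 : HasStrictFDerivAt (fun q : EE => q.2) (ContinuousLinearMap.snd ℂ ℂ (BB × BB)) 0 :=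
      hasStrictFDerivAt_snd
    have h4 := h2.prodMk (h3.sub ((N1_deriv X).prodMk (N2_deriv Y)))
    refine h4.congr_fderiv ?_
    ext q <;> simp [shear]
  have h0 : H 0 = 0 := by
    simp [hH, N1, N2]
  have h2 := h1.map_nhds_eq_of_equiv
  rw [h0] at h2
  have h3 : Metric.ball (0 : EE) δ ∈ 𝓝 (0 : EE) := Metric.ball_mem_nhds _ hδ
  have h4 : H '' Metric.ball (0 : EE) δ ∈ 𝓝 (0 : EE) := by
    rw [← h2]
    exact image_mem_map h3
  obtain ⟨ρ, hρ, hρ'⟩ := Metric.mem_nhds_iff.1 h4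
  set e : ℂ := ((min δ ρ / 2 : ℝ) : ℂ) with he
  have hmin : 0 < min δ ρ := lt_min hδ hρ
  have hne : ‖e‖ = min δ ρ / 2 := by
    rw [he, norm_real, Real.norm_of_nonneg (by positivity)]
  have h5 : ((e, 0, 0) : EE) ∈ Metric.ball (0 : EE) ρ := by
    rw [mem_ball_zero_iff, Prod.norm_mk, Prod.norm_mk, hne]
    simp only [norm_zero, max_self]
    rw [max_lt_iff]
    exact ⟨by linarith [min_le_right δ ρ], hρ⟩
  obtain ⟨⟨e', a, b⟩, hq, hq'⟩ := hρ' h5
  simp only [hH, Prod.mk.injEq] at hq'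
  obtain ⟨rfl, h6⟩ := hq'
  have h7 := Prod.ext_iff.1 h6
  rw [mem_ball_zero_iff, Prod.norm_mk, Prod.norm_mk, max_lt_iff, max_lt_iff] at hq
  refine ⟨e, a, b, ?_, hq.1, hq.2.1, hq.2.2, ?_, ?_⟩
  · rw [← norm_pos_iff, hne]; positivity
  · exact sub_eq_zero.1 h7.1
  · exact sub_eq_zero.1 h7.2

end

end Pool.Agent.NH60.Cen
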