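import Mathlib
import Pool.Agent.NH60.CenFix
import Pool.Agent.Helper540.Holo
import Pool.Agent.FinVol2.WA

/-!
# Elements of the bidisc algebra are analytic near the origin
-/

set_option autoImplicit false

namespace Pool.Agent.NH60.Cen

open Complex MeasureTheory Topology Filter Set

noncomputable section

/-- extension by zero -/
def ext (f : CC) (z : E2) : ℂ := by
  classical
  exact if h : z ∈ Metric.closedBall (0 : E2) 1 then f ⟨z, h⟩ else 0

theorem ext_of_mem (f : CC) {z : E2} (h : z ∈ Metric.closedBall (0 : E2) 1) : ext f z = f ⟨z, h⟩ := by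
  unfold ext; rw [dif_pos h]

theorem ext_coe (f : CC) (z : KK) : ext f z.1 = f z := ext_of_mem f z.2

theorem ball_sub : Metric.ball (0 : E2) 1 ⊆ Metric.closedBall (0 : E2) 1 := Metric.ball_subset_closedBall

theorem ext_diff_pol {p : CC} (hp : p ∈ Pol) : DifferentiableOn ℂ (ext p) (Metric.ball 0 1) := by
  rw [mem_Pol_iff] at hp
  induction hp using Submodule.span_induction with
  | mem x hx =>
    obtain ⟨q, rfl⟩ := hx
    have h1 : DifferentiableOn ℂ (fun z : E2 => z 0 ^ q.1 * z 1 ^ q.2) (Metric.ball 0 1) := by fun_prop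
    refine h1.congr fun z hz => ?_
    rw [ext_of_mem _ (ball_sub hz)]
    simp
  | zero =>
    refine (differentiableOn_const (0 : ℂ)).congr fun z hz => ?_
    rw [ext_of_mem _ (ball_sub hz)]; rfl
  | add x y _ _ hx hy =>
    refine (hx.add hy).congr fun z hz => ?_
    simp only [ext_of_mem _ (ball_sub hz), Pi.add_apply, ContinuousMap.add_apply]
  | smul c x _ hx =>
    refine (hx.const_smul c).congr fun z hz => ?_
    simp only [ext_of_mem _ (ball_sub hz), Pi.smul_apply, ContinuousMap.smul_apply]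

theorem ext_diff {f : CC} (hf : f ∈ BA) : DifferentiableOn ℂ (ext f) (Metric.ball 0 (1 / 2)) := by
  have h1 : f ∈ closure (Pol : Set CC) := hf
  obtain ⟨p, hp, hlim⟩ := mem_closure_iff_seq_limit.1 h1
  refine Helper540.differentiableOn_of_uniform_limit (f := fun n => ext (p n)) (fun n => ext_diff_pol (hp n)) ?_
  rw [Metric.tendstoUniformlyOn_iff]
  intro ε hε
  filter_upwards [(Metric.tendsto_nhds.1 hlim) ε hε] with n hn z hz
  rw [ext_of_mem _ (ball_sub hz), ext_of_mem _ (ball_sub hz), dist_comm]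
  exact (ContinuousMap.dist_apply_le_dist _).trans_lt hn

theorem ext_an {f : CC} (hf : f ∈ BA) {z : E2} (hz : ‖z‖ < 1 / 4) : AnalyticAt ℂ (ext f) z := by
  refine FinVol2.WA.analyticAt_of_differentiable 2 z (1 / 8) (by norm_num) _ fun w hw => ?_
  refine (ext_diff hf).differentiableAt (Metric.isOpen_ball.mem_nhds ?_)
  rw [mem_ball_zero_iff]
  have h1 : ‖w - z‖ ≤ 1 / 8 := by
    rw [pi_norm_le_iff_of_nonneg (by norm_num)]
    intro i
    have := hw i
    rwa [mem_closedBall_iff_norm] at this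
  calc ‖w‖ = ‖(w - z) + z‖ := by rw [sub_add_cancel]
    _ ≤ ‖w - z‖ + ‖z‖ := norm_add_le _ _
    _ < 1 / 2 := by linarith

theorem ext_norm_le (f : CC) (z : E2) : ‖ext f z‖ ≤ ‖f‖ := by
  unfold ext
  split_ifs with h
  · exact f.norm_coe_le_norm _
  · simp

theorem ext_fderiv_le {f : CC} (hf : f ∈ BA) : ‖fderiv ℂ (ext f) 0‖ ≤ 4 * ‖f‖ := by
  have h1 : MapsTo (ext f) (Metric.ball 0 (1 / 2)) (Metric.closedBall (ext f 0) (2 * ‖f‖)) := by
    intro z hz
    rw [mem_closedBall_iff_norm]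
    calc ‖ext f z - ext f 0‖ ≤ ‖ext f z‖ + ‖ext f 0‖ := norm_sub_le _ _
      _ ≤ 2 * ‖f‖ := by linarith [ext_norm_le f z, ext_norm_le f 0]
  have h2 := Complex.norm_fderiv_le_div_of_mapsTo_ball (ext_diff hf) h1 (by norm_num)
  calc _ ≤ _ := h2
    _ = 4 * ‖f‖ := by ring

/-- velocity of the circle action -/
theorem rot_hasDerivAt (z : E2) : HasDerivAt (fun θ : ℝ => rot θ z) ![I * z 0, -(I * z 1)] 0 := by
  rw [hasDerivAt_pi]
  intro i
  have e0 : HasDerivAt (fun θ : ℝ => (θ : ℂ)) 1 (0 : ℝ) := Complex.ofRealCLM.hasDerivAt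
  fin_cases i
  · have e1 := ((e0.mul_const I).cexp).mul_const (z 0)
    refine e1.congr_deriv ?_
    simp
  · have e1 := (((e0.mul_const I).neg).cexp).mul_const (z 1)
    refine e1.congr_deriv ?_
    simp

/-- from the integrated identity to the derivative along the circle action -/
theorem fderiv_of_rot {f h : CC} (hf : f ∈ BA)
    (hfh : ∀ (θ : ℝ) (z : KK), f (rotK θ z) - f z = ∫ s in (0 : ℝ)..θ, I * h (rotK s z))
    {z : E2} (hz : ‖z‖ < 1 / 4) : fderiv ℂ (ext f) z ![z 0, -z 1] = ext h z := by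
  have hz1 : z ∈ Metric.closedBall (0 : E2) 1 := by
    rw [mem_closedBall_zero_iff]; linarith
  have h1 : HasDerivAt (fun θ : ℝ => ext f (rot θ z)) (fderiv ℂ (ext f) z ![I * z 0, -(I * z 1)]) 0 := by
    have h2 : HasFDerivAt (ext f) (fderiv ℂ (ext f) z) (rot 0 z) := by
      rw [rot_at_zero]; exact (ext_an hf hz).differentiableAt.hasFDerivAt
    have h3 := (h2.restrictScalars ℝ).comp_hasDerivAt (0 : ℝ) (rot_hasDerivAt z)
    exact h3
  have h2 : HasDerivAt (fun θ : ℝ => ext f (rot θ z)) (I * ext h z) 0 := by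
    have h3 : (fun θ : ℝ => ext f (rot θ z)) =
        fun θ : ℝ => ext f z + ∫ s in (0 : ℝ)..θ, I * h (rotK s ⟨z, hz1⟩) := by
      funext θ
      rw [← hfh θ ⟨z, hz1⟩, ← ext_coe f (rotK θ ⟨z, hz1⟩), ← ext_coe f ⟨z, hz1⟩]
      simp [rotK]
    rw [h3]
    have hcont : Continuous fun s : ℝ => I * h (rotK s ⟨z, hz1⟩) :=
      continuous_const.mul (h.continuous.comp (rotK_cont_left _))
    have h4 := intervalIntegral.integral_hasDerivAt_right (a := (0 : ℝ)) (b := 0)
      (hcont.intervalIntegrable _ _) (hcont.stronglyMeasurableAtFilter _ _) hcont.continuousAt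
    have h5 := h4.const_add (ext f z)
    refine h5.congr_deriv ?_
    rw [ext_of_mem h hz1]
    congr 2
    exact Subtype.ext (rot_at_zero z)
  have h3 := h1.unique h2
  have h4 : (![I * z 0, -(I * z 1)] : E2) = I • ![z 0, -z 1] := by
    ext i; fin_cases i <;> simp
  rw [h4, map_smul, smul_eq_mul] at h3
  exact mul_left_cancel₀ I_ne_zero h3

end

end Pool.Agent.NH60.Cen
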