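import Mathlib

/-!
# The idempotent cutting out an ideal on an unramified family
-/

set_option autoImplicit false

namespace Pool.Agent.NH60.Cen

open MvPolynomial

noncomputable section

section Field

variable {K : Type*} [Field K]

open scoped KaehlerDifferential in
/-- unramifiedness of the scheme of nondegenerate singularities -/
theorem unram {F G J : MvPolynomial (Fin 3) K} (I : Ideal (MvPolynomial (Fin 3) K))
    (hF : F ∈ I) (hG : G ∈ I) (hJ : X 2 * J - 1 ∈ I) (hF2 : pderiv 2 F = 0) (hG2 : pderiv 2 G = 0)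
    (hJ2 : pderiv 2 J = 0) (hJe : J = pderiv 0 F * pderiv 1 G - pderiv 1 F * pderiv 0 G) :
    Algebra.FormallyUnramified K (MvPolynomial (Fin 3) K ⧸ I) := by
  set Q := MvPolynomial (Fin 3) K ⧸ I with hQ
  set D : Derivation K Q (Ω[Q⁄K]) := KaehlerDifferential.D K Q with hD
  set D' : Derivation K (MvPolynomial (Fin 3) K) (Ω[Q⁄K]) := D.compAlgebraMap (MvPolynomial (Fin 3) K) with hD'
  have hD'a : ∀ f, D' f = D (Ideal.Quotient.mk I f) := fun f => rfl
  have hzero : ∀ f ∈ I, D' f = 0 := fun f hf => by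
    rw [hD'a, Ideal.Quotient.eq_zero_iff_mem.2 hf, map_zero]
  have hsm : ∀ f ∈ I, ∀ w : Ω[Q⁄K], f • w = 0 := fun f hf w => by
    have : f • w = (Ideal.Quotient.mk I f) • w := (algebraMap_smul Q f w).symm
    rw [this, Ideal.Quotient.eq_zero_iff_mem.2 hf]
    exact zero_smul Q w
  have hexp : ∀ f, D' f = pderiv 0 f • D' (X 0) + pderiv 1 f • D' (X 1) + pderiv 2 f • D' (X 2) := by
    intro f
    induction f using MvPolynomial.induction_on with
    | C a =>
      have : (C a : MvPolynomial (Fin 3) K) = algebraMap K _ a := rfl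
      rw [this, Derivation.map_algebraMap]
      simp
    | add p q hp hq => rw [map_add, hp, hq, map_add, map_add, map_add]; module
    | mul_X p n hp =>
      rw [Derivation.leibniz, hp]
      simp only [pderiv_mul]
      fin_cases n
      · simp [pderiv_X_self]
        module
      · simp [pderiv_X_self]
        module
      · simp [pderiv_X_self]
        module
  have eF := hexp F
  have eG := hexp G
  have eJ := hexp J
  rw [hzero F hF, hF2, zero_smul, add_zero] at eF
  rw [hzero G hG, hG2, zero_smul, add_zero] at eG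
  rw [hJ2, zero_smul, add_zero] at eJ
  set x0 := D' (X 0) with hx0
  set x1 := D' (X 1) with hx1
  set x2 := D' (X 2) with hx2
  have hunit : ∀ w : Ω[Q⁄K], J • w = 0 → w = 0 := by
    intro w hw
    have h1 := hsm _ hJ w
    rw [sub_smul, one_smul, mul_smul, hw, smul_zero, zero_sub, neg_eq_zero] at h1
    exact h1
  have k0 : x0 = 0 := by
    apply hunit
    have : J • x0 = pderiv 1 G • (pderiv 0 F • x0 + pderiv 1 F • x1) -
        pderiv 1 F • (pderiv 0 G • x0 + pderiv 1 G • x1) := by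
      rw [hJe]; module
    rw [this, ← eF, ← eG]; simp
  have k1 : x1 = 0 := by
    apply hunit
    have : J • x1 = pderiv 0 F • (pderiv 0 G • x0 + pderiv 1 G • x1) -
        pderiv 0 G • (pderiv 0 F • x0 + pderiv 1 F • x1) := by
      rw [hJe]; module
    rw [this, ← eF, ← eG]; simp
  have k2 : x2 = 0 := by
    apply hunit
    have h1 := hzero _ hJ
    rw [map_sub, Derivation.leibniz, Derivation.map_one_eq_zero, sub_zero, eJ, k0, k1] at h1
    simpa using h1
  have hDz : ∀ q : Q, D q = 0 := by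
    intro q
    obtain ⟨f, rfl⟩ := Ideal.Quotient.mk_surjective q
    rw [← hD'a, hexp, k0, k1, k2]
    simp
  constructor
  have hspan := KaehlerDifferential.span_range_derivation K Q
  have hr : Set.range (KaehlerDifferential.D K Q) ⊆ {0} := by
    rintro _ ⟨q, rfl⟩
    exact hDz q
  have hbot : (⊤ : Submodule Q (Ω[Q⁄K])) = ⊥ := by
    rw [← hspan, Submodule.span_eq_bot]
    intro x hx
    exact hr hx
  exact subsingleton_of_forall_eq 0 fun w => by
    have : w ∈ (⊤ : Submodule Q (Ω[Q⁄K])) := Submodule.mem_top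
    rw [hbot] at this
    exact (Submodule.mem_bot Q).1 this

theorem exists_idem {F G J : MvPolynomial (Fin 3) K} (I : Ideal (MvPolynomial (Fin 3) K))
    (hF : F ∈ I) (hG : G ∈ I) (hJ : X 2 * J - 1 ∈ I) (hF2 : pderiv 2 F = 0) (hG2 : pderiv 2 G = 0)
    (hJ2 : pderiv 2 J = 0) (hJe : J = pderiv 0 F * pderiv 1 G - pderiv 1 F * pderiv 0 G)
    (Ic : Ideal (MvPolynomial (Fin 3) K ⧸ I)) : ∃ e, IsIdempotentElem e ∧ Ic = Ideal.span {e} := by
  have hU := unram I hF hG hJ hF2 hG2 hJ2 hJe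
  have hfin : Module.Finite K (MvPolynomial (Fin 3) K ⧸ I) := Algebra.FormallyUnramified.finite_of_free K _
  have hart : IsArtinianRing (MvPolynomial (Fin 3) K ⧸ I) := IsArtinianRing.of_finite K _
  have hred : IsReduced (MvPolynomial (Fin 3) K ⧸ I) := Algebra.FormallyUnramified.isReduced_of_field K _
  have hss : IsSemisimpleRing (MvPolynomial (Fin 3) K ⧸ I) := IsArtinianRing.isSemisimpleRing_of_isReduced _
  exact IsSemisimpleRing.ideal_eq_span_idempotent Ic

end Field

section Domain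

variable {A : Type*} [CommRing A] [IsDomain A]

theorem mem_map_frac (I : Ideal (MvPolynomial (Fin 3) A)) (f : MvPolynomial (Fin 3) A) :
    map (algebraMap A (FractionRing A)) f ∈ I.map (map (algebraMap A (FractionRing A))) ↔
      ∃ m : A, m ≠ 0 ∧ C m * f ∈ I := by
  letI := MvPolynomial.algebraMvPolynomial (R := A) (S := FractionRing A) (σ := Fin 3)
  have hloc : IsLocalization ((nonZeroDivisors A).map (C (σ := Fin 3))) (MvPolynomial (Fin 3) (FractionRing A)) :=
    MvPolynomial.isLocalization (nonZeroDivisors A) (FractionRing A)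
  have h := IsLocalization.algebraMap_mem_map_algebraMap_iff ((nonZeroDivisors A).map (C (σ := Fin 3)))
    (S := MvPolynomial (Fin 3) (FractionRing A)) I f
  refine h.trans ⟨?_, ?_⟩
  · rintro ⟨m, hm, hmf⟩
    obtain ⟨a, ha, rfl⟩ := (Submonoid.mem_map).1 hm
    exact ⟨a, nonZeroDivisors.ne_zero ha, hmf⟩
  · rintro ⟨a, ha, haf⟩
    exact ⟨C a, Submonoid.mem_map_of_mem _ (mem_nonZeroDivisors_of_ne_zero ha), haf⟩

theorem exists_denominator (e : MvPolynomial (Fin 3) (FractionRing A)) :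
    ∃ (a : A) (E : MvPolynomial (Fin 3) A), a ≠ 0 ∧
      map (algebraMap A (FractionRing A)) E = map (algebraMap A (FractionRing A)) (C a) * e := by
  letI := MvPolynomial.algebraMvPolynomial (R := A) (S := FractionRing A) (σ := Fin 3)
  have hloc : IsLocalization ((nonZeroDivisors A).map (C (σ := Fin 3))) (MvPolynomial (Fin 3) (FractionRing A)) :=
    MvPolynomial.isLocalization (nonZeroDivisors A) (FractionRing A)
  obtain ⟨⟨E, m⟩, hE⟩ := IsLocalization.surj ((nonZeroDivisors A).map (C (σ := Fin 3))) e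
  obtain ⟨a, ha, ham⟩ := (Submonoid.mem_map).1 m.2
  refine ⟨a, E, nonZeroDivisors.ne_zero ha, ?_⟩
  have h1 : map (algebraMap A (FractionRing A)) E = e * map (algebraMap A (FractionRing A)) (m : MvPolynomial (Fin 3) A) := hE.symm
  rw [h1, ← ham, mul_comm]

theorem descent [IsNoetherianRing A] {F G J : MvPolynomial (Fin 3) A} (hF2 : pderiv 2 F = 0)
    (hG2 : pderiv 2 G = 0) (hJ2 : pderiv 2 J = 0)
    (hJe : J = pderiv 0 F * pderiv 1 G - pderiv 1 F * pderiv 0 G) (T : Set (MvPolynomial (Fin 3) A)) :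
    ∃ (h a : A) (E : MvPolynomial (Fin 3) A), h ≠ 0 ∧ a ≠ 0 ∧
      C h * (E * (E - C a)) ∈ Ideal.span {F, G, X 2 * J - 1} ∧
      (∀ g ∈ T, C h * (g * (C a - E)) ∈ Ideal.span {F, G, X 2 * J - 1}) ∧
      C h * E ∈ Ideal.span T ⊔ Ideal.span {F, G, X 2 * J - 1} := by
  classical
  set ι := map (σ := Fin 3) (algebraMap A (FractionRing A)) with hι
  set 𝔞 : Ideal (MvPolynomial (Fin 3) A) := Ideal.span {F, G, X 2 * J - 1} with h𝔞
  have mF : F ∈ 𝔞 := Ideal.subset_span (by simp)
  have mG : G ∈ 𝔞 := Ideal.subset_span (by simp)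
  have mJ : X 2 * J - 1 ∈ 𝔞 := Ideal.subset_span (by simp)
  have mJ' : X 2 * ι J - 1 ∈ 𝔞.map ι := by
    have := Ideal.mem_map_of_mem ι mJ
    simpa [hι] using this
  obtain ⟨eb, hid, hIc⟩ := exists_idem (𝔞.map ι) (Ideal.mem_map_of_mem ι mF) (Ideal.mem_map_of_mem ι mG) mJ'
    (by rw [hι, pderiv_map, hF2, map_zero]) (by rw [hι, pderiv_map, hG2, map_zero])
    (by rw [hι, pderiv_map, hJ2, map_zero]) (by
      rw [hι, pderiv_map, pderiv_map, pderiv_map, pderiv_map, ← map_mul, ← map_mul, ← map_sub, ← hJe])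
    (((Ideal.span T).map ι).map (Ideal.Quotient.mk (𝔞.map ι)))
  obtain ⟨e, rfl⟩ := Ideal.Quotient.mk_surjective eb
  obtain ⟨a, E, ha, hE⟩ := exists_denominator e
  rw [← hι] at hE
  -- idempotency
  have c1 : e * e - e ∈ 𝔞.map ι := by
    rw [← Ideal.Quotient.eq_zero_iff_mem, map_sub, map_mul, sub_eq_zero]
    exact hid
  have d1 : ι (E * (E - C a)) ∈ 𝔞.map ι := by
    rw [map_mul, map_sub, hE]
    have : ι (C a) * e * (ι (C a) * e - ι (C a)) = ι (C a) ^ 2 * (e * e - e) := by ring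
    rw [this]; exact Ideal.mul_mem_left _ _ c1
  obtain ⟨m1, hm1, d1'⟩ := (mem_map_frac 𝔞 _).1 d1
  -- generators
  have c2 : ∀ g ∈ T, ι g * (1 - e) ∈ 𝔞.map ι := by
    intro g hg
    have h1 : Ideal.Quotient.mk (𝔞.map ι) (ι g) ∈ ((Ideal.span T).map ι).map (Ideal.Quotient.mk (𝔞.map ι)) :=
      Ideal.mem_map_of_mem _ (Ideal.mem_map_of_mem _ (Ideal.subset_span hg))
    rw [hIc, Ideal.mem_span_singleton'] at h1
    obtain ⟨r, hr⟩ := h1
    rw [← Ideal.Quotient.eq_zero_iff_mem, map_mul, map_sub, map_one, ← hr]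
    have h2 : Ideal.Quotient.mk (𝔞.map ι) e * Ideal.Quotient.mk (𝔞.map ι) e = Ideal.Quotient.mk (𝔞.map ι) e := hid
    linear_combination (-r) * h2
  have d2 : ∀ g ∈ T, ∃ m : A, m ≠ 0 ∧ C m * (g * (C a - E)) ∈ 𝔞 := by
    intro g hg
    rw [← mem_map_frac]
    rw [← hι, map_mul, map_sub, hE]
    have : ι g * (ι (C a) - ι (C a) * e) = ι (C a) * (ι g * (1 - e)) := by ring
    rw [this]; exact Ideal.mul_mem_left _ _ (c2 g hg)
  obtain ⟨T', hT'T, hT'⟩ := (Submodule.fg_span_iff_fg_span_finset_subset T).1 (IsNoetherian.noetherian (Ideal.span T))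
  choose! μ hμ0 hμ using d2
  set m2 : A := ∏ g ∈ T', μ g with hm2
  have hm2' : m2 ≠ 0 := Finset.prod_ne_zero_iff.2 fun g hg => hμ0 g (hT'T hg)
  have d2' : ∀ g ∈ Ideal.span T, C m2 * (g * (C a - E)) ∈ 𝔞 := by
    intro g hg
    have hg' : g ∈ Submodule.span (MvPolynomial (Fin 3) A) (T' : Set (MvPolynomial (Fin 3) A)) := by
      rw [← hT']; exact hg
    refine Submodule.span_induction (p := fun x _ => C m2 * (x * (C a - E)) ∈ 𝔞) ?_ ?_ ?_ ?_ hg'
    · intro x hx
      obtain ⟨r, hr⟩ : μ x ∣ m2 := Finset.dvd_prod_of_mem μ hx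
      rw [hr, map_mul]
      have := Ideal.mul_mem_left 𝔞 (C r) (hμ x (hT'T hx))
      refine (congrArg (· ∈ 𝔞) ?_).mp this
      ring
    · simp
    · intro x y _ _ hx hy
      refine (congrArg (· ∈ 𝔞) ?_).mp (add_mem hx hy)
      ring
    · intro r x _ hx
      refine (congrArg (· ∈ 𝔞) ?_).mp (Ideal.mul_mem_left 𝔞 r hx)
      rw [smul_eq_mul]; ring
  -- the idempotent lies in the ideal
  have c3 : e ∈ (Ideal.span T ⊔ 𝔞).map ι := by
    rw [Ideal.map_sup, ← Ideal.mem_quotient_iff_mem_sup, hIc]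
    exact Ideal.subset_span rfl
  have d3 : ι E ∈ (Ideal.span T ⊔ 𝔞).map ι := by rw [hE]; exact Ideal.mul_mem_left _ _ c3
  obtain ⟨m3, hm3, d3'⟩ := (mem_map_frac _ _).1 d3
  refine ⟨m1 * m2 * m3, a, E, mul_ne_zero (mul_ne_zero hm1 hm2') hm3, ha, ?_, ?_, ?_⟩
  · refine (congrArg (· ∈ 𝔞) ?_).mp (Ideal.mul_mem_left 𝔞 (C (m2 * m3)) d1')
    simp only [map_mul]; ring
  · intro g hg
    refine (congrArg (· ∈ 𝔞) ?_).mp (Ideal.mul_mem_left 𝔞 (C (m1 * m3)) (d2' g (Ideal.subset_span hg)))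
    simp only [map_mul]; ring
  · refine (congrArg (· ∈ Ideal.span T ⊔ 𝔞) ?_).mp (Ideal.mul_mem_left (Ideal.span T ⊔ 𝔞) (C (m1 * m2)) d3')
    simp only [map_mul]; ring

end Domain

end

end Pool.Agent.NH60.Cen
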