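import Mathlib
import Pool.Agent.NH60.CenAlg

/-!
# Linear changes of coordinates and the eigen-form of a planar vector field
-/

set_option autoImplicit false

namespace Pool.Agent.NH60.Cen

open MvPolynomial

noncomputable section

variable {R : Type*} [CommRing R]

/-- linear substitution -/
def tau (M : Matrix (Fin 2) (Fin 2) R) : MvPolynomial (Fin 2) R →ₐ[R] MvPolynomial (Fin 2) R :=
  aeval (fun i => C (M i 0) * X 0 + C (M i 1) * X 1)

@[simp] theorem tau_X (M : Matrix (Fin 2) (Fin 2) R) (i : Fin 2) :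
    tau M (X i) = C (M i 0) * X 0 + C (M i 1) * X 1 := by simp [tau]

theorem tau_tau (M N : Matrix (Fin 2) (Fin 2) R) (f : MvPolynomial (Fin 2) R) :
    tau M (tau N f) = tau (N * M) f := by
  rw [← AlgHom.comp_apply]
  congr 1
  apply MvPolynomial.algHom_ext
  intro i
  rw [AlgHom.comp_apply, tau_X, tau_X, map_add, map_mul, map_mul, tau_X, tau_X, Matrix.mul_apply,
    Matrix.mul_apply, Fin.sum_univ_two, Fin.sum_univ_two]
  have h : ∀ r : R, tau M (C r) = C r := fun r => by simp [tau]
  rw [h, h]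
  simp only [map_add, map_mul]
  ring

theorem tau_one (f : MvPolynomial (Fin 2) R) : tau (1 : Matrix (Fin 2) (Fin 2) R) f = f := by
  have : tau (1 : Matrix (Fin 2) (Fin 2) R) = AlgHom.id R _ := by
    apply MvPolynomial.algHom_ext
    intro i
    rw [tau_X]
    revert i
    rw [Fin.forall_fin_two]
    constructor
    · rw [Matrix.one_apply_eq, Matrix.one_apply_ne (by decide)]; simp
    · rw [Matrix.one_apply_eq, Matrix.one_apply_ne (by decide)]; simp
  rw [this]; rfl

theorem tau_C (M : Matrix (Fin 2) (Fin 2) R) (r : R) : tau M (C r) = C r := by simp [tau]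

theorem pderiv_tau (M : Matrix (Fin 2) (Fin 2) R) (j : Fin 2) (f : MvPolynomial (Fin 2) R) :
    pderiv j (tau M f) = C (M 0 j) * tau M (pderiv 0 f) + C (M 1 j) * tau M (pderiv 1 f) := by
  induction f using MvPolynomial.induction_on with
  | C a => simp [tau_C]
  | add p q hp hq => rw [map_add, map_add, hp, hq, map_add, map_add, map_add, map_add]; ring
  | mul_X p n hp =>
    rw [map_mul, pderiv_mul, hp, tau_X]
    fin_cases n <;> fin_cases j <;> simp [pderiv_mul, pderiv_X_self] <;> ring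

theorem tau_mem (M : Matrix (Fin 2) (Fin 2) R) {k : ℕ} {f : MvPolynomial (Fin 2) R} (hf : f ∈ mI R ^ k) :
    tau M f ∈ mI R ^ k := by
  have h1 : Ideal.map (tau M).toRingHom (mI R) ≤ mI R := by
    rw [Ideal.map_le_iff_le_comap, Ideal.span_le]
    rintro _ ⟨i, rfl⟩
    rw [SetLike.mem_coe, Ideal.mem_comap]
    change tau M (X i) ∈ _
    rw [tau_X]
    exact add_mem (Ideal.mul_mem_left _ _ (Ideal.subset_span ⟨0, rfl⟩))
      (Ideal.mul_mem_left _ _ (Ideal.subset_span ⟨1, rfl⟩))
  have h2 : Ideal.map (tau M).toRingHom (mI R ^ k) ≤ mI R ^ k := by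
    rw [Ideal.map_pow]; exact Ideal.pow_right_mono h1 k
  exact h2 (Ideal.mem_map_of_mem _ hf)

theorem eval_tau (M : Matrix (Fin 2) (Fin 2) R) (z : Fin 2 → R) (f : MvPolynomial (Fin 2) R) :
    eval z (tau M f) = eval (M.mulVec z) f := by
  induction f using MvPolynomial.induction_on with
  | C a => simp [tau_C]
  | add p q hp hq => simp only [map_add, hp, hq]
  | mul_X p n hp =>
    rw [map_mul, map_mul, hp, tau_X, map_mul]
    fin_cases n <;> simp [Matrix.mulVec, dotProduct, Fin.sum_univ_two]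

/-- the linear part -/
theorem lin_part {f : MvPolynomial (Fin 2) R} (hf : f ∈ mI R ^ 1) :
    f - (C (f.coeff (Finsupp.single 0 1)) * X 0 + C (f.coeff (Finsupp.single 1 1)) * X 1) ∈ mI R ^ 2 := by
  rw [mem_mI_pow] at hf ⊢
  intro m hm
  rcases Nat.eq_zero_or_pos (m 0 + m 1) with h | h
  · have h0 : m = 0 := by
      ext i; fin_cases i
      · simp; omega
      · simp; omega
    subst h0
    rw [coeff_sub, hf _ (by simp), coeff_add, coeff_C_mul, coeff_C_mul, coeff_X', coeff_X']
    simp
  · have h1 : m = Finsupp.single 0 1 ∨ m = Finsupp.single 1 1 := by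
      by_cases h0 : m 0 = 1
      · left; ext i; fin_cases i
        · simpa using h0
        · simp; omega
      · right; ext i; fin_cases i
        · simp; omega
        · simp; omega
    rcases h1 with rfl | rfl
    · rw [coeff_sub, coeff_add, coeff_C_mul, coeff_C_mul, coeff_X', coeff_X']
      have : (Finsupp.single 1 1 : Fin 2 →₀ ℕ) ≠ Finsupp.single 0 1 := by
        intro h; have := DFunLike.congr_fun h 0; simp at this
      simp [this]
    · rw [coeff_sub, coeff_add, coeff_C_mul, coeff_C_mul, coeff_X', coeff_X']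
      have : (Finsupp.single 0 1 : Fin 2 →₀ ℕ) ≠ Finsupp.single 1 1 := by
        intro h; have := DFunLike.congr_fun h 0; simp at this
      simp [this]

/-- eigenvector modulo a smaller invariant submodule -/
theorem eig_mod {M : Type*} [AddCommGroup M] [Module R M] (V : Module.End R M) (W : Submodule R M)
    (hW : ∀ x ∈ W, V x ∈ W) {g : M} {μ : R} (hg : V g - μ • g ∈ W) (ψ : Polynomial R) :
    Polynomial.aeval V ψ g - ψ.eval μ • g ∈ W := by
  have hpow : ∀ n : ℕ, (V ^ n) g - μ ^ n • g ∈ W := by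
    intro n
    induction n with
    | zero => simp
    | succ n ih =>
      rw [pow_succ', Module.End.mul_apply]
      have h1 := hW _ ih
      rw [map_sub, map_smul] at h1
      have h2 := W.smul_mem (μ ^ n) hg
      have h3 := add_mem h1 h2
      have h4 : V ((V ^ n) g) - μ ^ (n + 1) • g = V ((V ^ n) g) - μ ^ n • V g + μ ^ n • (V g - μ • g) := by
        rw [smul_sub, smul_smul, pow_succ]; abel
      rw [h4]; exact h3
  induction ψ using Polynomial.induction_on' with
  | add p q hp hq =>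
    rw [map_add, LinearMap.add_apply, Polynomial.eval_add, add_smul]
    have := add_mem hp hq
    have h4 : Polynomial.aeval V p g + Polynomial.aeval V q g - (Polynomial.eval μ p • g + Polynomial.eval μ q • g) =
      Polynomial.aeval V p g - Polynomial.eval μ p • g + (Polynomial.aeval V q g - Polynomial.eval μ q • g) := by abel
    rw [h4]; exact this
  | monomial n a =>
    rw [Polynomial.aeval_monomial, Module.algebraMap_end_eq_smul_id, Module.End.mul_apply,
      LinearMap.smul_apply, LinearMap.id_apply, Polynomial.eval_monomial, mul_smul, ← smul_sub]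
    exact W.smul_mem _ (hpow n)

theorem aeval_mem {M : Type*} [AddCommGroup M] [Module R M] (V : Module.End R M) (W : Submodule R M)
    (hW : ∀ x ∈ W, V x ∈ W) (ψ : Polynomial R) {x : M} (hx : x ∈ W) : Polynomial.aeval V ψ x ∈ W := by
  have hpow : ∀ n : ℕ, ∀ x ∈ W, (V ^ n) x ∈ W := by
    intro n
    induction n with
    | zero => intro x hx; simpa using hx
    | succ n ih => intro x hx; rw [pow_succ', Module.End.mul_apply]; exact hW _ (ih x hx)
  induction ψ using Polynomial.induction_on' with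
  | add p q hp hq => rw [map_add, LinearMap.add_apply]; exact add_mem hp hq
  | monomial n a =>
    rw [Polynomial.aeval_monomial, Module.algebraMap_end_eq_smul_id, Module.End.mul_apply,
      LinearMap.smul_apply, LinearMap.id_apply]
    exact W.smul_mem _ (hpow n _ hx)

/-- the eigen-form of a planar polynomial vector field with traceless invertible linear part -/
theorem eigen_form (P Q : MvPolynomial (Fin 2) ℂ) (hP : P ∈ mI ℂ ^ 1) (hQ : Q ∈ mI ℂ ^ 1)
    (htr : P.coeff (Finsupp.single 0 1) + Q.coeff (Finsupp.single 1 1) = 0)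
    (hJ : P.coeff (Finsupp.single 0 1) * Q.coeff (Finsupp.single 1 1) -
      P.coeff (Finsupp.single 1 1) * Q.coeff (Finsupp.single 0 1) ≠ 0) :
    ∃ (lam : ℂ) (M N : Matrix (Fin 2) (Fin 2) ℂ) (X' Y' : MvPolynomial (Fin 2) ℂ), lam ≠ 0 ∧
      lam ^ 2 = -(P.coeff (Finsupp.single 0 1) * Q.coeff (Finsupp.single 1 1) -
        P.coeff (Finsupp.single 1 1) * Q.coeff (Finsupp.single 0 1)) ∧
      M * N = 1 ∧ N * M = 1 ∧ X' ∈ mI ℂ ^ 2 ∧ Y' ∈ mI ℂ ^ 2 ∧
      (∀ f, tau M (VL P Q f) = lam • VL (X 0 + X') (-X 1 + Y') (tau M f)) ∧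
      tau M P = C lam * (C (M 0 0) * (X 0 + X') + C (M 0 1) * (-X 1 + Y')) ∧
      tau M Q = C lam * (C (M 1 0) * (X 0 + X') + C (M 1 1) * (-X 1 + Y')) := by
  set a := P.coeff (Finsupp.single 0 1) with ha
  set b := P.coeff (Finsupp.single 1 1) with hb
  set c := Q.coeff (Finsupp.single 0 1) with hc
  have hd : Q.coeff (Finsupp.single 1 1) = -a := by linear_combination htr
  rw [hd] at hJ ⊢
  obtain ⟨l0, hl0⟩ := IsAlgClosed.exists_pow_nat_eq (a ^ 2 + b * c) (n := 2) (by norm_num)
  have hne : a ^ 2 + b * c ≠ 0 := fun h => hJ (by linear_combination -h)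
  have hl0' : l0 ≠ 0 := by
    rintro rfl; apply hne; rw [← hl0]; ring
  obtain ⟨l, hl, hal⟩ : ∃ l : ℂ, l ^ 2 = a ^ 2 + b * c ∧ a + l ≠ 0 := by
    by_cases h : a + l0 = 0
    · refine ⟨-l0, by rw [← hl0]; ring, fun h' => hl0' ?_⟩
      have : 2 * l0 = 0 := by linear_combination h - h'
      simpa using this
    · exact ⟨l0, hl0, h⟩
  have hl' : l ≠ 0 := by
    rintro rfl; apply hne; rw [← hl]; ring
  set M : Matrix (Fin 2) (Fin 2) ℂ := !![a + l, b; c, -(a + l)] with hM
  set N : Matrix (Fin 2) (Fin 2) ℂ := (2 * l * (a + l))⁻¹ • M with hN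
  have hk : (2 * l * (a + l)) ≠ 0 := mul_ne_zero (mul_ne_zero two_ne_zero hl') hal
  have hMM : M * M = (2 * l * (a + l)) • (1 : Matrix (Fin 2) (Fin 2) ℂ) := by
    ext i j
    fin_cases i <;> fin_cases j <;>
      simp [hM, Matrix.mul_apply, Fin.sum_univ_two, Matrix.one_apply]
    · linear_combination -hl
    · ring
    · ring
    · linear_combination -hl
  have hMN : M * N = 1 := by
    rw [hN, Matrix.mul_smul, hMM, smul_smul, inv_mul_cancel₀ hk, one_smul]
  have hNM : N * M = 1 := by
    rw [hN, Matrix.smul_mul, hMM, smul_smul, inv_mul_cancel₀ hk, one_smul]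
  -- entries
  have n00 : N 0 0 * (a + l) + N 0 1 * c = 1 := by
    have := congrFun (congrFun hNM 0) 0
    simpa [Matrix.mul_apply, Fin.sum_univ_two, hM] using this
  have n01 : N 0 0 * b + N 0 1 * -(a + l) = 0 := by
    have := congrFun (congrFun hNM 0) 1
    simpa [Matrix.mul_apply, Fin.sum_univ_two, hM] using this
  have n10 : N 1 0 * (a + l) + N 1 1 * c = 0 := by
    have := congrFun (congrFun hNM 1) 0
    simpa [Matrix.mul_apply, Fin.sum_univ_two, hM] using this
  have n11 : N 1 0 * b + N 1 1 * -(a + l) = 1 := by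
    have := congrFun (congrFun hNM 1) 1
    simpa [Matrix.mul_apply, Fin.sum_univ_two, hM] using this
  have m00 : (a + l) * N 0 0 + b * N 1 0 = 1 := by
    have := congrFun (congrFun hMN 0) 0
    simpa [Matrix.mul_apply, Fin.sum_univ_two, hM] using this
  have m01 : (a + l) * N 0 1 + b * N 1 1 = 0 := by
    have := congrFun (congrFun hMN 0) 1
    simpa [Matrix.mul_apply, Fin.sum_univ_two, hM] using this
  have m10 : c * N 0 0 + -(a + l) * N 1 0 = 0 := by
    have := congrFun (congrFun hMN 1) 0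
    simpa [Matrix.mul_apply, Fin.sum_univ_two, hM] using this
  have m11 : c * N 0 1 + -(a + l) * N 1 1 = 1 := by
    have := congrFun (congrFun hMN 1) 1
    simpa [Matrix.mul_apply, Fin.sum_univ_two, hM] using this
  have hM00 : M 0 0 = a + l := rfl
  have hM01 : M 0 1 = b := rfl
  have hM10 : M 1 0 = c := rfl
  have hM11 : M 1 1 = -(a + l) := rfl
  set V0 : MvPolynomial (Fin 2) ℂ := C l⁻¹ * (C (N 0 0) * tau M P + C (N 0 1) * tau M Q) with hV0
  set V1 : MvPolynomial (Fin 2) ℂ := C l⁻¹ * (C (N 1 0) * tau M P + C (N 1 1) * tau M Q) with hV1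
  have hCl : (C l : MvPolynomial (Fin 2) ℂ) * C l⁻¹ = 1 := by
    rw [← C_mul, mul_inv_cancel₀ hl', C_1]
  have cm : ∀ {x y : ℂ}, x = y → (C x : MvPolynomial (Fin 2) ℂ) = C y := fun h => by rw [h]
  have m00' := cm m00
  have m01' := cm m01
  have m10' := cm m10
  have m11' := cm m11
  simp only [map_add, map_mul, map_neg, map_one, map_zero] at m00' m01' m10' m11'
  have eP : tau M P = C l * (C (M 0 0) * V0 + C (M 0 1) * V1) := by
    rw [hM00, hM01, hV0, hV1, map_add]
    linear_combination (-(C l * C l⁻¹ * tau M P)) * m00' - (C l * C l⁻¹ * tau M Q) * m01' - tau M P * hCl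
  have eQ : tau M Q = C l * (C (M 1 0) * V0 + C (M 1 1) * V1) := by
    rw [hM10, hM11, hV0, hV1, map_neg, map_add]
    linear_combination (-(C l * C l⁻¹ * tau M P)) * m10' - (C l * C l⁻¹ * tau M Q) * m11' - tau M Q * hCl
  have hlinP := tau_mem M (lin_part hP)
  have hlinQ := tau_mem M (lin_part hQ)
  rw [hd] at hlinQ
  rw [← ha, ← hb] at hlinP
  rw [← hc] at hlinQ
  have n00' := cm n00
  have n01' := cm n01
  have n10' := cm n10
  have n11' := cm n11
  have hl2' := cm hl
  simp only [map_add, map_mul, map_neg, map_one, map_zero, map_pow] at n00' n01' n10' n11' hl2'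
  have hX : V0 - X 0 ∈ mI ℂ ^ 2 := by
    have h1 : V0 - X 0 = C l⁻¹ * (C (N 0 0) * tau M (P - (C a * X 0 + C b * X 1)) +
        C (N 0 1) * tau M (Q - (C c * X 0 + C (-a) * X 1))) := by
      simp only [hV0, map_sub, map_add, map_mul, tau_C, tau_X, hM00, hM01, hM10, hM11, map_neg]
      linear_combination (C l⁻¹ * C l * X 0) * n00' - (C l⁻¹ * C l * X 1) * n01' + X 0 * hCl -
        (C l⁻¹ * X 0 * C (N 0 0) + C l⁻¹ * X 1 * C (N 0 1)) * hl2'
    rw [h1]
    exact Ideal.mul_mem_left _ _ (add_mem (Ideal.mul_mem_left _ _ hlinP) (Ideal.mul_mem_left _ _ hlinQ))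
  have hY : V1 + X 1 ∈ mI ℂ ^ 2 := by
    have h1 : V1 + X 1 = C l⁻¹ * (C (N 1 0) * tau M (P - (C a * X 0 + C b * X 1)) +
        C (N 1 1) * tau M (Q - (C c * X 0 + C (-a) * X 1))) := by
      simp only [hV1, map_sub, map_add, map_mul, tau_C, tau_X, hM00, hM01, hM10, hM11, map_neg]
      linear_combination (C l⁻¹ * C l * X 0) * n10' - (C l⁻¹ * C l * X 1) * n11' - X 1 * hCl -
        (C l⁻¹ * X 0 * C (N 1 0) + C l⁻¹ * X 1 * C (N 1 1)) * hl2'
    rw [h1]
    exact Ideal.mul_mem_left _ _ (add_mem (Ideal.mul_mem_left _ _ hlinP) (Ideal.mul_mem_left _ _ hlinQ))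
  refine ⟨l, M, N, V0 - X 0, V1 + X 1, hl', by rw [hl]; ring, hMN, hNM, hX, hY, ?_, ?_, ?_⟩
  · intro f
    have e0 : X 0 + (V0 - X 0) = V0 := by ring
    have e1 : -X 1 + (V1 + X 1) = V1 := by ring
    rw [e0, e1, VL_apply, VL_apply, pderiv_tau, pderiv_tau, map_add, map_mul, map_mul, eP, eQ, smul_eq_C_mul]
    ring
  · rw [show X 0 + (V0 - X 0) = V0 by ring, show -X 1 + (V1 + X 1) = V1 by ring]; exact eP
  · rw [show X 0 + (V0 - X 0) = V0 by ring, show -X 1 + (V1 + X 1) = V1 by ring]; exact eQ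

end

end Pool.Agent.NH60.Cen
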