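import Mathlib
import Pool.Agent.NH60.CenExt

/-!
# The analytic normal form up to one obstruction function
-/

set_option autoImplicit false

namespace Pool.Agent.NH60.Cen

open Complex MeasureTheory Topology Filter Set MvPolynomial

noncomputable section

theorem MX_map {A B : Type*} [CommRing A] [Algebra ℂ A] [CommRing B] [Algebra ℂ B] (φ : A →ₐ[ℂ] B)
    (X : MvPolynomial (Fin 2) ℂ) (e : ℂ) (z0 z1 : A) : φ (MX X e z0 z1) = MX X e (φ z0) (φ z1) := by
  simp [MX, map_sum]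

theorem eval_MX (X : MvPolynomial (Fin 2) ℂ) (hX : ∀ m, m 0 + m 1 < 2 → X.coeff m = 0) (e a b : ℂ) :
    eval ![e * a, e * b] X = e * (e * MX X e a b) := by
  rw [eval_eq', MX, Finset.mul_sum, Finset.mul_sum]
  apply Finset.sum_congr rfl
  intro m hm
  have h2 : 2 ≤ m 0 + m 1 := by
    by_contra h
    exact (mem_support_iff.1 hm) (hX m (by omega))
  obtain ⟨k, hk⟩ := Nat.exists_eq_add_of_le h2
  rw [Fin.prod_univ_two, hk]
  simp only [Matrix.cons_val_zero, Matrix.cons_val_one, mul_pow, smul_eq_mul]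
  have h3 : e ^ m 0 * e ^ m 1 = e * e * e ^ k := by
    rw [← pow_add, hk, pow_add]; ring
  have h4 : 2 + k - 2 = k := by omega
  rw [h4]
  calc coeff m X * (e ^ m 0 * a ^ m 0 * (e ^ m 1 * b ^ m 1))
      = coeff m X * (e ^ m 0 * e ^ m 1) * (a ^ m 0 * b ^ m 1) := by ring
    _ = _ := by rw [h3]; ring

theorem norm_MX_le (X : MvPolynomial (Fin 2) ℂ) (hX : ∀ m, m 0 + m 1 < 2 → X.coeff m = 0) {e a b : ℂ} {M : ℝ}
    (he : ‖e‖ ≤ 1) (ha : ‖a‖ ≤ M) (hb : ‖b‖ ≤ M) (hM : M ≤ 1) :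
    ‖MX X e a b‖ ≤ (∑ m ∈ X.support, ‖X.coeff m‖) * M ^ 2 := by
  have hM0 : 0 ≤ M := (norm_nonneg a).trans ha
  rw [MX, Finset.sum_mul]
  refine (norm_sum_le _ _).trans (Finset.sum_le_sum fun m hm => ?_)
  have h2 : 2 ≤ m 0 + m 1 := by
    by_contra h
    exact (mem_support_iff.1 hm) (hX m (by omega))
  rw [norm_smul, norm_mul, norm_pow, norm_mul, norm_pow, norm_pow]
  have h3 : ‖e‖ ^ (m 0 + m 1 - 2) ≤ 1 := pow_le_one₀ (norm_nonneg _) he
  have h4 : ‖a‖ ^ m 0 * ‖b‖ ^ m 1 ≤ M ^ 2 := by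
    calc ‖a‖ ^ m 0 * ‖b‖ ^ m 1 ≤ M ^ m 0 * M ^ m 1 := by gcongr
      _ = M ^ (m 0 + m 1) := (pow_add _ _ _).symm
      _ ≤ M ^ 2 := pow_le_pow_of_le_one hM0 hM h2
  calc ‖coeff m X‖ * ‖e‖ ^ (m 0 + m 1 - 2) * (‖a‖ ^ m 0 * ‖b‖ ^ m 1)
      ≤ ‖coeff m X‖ * 1 * M ^ 2 := by gcongr
    _ = _ := by ring

theorem normal_form (X Y : MvPolynomial (Fin 2) ℂ) (hX : ∀ m, m 0 + m 1 < 2 → X.coeff m = 0)
    (hY : ∀ m, m 0 + m 1 < 2 → Y.coeff m = 0) :
    ∃ (ρ : ℝ) (P0 P1 r g : E2 → ℂ), 0 < ρ ∧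
      (∀ z ∈ Metric.ball (0 : E2) ρ, AnalyticAt ℂ P0 z ∧ AnalyticAt ℂ P1 z ∧ AnalyticAt ℂ r z ∧ AnalyticAt ℂ g z) ∧
      P0 0 = 0 ∧ P1 0 = 0 ∧ LinearIndependent ℂ ![fderiv ℂ P0 0, fderiv ℂ P1 0] ∧
      fderiv ℂ P0 0 ![1, 0] ≠ 0 ∧
      (∀ z ∈ Metric.ball (0 : E2) ρ, P0 z + eval ![P0 z, P1 z] X =
        (1 + r z) * fderiv ℂ P0 z ![z 0, -z 1]) ∧
      (∀ z ∈ Metric.ball (0 : E2) ρ, -P1 z + eval ![P0 z, P1 z] Y =
        (1 + r z) * fderiv ℂ P1 z ![z 0, -z 1] + g z * z 1) ∧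
      (∀ z ∈ Metric.ball (0 : E2) ρ, ∀ z' ∈ Metric.ball (0 : E2) ρ, z 0 * z 1 = z' 0 * z' 1 →
        r z = r z' ∧ g z = g z') := by
  set CX : ℝ := ∑ m ∈ X.support, ‖X.coeff m‖ with hCX
  set CY : ℝ := ∑ m ∈ Y.support, ‖Y.coeff m‖ with hCY
  have hCX0 : 0 ≤ CX := Finset.sum_nonneg fun _ _ => norm_nonneg _
  have hCY0 : 0 ≤ CY := Finset.sum_nonneg fun _ _ => norm_nonneg _
  set C0 : ℝ := ‖rS‖ + ‖rT‖ + 1 with hC0
  have hrS := norm_nonneg rS
  have hrT := norm_nonneg rT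
  have hC01 : 1 ≤ C0 := by linarith
  set δ : ℝ := min (1 / (16 * C0)) (1 / (2 * (CX + CY + 1))) with hδ
  have hδ0 : 0 < δ := by
    rw [hδ]; exact lt_min (by positivity) (by positivity)
  have hδ1 : δ * C0 ≤ 1 / 16 := by
    have := min_le_left (1 / (16 * C0)) (1 / (2 * (CX + CY + 1)))
    calc δ * C0 ≤ 1 / (16 * C0) * C0 := by gcongr
      _ = 1 / 16 := by field_simp
  have hδ2 : δ * (CX + CY + 1) ≤ 1 / 2 := by
    have := min_le_right (1 / (16 * C0)) (1 / (2 * (CX + CY + 1)))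
    calc δ * (CX + CY + 1) ≤ 1 / (2 * (CX + CY + 1)) * (CX + CY + 1) := by gcongr
      _ = 1 / 2 := by field_simp
  have hδ3 : δ ≤ 1 := by nlinarith
  obtain ⟨e, a, b, he0, he, ha, hb, hae, hbe⟩ := exists_sol X Y hδ0
  set g1 : CC := opS a with hg1
  set g2 : CC := opT b with hg2
  set rr : CC := laL (prP a) with hrr
  set gg : CC := rr + laR (prQ b) with hgg
  have hg1B : g1 ∈ BA := opS_BA a.2
  have hg2B : g2 ∈ BA := opT_BA b.2
  have hrrB : rr ∈ BA := laL_BA (prP_BA a.2)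
  have hggB : gg ∈ BA := add_mem hrrB (laR_BA (prQ_BA b.2))
  have hng1 : ‖g1‖ ≤ 1 / 16 := by
    have h1 : ‖g1‖ = ‖rS a‖ := rfl
    rw [h1]
    calc ‖rS a‖ ≤ ‖rS‖ * ‖a‖ := rS.le_opNorm a
      _ ≤ C0 * δ := by gcongr; linarith
      _ ≤ 1 / 16 := by rw [mul_comm]; exact hδ1
  have hng2 : ‖g2‖ ≤ 1 / 16 := by
    have h1 : ‖g2‖ = ‖rT b‖ := rfl
    rw [h1]
    calc ‖rT b‖ ≤ ‖rT‖ * ‖b‖ := rT.le_opNorm b
      _ ≤ C0 * δ := by gcongr; linarith
      _ ≤ 1 / 16 := by rw [mul_comm]; exact hδ1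
  -- the functional equations
  have hA : (a : CC) = e • MX X e (UU + g1) (WW + g2) - rr * (g1 + a - prP a) := by
    have h1 : (a : CC) = BA.val (e • MX X e (bU + rS a) (bW + rT b) - rL (rP a) * (rS a + a - rP a)) :=
      congrArg (fun x : BB => (x : CC)) hae
    rw [map_sub, map_smul, MX_map, map_mul] at h1
    exact h1
  have hB : (b : CC) = e • MX Y e (UU + g1) (WW + g2) - rr * (b - prQ b - g2) := by
    have h1 : (b : CC) = BA.val (e • MX Y e (bU + rS a) (bW + rT b) - rL (rP a) * (b - rQ b - rT b)) :=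
      congrArg (fun x : BB => (x : CC)) hbe
    rw [map_sub, map_smul, MX_map, map_mul] at h1
    exact h1
  set F0 : E2 → ℂ := fun z => z 0 + ext g1 z with hF0
  set F1 : E2 → ℂ := fun z => z 1 + ext g2 z with hF1
  have hmem : ∀ z ∈ Metric.ball (0 : E2) (1 / 4), z ∈ Metric.closedBall (0 : E2) 1 := fun z hz => by
    rw [mem_ball_zero_iff] at hz
    rw [mem_closedBall_zero_iff]; linarith
  have hlt : ∀ z ∈ Metric.ball (0 : E2) (1 / 4), ‖z‖ < 1 / 4 := fun z hz => by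
    rwa [mem_ball_zero_iff] at hz
  have hAz : ∀ z (hz : z ∈ Metric.ball (0 : E2) (1 / 4)),
      ext a z = e * MX X e (F0 z) (F1 z) - ext rr z * (ext g1 z + ext a z - ext (prP a) z) := by
    intro z hz
    have hK := hmem z hz
    simp only [hF0, hF1, ext_of_mem _ hK]
    conv_lhs => rw [hA]
    have h2 := MX_map (ContinuousMap.evalAlgHom ℂ ℂ (⟨z, hK⟩ : KK)) X e (UU + g1) (WW + g2)
    simp only [ContinuousMap.sub_apply, ContinuousMap.mul_apply, ContinuousMap.smul_apply,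
      ContinuousMap.add_apply, smul_eq_mul]
    rw [← ContinuousMap.evalAlgHom_apply (S := ℂ) (x := (⟨z, hK⟩ : KK)) (f := MX X e (UU + g1) (WW + g2)), h2]
    rfl
  have hBz : ∀ z (hz : z ∈ Metric.ball (0 : E2) (1 / 4)),
      ext b z = e * MX Y e (F0 z) (F1 z) - ext rr z * (ext b z - ext (prQ b) z - ext g2 z) := by
    intro z hz
    have hK := hmem z hz
    simp only [hF0, hF1, ext_of_mem _ hK]
    conv_lhs => rw [hB]
    have h2 := MX_map (ContinuousMap.evalAlgHom ℂ ℂ (⟨z, hK⟩ : KK)) Y e (UU + g1) (WW + g2)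
    simp only [ContinuousMap.sub_apply, ContinuousMap.mul_apply, ContinuousMap.smul_apply,
      smul_eq_mul]
    rw [← ContinuousMap.evalAlgHom_apply (S := ℂ) (x := (⟨z, hK⟩ : KK)) (f := MX Y e (UU + g1) (WW + g2)), h2]
    rfl
  have hPz : ∀ z (hz : z ∈ Metric.ball (0 : E2) (1 / 4)), ext (prP a) z = z 0 * ext rr z := by
    intro z hz
    have hK := hmem z hz
    rw [ext_of_mem _ hK, ext_of_mem _ hK]
    conv_lhs => rw [← UU_laL_prP a.2]
    rfl
  have hQz : ∀ z (hz : z ∈ Metric.ball (0 : E2) (1 / 4)), ext (prQ b) z = z 1 * ext (laR (prQ b)) z := by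
    intro z hz
    have hK := hmem z hz
    rw [ext_of_mem _ hK, ext_of_mem _ hK]
    conv_lhs => rw [← WW_laR_prQ b.2]
    rfl
  have hd1 : ∀ z ∈ Metric.ball (0 : E2) (1 / 4), fderiv ℂ (ext g1) z ![z 0, -z 1] =
      ext g1 z + ext a z - ext (prP a) z := by
    intro z hz
    rw [fderiv_of_rot hg1B (rot_S a.2) (hlt z hz)]
    simp only [ext_of_mem _ (hmem z hz)]
    rfl
  have hd2 : ∀ z ∈ Metric.ball (0 : E2) (1 / 4), fderiv ℂ (ext g2) z ![z 0, -z 1] =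
      ext b z - ext (prQ b) z - ext g2 z := by
    intro z hz
    rw [fderiv_of_rot hg2B (rot_T b.2) (hlt z hz)]
    simp only [ext_of_mem _ (hmem z hz)]
    rfl
  have hp0 : ∀ z : E2, HasFDerivAt (fun z : E2 => z 0) (ContinuousLinearMap.proj 0 : E2 →L[ℂ] ℂ) z :=
    fun z => (ContinuousLinearMap.proj 0 : E2 →L[ℂ] ℂ).hasFDerivAt
  have hp1 : ∀ z : E2, HasFDerivAt (fun z : E2 => z 1) (ContinuousLinearMap.proj 1 : E2 →L[ℂ] ℂ) z :=
    fun z => (ContinuousLinearMap.proj 1 : E2 →L[ℂ] ℂ).hasFDerivAt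
  have hD0 : ∀ z ∈ Metric.ball (0 : E2) (1 / 4), HasFDerivAt (fun z => e * F0 z)
      (e • ((ContinuousLinearMap.proj 0 : E2 →L[ℂ] ℂ) + fderiv ℂ (ext g1) z)) z := by
    intro z hz
    exact ((hp0 z).add (ext_an hg1B (hlt z hz)).differentiableAt.hasFDerivAt).const_mul e
  have hD1 : ∀ z ∈ Metric.ball (0 : E2) (1 / 4), HasFDerivAt (fun z => e * F1 z)
      (e • ((ContinuousLinearMap.proj 1 : E2 →L[ℂ] ℂ) + fderiv ℂ (ext g2) z)) z := by
    intro z hz
    exact ((hp1 z).add (ext_an hg2B (hlt z hz)).differentiableAt.hasFDerivAt).const_mul e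
  have heq0 : ∀ z ∈ Metric.ball (0 : E2) (1 / 4), e * F0 z + eval ![e * F0 z, e * F1 z] X =
        (1 + ext rr z) * fderiv ℂ (fun z => e * F0 z) z ![z 0, -z 1] := by
    intro z hz
    rw [(hD0 z hz).fderiv, eval_MX X hX]
    simp only [ContinuousLinearMap.smul_apply, ContinuousLinearMap.add_apply, ContinuousLinearMap.proj_apply,
      Matrix.cons_val_zero, smul_eq_mul, hd1 z hz]
    have h1 := hAz z hz
    have h2 := hPz z hz
    simp only [hF0, hF1] at h1 ⊢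
    linear_combination (-e) * h1 + e * h2
  have heq1 : ∀ z ∈ Metric.ball (0 : E2) (1 / 4), -(e * F1 z) + eval ![e * F0 z, e * F1 z] Y =
        (1 + ext rr z) * fderiv ℂ (fun z => e * F1 z) z ![z 0, -z 1] + (e * ext gg z) * z 1 := by
    intro z hz
    rw [(hD1 z hz).fderiv, eval_MX Y hY]
    simp only [ContinuousLinearMap.smul_apply, ContinuousLinearMap.add_apply, ContinuousLinearMap.proj_apply,
      Matrix.cons_val_one, Matrix.cons_val_fin_one, smul_eq_mul, hd2 z hz]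
    have h1 := hBz z hz
    have h2 := hQz z hz
    have h3 : ext gg z = ext rr z + ext (laR (prQ b)) z := by
      simp only [ext_of_mem _ (hmem z hz)]; rfl
    rw [h3]
    simp only [hF0, hF1] at h1 ⊢
    linear_combination (-e) * h1 + e * h2
  have h0mem : (0 : E2) ∈ Metric.ball (0 : E2) (1 / 4) := Metric.mem_ball_self (by norm_num)
  -- value at the origin
  have hzero : F0 0 = 0 ∧ F1 0 = 0 := by
    have k0 := heq0 0 h0mem
    have k1 := heq1 0 h0mem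
    have hv : (![(0 : E2) 0, -(0 : E2) 1] : E2) = 0 := by ext i; fin_cases i <;> simp
    rw [hv, map_zero, mul_zero, eval_MX X hX] at k0
    rw [hv, map_zero, mul_zero, eval_MX Y hY] at k1
    simp only [Pi.zero_apply, mul_zero, add_zero] at k1
    have k0' : F0 0 = -(e * MX X e (F0 0) (F1 0)) := by
      have : e * (F0 0 + e * MX X e (F0 0) (F1 0)) = 0 := by linear_combination k0
      have := (mul_eq_zero.1 this).resolve_left he0
      linear_combination this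
    have k1' : F1 0 = e * MX Y e (F0 0) (F1 0) := by
      have : e * (-F1 0 + e * MX Y e (F0 0) (F1 0)) = 0 := by linear_combination k1
      have := (mul_eq_zero.1 this).resolve_left he0
      linear_combination -this
    set M : ℝ := max ‖F0 0‖ ‖F1 0‖ with hM
    have hM0 : 0 ≤ M := le_max_of_le_left (norm_nonneg _)
    have hM1 : M ≤ 1 := by
      rw [hM, max_le_iff]
      constructor
      · calc ‖F0 0‖ = ‖ext g1 0‖ := by simp [hF0]
          _ ≤ ‖g1‖ := ext_norm_le _ _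
          _ ≤ 1 := by linarith
      · calc ‖F1 0‖ = ‖ext g2 0‖ := by simp [hF1]
          _ ≤ ‖g2‖ := ext_norm_le _ _
          _ ≤ 1 := by linarith
    have he1 : ‖e‖ ≤ 1 := he.le.trans hδ3
    have b0 := norm_MX_le X hX he1 (le_max_left ‖F0 0‖ ‖F1 0‖) (le_max_right ‖F0 0‖ ‖F1 0‖) hM1
    have b1 := norm_MX_le Y hY he1 (le_max_left ‖F0 0‖ ‖F1 0‖) (le_max_right ‖F0 0‖ ‖F1 0‖) hM1
    have hMM : M ^ 2 ≤ M := by nlinarith
    have c0 : ‖F0 0‖ ≤ M / 2 := by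
      rw [k0', norm_neg, norm_mul]
      calc ‖e‖ * ‖MX X e (F0 0) (F1 0)‖ ≤ δ * (CX * M ^ 2) := by gcongr
        _ ≤ δ * ((CX + CY + 1) * M) := by gcongr; linarith
        _ = δ * (CX + CY + 1) * M := by ring
        _ ≤ 1 / 2 * M := by gcongr
        _ = M / 2 := by ring
    have c1 : ‖F1 0‖ ≤ M / 2 := by
      rw [k1', norm_mul]
      calc ‖e‖ * ‖MX Y e (F0 0) (F1 0)‖ ≤ δ * (CY * M ^ 2) := by gcongr
        _ ≤ δ * ((CX + CY + 1) * M) := by gcongr; linarith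
        _ = δ * (CX + CY + 1) * M := by ring
        _ ≤ 1 / 2 * M := by gcongr
        _ = M / 2 := by ring
    have hMle : M ≤ M / 2 := by
      rw [hM, max_le_iff]; exact ⟨c0, c1⟩
    have hMz : M = 0 := by linarith
    rw [hMz] at c0 c1
    exact ⟨norm_le_zero_iff.1 (by linarith), norm_le_zero_iff.1 (by linarith)⟩
  have hL1 : ∀ v : E2, ‖v‖ ≤ 1 → ‖fderiv ℂ (ext g1) 0 v‖ ≤ 1 / 4 := by
    intro v hv
    calc ‖fderiv ℂ (ext g1) 0 v‖ ≤ ‖fderiv ℂ (ext g1) 0‖ * ‖v‖ := ContinuousLinearMap.le_opNorm _ _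
      _ ≤ (4 * ‖g1‖) * 1 := by gcongr; exact ext_fderiv_le hg1B
      _ ≤ 1 / 4 := by linarith
  have hL2 : ∀ v : E2, ‖v‖ ≤ 1 → ‖fderiv ℂ (ext g2) 0 v‖ ≤ 1 / 4 := by
    intro v hv
    calc ‖fderiv ℂ (ext g2) 0 v‖ ≤ ‖fderiv ℂ (ext g2) 0‖ * ‖v‖ := ContinuousLinearMap.le_opNorm _ _
      _ ≤ (4 * ‖g2‖) * 1 := by gcongr; exact ext_fderiv_le hg2B
      _ ≤ 1 / 4 := by linarith
  have hv0 : ‖(![1, 0] : E2)‖ ≤ 1 := by
    rw [pi_norm_le_iff_of_nonneg zero_le_one, Fin.forall_fin_two]; simp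
  have hv1 : ‖(![0, 1] : E2)‖ ≤ 1 := by
    rw [pi_norm_le_iff_of_nonneg zero_le_one, Fin.forall_fin_two]; simp
  refine ⟨1 / 4, fun z => e * F0 z, fun z => e * F1 z, ext rr, fun z => e * ext gg z, by norm_num,
    ?_, ?_, ?_, ?_, ?_, heq0, heq1, ?_⟩
  · intro z hz
    have hz' := hlt z hz
    refine ⟨?_, ?_, ext_an hrrB hz', analyticAt_const.mul (ext_an hggB hz')⟩
    · exact analyticAt_const.mul (((ContinuousLinearMap.proj 0 : E2 →L[ℂ] ℂ).analyticAt z).add (ext_an hg1B hz'))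
    · exact analyticAt_const.mul (((ContinuousLinearMap.proj 1 : E2 →L[ℂ] ℂ).analyticAt z).add (ext_an hg2B hz'))
  · simp only [hzero.1, mul_zero]
  · simp only [hzero.2, mul_zero]
  · rw [(hD0 0 h0mem).fderiv, (hD1 0 h0mem).fderiv, LinearIndependent.pair_iff]
    intro s t hst
    have k0 := congrArg (fun L : E2 →L[ℂ] ℂ => L ![1, 0]) hst
    have k1 := congrArg (fun L : E2 →L[ℂ] ℂ => L ![0, 1]) hst
    simp only [ContinuousLinearMap.smul_apply, ContinuousLinearMap.add_apply, ContinuousLinearMap.proj_apply,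
      Matrix.cons_val_zero, Matrix.cons_val_one, Matrix.cons_val_fin_one, smul_eq_mul, ContinuousLinearMap.zero_apply] at k0 k1
    have k0' : s * (1 + fderiv ℂ (ext g1) 0 ![1, 0]) + t * fderiv ℂ (ext g2) 0 ![1, 0] = 0 := by
      have : e * (s * (1 + fderiv ℂ (ext g1) 0 ![1, 0]) + t * fderiv ℂ (ext g2) 0 ![1, 0]) = 0 := by
        linear_combination k0
      exact (mul_eq_zero.1 this).resolve_left he0
    have k1' : s * fderiv ℂ (ext g1) 0 ![0, 1] + t * (1 + fderiv ℂ (ext g2) 0 ![0, 1]) = 0 := by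
      have : e * (s * fderiv ℂ (ext g1) 0 ![0, 1] + t * (1 + fderiv ℂ (ext g2) 0 ![0, 1])) = 0 := by
        linear_combination k1
      exact (mul_eq_zero.1 this).resolve_left he0
    have c0 : ‖s‖ ≤ ‖s‖ * (1 / 4) + ‖t‖ * (1 / 4) := by
      have : s = -(s * fderiv ℂ (ext g1) 0 ![1, 0] + t * fderiv ℂ (ext g2) 0 ![1, 0]) := by
        linear_combination k0'
      calc ‖s‖ = ‖s * fderiv ℂ (ext g1) 0 ![1, 0] + t * fderiv ℂ (ext g2) 0 ![1, 0]‖ := by
            conv_lhs => rw [this]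
            rw [norm_neg]
        _ ≤ ‖s‖ * ‖fderiv ℂ (ext g1) 0 ![1, 0]‖ + ‖t‖ * ‖fderiv ℂ (ext g2) 0 ![1, 0]‖ := by
            refine (norm_add_le _ _).trans ?_
            rw [norm_mul, norm_mul]
        _ ≤ _ := by gcongr; exact hL1 _ hv0; exact hL2 _ hv0
    have c1 : ‖t‖ ≤ ‖s‖ * (1 / 4) + ‖t‖ * (1 / 4) := by
      have : t = -(s * fderiv ℂ (ext g1) 0 ![0, 1] + t * fderiv ℂ (ext g2) 0 ![0, 1]) := by
        linear_combination k1'
      calc ‖t‖ = ‖s * fderiv ℂ (ext g1) 0 ![0, 1] + t * fderiv ℂ (ext g2) 0 ![0, 1]‖ := by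
            conv_lhs => rw [this]
            rw [norm_neg]
        _ ≤ ‖s‖ * ‖fderiv ℂ (ext g1) 0 ![0, 1]‖ + ‖t‖ * ‖fderiv ℂ (ext g2) 0 ![0, 1]‖ := by
            refine (norm_add_le _ _).trans ?_
            rw [norm_mul, norm_mul]
        _ ≤ _ := by gcongr; exact hL1 _ hv1; exact hL2 _ hv1
    have hs := norm_nonneg s
    have ht := norm_nonneg t
    exact ⟨norm_le_zero_iff.1 (by linarith), norm_le_zero_iff.1 (by linarith)⟩
  · rw [(hD0 0 h0mem).fderiv]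
    simp only [ContinuousLinearMap.smul_apply, ContinuousLinearMap.add_apply, ContinuousLinearMap.proj_apply,
      Matrix.cons_val_zero, smul_eq_mul]
    refine mul_ne_zero he0 fun h => ?_
    have h1 := hL1 _ hv0
    have h2 : fderiv ℂ (ext g1) 0 ![1, 0] = -1 := by linear_combination h
    rw [h2, norm_neg, norm_one] at h1
    norm_num at h1
  · intro z hz z' hz' hzz
    have h1 : ext rr z = ext rr z' := by
      rw [ext_of_mem _ (hmem z hz), ext_of_mem _ (hmem z' hz')]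
      change prP a (mL _) = prP a (mL _)
      congr 1
      apply Subtype.ext
      simp only [mL, hzz]
    have h2 : ext (laR (prQ b)) z = ext (laR (prQ b)) z' := by
      rw [ext_of_mem _ (hmem z hz), ext_of_mem _ (hmem z' hz')]
      change prQ b (mR _) = prQ b (mR _)
      congr 1
      apply Subtype.ext
      simp only [mR, hzz]
    refine ⟨h1, ?_⟩
    have h3 : ∀ w ∈ Metric.ball (0 : E2) (1 / 4), ext gg w = ext rr w + ext (laR (prQ b)) w := by
      intro w hw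
      simp only [ext_of_mem _ (hmem w hw)]; rfl
    simp only
    rw [h3 z hz, h3 z' hz', h1, h2]

end

end Pool.Agent.NH60.Cen
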