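import Mathlib
import Pool.Agent.NH60.CenNF

/-!
# Formal integrability kills the obstruction function
-/

set_option autoImplicit false

namespace Pool.Agent.NH60.Cen

open Complex MeasureTheory Topology Filter Set MvPolynomial

noncomputable section

/-- derivation attached to a planar polynomial vector field -/
def VD {R : Type*} [CommRing R] (P Q : MvPolynomial (Fin 2) R) (f : MvPolynomial (Fin 2) R) :
    MvPolynomial (Fin 2) R := P * pderiv 0 f + Q * pderiv 1 f

/-- a polynomial vanishing to order `k` at the origin is `O(|z|^k)` -/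
theorem eval_le_of_order (q : MvPolynomial (Fin 2) ℂ) (k : ℕ) (hq : ∀ m, m 0 + m 1 < k → q.coeff m = 0)
    {w : E2} (hw : ‖w‖ ≤ 1) : ‖eval w q‖ ≤ (∑ m ∈ q.support, ‖q.coeff m‖) * ‖w‖ ^ k := by
  rw [eval_eq', Finset.sum_mul]
  refine (norm_sum_le _ _).trans (Finset.sum_le_sum fun m hm => ?_)
  have h2 : k ≤ m 0 + m 1 := by
    by_contra h
    exact (mem_support_iff.1 hm) (hq m (by omega))
  rw [Fin.prod_univ_two, norm_mul, norm_mul, norm_pow, norm_pow]
  have h4 : ‖w 0‖ ^ m 0 * ‖w 1‖ ^ m 1 ≤ ‖w‖ ^ k := by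
    calc ‖w 0‖ ^ m 0 * ‖w 1‖ ^ m 1 ≤ ‖w‖ ^ m 0 * ‖w‖ ^ m 1 := by
          gcongr <;> exact norm_le_pi_norm w _
      _ = ‖w‖ ^ (m 0 + m 1) := (pow_add _ _ _).symm
      _ ≤ ‖w‖ ^ k := pow_le_pow_of_le_one (norm_nonneg _) hw h2
  gcongr

/-- derivative of a polynomial function -/
theorem hasFDerivAt_eval (f : MvPolynomial (Fin 2) ℂ) (w : E2) :
    HasFDerivAt (fun z : E2 => eval z f) (eval w (pderiv 0 f) • (ContinuousLinearMap.proj 0 : E2 →L[ℂ] ℂ) +
      eval w (pderiv 1 f) • (ContinuousLinearMap.proj 1 : E2 →L[ℂ] ℂ)) w := by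
  induction f using MvPolynomial.induction_on with
  | C a =>
    have h0 : HasFDerivAt (fun _ : E2 => a) (0 : E2 →L[ℂ] ℂ) w := hasFDerivAt_const a w
    have h1 : (fun z : E2 => eval z (C a)) = fun _ => a := by funext z; simp
    rw [h1]
    exact h0.congr_fderiv (by ext v; simp)
  | add p q hp hq =>
    have := hp.add hq
    simp only [map_add]
    refine this.congr_fderiv ?_
    ext v
    simp
    ring
  | mul_X p n hp =>
    have h1 : HasFDerivAt (fun z : E2 => z n) (ContinuousLinearMap.proj n : E2 →L[ℂ] ℂ) w :=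
      (ContinuousLinearMap.proj n : E2 →L[ℂ] ℂ).hasFDerivAt
    have h2 := hp.mul h1
    simp only [map_mul, eval_X]
    refine h2.congr_fderiv ?_
    ext v
    fin_cases n
    · simp [pderiv_mul, pderiv_X_self]
      ring
    · simp [pderiv_mul, pderiv_X_self]
      ring

variable {ρ : ℝ} {P0 P1 r g : E2 → ℂ}

/-- the curve of the circle action and its velocity -/
theorem rot_hasDerivAt' (z : E2) (θ : ℝ) :
    HasDerivAt (fun θ : ℝ => rot θ z) ![I * (rot θ z) 0, -(I * (rot θ z) 1)] θ := by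
  rw [hasDerivAt_pi]
  intro i
  have e0 : HasDerivAt (fun θ : ℝ => (θ : ℂ)) 1 (θ : ℝ) := Complex.ofRealCLM.hasDerivAt
  fin_cases i
  · have e1 := ((e0.mul_const I).cexp).mul_const (z 0)
    refine e1.congr_deriv ?_
    simp
    ring
  · have e1 := (((e0.mul_const I).neg).cexp).mul_const (z 1)
    refine e1.congr_deriv ?_
    simp
    ring

theorem rot_cont_left (z : E2) : Continuous fun θ : ℝ => rot θ z :=
  rot_continuous.comp (continuous_id.prodMk continuous_const)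

theorem rot_prod (θ : ℝ) (z : E2) : rot θ z 0 * rot θ z 1 = z 0 * z 1 := by
  rw [rot_zero', rot_one']
  have : exp (θ * I) * exp (-(θ * I)) = 1 := by rw [← Complex.exp_add]; simp
  linear_combination (z 0 * z 1) * this

theorem rot_two_pi (z : E2) : rot (2 * Real.pi) z = z := by
  have h1 : exp (((2 * Real.pi : ℝ) : ℂ) * I) = 1 := by
    rw [Complex.exp_eq_one_iff]; exact ⟨1, by push_cast; ring⟩
  have h2 : exp (-(((2 * Real.pi : ℝ) : ℂ) * I)) = 1 := by
    rw [Complex.exp_eq_one_iff]; exact ⟨-1, by push_cast; ring⟩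
  ext i; fin_cases i
  · simp only [Fin.zero_eta, rot_zero', h1, one_mul]
  · simp only [Fin.mk_one, rot_one', h2, one_mul]

/-- the key averaging identity -/
theorem avg_identity (X Y f : MvPolynomial (Fin 2) ℂ)
    (han : ∀ z ∈ Metric.ball (0 : E2) ρ, AnalyticAt ℂ P0 z ∧ AnalyticAt ℂ P1 z ∧ AnalyticAt ℂ r z ∧ AnalyticAt ℂ g z)
    (h0 : ∀ z ∈ Metric.ball (0 : E2) ρ, eval ![P0 z, P1 z] X = (1 + r z) * fderiv ℂ P0 z ![z 0, -z 1])
    (h1 : ∀ z ∈ Metric.ball (0 : E2) ρ, eval ![P0 z, P1 z] Y =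
        (1 + r z) * fderiv ℂ P1 z ![z 0, -z 1] + g z * z 1)
    (hinv : ∀ z ∈ Metric.ball (0 : E2) ρ, ∀ z' ∈ Metric.ball (0 : E2) ρ, z 0 * z 1 = z' 0 * z' 1 →
        r z = r z' ∧ g z = g z') {z : E2} (hz : z ∈ Metric.ball (0 : E2) ρ) :
    g z * ∫ θ in (0 : ℝ)..(2 * Real.pi), rot θ z 1 * eval ![P0 (rot θ z), P1 (rot θ z)] (pderiv 1 f) =
      ∫ θ in (0 : ℝ)..(2 * Real.pi), eval ![P0 (rot θ z), P1 (rot θ z)] (VD X Y f) := by
  have hzr : ∀ θ : ℝ, rot θ z ∈ Metric.ball (0 : E2) ρ := fun θ => by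
    rw [mem_ball_zero_iff] at hz ⊢; rwa [norm_rot]
  have hPsi : ∀ w ∈ Metric.ball (0 : E2) ρ, HasFDerivAt (fun z => (![P0 z, P1 z] : E2))
      (ContinuousLinearMap.pi ![fderiv ℂ P0 w, fderiv ℂ P1 w]) w := by
    intro w hw
    rw [hasFDerivAt_pi']
    intro i
    fin_cases i
    · exact ((han w hw).1.differentiableAt.hasFDerivAt).congr_fderiv (by ext v; simp)
    · exact ((han w hw).2.1.differentiableAt.hasFDerivAt).congr_fderiv (by ext v; simp)
  have hc0 : Continuous fun θ : ℝ => P0 (rot θ z) := by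
    rw [continuous_iff_continuousAt]
    intro θ
    exact ContinuousAt.comp (f := fun θ : ℝ => rot θ z) (han _ (hzr θ)).1.continuousAt (rot_cont_left z).continuousAt
  have hc1 : Continuous fun θ : ℝ => P1 (rot θ z) := by
    rw [continuous_iff_continuousAt]
    intro θ
    exact ContinuousAt.comp (f := fun θ : ℝ => rot θ z) (han _ (hzr θ)).2.1.continuousAt (rot_cont_left z).continuousAt
  have hcPsi : Continuous fun θ : ℝ => (![P0 (rot θ z), P1 (rot θ z)] : E2) := by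
    refine continuous_pi fun i => ?_
    fin_cases i
    · exact hc0
    · exact hc1
  have hce : ∀ q : MvPolynomial (Fin 2) ℂ, Continuous fun θ : ℝ => eval ![P0 (rot θ z), P1 (rot θ z)] q :=
    fun q => (MvPolynomial.continuous_eval q).comp hcPsi
  have hcr : Continuous fun θ : ℝ => rot θ z 1 := (continuous_apply 1).comp (rot_cont_left z)
  -- derivative of `f ∘ Ψ` along the orbit
  set G : ℝ → ℂ := fun θ => eval ![P0 (rot θ z), P1 (rot θ z)] (pderiv 0 f) *
      fderiv ℂ P0 (rot θ z) ![rot θ z 0, -(rot θ z) 1] +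
    eval ![P0 (rot θ z), P1 (rot θ z)] (pderiv 1 f) *
      fderiv ℂ P1 (rot θ z) ![rot θ z 0, -(rot θ z) 1] with hG
  have hder : ∀ θ : ℝ, HasDerivAt (fun θ : ℝ => eval ![P0 (rot θ z), P1 (rot θ z)] f) (I * G θ) θ := by
    intro θ
    have k1 := (hasFDerivAt_eval f ![P0 (rot θ z), P1 (rot θ z)]).comp (rot θ z) (hPsi _ (hzr θ))
    have k2 := (k1.restrictScalars ℝ).comp_hasDerivAt θ (rot_hasDerivAt' z θ)
    refine k2.congr_deriv ?_
    have h4 : (![I * rot θ z 0, -(I * rot θ z 1)] : E2) = I • ![rot θ z 0, -rot θ z 1] := by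
      ext i; fin_cases i <;> simp
    rw [h4]
    simp only [ContinuousLinearMap.coe_restrictScalars', map_smul, smul_eq_mul, hG]
    congr 1
  have hGG : ∀ θ : ℝ, (1 + r z) * G θ = eval ![P0 (rot θ z), P1 (rot θ z)] (VD X Y f) -
      g z * (rot θ z 1 * eval ![P0 (rot θ z), P1 (rot θ z)] (pderiv 1 f)) := by
    intro θ
    have k0 := h0 _ (hzr θ)
    have k1 := h1 _ (hzr θ)
    obtain ⟨k2, k3⟩ := hinv _ (hzr θ) z hz (rot_prod θ z)
    rw [k2] at k0 k1
    rw [k3] at k1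
    simp only [hG, VD, map_add, map_mul, k0, k1]
    ring
  have hcGG : Continuous fun θ : ℝ => (1 + r z) * G θ := by
    have : (fun θ : ℝ => (1 + r z) * G θ) = fun θ => eval ![P0 (rot θ z), P1 (rot θ z)] (VD X Y f) -
      g z * (rot θ z 1 * eval ![P0 (rot θ z), P1 (rot θ z)] (pderiv 1 f)) := funext hGG
    rw [this]
    exact (hce _).sub (continuous_const.mul (hcr.mul (hce _)))
  have hint0 : ∫ θ in (0 : ℝ)..(2 * Real.pi), (1 + r z) * (I * G θ) = 0 := by
    have k1 : ∀ θ : ℝ, HasDerivAt (fun θ : ℝ => (1 + r z) * eval ![P0 (rot θ z), P1 (rot θ z)] f)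
        ((1 + r z) * (I * G θ)) θ := fun θ => (hder θ).const_mul _
    rw [intervalIntegral.integral_eq_sub_of_hasDerivAt (fun θ _ => k1 θ)]
    · rw [rot_two_pi]
      simp
    · apply Continuous.intervalIntegrable
      have : (fun θ : ℝ => (1 + r z) * (I * G θ)) = fun θ => I * ((1 + r z) * G θ) := by
        funext θ; ring
      rw [this]
      exact continuous_const.mul hcGG
  have hint1 : ∫ θ in (0 : ℝ)..(2 * Real.pi), (1 + r z) * G θ = 0 := by
    have k1 : ∫ θ in (0 : ℝ)..(2 * Real.pi), (1 + r z) * (I * G θ) =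
        I * ∫ θ in (0 : ℝ)..(2 * Real.pi), (1 + r z) * G θ := by
      rw [← intervalIntegral.integral_const_mul]
      apply intervalIntegral.integral_congr
      intro θ _
      simp only
      ring
    rw [k1] at hint0
    exact (mul_eq_zero.1 hint0).resolve_left I_ne_zero
  have hint2 : ∫ θ in (0 : ℝ)..(2 * Real.pi), (1 + r z) * G θ =
      (∫ θ in (0 : ℝ)..(2 * Real.pi), eval ![P0 (rot θ z), P1 (rot θ z)] (VD X Y f)) -
      g z * ∫ θ in (0 : ℝ)..(2 * Real.pi), rot θ z 1 * eval ![P0 (rot θ z), P1 (rot θ z)] (pderiv 1 f) := by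
    have kA : IntervalIntegrable (fun θ : ℝ => eval ![P0 (rot θ z), P1 (rot θ z)] (VD X Y f)) volume 0
      (2 * Real.pi) := (hce _).intervalIntegrable _ _
    have kB : IntervalIntegrable (fun θ : ℝ => g z * (rot θ z 1 * eval ![P0 (rot θ z), P1 (rot θ z)] (pderiv 1 f)))
      volume 0 (2 * Real.pi) := (continuous_const.mul (hcr.mul (hce _))).intervalIntegrable _ _
    rw [← intervalIntegral.integral_const_mul, ← intervalIntegral.integral_sub kA kB]
    apply intervalIntegral.integral_congr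
    intro θ _
    exact hGG θ
  rw [hint1] at hint2
  linear_combination hint2

/-- lower bound for the averaged derivative -/
theorem avg_lower {h : E2 → ℂ} {L : E2 →L[ℂ] ℂ} (hρ : 0 < ρ)
    (hh : ∀ z ∈ Metric.ball (0 : E2) ρ, ContinuousAt h z) (h0 : h 0 = 0) (hL : HasFDerivAt h L 0)
    (hL0 : L ![1, 0] ≠ 0) :
    ∃ δ > 0, ∃ c > 0, ∀ t : ℂ, ‖t‖ < δ →
      c * ‖t‖ ^ 2 ≤ ‖∫ θ in (0 : ℝ)..(2 * Real.pi), rot θ ![t, t] 1 * h (rot θ ![t, t])‖ := by
  set ε : ℝ := ‖L ![1, 0]‖ / 2 with hε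
  have hLpos : 0 < ‖L ![1, 0]‖ := norm_pos_iff.2 hL0
  have hεpos : 0 < ε := by positivity
  have h1 := hL.isLittleO.def hεpos
  simp only [h0, sub_zero] at h1
  obtain ⟨δ, hδ, hδ'⟩ := Metric.eventually_nhds_iff_ball.1 h1
  refine ⟨min δ ρ, lt_min hδ hρ, 2 * Real.pi * ε, by positivity, fun t ht => ?_⟩
  have hnt : ∀ θ : ℝ, ‖rot θ ![t, t]‖ = ‖t‖ := by
    intro θ
    rw [norm_rot]
    apply le_antisymm
    · rw [pi_norm_le_iff_of_nonneg (norm_nonneg _), Fin.forall_fin_two]; simp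
    · exact norm_le_pi_norm (![t, t] : E2) 0
  have hmem : ∀ θ : ℝ, rot θ ![t, t] ∈ Metric.ball (0 : E2) δ := fun θ => by
    rw [mem_ball_zero_iff, hnt]; exact ht.trans_le (min_le_left _ _)
  have hmem' : ∀ θ : ℝ, rot θ ![t, t] ∈ Metric.ball (0 : E2) ρ := fun θ => by
    rw [mem_ball_zero_iff, hnt]; exact ht.trans_le (min_le_right _ _)
  have hch : Continuous fun θ : ℝ => h (rot θ ![t, t]) := by
    rw [continuous_iff_continuousAt]
    intro θ
    exact ContinuousAt.comp (f := fun θ : ℝ => rot θ ![t, t]) (hh _ (hmem' θ)) (rot_cont_left _).continuousAt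
  have hcr : Continuous fun θ : ℝ => rot θ ![t, t] 1 := (continuous_apply 1).comp (rot_cont_left _)
  have hcL : Continuous fun θ : ℝ => L (rot θ ![t, t]) := L.continuous.comp (rot_cont_left _)
  -- the linear part
  have e1 : ∀ θ : ℝ, rot θ ![t, t] 1 * L (rot θ ![t, t]) =
      L ![1, 0] * t ^ 2 + (L ![0, 1] * t ^ 2) * exp ((-2 : ℤ) * (θ * I)) := by
    intro θ
    have e2 : rot θ ![t, t] = (exp (θ * I) * t) • (![1, 0] : E2) + (exp (-(θ * I)) * t) • (![0, 1] : E2) := by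
      ext i; fin_cases i <;> simp
    have e3 : rot θ ![t, t] 1 = exp (-(θ * I)) * t := rfl
    rw [e3, e2, map_add, map_smul, map_smul, smul_eq_mul, smul_eq_mul]
    have e4 : exp (-(θ * I)) * exp (θ * I) = 1 := by rw [← Complex.exp_add]; simp
    have e5 : exp (-(θ * I)) * exp (-(θ * I)) = exp ((-2 : ℤ) * (θ * I)) := by
      rw [← Complex.exp_add]; congr 1; push_cast; ring
    linear_combination (t ^ 2 * L ![1, 0]) * e4 + (t ^ 2 * L ![0, 1]) * e5
  have e6 : ∫ θ in (0 : ℝ)..(2 * Real.pi), rot θ ![t, t] 1 * L (rot θ ![t, t]) =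
      ((2 * Real.pi : ℝ) : ℂ) * (L ![1, 0] * t ^ 2) := by
    have e7 : ∫ θ in (0 : ℝ)..(2 * Real.pi), rot θ ![t, t] 1 * L (rot θ ![t, t]) =
        ∫ θ in (0 : ℝ)..(2 * Real.pi), (L ![1, 0] * t ^ 2 + (L ![0, 1] * t ^ 2) * exp ((-2 : ℤ) * (θ * I))) := by
      apply intervalIntegral.integral_congr
      intro θ _
      exact e1 θ
    rw [e7, intervalIntegral.integral_add (Continuous.intervalIntegrable (by fun_prop) _ _)
      (Continuous.intervalIntegrable (by fun_prop) _ _),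
      intervalIntegral.integral_const_mul (L ![0, 1] * t ^ 2), int_e]
    simp
    ring
  have e8 : (∫ θ in (0 : ℝ)..(2 * Real.pi), rot θ ![t, t] 1 * h (rot θ ![t, t])) =
      ((2 * Real.pi : ℝ) : ℂ) * (L ![1, 0] * t ^ 2) +
      ∫ θ in (0 : ℝ)..(2 * Real.pi), rot θ ![t, t] 1 * (h (rot θ ![t, t]) - L (rot θ ![t, t])) := by
    have kA : IntervalIntegrable (fun θ : ℝ => rot θ ![t, t] 1 * L (rot θ ![t, t])) volume 0
      (2 * Real.pi) := (hcr.mul hcL).intervalIntegrable _ _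
    have kB : IntervalIntegrable (fun θ : ℝ => rot θ ![t, t] 1 * (h (rot θ ![t, t]) - L (rot θ ![t, t])))
      volume 0 (2 * Real.pi) := (hcr.mul (hch.sub hcL)).intervalIntegrable _ _
    rw [← e6, ← intervalIntegral.integral_add kA kB]
    apply intervalIntegral.integral_congr
    intro θ _
    simp only
    ring
  have e9 : ‖∫ θ in (0 : ℝ)..(2 * Real.pi), rot θ ![t, t] 1 * (h (rot θ ![t, t]) - L (rot θ ![t, t]))‖ ≤
      (‖t‖ * (ε * ‖t‖)) * |2 * Real.pi - 0| := by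
    apply intervalIntegral.norm_integral_le_of_norm_le_const
    intro θ _
    rw [norm_mul]
    have k1 : ‖rot θ ![t, t] 1‖ ≤ ‖t‖ := by rw [← hnt θ]; exact norm_le_pi_norm _ _
    have k2 := hδ' _ (hmem θ)
    rw [hnt] at k2
    gcongr
  have e10 : |2 * Real.pi - 0| = 2 * Real.pi := by
    rw [sub_zero, abs_of_pos (by positivity)]
  rw [e10] at e9
  have e11 : ‖((2 * Real.pi : ℝ) : ℂ) * (L ![1, 0] * t ^ 2)‖ = 2 * Real.pi * (‖L ![1, 0]‖ * ‖t‖ ^ 2) := by
    rw [norm_mul, norm_mul, norm_pow, norm_real, Real.norm_of_nonneg (by positivity)]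
  rw [e8]
  have e12 := norm_sub_norm_le (((2 * Real.pi : ℝ) : ℂ) * (L ![1, 0] * t ^ 2))
    (-∫ θ in (0 : ℝ)..(2 * Real.pi), rot θ ![t, t] 1 * (h (rot θ ![t, t]) - L (rot θ ![t, t])))
  rw [sub_neg_eq_add, norm_neg, e11] at e12
  have e13 : ‖L ![1, 0]‖ = 2 * ε := by rw [hε]; ring
  rw [e13] at e12
  nlinarith [e12, e9]

end

end Pool.Agent.NH60.Cen
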