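import Mathlib
import Pool.Agent.NH60.CenObs
import Pool.Agent.NH60.CenDefs

/-!
# A formally integrable saddle has an analytic first integral in Morse form
-/

set_option autoImplicit false

namespace Pool.Agent.NH60.Cen

open Complex MeasureTheory Topology Filter Set MvPolynomial

noncomputable section

/-- an analytic function of one variable vanishing to infinite order is zero -/
theorem eventually_zero_of_bounds {γ : ℂ → ℂ} (hγ : AnalyticAt ℂ γ 0)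
    (hb : ∀ n : ℕ, ∃ δ > 0, ∃ C : ℝ, ∀ t : ℂ, t ≠ 0 → ‖t‖ < δ → ‖γ t‖ ≤ C * ‖t‖ ^ n) :
    ∀ᶠ t in 𝓝 (0 : ℂ), γ t = 0 := by
  by_contra hcon
  have hnt : analyticOrderAt γ 0 ≠ ⊤ := by
    intro h; rw [analyticOrderAt_eq_top] at h; exact hcon h
  obtain ⟨u, hu, hu0, hγu⟩ := (hγ.analyticOrderAt_ne_top).1 hnt
  set m := analyticOrderNatAt γ 0
  obtain ⟨δ, hδ, C, hC⟩ := hb (m + 1)
  have h1 : ∀ᶠ t in 𝓝[≠] (0 : ℂ), ‖u t‖ ≤ C * ‖t‖ := by
    have h2 : ∀ᶠ t in 𝓝 (0 : ℂ), ‖t‖ < δ := by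
      have := Metric.ball_mem_nhds (0 : ℂ) hδ
      filter_upwards [this] with t ht
      rwa [mem_ball_zero_iff] at ht
    filter_upwards [hγu.filter_mono nhdsWithin_le_nhds, h2.filter_mono nhdsWithin_le_nhds,
      self_mem_nhdsWithin] with t ht1 ht2 ht3
    have h3 := hC t ht3 ht2
    rw [ht1, sub_zero, norm_smul, norm_pow, pow_succ] at h3
    have h4 : 0 < ‖t‖ ^ m := pow_pos (norm_pos_iff.2 ht3) _
    have h5 : ‖t‖ ^ m * ‖u t‖ ≤ ‖t‖ ^ m * (C * ‖t‖) := by linarith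
    exact le_of_mul_le_mul_left h5 h4
  have h2 : Tendsto (fun t => ‖u t‖) (𝓝[≠] (0 : ℂ)) (𝓝 ‖u 0‖) :=
    (hu.continuousAt.norm).tendsto.mono_left nhdsWithin_le_nhds
  have h3 : Tendsto (fun t : ℂ => C * ‖t‖) (𝓝[≠] (0 : ℂ)) (𝓝 0) := by
    have : Tendsto (fun t : ℂ => C * ‖t‖) (𝓝 (0 : ℂ)) (𝓝 (C * ‖(0 : ℂ)‖)) := by
      apply Continuous.tendsto; fun_prop
    rw [norm_zero, mul_zero] at this
    exact this.mono_left nhdsWithin_le_nhds
  have h4 := le_of_tendsto_of_tendsto h2 h3 h1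
  exact hu0 (norm_le_zero_iff.1 h4)

/-- first and second coefficients through evaluation at the origin -/
theorem eval_zero_coeff (q : MvPolynomial (Fin 2) ℂ) : eval (0 : E2) q = coeff 0 q := by
  rw [eval_zero, constantCoeff_eq]

/-- formal first integrals to all orders -/
def Formal (V0 V1 : MvPolynomial (Fin 2) ℂ) : Prop :=
  ∀ n : ℕ, ∃ f : MvPolynomial (Fin 2) ℂ, (∀ m, m 0 + m 1 < 2 → f.coeff m = 0) ∧
    f.coeff (Finsupp.single 1 2) = 0 ∧ f.coeff (Finsupp.single 0 1 + Finsupp.single 1 1) ≠ 0 ∧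
    ∀ m, m 0 + m 1 < n → (VD V0 V1 f).coeff m = 0

theorem exists_first_integral (X Y : MvPolynomial (Fin 2) ℂ) (hX : ∀ m, m 0 + m 1 < 2 → X.coeff m = 0)
    (hY : ∀ m, m 0 + m 1 < 2 → Y.coeff m = 0)
    (hf : Formal (MvPolynomial.X 0 + X) (-MvPolynomial.X 1 + Y)) :
    ∃ (ρ : ℝ) (P0 P1 r : E2 → ℂ), 0 < ρ ∧
      (∀ z ∈ Metric.ball (0 : E2) ρ, AnalyticAt ℂ P0 z ∧ AnalyticAt ℂ P1 z) ∧
      P0 0 = 0 ∧ P1 0 = 0 ∧ LinearIndependent ℂ ![fderiv ℂ P0 0, fderiv ℂ P1 0] ∧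
      (∀ z ∈ Metric.ball (0 : E2) ρ, eval ![P0 z, P1 z] (MvPolynomial.X 0 + X) =
        (1 + r z) * fderiv ℂ P0 z ![z 0, -z 1]) ∧
      (∀ z ∈ Metric.ball (0 : E2) ρ, eval ![P0 z, P1 z] (-MvPolynomial.X 1 + Y) =
        (1 + r z) * fderiv ℂ P1 z ![z 0, -z 1]) := by
  obtain ⟨ρ, P0, P1, r, g, hρ, han, hP0, hP1, hli, hd, h0, h1, hinv⟩ := normal_form X Y hX hY
  have h0' : ∀ z ∈ Metric.ball (0 : E2) ρ, eval ![P0 z, P1 z] (MvPolynomial.X 0 + X) =
        (1 + r z) * fderiv ℂ P0 z ![z 0, -z 1] := by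
    intro z hz
    rw [← h0 z hz]; simp
  have h1' : ∀ z ∈ Metric.ball (0 : E2) ρ, eval ![P0 z, P1 z] (-MvPolynomial.X 1 + Y) =
        (1 + r z) * fderiv ℂ P1 z ![z 0, -z 1] + g z * z 1 := by
    intro z hz
    rw [← h1 z hz]; simp
  have hPsi : ∀ w ∈ Metric.ball (0 : E2) ρ, HasFDerivAt (fun z => (![P0 z, P1 z] : E2))
      (ContinuousLinearMap.pi ![fderiv ℂ P0 w, fderiv ℂ P1 w]) w := by
    intro w hw
    rw [hasFDerivAt_pi']
    intro i
    fin_cases i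
    · exact ((han w hw).1.differentiableAt.hasFDerivAt).congr_fderiv (by ext v; simp)
    · exact ((han w hw).2.1.differentiableAt.hasFDerivAt).congr_fderiv (by ext v; simp)
  have h0mem : (0 : E2) ∈ Metric.ball (0 : E2) ρ := Metric.mem_ball_self hρ
  have hPsi0 : (![P0 0, P1 0] : E2) = 0 := by
    rw [hP0, hP1]; ext i; fin_cases i <;> rfl
  -- the function on the diagonal
  have hnt : ∀ t : ℂ, ‖(![t, t] : E2)‖ = ‖t‖ := by
    intro t
    apply le_antisymm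
    · rw [pi_norm_le_iff_of_nonneg (norm_nonneg _), Fin.forall_fin_two]; simp
    · exact norm_le_pi_norm (![t, t] : E2) 0
  have hdiag : AnalyticAt ℂ (fun t : ℂ => (![t, t] : E2)) 0 := by
    rw [analyticAt_pi_iff]
    intro i
    fin_cases i <;> exact analyticAt_id
  have hγ : AnalyticAt ℂ (fun t : ℂ => g ![t, t]) 0 := by
    have hz : (![(0 : ℂ), 0] : E2) = 0 := by ext i; fin_cases i <;> rfl
    have h2 : AnalyticAt ℂ g (![(0 : ℂ), 0] : E2) := by rw [hz]; exact (han 0 h0mem).2.2.2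
    exact AnalyticAt.comp (g := g) (f := fun t : ℂ => (![t, t] : E2)) (x := 0) h2 hdiag
  -- a Lipschitz bound for `Ψ`
  obtain ⟨C1, hC1, δ1, hδ1, hLip⟩ : ∃ C1 > 0, ∃ δ1 > 0, ∀ w : E2, ‖w‖ < δ1 → ‖(![P0 w, P1 w] : E2)‖ ≤ C1 * ‖w‖ := by
    have h2 := (hPsi 0 h0mem).isBigO_sub
    obtain ⟨C, hC, hC'⟩ := h2.exists_pos
    obtain ⟨δ, hδ, hδ'⟩ := Metric.eventually_nhds_iff_ball.1 hC'.bound
    refine ⟨C, hC, δ, hδ, fun w hw => ?_⟩
    have := hδ' w (by rwa [mem_ball_zero_iff])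
    simpa [hPsi0] using this
  have hgz : ∀ᶠ t in 𝓝 (0 : ℂ), g ![t, t] = 0 := by
    refine eventually_zero_of_bounds hγ fun n => ?_
    obtain ⟨f, hf2, hf02, hf11, hfV⟩ := hf (n + 2)
    set h : E2 → ℂ := fun w => eval ![P0 w, P1 w] (pderiv 1 f) with hh
    have hh0 : h 0 = 0 := by
      simp only [hh]
      rw [hPsi0, eval_zero_coeff, coeff_pderiv]
      rw [hf2 _ (by simp), zero_mul]
    have hhc : ∀ z ∈ Metric.ball (0 : E2) ρ, ContinuousAt h z := by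
      intro z hz
      exact ContinuousAt.comp (f := fun w => (![P0 w, P1 w] : E2)) (MvPolynomial.continuous_eval _).continuousAt
        (hPsi z hz).continuousAt
    have hhd : HasFDerivAt h (f.coeff (Finsupp.single 0 1 + Finsupp.single 1 1) • fderiv ℂ P0 0) 0 := by
      have k1 := (hasFDerivAt_eval (pderiv 1 f) ![P0 0, P1 0]).comp (0 : E2) (hPsi 0 h0mem)
      refine k1.congr_fderiv ?_
      rw [hPsi0]
      ext v
      have e1 : eval (0 : E2) (pderiv 0 (pderiv 1 f)) = f.coeff (Finsupp.single 0 1 + Finsupp.single 1 1) := by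
        rw [eval_zero_coeff, coeff_pderiv, coeff_pderiv]
        simp
      have e2 : eval (0 : E2) (pderiv 1 (pderiv 1 f)) = 0 := by
        rw [eval_zero_coeff, coeff_pderiv, coeff_pderiv, zero_add]
        have : (Finsupp.single (1 : Fin 2) 1 + Finsupp.single 1 1 : Fin 2 →₀ ℕ) = Finsupp.single 1 2 := by
          rw [← Finsupp.single_add]
        rw [this, hf02]; simp
      rw [eval_zero] at e1 e2
      simp [e1, e2]
    have hhL : (f.coeff (Finsupp.single 0 1 + Finsupp.single 1 1) • fderiv ℂ P0 0) ![1, 0] ≠ 0 := by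
      rw [ContinuousLinearMap.smul_apply, smul_eq_mul]
      exact mul_ne_zero hf11 hd
    obtain ⟨δ2, hδ2, c, hc, hlow⟩ := avg_lower hρ hhc hh0 hhd hhL
    set S : ℝ := ∑ m ∈ (VD (MvPolynomial.X 0 + X) (-MvPolynomial.X 1 + Y) f).support,
      ‖(VD (MvPolynomial.X 0 + X) (-MvPolynomial.X 1 + Y) f).coeff m‖ with hS
    have hS0 : 0 ≤ S := Finset.sum_nonneg fun _ _ => norm_nonneg _
    refine ⟨min (min δ1 δ2) (min ρ (1 / C1)), lt_min (lt_min hδ1 hδ2) (lt_min hρ (by positivity)),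
      2 * Real.pi * S * C1 ^ (n + 2) / c, fun t ht0 ht => ?_⟩
    rw [lt_min_iff, lt_min_iff, lt_min_iff] at ht
    obtain ⟨⟨ht1, ht2⟩, ht3, ht4⟩ := ht
    have hzmem : (![t, t] : E2) ∈ Metric.ball (0 : E2) ρ := by rw [mem_ball_zero_iff, hnt]; exact ht3
    have hid := avg_identity (MvPolynomial.X 0 + X) (-MvPolynomial.X 1 + Y) f han h0' h1' hinv hzmem
    have hup : ‖∫ θ in (0 : ℝ)..(2 * Real.pi), eval ![P0 (rot θ ![t, t]), P1 (rot θ ![t, t])]
        (VD (MvPolynomial.X 0 + X) (-MvPolynomial.X 1 + Y) f)‖ ≤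
        (S * (C1 * ‖t‖) ^ (n + 2)) * |2 * Real.pi - 0| := by
      apply intervalIntegral.norm_integral_le_of_norm_le_const
      intro θ _
      have k1 : ‖rot θ ![t, t]‖ = ‖t‖ := by rw [norm_rot, hnt]
      have k2 : ‖(![P0 (rot θ ![t, t]), P1 (rot θ ![t, t])] : E2)‖ ≤ C1 * ‖t‖ := by
        have := hLip (rot θ ![t, t]) (by rw [k1]; exact ht1)
        rwa [k1] at this
      have k3 : C1 * ‖t‖ ≤ 1 := by
        rw [lt_div_iff₀ hC1] at ht4
        linarith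
      have k4 := eval_le_of_order _ (n + 2) hfV (k2.trans k3)
      refine k4.trans ?_
      gcongr
    have e10 : |2 * Real.pi - 0| = 2 * Real.pi := by
      rw [sub_zero, abs_of_pos (by positivity)]
    rw [e10, ← hid, norm_mul] at hup
    have hl := hlow t ht2
    have htp : 0 < ‖t‖ := norm_pos_iff.2 ht0
    have k5 : ‖g ![t, t]‖ * (c * ‖t‖ ^ 2) ≤ (2 * Real.pi * S * C1 ^ (n + 2) * ‖t‖ ^ n) * ‖t‖ ^ 2 := by
      calc ‖g ![t, t]‖ * (c * ‖t‖ ^ 2) ≤ _ := by gcongr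
        _ ≤ _ := hup
        _ = _ := by ring
    have k6 : ‖g ![t, t]‖ * c ≤ 2 * Real.pi * S * C1 ^ (n + 2) * ‖t‖ ^ n := by
      have : 0 < ‖t‖ ^ 2 := by positivity
      have k7 : (‖g ![t, t]‖ * c) * ‖t‖ ^ 2 ≤ (2 * Real.pi * S * C1 ^ (n + 2) * ‖t‖ ^ n) * ‖t‖ ^ 2 := by
        linarith
      exact le_of_mul_le_mul_right k7 this
    rw [div_mul_eq_mul_div, le_div_iff₀ hc]
    exact k6
  obtain ⟨δ, hδ, hδ'⟩ := Metric.eventually_nhds_iff_ball.1 hgz
  refine ⟨min ρ δ, P0, P1, r, lt_min hρ hδ, fun z hz => ?_, hP0, hP1, hli, fun z hz => ?_, fun z hz => ?_⟩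
  · have hz' := Metric.ball_subset_ball (min_le_left ρ δ) hz
    exact ⟨(han z hz').1, (han z hz').2.1⟩
  · exact h0' z (Metric.ball_subset_ball (min_le_left ρ δ) hz)
  · have hz' := Metric.ball_subset_ball (min_le_left ρ δ) hz
    rw [h1' z hz']
    have hgz0 : g z = 0 := by
      obtain ⟨t, ht⟩ := IsAlgClosed.exists_pow_nat_eq (z 0 * z 1) (n := 2) (by norm_num)
      have hzn : ‖z‖ < min ρ δ := by rwa [mem_ball_zero_iff] at hz
      have htn : ‖t‖ ≤ ‖z‖ := by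
        have h5 : ‖t‖ ^ 2 ≤ ‖z‖ ^ 2 := by
          rw [← norm_pow, ht, norm_mul, sq]
          gcongr <;> exact norm_le_pi_norm z _
        exact (pow_le_pow_iff_left₀ (norm_nonneg _) (norm_nonneg _) (by norm_num)).1 h5
      have h6 := hinv z hz' ![t, t] (by rw [mem_ball_zero_iff, hnt]; exact htn.trans_lt (hzn.trans_le (min_le_left _ _)))
        (by simp only [Matrix.cons_val_zero, Matrix.cons_val_one]; rw [← ht]; ring)
      rw [h6.2]
      exact hδ' t (by rw [mem_ball_zero_iff]; exact htn.trans_lt (hzn.trans_le (min_le_right _ _)))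
    rw [hgz0, zero_mul, add_zero]

end

end Pool.Agent.NH60.Cen
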