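import Mathlib
import Pool.Agent.NH60.CenMain1

/-!
# Analytic coordinates from formal integrability
-/

set_option autoImplicit false

namespace Pool.Agent.NH60.Cen

open Complex MeasureTheory Topology Filter Set MvPolynomial

noncomputable section

/-- the analytic part of the definition of a center -/
def Coords (P Q : MvPolynomial (Fin 2) ℂ) (p : Fin 2 → ℂ) : Prop :=
  ∃ a b : (Fin 2 → ℂ) → ℂ, AnalyticAt ℂ a p ∧ AnalyticAt ℂ b p ∧ a p = 0 ∧ b p = 0 ∧
      LinearIndependent ℂ ![fderiv ℂ a p, fderiv ℂ b p] ∧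
      ∀ᶠ z in 𝓝 p, fderiv ℂ (fun y => a y ^ 2 + b y ^ 2) z ![eval z P, eval z Q] = 0

theorem inj_of_indep {A B : E2 →L[ℂ] ℂ} (h : LinearIndependent ℂ ![A, B]) {v : E2} (hA : A v = 0) (hB : B v = 0) :
    v = 0 := by
  rw [LinearIndependent.pair_iff] at h
  have hA' : ∀ w : E2, A w = A ![1, 0] * w 0 + A ![0, 1] * w 1 := by
    intro w
    have : w = w 0 • (![1, 0] : E2) + w 1 • (![0, 1] : E2) := by ext i; fin_cases i <;> simp
    conv_lhs => rw [this]
    rw [map_add, map_smul, map_smul, smul_eq_mul, smul_eq_mul]; ring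
  have hB' : ∀ w : E2, B w = B ![1, 0] * w 0 + B ![0, 1] * w 1 := by
    intro w
    have : w = w 0 • (![1, 0] : E2) + w 1 • (![0, 1] : E2) := by ext i; fin_cases i <;> simp
    conv_lhs => rw [this]
    rw [map_add, map_smul, map_smul, smul_eq_mul, smul_eq_mul]; ring
  set a0 := A ![1, 0]
  set b0 := A ![0, 1]
  set a1 := B ![1, 0]
  set b1 := B ![0, 1]
  rw [hA'] at hA
  rw [hB'] at hB
  by_contra hv
  have hdet : a0 * b1 - a1 * b0 = 0 := by
    have h0 : (a0 * b1 - a1 * b0) * v 0 = 0 := by linear_combination b1 * hA - b0 * hB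
    have h1 : (a0 * b1 - a1 * b0) * v 1 = 0 := by linear_combination a0 * hB - a1 * hA
    by_contra hd
    apply hv
    ext i
    fin_cases i
    · exact (mul_eq_zero.1 h0).resolve_left hd
    · exact (mul_eq_zero.1 h1).resolve_left hd
  have k1 := h a1 (-a0) (by
    ext w
    simp only [ContinuousLinearMap.add_apply, ContinuousLinearMap.smul_apply, smul_eq_mul,
      ContinuousLinearMap.zero_apply]
    rw [hA', hB']; linear_combination (-w 1) * hdet)
  have k2 := h b1 (-b0) (by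
    ext w
    simp only [ContinuousLinearMap.add_apply, ContinuousLinearMap.smul_apply, smul_eq_mul,
      ContinuousLinearMap.zero_apply]
    rw [hA', hB']; linear_combination (w 0) * hdet)
  have k3 := h 1 0 (by
    ext w
    simp only [ContinuousLinearMap.add_apply, ContinuousLinearMap.smul_apply, smul_eq_mul,
      ContinuousLinearMap.zero_apply]
    rw [hA', hB', neg_eq_zero.1 k1.2, neg_eq_zero.1 k2.2]; ring)
  exact one_ne_zero k3.1

theorem coords_of_formal (X Y : MvPolynomial (Fin 2) ℂ) (hX : ∀ m, m 0 + m 1 < 2 → X.coeff m = 0)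
    (hY : ∀ m, m 0 + m 1 < 2 → Y.coeff m = 0)
    (hf : Formal (MvPolynomial.X 0 + X) (-MvPolynomial.X 1 + Y)) :
    Coords (MvPolynomial.X 0 + X) (-MvPolynomial.X 1 + Y) 0 := by
  obtain ⟨ρ, P0, P1, r, hρ, han, hP0, hP1, hli, h0, h1⟩ := exists_first_integral X Y hX hY hf
  set V0 := MvPolynomial.X 0 + X
  set V1 := -MvPolynomial.X 1 + Y
  set Ψ : E2 → E2 := fun z => ![P0 z, P1 z] with hΨ
  have h0mem : (0 : E2) ∈ Metric.ball (0 : E2) ρ := Metric.mem_ball_self hρ
  have hPsi0 : Ψ 0 = 0 := by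
    simp only [hΨ, hP0, hP1]; ext i; fin_cases i <;> rfl
  have hanΨ : ∀ z ∈ Metric.ball (0 : E2) ρ, AnalyticAt ℂ Ψ z := by
    intro z hz
    rw [hΨ, analyticAt_pi_iff]
    intro i
    fin_cases i
    · exact (han z hz).1
    · exact (han z hz).2
  have hfd : ∀ z ∈ Metric.ball (0 : E2) ρ, ∀ v, fderiv ℂ Ψ z v = ![fderiv ℂ P0 z v, fderiv ℂ P1 z v] := by
    intro z hz v
    have k1 : HasFDerivAt Ψ (ContinuousLinearMap.pi ![fderiv ℂ P0 z, fderiv ℂ P1 z]) z := by
      rw [hasFDerivAt_pi']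
      intro i
      fin_cases i
      · exact ((han z hz).1.differentiableAt.hasFDerivAt).congr_fderiv (by ext v; simp)
      · exact ((han z hz).2.differentiableAt.hasFDerivAt).congr_fderiv (by ext v; simp)
    rw [k1.fderiv]
    ext i; fin_cases i <;> simp
  have hinj : Function.Injective (fderiv ℂ Ψ 0) := by
    rw [injective_iff_map_eq_zero]
    intro v hv
    rw [hfd 0 h0mem] at hv
    exact inj_of_indep hli (congrFun hv 0) (congrFun hv 1)
  set L : E2 ≃L[ℂ] E2 := (LinearEquiv.ofInjectiveEndo (fderiv ℂ Ψ 0 : E2 →ₗ[ℂ] E2) hinj).toContinuousLinearEquiv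
    with hL
  have hLc : (L : E2 →L[ℂ] E2) = fderiv ℂ Ψ 0 := by
    ext v : 1
    rfl
  have hstr : HasStrictFDerivAt Ψ (L : E2 →L[ℂ] E2) 0 := by
    rw [hLc]; exact (hanΨ 0 h0mem).hasStrictFDerivAt
  set e := hstr.toOpenPartialHomeomorph Ψ with he
  have he_coe : (e : E2 → E2) = Ψ := hstr.toOpenPartialHomeomorph_coe
  have hsrc : (0 : E2) ∈ e.source := hstr.mem_toOpenPartialHomeomorph_source
  have htgt : (0 : E2) ∈ e.target := by
    have := e.map_source hsrc
    rwa [he_coe, hPsi0] at this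
  have hsymm0 : e.symm 0 = 0 := by
    have := e.left_inv hsrc
    rwa [he_coe, hPsi0] at this
  have hsan : AnalyticAt ℂ e.symm 0 := by
    have := e.analyticAt_symm' (i := L) hsrc (by rw [he_coe]; exact hanΨ 0 h0mem) (by rw [he_coe, hLc])
    rwa [he_coe, hPsi0] at this
  have hsd : HasFDerivAt e.symm (L.symm : E2 →L[ℂ] E2) 0 := by
    have := e.hasFDerivAt_symm (f' := L) htgt (by rw [hsymm0, he_coe]; exact hstr.hasFDerivAt)
    exact this
  set F0 : E2 → ℂ := fun ζ => e.symm ζ 0 with hF0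
  set F1 : E2 → ℂ := fun ζ => e.symm ζ 1 with hF1
  have hF0a : AnalyticAt ℂ F0 0 := ((ContinuousLinearMap.proj 0 : E2 →L[ℂ] ℂ).analyticAt _).comp hsan
  have hF1a : AnalyticAt ℂ F1 0 := ((ContinuousLinearMap.proj 1 : E2 →L[ℂ] ℂ).analyticAt _).comp hsan
  have hF0d : HasFDerivAt F0 ((ContinuousLinearMap.proj 0 : E2 →L[ℂ] ℂ).comp (L.symm : E2 →L[ℂ] E2)) 0 :=
    (ContinuousLinearMap.proj 0 : E2 →L[ℂ] ℂ).hasFDerivAt.comp (0 : E2) hsd
  have hF1d : HasFDerivAt F1 ((ContinuousLinearMap.proj 1 : E2 →L[ℂ] ℂ).comp (L.symm : E2 →L[ℂ] E2)) 0 :=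
    (ContinuousLinearMap.proj 1 : E2 →L[ℂ] ℂ).hasFDerivAt.comp (0 : E2) hsd
  have h2 : (2 : ℂ) ≠ 0 := two_ne_zero
  have hI : I ≠ 0 := I_ne_zero
  have hda := (hF0d.add hF1d).const_mul (2 : ℂ)⁻¹
  have hdb := (hF0d.sub hF1d).const_mul ((2 : ℂ) * I)⁻¹
  refine ⟨fun ζ => (2 : ℂ)⁻¹ * (F0 ζ + F1 ζ), fun ζ => ((2 : ℂ) * I)⁻¹ * (F0 ζ - F1 ζ),
    analyticAt_const.mul (hF0a.add hF1a), analyticAt_const.mul (hF0a.sub hF1a), ?_, ?_, ?_, ?_⟩
  · simp [hF0, hF1, hsymm0]
  · simp [hF0, hF1, hsymm0]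
  · have e1 : fderiv ℂ (fun ζ => (2 : ℂ)⁻¹ * (F0 ζ + F1 ζ)) 0 = _ := hda.fderiv
    have e2 : fderiv ℂ (fun ζ => ((2 : ℂ) * I)⁻¹ * (F0 ζ - F1 ζ)) 0 = _ := hdb.fderiv
    rw [e1, e2, LinearIndependent.pair_iff]
    intro s t hst
    have k0 := congrArg (fun T : E2 →L[ℂ] ℂ => T (L ![1, 0])) hst
    have k1 := congrArg (fun T : E2 →L[ℂ] ℂ => T (L ![0, 1])) hst
    simp only [ContinuousLinearMap.add_apply, ContinuousLinearMap.smul_apply, ContinuousLinearMap.sub_apply,
      ContinuousLinearMap.comp_apply, ContinuousLinearEquiv.coe_coe, ContinuousLinearEquiv.symm_apply_apply,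
      ContinuousLinearMap.proj_apply, Matrix.cons_val_zero, Matrix.cons_val_one, Matrix.cons_val_fin_one,
      ContinuousLinearMap.zero_apply, smul_eq_mul] at k0 k1
    field_simp at k0 k1
    have hs : s = 0 := by
      have : 2 * I * s = 0 := by linear_combination k0 + k1
      simpa [hI] using this
    have ht : t = 0 := by
      have : 2 * t = 0 := by linear_combination k0 - k1
      simpa using this
    exact ⟨hs, ht⟩
  · have hfun : (fun y => ((2 : ℂ)⁻¹ * (F0 y + F1 y)) ^ 2 + (((2 : ℂ) * I)⁻¹ * (F0 y - F1 y)) ^ 2) =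
        fun y => F0 y * F1 y := by
      funext y
      have hI2 : (((2 : ℂ) * I)⁻¹) ^ 2 = -(4 : ℂ)⁻¹ := by
        rw [inv_pow, mul_pow, I_sq]; norm_num
      rw [mul_pow, mul_pow, hI2]
      ring
    rw [hfun]
    have hev1 : ∀ᶠ ζ in 𝓝 (0 : E2), AnalyticAt ℂ F0 ζ := hF0a.eventually_analyticAt
    have hev2 : ∀ᶠ ζ in 𝓝 (0 : E2), AnalyticAt ℂ F1 ζ := hF1a.eventually_analyticAt
    have hev3 : ∀ᶠ ζ in 𝓝 (0 : E2), e.symm ζ ∈ Metric.ball (0 : E2) ρ := by
      have := hsan.continuousAt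
      rw [ContinuousAt, hsymm0] at this
      exact this (Metric.ball_mem_nhds _ hρ)
    have hev4 : ∀ᶠ ζ in 𝓝 (0 : E2), ζ ∈ e.target := e.open_target.mem_nhds htgt
    filter_upwards [hev1, hev2, hev3, hev4] with ζ a1 a2 a3 a4
    set z := e.symm ζ with hz
    have hzs : z ∈ e.source := e.map_target a4
    have hΨz : Ψ z = ζ := by rw [← he_coe]; exact e.right_inv a4
    have hf : DifferentiableAt ℂ (fun y => F0 y * F1 y) (Ψ z) := by
      rw [hΨz]; exact a1.differentiableAt.mul a2.differentiableAt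
    have hcomp : HasFDerivAt ((fun y => F0 y * F1 y) ∘ Ψ)
        ((fderiv ℂ (fun y => F0 y * F1 y) (Ψ z)).comp (fderiv ℂ Ψ z)) z :=
      hf.hasFDerivAt.comp z (hanΨ z a3).differentiableAt.hasFDerivAt
    have hloc : ((fun y => F0 y * F1 y) ∘ Ψ) =ᶠ[𝓝 z] fun w => w 0 * w 1 := by
      filter_upwards [e.open_source.mem_nhds hzs] with w hw
      have : e.symm (Ψ w) = w := by rw [← he_coe]; exact e.left_inv hw
      simp only [Function.comp, hF0, hF1, this]
    have hd' : HasFDerivAt (fun w : E2 => w 0 * w 1)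
        (z 0 • (ContinuousLinearMap.proj 1 : E2 →L[ℂ] ℂ) + z 1 • (ContinuousLinearMap.proj 0 : E2 →L[ℂ] ℂ)) z :=
      (ContinuousLinearMap.proj 0 : E2 →L[ℂ] ℂ).hasFDerivAt.mul (ContinuousLinearMap.proj 1 : E2 →L[ℂ] ℂ).hasFDerivAt
    have huniq := hcomp.unique (hd'.congr_of_eventuallyEq hloc)
    have hVz : (![eval ζ V0, eval ζ V1] : E2) = (1 + r z) • fderiv ℂ Ψ z ![z 0, -z 1] := by
      rw [hfd z a3, ← hΨz]
      ext i
      fin_cases i
      · simpa using h0 z a3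
      · simpa using h1 z a3
    rw [hVz, map_smul]
    have k5 := congrArg (fun T : E2 →L[ℂ] ℂ => T ![z 0, -z 1]) huniq
    simp only [ContinuousLinearMap.comp_apply, ContinuousLinearMap.add_apply, ContinuousLinearMap.smul_apply,
      ContinuousLinearMap.proj_apply, Matrix.cons_val_zero, Matrix.cons_val_one, Matrix.cons_val_fin_one,
      smul_eq_mul] at k5
    rw [← hΨz, k5]
    simp only [smul_eq_mul]
    ring

end

end Pool.Agent.NH60.Cen
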