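import Mathlib
import Pool.Agent.NH60.CenLin
import Pool.Agent.NH60.CenMain2

/-!
# The algebraic conditions imply analytic integrability
-/

set_option autoImplicit false

namespace Pool.Agent.NH60.Cen

open Complex Topology Filter Set MvPolynomial

noncomputable section

theorem VD_eq {R : Type*} [CommRing R] (P Q f : MvPolynomial (Fin 2) R) : VD P Q f = VL P Q f := by
  rw [VL_apply, VD]

/-- the conditions of all orders -/
def Cond (P Q : MvPolynomial (Fin 2) ℂ) (J : ℂ) : Prop :=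
  ∀ (n : ℕ) (b m : Fin 2 →₀ ℕ), b 0 + b 1 = 2 → m 0 + m 1 ≤ n → GG P Q J n b m = 0

/-- the powers of the maximal ideal as vector spaces -/
def mW (k : ℕ) : Submodule ℂ (MvPolynomial (Fin 2) ℂ) := (mI ℂ ^ k).restrictScalars ℂ

theorem mem_mW {k : ℕ} {f : MvPolynomial (Fin 2) ℂ} : f ∈ mW k ↔ f ∈ mI ℂ ^ k := Iff.rfl

theorem mW_mono {j k : ℕ} (h : j ≤ k) : mW k ≤ mW j := fun _ hx => Ideal.pow_le_pow_right h hx

theorem Psi_quad {P Q : MvPolynomial (Fin 2) ℂ} {J : ℂ} (h : Cond P Q J) (n : ℕ) (α β γ : ℂ) :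
    Psi P Q J n (α • (X 0 * X 0) + β • (X 0 * X 1) + γ • (X 1 * X 1)) ∈ mI ℂ ^ (n + 1) := by
  have key : ∀ b : Fin 2 →₀ ℕ, b 0 + b 1 = 2 → Psi P Q J n (monomial b 1) ∈ mW (n + 1) := by
    intro b hb
    rw [mem_mW, mem_mI_pow]
    intro m hm
    exact h n b m hb (by omega)
  have e00 : (X 0 * X 0 : MvPolynomial (Fin 2) ℂ) = monomial (Finsupp.single 0 1 + Finsupp.single 0 1) 1 := by
    rw [X, monomial_mul, one_mul]
  have e01 : (X 0 * X 1 : MvPolynomial (Fin 2) ℂ) = monomial (Finsupp.single 0 1 + Finsupp.single 1 1) 1 := by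
    rw [X, X, monomial_mul, one_mul]
  have e11 : (X 1 * X 1 : MvPolynomial (Fin 2) ℂ) = monomial (Finsupp.single 1 1 + Finsupp.single 1 1) 1 := by
    rw [X, monomial_mul, one_mul]
  rw [e00, e01, e11]
  unfold Psi at key ⊢
  rw [map_add, map_add, map_smul, map_smul, map_smul]
  refine (mW (n + 1)).add_mem ((mW (n + 1)).add_mem ((mW (n + 1)).smul_mem _ (key _ ?_))
    ((mW (n + 1)).smul_mem _ (key _ ?_))) ((mW (n + 1)).smul_mem _ (key _ ?_)) <;> simp

theorem VL_mW {P Q : MvPolynomial (Fin 2) ℂ} (hP : P ∈ mI ℂ ^ 1) (hQ : Q ∈ mI ℂ ^ 1) (k : ℕ)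
    (f : MvPolynomial (Fin 2) ℂ) (hf : f ∈ mW k) : VL P Q f ∈ mW k := by
  have := VL_mem (j := 0) hP hQ hf
  exact this

theorem X_mem (i : Fin 2) : (X i : MvPolynomial (Fin 2) ℂ) ∈ mI ℂ := Ideal.subset_span ⟨i, rfl⟩

theorem lin_mem {X' Y' : MvPolynomial (Fin 2) ℂ} (hX : X' ∈ mI ℂ ^ 2) (hY : Y' ∈ mI ℂ ^ 2) :
    X 0 + X' ∈ mI ℂ ^ 1 ∧ -X 1 + Y' ∈ mI ℂ ^ 1 := by
  have h12 : mI ℂ ^ 2 ≤ mI ℂ ^ 1 := Ideal.pow_le_pow_right (by norm_num)
  refine ⟨add_mem ?_ (h12 hX), add_mem (neg_mem ?_) (h12 hY)⟩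
  · rw [pow_one]; exact X_mem 0
  · rw [pow_one]; exact X_mem 1

theorem psi1_eval_zero {J : ℂ} (hJ : J ≠ 0) (n : ℕ) : (psi1 J n).eval 0 ≠ 0 := by
  unfold psi1
  rw [Polynomial.eval_prod]
  refine Finset.prod_ne_zero_iff.2 fun m _ => ?_
  simp only [Polynomial.eval_add, Polynomial.eval_pow, Polynomial.eval_X, Polynomial.eval_C]
  have : ((m : ℂ) + 1) ≠ 0 := by exact_mod_cast Nat.succ_ne_zero m
  simpa using ⟨this, hJ⟩

theorem formal_of_cond {P Q : MvPolynomial (Fin 2) ℂ} (hP : P ∈ mI ℂ ^ 1) (hQ : Q ∈ mI ℂ ^ 1) {J lam : ℂ}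
    (hJ : J ≠ 0) (hlam : lam ≠ 0) {M N : Matrix (Fin 2) (Fin 2) ℂ} (hNM : N * M = 1)
    {X' Y' : MvPolynomial (Fin 2) ℂ} (hX : X' ∈ mI ℂ ^ 2) (hY : Y' ∈ mI ℂ ^ 2)
    (htau : ∀ f, tau M (VL P Q f) = lam • VL (X 0 + X') (-X 1 + Y') (tau M f)) (hc : Cond P Q J) :
    Formal (X 0 + X') (-X 1 + Y') := by
  intro n
  obtain ⟨hV0, hV1⟩ := lin_mem hX hY
  set q : MvPolynomial (Fin 2) ℂ := tau N (X 0 * X 1) with hq
  have hqe : q = (N 0 0 * N 1 0) • (X 0 * X 0) + (N 0 0 * N 1 1 + N 0 1 * N 1 0) • (X 0 * X 1) +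
      (N 0 1 * N 1 1) • (X 1 * X 1) := by
    rw [hq, map_mul, tau_X, tau_X]
    simp only [smul_eq_C_mul, map_add, map_mul]
    ring
  have hPsi : Psi P Q J n q ∈ mI ℂ ^ (n + 1) := by rw [hqe]; exact Psi_quad hc n _ _ _
  set ψ : Polynomial ℂ := psi1 J n ^ n with hψ
  have hψ0 : ψ.eval 0 ≠ 0 := by
    rw [hψ, Polynomial.eval_pow]; exact pow_ne_zero _ (psi1_eval_zero hJ n)
  set f0 := Polynomial.aeval (VL P Q) ψ q with hf0
  have hVf0 : VL P Q f0 = Psi P Q J n q := by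
    rw [Psi, psi, map_mul, Polynomial.aeval_X, Module.End.mul_apply]
  set f := tau M f0 with hf
  have hVf : VL (X 0 + X') (-X 1 + Y') f ∈ mI ℂ ^ (n + 1) := by
    have h1 := htau f0
    rw [hVf0] at h1
    have h2 : VL (X 0 + X') (-X 1 + Y') f = lam⁻¹ • tau M (Psi P Q J n q) := by
      rw [h1, smul_smul, inv_mul_cancel₀ hlam, one_smul]
    rw [h2]
    exact (mW (n + 1)).smul_mem _ (tau_mem M hPsi)
  have hfe : f = Polynomial.aeval (lam • VL (X 0 + X') (-X 1 + Y')) ψ (X 0 * X 1) := by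
    have h1 := aeval_intertwine (RingHom.id ℂ) (tau M).toRingHom.toAddMonoidHom
      (fun r x => by change tau M (r • x) = _; rw [map_smul]; rfl) (VL P Q) (lam • VL (X 0 + X') (-X 1 + Y'))
      (fun x => htau x) ψ q
    rw [Polynomial.map_id] at h1
    have h2 : tau M q = X 0 * X 1 := by rw [hq, tau_tau, hNM, tau_one]
    have h3 : tau M f0 = Polynomial.aeval (lam • VL (X 0 + X') (-X 1 + Y')) ψ (tau M q) := h1
    rw [hf, h3, h2]
  have hmod : f - ψ.eval 0 • (X 0 * X 1) ∈ mW 3 := by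
    rw [hfe]
    refine eig_mod _ (mW 3) (fun x hx => ?_) ?_ ψ
    · exact (mW 3).smul_mem _ (VL_mW hV0 hV1 3 x hx)
    · rw [zero_smul, sub_zero, LinearMap.smul_apply]
      refine (mW 3).smul_mem _ ?_
      have : VL (X 0 + X') (-X 1 + Y') (X 0 * X 1) = X' * X 1 + Y' * X 0 := by
        rw [VL_apply, pderiv_mul, pderiv_mul]
        simp [pderiv_X_self]
        ring
      rw [this]
      have h1 : ∀ {x : MvPolynomial (Fin 2) ℂ}, x ∈ mI ℂ ^ 2 → ∀ i, x * X i ∈ mI ℂ ^ 3 := fun {x} hx i =>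
        Ideal.mul_mem_mul hx (X_mem i)
      exact add_mem (h1 hX 1) (h1 hY 0)
  have hXX : (X 0 * X 1 : MvPolynomial (Fin 2) ℂ) ∈ mW 2 := by
    rw [mem_mW, sq]; exact Ideal.mul_mem_mul (X_mem 0) (X_mem 1)
  have hf2 : f ∈ mW 2 := by
    have h1 := (mW 2).add_mem (mW_mono (by norm_num) hmod) ((mW 2).smul_mem (ψ.eval 0) hXX)
    simpa using h1
  have e01 : (X 0 * X 1 : MvPolynomial (Fin 2) ℂ) = monomial (Finsupp.single 0 1 + Finsupp.single 1 1) 1 := by
    rw [X, X, monomial_mul, one_mul]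
  rw [mem_mW, mem_mI_pow] at hmod hf2
  refine ⟨f, hf2, ?_, ?_, ?_⟩
  · have := hmod (Finsupp.single 1 2) (by simp)
    rw [coeff_sub, coeff_smul, e01, coeff_monomial, if_neg, smul_zero, sub_zero] at this
    · exact this
    · intro h; have := DFunLike.congr_fun h 0; simp at this
  · have := hmod (Finsupp.single 0 1 + Finsupp.single 1 1) (by simp)
    rw [coeff_sub, coeff_smul, e01, coeff_monomial, if_pos rfl, smul_eq_mul, mul_one, sub_eq_zero] at this
    rw [this]; exact hψ0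
  · rw [mem_mI_pow] at hVf
    intro m hm
    rw [VD_eq]
    exact hVf m (by omega)

/-- transport of analytic coordinates under a linear change -/
theorem Coords.transport {P Q V0 V1 : MvPolynomial (Fin 2) ℂ} {M N : Matrix (Fin 2) (Fin 2) ℂ} {lam : ℂ}
    (hMN : M * N = 1) (hNM : N * M = 1)
    (hP : ∀ ζ, eval (M.mulVec ζ) P = lam * (M 0 0 * eval ζ V0 + M 0 1 * eval ζ V1))
    (hQ : ∀ ζ, eval (M.mulVec ζ) Q = lam * (M 1 0 * eval ζ V0 + M 1 1 * eval ζ V1))
    (h : Coords V0 V1 0) : Coords P Q 0 := by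
  obtain ⟨a, b, ha, hb, ha0, hb0, hli, hev⟩ := h
  set L : E2 →L[ℂ] E2 := LinearMap.toContinuousLinearMap (Matrix.mulVecLin N) with hL
  set L' : E2 →L[ℂ] E2 := LinearMap.toContinuousLinearMap (Matrix.mulVecLin M) with hL'
  have hLa : ∀ v, L v = N.mulVec v := fun v => rfl
  have hLa' : ∀ v, L' v = M.mulVec v := fun v => rfl
  have hLL' : ∀ v, L (L' v) = v := fun v => by rw [hLa, hLa', Matrix.mulVec_mulVec, hNM, Matrix.one_mulVec]
  have hL'L : ∀ v, L' (L v) = v := fun v => by rw [hLa, hLa', Matrix.mulVec_mulVec, hMN, Matrix.one_mulVec]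
  have hL0 : L 0 = 0 := map_zero L
  have hda : ∀ f : E2 → ℂ, DifferentiableAt ℂ f 0 → fderiv ℂ (fun z => f (L z)) 0 = (fderiv ℂ f 0).comp L := by
    intro f hf
    have h1 : HasFDerivAt f (fderiv ℂ f 0) (L 0) := by rw [hL0]; exact hf.hasFDerivAt
    exact (h1.comp (0 : E2) L.hasFDerivAt).fderiv
  refine ⟨fun z => a (L z), fun z => b (L z), ?_, ?_, by simpa using ha0, by simpa using hb0, ?_, ?_⟩
  · exact AnalyticAt.comp' (by rw [hL0]; exact ha) (L.analyticAt 0)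
  · exact AnalyticAt.comp' (by rw [hL0]; exact hb) (L.analyticAt 0)
  · rw [hda a ha.differentiableAt, hda b hb.differentiableAt, LinearIndependent.pair_iff]
    rw [LinearIndependent.pair_iff] at hli
    intro s t hst
    apply hli s t
    ext v
    have := congrArg (fun T : E2 →L[ℂ] ℂ => T (L' v)) hst
    simpa [hLL'] using this
  · have hc : Tendsto L (𝓝 0) (𝓝 0) := by
      have := L.continuous.tendsto 0
      rwa [hL0] at this
    have hev1 := hc.eventually (ha.eventually_analyticAt)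
    have hev2 := hc.eventually (hb.eventually_analyticAt)
    filter_upwards [hc.eventually hev, hev1, hev2] with z hz a1 a2
    have h1 : DifferentiableAt ℂ (fun y => a y ^ 2 + b y ^ 2) (L z) :=
      (a1.differentiableAt.pow 2).add (a2.differentiableAt.pow 2)
    have h2 : fderiv ℂ (fun y => a (L y) ^ 2 + b (L y) ^ 2) z =
        (fderiv ℂ (fun y => a y ^ 2 + b y ^ 2) (L z)).comp L :=
      (h1.hasFDerivAt.comp z L.hasFDerivAt).fderiv
    rw [h2, ContinuousLinearMap.comp_apply]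
    have h3 : L ![eval z P, eval z Q] = lam • ![eval (L z) V0, eval (L z) V1] := by
      have h4 : (![eval z P, eval z Q] : E2) = L' (lam • ![eval (L z) V0, eval (L z) V1]) := by
        have k1 := hP (L z)
        have k2 := hQ (L z)
        rw [← hLa', hL'L] at k1 k2
        rw [k1, k2, hLa']
        ext i; fin_cases i
        · simp [Matrix.mulVec, dotProduct, Fin.sum_univ_two]; ring
        · simp [Matrix.mulVec, dotProduct, Fin.sum_univ_two]; ring
      rw [h4, hLL']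
    rw [h3, map_smul, hz, smul_zero]

/-- the algebraic conditions imply analytic integrability -/
theorem coords_of_cond (P Q : MvPolynomial (Fin 2) ℂ) (hP : P ∈ mI ℂ ^ 1) (hQ : Q ∈ mI ℂ ^ 1) {J : ℂ}
    (hJe : J = P.coeff (Finsupp.single 0 1) * Q.coeff (Finsupp.single 1 1) -
      P.coeff (Finsupp.single 1 1) * Q.coeff (Finsupp.single 0 1)) (hJ : J ≠ 0)
    (htr : P.coeff (Finsupp.single 0 1) + Q.coeff (Finsupp.single 1 1) = 0) (hc : Cond P Q J) :
    Coords P Q 0 := by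
  obtain ⟨lam, M, N, X', Y', hlam, hlam2, hMN, hNM, hX, hY, htau, hPe, hQe⟩ :=
    eigen_form P Q hP hQ htr (by rw [← hJe]; exact hJ)
  have hform := formal_of_cond hP hQ hJ hlam hNM hX hY htau hc
  have h1 := coords_of_formal X' Y' ((mem_mI_pow 2 X').1 hX) ((mem_mI_pow 2 Y').1 hY) hform
  refine Coords.transport (lam := lam) hMN hNM (fun ζ => ?_) (fun ζ => ?_) h1
  · rw [← eval_tau, hPe]; simp
  · rw [← eval_tau, hQe]; simp

end

end Pool.Agent.NH60.Cen
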