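import Mathlib
import Pool.Agent.NH60.CenIff1

/-!
# Taylor polynomials of analytic functions of two variables
-/

set_option autoImplicit false

namespace Pool.Agent.NH60.Cen

open Complex Topology Filter Set MvPolynomial Asymptotics

noncomputable section

theorem poly_of_multi {k : ℕ} (q : ContinuousMultilinearMap ℂ (fun _ : Fin k => E2) ℂ) :
    ∃ g : MvPolynomial (Fin 2) ℂ, ∀ y : E2, q (fun _ => y) = eval y g := by
  classical
  refine ⟨∑ s : Fin k → Fin 2, C (q fun j => Pi.single (s j) (1 : ℂ)) * ∏ j, X (s j), fun y => ?_⟩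
  have hy : y = ∑ i : Fin 2, y i • (Pi.single i (1 : ℂ) : E2) := by
    ext j
    rw [Finset.sum_apply]
    simp [Pi.single_apply]
  have h1 : q (fun _ => y) = q.toMultilinearMap (fun _ : Fin k => ∑ i : Fin 2, y i • (Pi.single i (1 : ℂ) : E2)) := by
    change q.toMultilinearMap (fun _ => y) = _
    congr 1
    funext _
    exact hy
  rw [h1, MultilinearMap.map_sum, map_sum]
  apply Finset.sum_congr rfl
  intro s _
  rw [MultilinearMap.map_smul_univ]
  simp only [map_mul, eval_C, map_prod, eval_X, smul_eq_mul]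
  rw [mul_comm]
  rfl

theorem exists_taylor {f : E2 → ℂ} (hf : AnalyticAt ℂ f 0) (n : ℕ) :
    ∃ g : MvPolynomial (Fin 2) ℂ, (fun z => f z - eval z g) =O[𝓝 0] fun z : E2 => ‖z‖ ^ n := by
  obtain ⟨p, hp⟩ := hf
  choose g hg using fun k : ℕ => poly_of_multi (p k)
  refine ⟨∑ k ∈ Finset.range n, g k, ?_⟩
  have h1 := hp.isBigO_sub_partialSum_pow n
  refine h1.congr' (Eventually.of_forall fun z => ?_) EventuallyEq.rfl
  simp only [zero_add]
  rw [FormalMultilinearSeries.partialSum, map_sum]
  congr 1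
  apply Finset.sum_congr rfl
  intro k _
  exact hg k z

theorem isBigO_of_mem {G : MvPolynomial (Fin 2) ℂ} {k : ℕ} (hG : G ∈ mI ℂ ^ k) :
    (fun z => eval z G) =O[𝓝 0] fun z : E2 => ‖z‖ ^ k := by
  rw [mem_mI_pow] at hG
  refine IsBigO.of_bound (∑ m ∈ G.support, ‖G.coeff m‖) ?_
  filter_upwards [Metric.closedBall_mem_nhds (0 : E2) one_pos] with z hz
  rw [mem_closedBall_zero_iff] at hz
  rw [norm_pow, norm_norm]
  exact eval_le_of_order G k hG hz

theorem poly_order {G : MvPolynomial (Fin 2) ℂ} {k : ℕ}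
    (hG : (fun z => eval z G) =O[𝓝 0] fun z : E2 => ‖z‖ ^ k) : G ∈ mI ℂ ^ k := by
  suffices h : ∀ j, j ≤ k → G ∈ mI ℂ ^ j from h k le_rfl
  intro j
  induction j with
  | zero => intro _; simp
  | succ j ih =>
    intro hj
    have hGj := ih (by omega)
    have hsub : G - homogeneousComponent j G ∈ mI ℂ ^ (j + 1) := by
      rw [mem_mI_pow] at hGj ⊢
      intro m hm
      rw [coeff_sub, coeff_homogeneousComponent, degree_two]
      split_ifs with h
      · simp
      · rw [hGj m (by omega), sub_zero]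
    have hH : homogeneousComponent j G = 0 := by
      apply MvPolynomial.funext
      intro z
      rw [map_zero]
      have h1 : (fun z => eval z G) =O[𝓝 0] fun z : E2 => ‖z‖ ^ (j + 1) := by
        refine hG.trans ?_
        refine IsBigO.of_bound 1 ?_
        filter_upwards [Metric.closedBall_mem_nhds (0 : E2) one_pos] with z hz
        rw [mem_closedBall_zero_iff] at hz
        rw [norm_pow, norm_norm, norm_pow, norm_norm, one_mul]
        exact pow_le_pow_of_le_one (norm_nonneg _) hz hj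
      have h2 : (fun z => eval z (homogeneousComponent j G)) =O[𝓝 0] fun z : E2 => ‖z‖ ^ (j + 1) := by
        have := h1.sub (isBigO_of_mem hsub)
        refine this.congr' (Eventually.of_forall fun w => ?_) EventuallyEq.rfl
        simp
      obtain ⟨c, hc, hc'⟩ := h2.exists_pos
      obtain ⟨δ, hδ, hδ'⟩ := Metric.eventually_nhds_iff_ball.1 hc'.bound
      -- along the line through z
      have hlim : Tendsto (fun t : ℝ => c * t * ‖z‖ ^ (j + 1)) (𝓝[>] 0) (𝓝 0) := by
        have : Tendsto (fun t : ℝ => c * t * ‖z‖ ^ (j + 1)) (𝓝 0) (𝓝 (c * 0 * ‖z‖ ^ (j + 1))) := by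
          apply Continuous.tendsto; fun_prop
        rw [mul_zero, zero_mul] at this
        exact this.mono_left nhdsWithin_le_nhds
      have hle : ∀ᶠ t : ℝ in 𝓝[>] 0, ‖eval z (homogeneousComponent j G)‖ ≤ c * t * ‖z‖ ^ (j + 1) := by
        have hsmall : ∀ᶠ t : ℝ in 𝓝[>] 0, ‖((t : ℂ) • z : E2)‖ < δ := by
          have : Tendsto (fun t : ℝ => ‖((t : ℂ) • z : E2)‖) (𝓝 0) (𝓝 ‖((0 : ℝ) : ℂ) • z‖) := by
            apply Continuous.tendsto; fun_prop
          rw [ofReal_zero, zero_smul, norm_zero] at this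
          exact (this.mono_left nhdsWithin_le_nhds).eventually_lt_const hδ
        filter_upwards [hsmall, self_mem_nhdsWithin] with t ht ht0
        have ht0' : (0 : ℝ) < t := ht0
        have h3 := hδ' ((t : ℂ) • z) (by rwa [mem_ball_zero_iff])
        have h4 : eval ((t : ℂ) • z) (homogeneousComponent j G) = (t : ℂ) ^ j * eval z (homogeneousComponent j G) := by
          rw [eval_eq', eval_eq', Finset.mul_sum]
          apply Finset.sum_congr rfl
          intro m hm
          have hmj : m 0 + m 1 = j := by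
            have := (homogeneousComponent_isHomogeneous j G) (mem_support_iff.1 hm)
            have hw : (Finsupp.weight 1) m = m.degree := by
              rw [Finsupp.degree_eq_weight_one]; rfl
            rw [hw, degree_two] at this
            exact this
          rw [Fin.prod_univ_two, Fin.prod_univ_two, Pi.smul_apply, Pi.smul_apply, smul_eq_mul, smul_eq_mul,
            mul_pow, mul_pow, ← hmj, pow_add]
          ring
        rw [h4, norm_mul, norm_pow, norm_real, Real.norm_of_nonneg ht0'.le, norm_smul, norm_real,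
          Real.norm_of_nonneg ht0'.le, norm_pow, norm_mul, Real.norm_of_nonneg ht0'.le, norm_norm, mul_pow] at h3
        have h5 : 0 < t ^ j := pow_pos ht0' _
        have h6 : t ^ j * ‖eval z (homogeneousComponent j G)‖ ≤ t ^ j * (c * t * ‖z‖ ^ (j + 1)) := by
          refine h3.trans (le_of_eq ?_)
          rw [pow_succ t j]; ring
        exact le_of_mul_le_mul_left h6 h5
      have h7 := ge_of_tendsto hlim hle
      exact norm_le_zero_iff.1 h7
    rw [hH, sub_zero] at hsub
    exact hsub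

/-- derivative of a remainder along a vector field vanishing at the origin -/
theorem fderiv_bound {h : E2 → ℂ} (hh : AnalyticAt ℂ h 0) {n : ℕ}
    (hO : h =O[𝓝 0] fun z : E2 => ‖z‖ ^ (n + 1)) {V : E2 → E2} (hV : V =O[𝓝 0] fun z : E2 => ‖z‖) :
    (fun z => fderiv ℂ h z (V z)) =O[𝓝 0] fun z : E2 => ‖z‖ ^ (n + 1) := by
  obtain ⟨C, hC, hC'⟩ := hO.exists_pos
  obtain ⟨D, hD, hD'⟩ := hV.exists_pos
  obtain ⟨δ, hδ, hδ'⟩ := Metric.eventually_nhds_iff_ball.1 (hC'.bound.and (hh.eventually_analyticAt.and hD'.bound))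
  refine IsBigO.of_bound (2 * C * 2 ^ (n + 1) * D) ?_
  filter_upwards [Metric.ball_mem_nhds (0 : E2) (half_pos hδ)] with z hz
  rw [mem_ball_zero_iff] at hz
  have hzδ : z ∈ Metric.ball (0 : E2) δ := by rw [mem_ball_zero_iff]; linarith
  have hVz := (hδ' z hzδ).2.2
  rw [norm_norm] at hVz
  rcases eq_or_ne z 0 with rfl | hz0
  · rw [norm_zero, mul_zero] at hVz
    rw [norm_le_zero_iff.1 hVz]
    simp
  · have hzp : 0 < ‖z‖ := norm_pos_iff.2 hz0
    have hsub : Metric.ball z ‖z‖ ⊆ Metric.ball (0 : E2) δ := by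
      intro w hw
      rw [mem_ball_iff_norm] at hw
      rw [mem_ball_zero_iff]
      calc ‖w‖ = ‖(w - z) + z‖ := by rw [sub_add_cancel]
        _ ≤ ‖w - z‖ + ‖z‖ := norm_add_le _ _
        _ < δ := by linarith
    have hd : DifferentiableOn ℂ h (Metric.ball z ‖z‖) := fun w hw =>
      (hδ' w (hsub hw)).2.1.differentiableAt.differentiableWithinAt
    have hbd : ∀ w ∈ Metric.ball z ‖z‖, ‖h w‖ ≤ C * (2 * ‖z‖) ^ (n + 1) := by
      intro w hw
      have h1 := (hδ' w (hsub hw)).1
      rw [norm_pow, norm_norm] at h1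
      refine h1.trans ?_
      have h2 : ‖w‖ ≤ 2 * ‖z‖ := by
        rw [mem_ball_iff_norm] at hw
        calc ‖w‖ = ‖(w - z) + z‖ := by rw [sub_add_cancel]
          _ ≤ ‖w - z‖ + ‖z‖ := norm_add_le _ _
          _ ≤ 2 * ‖z‖ := by linarith
      gcongr
    have hmaps : MapsTo h (Metric.ball z ‖z‖) (Metric.closedBall (h z) (2 * (C * (2 * ‖z‖) ^ (n + 1)))) := by
      intro w hw
      rw [mem_closedBall_iff_norm]
      have h1 := hbd w hw
      have h2 := hbd z (Metric.mem_ball_self hzp)
      calc ‖h w - h z‖ ≤ ‖h w‖ + ‖h z‖ := norm_sub_le _ _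
        _ ≤ _ := by linarith
    have h3 := Complex.norm_fderiv_le_div_of_mapsTo_ball hd hmaps hzp
    calc ‖fderiv ℂ h z (V z)‖ ≤ ‖fderiv ℂ h z‖ * ‖V z‖ := ContinuousLinearMap.le_opNorm _ _
      _ ≤ (2 * (C * (2 * ‖z‖) ^ (n + 1)) / ‖z‖) * (D * ‖z‖) := by gcongr
      _ = 2 * C * 2 ^ (n + 1) * D * ‖‖z‖ ^ (n + 1)‖ := by
        rw [norm_pow, norm_norm, mul_pow]
        field_simp

/-- from analytic coordinates to formal first integrals of all orders -/
theorem formal_of_coords {P Q : MvPolynomial (Fin 2) ℂ} (hP : P ∈ mI ℂ ^ 1) (hQ : Q ∈ mI ℂ ^ 1)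
    (h : Coords P Q 0) (n : ℕ) (hn : 1 ≤ n) :
    ∃ A B : MvPolynomial (Fin 2) ℂ, A ∈ mI ℂ ^ 1 ∧ B ∈ mI ℂ ^ 1 ∧
      A.coeff (Finsupp.single 0 1) * B.coeff (Finsupp.single 1 1) -
        A.coeff (Finsupp.single 1 1) * B.coeff (Finsupp.single 0 1) ≠ 0 ∧
      VL P Q (A ^ 2 + B ^ 2) ∈ mI ℂ ^ (n + 1) := by
  obtain ⟨a, b, ha, hb, ha0, hb0, hli, hev⟩ := h
  obtain ⟨A, hA⟩ := exists_taylor ha (n + 1)
  obtain ⟨B, hB⟩ := exists_taylor hb (n + 1)
  have hanp : ∀ (G : MvPolynomial (Fin 2) ℂ) (z : E2), AnalyticAt ℂ (fun z : E2 => eval z G) z := by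
    intro G z
    induction G using MvPolynomial.induction_on with
    | C a => simpa using analyticAt_const
    | add p q hp hq =>
      have h2 : AnalyticAt ℂ (fun z : E2 => eval z p + eval z q) z := hp.add hq
      simpa using h2
    | mul_X p n hp =>
      have h1 : AnalyticAt ℂ (fun z : E2 => z n) z := (ContinuousLinearMap.proj n : E2 →L[ℂ] ℂ).analyticAt z
      have h2 : AnalyticAt ℂ (fun z : E2 => eval z p * z n) z := hp.mul h1
      simpa using h2
  have key : ∀ (f : E2 → ℂ) (F : MvPolynomial (Fin 2) ℂ), AnalyticAt ℂ f 0 → f 0 = 0 →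
      (fun z => f z - eval z F) =O[𝓝 0] (fun z : E2 => ‖z‖ ^ (n + 1)) →
      F ∈ mI ℂ ^ 1 ∧ fderiv ℂ f 0 = F.coeff (Finsupp.single 0 1) • (ContinuousLinearMap.proj 0 : E2 →L[ℂ] ℂ) +
        F.coeff (Finsupp.single 1 1) • (ContinuousLinearMap.proj 1 : E2 →L[ℂ] ℂ) := by
    intro f F hf hf0 hO
    have h1 : f 0 - eval (0 : E2) F = 0 := by
      obtain ⟨C, hC⟩ := hO.bound
      have := hC.self_of_nhds
      simpa using this
    constructor
    · rw [mem_mI_pow]
      intro m hm
      have : m = 0 := by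
        ext i; fin_cases i
        · simp; omega
        · simp; omega
      rw [this, ← eval_zero_coeff]
      rw [hf0] at h1
      linear_combination -h1
    · have hO' : (fun z => f z - eval z F) =O[𝓝 0] (fun z : E2 => ‖z - 0‖ ^ (n + 1)) := by simpa using hO
      have h2 : HasFDerivAt (fun z => f z - eval z F) (0 : E2 →L[ℂ] ℂ) 0 := hO'.hasFDerivAt (by omega)
      have h3 := h2.add (hasFDerivAt_eval F 0)
      have h4 : HasFDerivAt f (0 + (eval (0 : E2) (pderiv 0 F) • (ContinuousLinearMap.proj 0 : E2 →L[ℂ] ℂ) +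
        eval (0 : E2) (pderiv 1 F) • (ContinuousLinearMap.proj 1 : E2 →L[ℂ] ℂ))) 0 := by
        refine h3.congr_of_eventuallyEq (Eventually.of_forall fun z => ?_)
        simp
      rw [h4.fderiv, zero_add, eval_zero_coeff, eval_zero_coeff, coeff_pderiv, coeff_pderiv]
      simp
  obtain ⟨hA1, hAd⟩ := key a A ha ha0 hA
  obtain ⟨hB1, hBd⟩ := key b B hb hb0 hB
  refine ⟨A, B, hA1, hB1, ?_, ?_⟩
  · intro hdet
    rw [hAd, hBd, LinearIndependent.pair_iff] at hli
    have hv : ∀ s t : ℂ, (s * A.coeff (Finsupp.single 0 1) + t * B.coeff (Finsupp.single 0 1) = 0) →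
      (s * A.coeff (Finsupp.single 1 1) + t * B.coeff (Finsupp.single 1 1) = 0) → s = 0 ∧ t = 0 := by
      intro s t h0 h1
      apply hli s t
      ext v
      simp only [ContinuousLinearMap.add_apply, ContinuousLinearMap.smul_apply, smul_eq_mul,
        ContinuousLinearMap.proj_apply, ContinuousLinearMap.zero_apply]
      linear_combination v 0 * h0 + v 1 * h1
    have k1 := hv (B.coeff (Finsupp.single 0 1)) (-(A.coeff (Finsupp.single 0 1))) (by ring)
      (by linear_combination -hdet)
    have k2 := hv (B.coeff (Finsupp.single 1 1)) (-(A.coeff (Finsupp.single 1 1))) (by linear_combination hdet)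
      (by ring)
    have k3 := hv 1 0 (by rw [neg_eq_zero.1 k1.2]; ring) (by rw [neg_eq_zero.1 k2.2]; ring)
    exact one_ne_zero k3.1
  · apply poly_order
    -- the analytic first integral minus its Taylor polynomial
    set F : E2 → ℂ := fun z => a z ^ 2 + b z ^ 2 with hF
    set G : MvPolynomial (Fin 2) ℂ := A ^ 2 + B ^ 2 with hG
    have hFan : AnalyticAt ℂ F 0 := (ha.pow 2).add (hb.pow 2)
    have hbdd : ∀ (f : E2 → ℂ), AnalyticAt ℂ f 0 → f =O[𝓝 0] fun _ : E2 => (1 : ℝ) := fun f hf =>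
      hf.continuousAt.isBigO_one ℝ
    have hFG : (fun z => F z - eval z G) =O[𝓝 0] fun z : E2 => ‖z‖ ^ (n + 1) := by
      have e1 := hA.mul (hbdd _ (ha.add (hanp A 0)))
      have e2 := hB.mul (hbdd _ (hb.add (hanp B 0)))
      have e3 := e1.add e2
      simp only [mul_one] at e3
      refine e3.congr' (Eventually.of_forall fun z => ?_) EventuallyEq.rfl
      simp only [hF, hG, map_add, map_pow, Pi.add_apply]
      ring
    have hVO : (fun z : E2 => (![eval z P, eval z Q] : E2)) =O[𝓝 0] fun z : E2 => ‖z‖ := by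
      rw [isBigO_pi]
      intro i
      fin_cases i
      · simpa using isBigO_of_mem hP
      · simpa using isBigO_of_mem hQ
    have h1 := fderiv_bound (hFan.sub (hanp G 0)) hFG hVO
    refine h1.neg_left.congr' ?_ EventuallyEq.rfl
    filter_upwards [hev, hFan.eventually_analyticAt] with z hz hza
    have h2 : fderiv ℂ (F - fun z => eval z G) z = fderiv ℂ F z - fderiv ℂ (fun z => eval z G) z :=
      fderiv_sub hza.differentiableAt (hanp G z).differentiableAt
    have h2' : fderiv ℂ (fun z => F z - eval z G) z = fderiv ℂ F z - fderiv ℂ (fun z => eval z G) z := h2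
    have h5 : fderiv ℂ (F - fun z => eval z G) z ![eval z P, eval z Q] = fderiv ℂ F z ![eval z P, eval z Q] -
        fderiv ℂ (fun z => eval z G) z ![eval z P, eval z Q] := by
      rw [h2]; rfl
    have h6 : fderiv ℂ (fun z => F z - eval z G) z ![eval z P, eval z Q] = fderiv ℂ F z ![eval z P, eval z Q] -
        fderiv ℂ (fun z => eval z G) z ![eval z P, eval z Q] := h5
    first | rw [h5] | rw [h6]
    have hz' : fderiv ℂ F z ![eval z P, eval z Q] = 0 := hz
    rw [hz', (hasFDerivAt_eval G z).fderiv, VL_apply]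
    simp only [ContinuousLinearMap.add_apply, ContinuousLinearMap.smul_apply, ContinuousLinearMap.proj_apply,
      Matrix.cons_val_zero, Matrix.cons_val_one, Matrix.cons_val_fin_one, smul_eq_mul, map_add, map_mul]
    ring

end

end Pool.Agent.NH60.Cen
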