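import Mathlib
import Pool.Agent.NH60.CenTay

/-!
# Analytic integrability implies the algebraic conditions
-/

set_option autoImplicit false

namespace Pool.Agent.NH60.Cen

open Complex Topology Filter Set MvPolynomial

noncomputable section

theorem quad_zero {α β γ : ℂ} (h : C α * X 0 ^ 2 + C β * (X 0 * X 1) + C γ * X 1 ^ 2 ∈ mI ℂ ^ 3) :
    α = 0 ∧ β = 0 ∧ γ = 0 := by
  rw [mem_mI_pow] at h
  have e00 : (X 0 ^ 2 : MvPolynomial (Fin 2) ℂ) = monomial (Finsupp.single 0 2) 1 := by rw [X_pow_eq_monomial]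
  have e01 : (X 0 * X 1 : MvPolynomial (Fin 2) ℂ) = monomial (Finsupp.single 0 1 + Finsupp.single 1 1) 1 := by
    rw [X, X, monomial_mul, one_mul]
  have e11 : (X 1 ^ 2 : MvPolynomial (Fin 2) ℂ) = monomial (Finsupp.single 1 2) 1 := by rw [X_pow_eq_monomial]
  have n1 : (Finsupp.single 0 2 : Fin 2 →₀ ℕ) ≠ Finsupp.single 0 1 + Finsupp.single 1 1 := by
    intro h; have := DFunLike.congr_fun h 0; simp at this
  have n2 : (Finsupp.single 0 2 : Fin 2 →₀ ℕ) ≠ Finsupp.single 1 2 := by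
    intro h; have := DFunLike.congr_fun h 0; simp at this
  have n3 : (Finsupp.single 0 1 + Finsupp.single 1 1 : Fin 2 →₀ ℕ) ≠ Finsupp.single 1 2 := by
    intro h; have := DFunLike.congr_fun h 0; simp at this
  rw [e00, e01, e11] at h
  have h1 := h (Finsupp.single 0 2) (by simp)
  have h2 := h (Finsupp.single 0 1 + Finsupp.single 1 1) (by simp)
  have h3 := h (Finsupp.single 1 2) (by simp)
  simp only [coeff_add, coeff_C_mul, coeff_monomial, if_neg n1.symm, if_neg n2.symm, if_neg n1,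
    if_neg n3.symm, if_neg n2, if_neg n3, if_true, mul_one, mul_zero, add_zero, zero_add] at h1 h2 h3
  exact ⟨h1, h2, h3⟩

theorem C_two : (C 2 : MvPolynomial (Fin 2) ℂ) = 2 := map_ofNat C 2

theorem C_mul_mem {k : ℕ} (c : ℂ) {f : MvPolynomial (Fin 2) ℂ} (hf : f ∈ mI ℂ ^ k) : C c * f ∈ mI ℂ ^ k :=
  Ideal.mul_mem_left _ _ hf

theorem linform_mem (a b : ℂ) : C a * X 0 + C b * X 1 ∈ mI ℂ ^ 1 := by
  rw [pow_one]
  exact add_mem (Ideal.mul_mem_left _ _ (X_mem 0)) (Ideal.mul_mem_left _ _ (X_mem 1))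

theorem mul_mem_pow {i j : ℕ} {f g : MvPolynomial (Fin 2) ℂ} (hf : f ∈ mI ℂ ^ i) (hg : g ∈ mI ℂ ^ j) :
    f * g ∈ mI ℂ ^ (i + j) := by
  rw [pow_add]; exact Ideal.mul_mem_mul hf hg

/-- linear part of the derivative -/
theorem VL_lin {P Q A : MvPolynomial (Fin 2) ℂ} (hP : P ∈ mI ℂ ^ 1) (hQ : Q ∈ mI ℂ ^ 1) {a0 a1 : ℂ}
    (hA : A - (C a0 * X 0 + C a1 * X 1) ∈ mI ℂ ^ 2) :
    VL P Q A - (C (P.coeff (Finsupp.single 0 1) * a0 + Q.coeff (Finsupp.single 0 1) * a1) * X 0 +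
      C (P.coeff (Finsupp.single 1 1) * a0 + Q.coeff (Finsupp.single 1 1) * a1) * X 1) ∈ mI ℂ ^ 2 := by
  have h1 := VL_mem (j := 0) hP hQ hA
  have h2 := C_mul_mem a0 (lin_part hP)
  have h3 := C_mul_mem a1 (lin_part hQ)
  have h4 := add_mem (add_mem h1 h2) h3
  refine (congrArg (· ∈ mI ℂ ^ 2) ?_).mp h4
  rw [map_sub]
  have : VL P Q (C a0 * X 0 + C a1 * X 1) = C a0 * P + C a1 * Q := by
    rw [VL_apply]
    simp [pderiv_mul, pderiv_X_self]
    ring
  rw [this]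
  simp only [map_add, map_mul]
  ring

/-- products modulo the cube -/
theorem mul_quad {A B : MvPolynomial (Fin 2) ℂ} {a0 a1 b0 b1 : ℂ}
    (hA : A - (C a0 * X 0 + C a1 * X 1) ∈ mI ℂ ^ 2) (hB : B - (C b0 * X 0 + C b1 * X 1) ∈ mI ℂ ^ 2) :
    A * B - (C (a0 * b0) * X 0 ^ 2 + C (a0 * b1 + a1 * b0) * (X 0 * X 1) + C (a1 * b1) * X 1 ^ 2) ∈ mI ℂ ^ 3 := by
  have h12 : mI ℂ ^ 2 ≤ mI ℂ ^ 1 := Ideal.pow_le_pow_right (by norm_num)
  have hB1 : B ∈ mI ℂ ^ 1 := by
    have := add_mem (h12 hB) (linform_mem b0 b1)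
    simpa using this
  have h1 := mul_mem_pow hA hB1
  have h2 := mul_mem_pow (linform_mem a0 a1) hB
  have h3 := add_mem h1 h2
  refine (congrArg (· ∈ mI ℂ ^ 3) ?_).mp h3
  simp only [map_add, map_mul]
  ring

/-- the trace of the linear part vanishes -/
theorem trace_zero {P Q A B : MvPolynomial (Fin 2) ℂ} (hP : P ∈ mI ℂ ^ 1) (hQ : Q ∈ mI ℂ ^ 1)
    (hA : A ∈ mI ℂ ^ 1) (hB : B ∈ mI ℂ ^ 1)
    (hdet : A.coeff (Finsupp.single 0 1) * B.coeff (Finsupp.single 1 1) -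
        A.coeff (Finsupp.single 1 1) * B.coeff (Finsupp.single 0 1) ≠ 0)
    (h : VL P Q (A ^ 2 + B ^ 2) ∈ mI ℂ ^ 3) :
    P.coeff (Finsupp.single 0 1) + Q.coeff (Finsupp.single 1 1) = 0 := by
  have hA' := lin_part hA
  have hB' := lin_part hB
  have hVA := VL_lin hP hQ hA'
  have hVB := VL_lin hP hQ hB'
  have h1 := mul_quad hA' hVA
  have h2 := mul_quad hB' hVB
  set a0 := A.coeff (Finsupp.single 0 1)
  set a1 := A.coeff (Finsupp.single 1 1)
  set b0 := B.coeff (Finsupp.single 0 1)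
  set b1 := B.coeff (Finsupp.single 1 1)
  set p0 := P.coeff (Finsupp.single 0 1)
  set p1 := P.coeff (Finsupp.single 1 1)
  set q0 := Q.coeff (Finsupp.single 0 1)
  set q1 := Q.coeff (Finsupp.single 1 1)
  have h3 : A * VL P Q A + B * VL P Q B ∈ mI ℂ ^ 3 := by
    have : A * VL P Q A + B * VL P Q B = C (1 / 2) * VL P Q (A ^ 2 + B ^ 2) := by
      rw [map_add, sq, sq, VL_mul, VL_mul]
      have : (C (1 / 2) : MvPolynomial (Fin 2) ℂ) * 2 = 1 := by
        rw [← C_two, ← C_mul]; norm_num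
      linear_combination (-(A * VL P Q A + B * VL P Q B)) * this
    rw [this]; exact C_mul_mem _ h
  have h4 := sub_mem h3 (add_mem h1 h2)
  have h5 := quad_zero (α := a0 * (p0 * a0 + q0 * a1) + b0 * (p0 * b0 + q0 * b1))
    (β := a0 * (p1 * a0 + q1 * a1) + a1 * (p0 * a0 + q0 * a1) + (b0 * (p1 * b0 + q1 * b1) + b1 * (p0 * b0 + q0 * b1)))
    (γ := a1 * (p1 * a0 + q1 * a1) + b1 * (p1 * b0 + q1 * b1)) (by
      refine (congrArg (· ∈ mI ℂ ^ 3) ?_).mp h4
      simp only [map_add, map_mul]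
      ring)
  obtain ⟨k1, k2, k3⟩ := h5
  have h6 : (a0 * b1 - a1 * b0) ^ 2 * (p0 + q1) = 0 := by
    linear_combination (a1 ^ 2 + b1 ^ 2) * k1 + (a0 ^ 2 + b0 ^ 2) * k3 - (a0 * a1 + b0 * b1) * k2
  exact (mul_eq_zero.1 h6).resolve_left (pow_ne_zero _ hdet)

theorem psi1_eval_ne {lam : ℂ} {n j a b : ℕ} (hab : a + b = j) (hjn : j ≤ n) (hne : a ≠ b) :
    (psi1 (-lam ^ 2) n).eval (lam * ((a : ℂ) - b)) = 0 := by
  unfold psi1
  rw [Polynomial.eval_prod]
  rcases Nat.lt_or_gt_of_ne hne with h | h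
  · obtain ⟨c, rfl⟩ : ∃ c, b = a + (c + 1) := ⟨b - a - 1, by omega⟩
    refine Finset.prod_eq_zero (i := c) (Finset.mem_range.2 (by omega)) ?_
    simp only [Polynomial.eval_add, Polynomial.eval_pow, Polynomial.eval_X, Polynomial.eval_C]
    push_cast
    ring
  · obtain ⟨c, rfl⟩ : ∃ c, a = b + (c + 1) := ⟨a - b - 1, by omega⟩
    refine Finset.prod_eq_zero (i := c) (Finset.mem_range.2 (by omega)) ?_
    simp only [Polynomial.eval_add, Polynomial.eval_pow, Polynomial.eval_X, Polynomial.eval_C]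
    push_cast
    ring

/-- monomials are eigenvectors modulo higher order -/
theorem VL_monomial {X' Y' : MvPolynomial (Fin 2) ℂ} (hX : X' ∈ mI ℂ ^ 2) (hY : Y' ∈ mI ℂ ^ 2) (m : Fin 2 →₀ ℕ) :
    VL (X 0 + X') (-X 1 + Y') (monomial m 1) - ((m 0 : ℂ) - m 1) • monomial m 1 ∈ mI ℂ ^ (m 0 + m 1 + 1) := by
  have h1 : (monomial m 1 : MvPolynomial (Fin 2) ℂ) ∈ mI ℂ ^ (m 0 + m 1) := by
    rw [mem_mI_pow]
    intro k hk
    rw [coeff_monomial, if_neg]
    rintro rfl; omega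
  have h2 := VL_mem (j := 1) hX hY h1
  refine (congrArg (· ∈ mI ℂ ^ (m 0 + m 1 + 1)) ?_).mp h2
  rw [VL_apply, VL_apply]
  have e0 : (X 0 : MvPolynomial (Fin 2) ℂ) * pderiv 0 (monomial m 1) = m 0 • monomial m 1 := X_mul_pderiv_monomial
  have e1 : (X 1 : MvPolynomial (Fin 2) ℂ) * pderiv 1 (monomial m 1) = m 1 • monomial m 1 := X_mul_pderiv_monomial
  rw [sub_smul, Nat.cast_smul_eq_nsmul, Nat.cast_smul_eq_nsmul, ← e0, ← e1]
  ring

/-- the main filtration argument -/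
theorem filtration {X' Y' A B : MvPolynomial (Fin 2) ℂ} (hX : X' ∈ mI ℂ ^ 2) (hY : Y' ∈ mI ℂ ^ 2) (lam : ℂ)
    {n : ℕ} (hn : 2 ≤ n) {a0 a1 b0 b1 : ℂ} (hA : A - (C a0 * X 0 + C a1 * X 1) ∈ mI ℂ ^ 2)
    (hB : B - (C b0 * X 0 + C b1 * X 1) ∈ mI ℂ ^ 2) (hdet : a0 * b1 - a1 * b0 ≠ 0)
    (h : VL (X 0 + X') (-X 1 + Y') (A ^ 2 + B ^ 2) ∈ mI ℂ ^ (n + 1)) {g : MvPolynomial (Fin 2) ℂ}
    (hg : g ∈ mW 2) :
    Polynomial.aeval (lam • VL (X 0 + X') (-X 1 + Y')) (psi (-lam ^ 2) n) g ∈ mW (n + 1) := by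
  obtain ⟨hV0, hV1⟩ := lin_mem hX hY
  set V := VL (X 0 + X') (-X 1 + Y') with hV
  set f := A ^ 2 + B ^ 2 with hf
  have hquad : f - (C (a0 ^ 2 + b0 ^ 2) * X 0 ^ 2 + C (2 * (a0 * a1 + b0 * b1)) * (X 0 * X 1) +
      C (a1 ^ 2 + b1 ^ 2) * X 1 ^ 2) ∈ mI ℂ ^ 3 := by
    have h1 := add_mem (mul_quad hA hA) (mul_quad hB hB)
    refine (congrArg (· ∈ mI ℂ ^ 3) ?_).mp h1
    simp only [map_add, map_mul, hf, map_pow, C_two]
    ring
  have h3 : V f ∈ mI ℂ ^ 3 := Ideal.pow_le_pow_right (by omega) h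
  have hq : (a0 ^ 2 + b0 ^ 2 = 0) ∧ (a1 ^ 2 + b1 ^ 2 = 0) := by
    set q := (C (a0 ^ 2 + b0 ^ 2) * X 0 ^ 2 + C (2 * (a0 * a1 + b0 * b1)) * (X 0 * X 1) +
      C (a1 ^ 2 + b1 ^ 2) * X 1 ^ 2 : MvPolynomial (Fin 2) ℂ) with hq
    have hqm : q ∈ mI ℂ ^ 2 := by
      have e := fun i j => mul_mem_pow (i := 1) (j := 1) (by rw [pow_one]; exact X_mem i) (by rw [pow_one]; exact X_mem j)
      have e' : ∀ i j : Fin 2, (X i * X j : MvPolynomial (Fin 2) ℂ) ∈ mI ℂ ^ 2 := e
      rw [hq, sq (X 0), sq (X 1)]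
      exact add_mem (add_mem (C_mul_mem _ (e' 0 0)) (C_mul_mem _ (e' 0 1))) (C_mul_mem _ (e' 1 1))
    have h4 : V (f - q) ∈ mI ℂ ^ 3 := VL_mem (j := 0) hV0 hV1 hquad
    have h5 : V q ∈ mI ℂ ^ 3 := by
      have := sub_mem h3 h4
      rw [map_sub] at this
      simpa using this
    have h6 : VL X' Y' q ∈ mI ℂ ^ 3 := VL_mem (j := 1) hX hY hqm
    have h7 := sub_mem h5 h6
    have h8 := quad_zero (α := 2 * (a0 ^ 2 + b0 ^ 2)) (β := 0) (γ := -(2 * (a1 ^ 2 + b1 ^ 2))) (by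
      refine (congrArg (· ∈ mI ℂ ^ 3) ?_).mp h7
      rw [hV, VL_apply, VL_apply, hq]
      have d2 : ∀ i : Fin 2, pderiv i (2 : MvPolynomial (Fin 2) ℂ) = 0 := fun i => by rw [← C_two, pderiv_C]
      simp [pderiv_mul, pderiv_pow, pderiv_X_self, C_two, d2]
      ring)
    refine ⟨?_, ?_⟩
    · have := h8.1
      simpa using this
    · have := h8.2.2
      simpa using this
  set c := 2 * (a0 * a1 + b0 * b1) with hc
  have hc0 : c ≠ 0 := by
    intro hc0
    apply hdet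
    have h9 : a0 * a1 + b0 * b1 = 0 := by
      have := hc0
      rw [hc] at this
      exact (mul_eq_zero.1 this).resolve_left two_ne_zero
    have : (a0 * b1 - a1 * b0) ^ 2 = 0 := by
      linear_combination (a1 ^ 2 + b1 ^ 2) * hq.1 - (a0 * a1 + b0 * b1) * h9
    exact pow_eq_zero_iff (two_ne_zero) |>.1 this
  rw [hq.1, hq.2, map_zero, zero_mul, zero_mul, zero_add, add_zero] at hquad
  have hf2 : f ∈ mI ℂ ^ 2 := by
    have e := mul_mem_pow (i := 1) (j := 1) (f := (X 0 : MvPolynomial (Fin 2) ℂ)) (g := X 1)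
      (by rw [pow_one]; exact X_mem 0) (by rw [pow_one]; exact X_mem 1)
    have h23 : mI ℂ ^ 3 ≤ mI ℂ ^ 2 := Ideal.pow_le_pow_right (by norm_num)
    have := add_mem (h23 hquad) (C_mul_mem c e)
    simpa using this
  have hfk : ∀ k : ℕ, f ^ k ∈ mI ℂ ^ (2 * k) ∧ f ^ k - C (c ^ k) * (X 0 * X 1) ^ k ∈ mI ℂ ^ (2 * k + 1) := by
    intro k
    induction k with
    | zero => simp
    | succ k ih =>
      obtain ⟨i1, i2⟩ := ih
      refine ⟨?_, ?_⟩
      · rw [pow_succ, mul_add, mul_one]; exact mul_mem_pow i1 hf2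
      · have e1 := mul_mem_pow i2 hf2
        have e2 : (X 0 * X 1) ^ k ∈ mI ℂ ^ (2 * k) := by
          have h1 : (C (c ^ k) : MvPolynomial (Fin 2) ℂ) * (X 0 * X 1) ^ k ∈ mI ℂ ^ (2 * k) := by
            have h23 : mI ℂ ^ (2 * k + 1) ≤ mI ℂ ^ (2 * k) := Ideal.pow_le_pow_right (by omega)
            have := sub_mem i1 (h23 i2)
            simpa using this
          have h2 := C_mul_mem ((c ^ k)⁻¹) h1
          rwa [← mul_assoc, ← C_mul, inv_mul_cancel₀ (pow_ne_zero _ hc0), C_1, one_mul] at h2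
        have e3 := mul_mem_pow (C_mul_mem (c ^ k) e2) hquad
        have h4 : 2 * k + 1 + 2 = 2 * (k + 1) + 1 := by ring
        have h5 : 2 * k + 3 = 2 * (k + 1) + 1 := by ring
        rw [h4] at e1
        rw [h5] at e3
        refine (congrArg (· ∈ mI ℂ ^ (2 * (k + 1) + 1)) ?_).mp (add_mem e1 e3)
        simp only [map_mul, map_pow, pow_succ]
        ring
  set K : Submodule ℂ (MvPolynomial (Fin 2) ℂ) := Submodule.span ℂ (Set.range fun k : ℕ => f ^ k) ⊔ mW (n + 1) with hK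
  have hVW : ∀ k x, x ∈ mW k → (lam • V) x ∈ mW k := fun k x hx => by
    rw [LinearMap.smul_apply]
    exact (mW k).smul_mem _ (VL_mW hV0 hV1 k x hx)
  have hTK : ∀ x ∈ K, (lam • V) x ∈ mW (n + 1) := by
    intro x hx
    obtain ⟨s, hs, w, hw, rfl⟩ := Submodule.mem_sup.1 hx
    rw [map_add]
    refine (mW (n + 1)).add_mem ?_ (hVW _ _ hw)
    refine Submodule.span_induction (p := fun x _ => (lam • V) x ∈ mW (n + 1)) ?_ ?_ ?_ ?_ hs
    · rintro _ ⟨k, rfl⟩
      rw [LinearMap.smul_apply]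
      refine (mW (n + 1)).smul_mem _ ?_
      cases k with
      | zero =>
        have : V (1 : MvPolynomial (Fin 2) ℂ) = 0 := by rw [hV, VL_apply]; simp
        simp only [pow_zero, this]
        exact (mW (n + 1)).zero_mem
      | succ k =>
        simp only [hV, VL_pow]
        rw [mem_mW]
        exact Ideal.mul_mem_left _ _ h
    · rw [map_zero]; exact (mW (n + 1)).zero_mem
    · intro x y _ _ h1 h2
      rw [map_add]; exact (mW (n + 1)).add_mem h1 h2
    · intro a x _ h1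
      rw [map_smul]; exact (mW (n + 1)).smul_mem _ h1
  have hTK' : ∀ x ∈ K, (lam • V) x ∈ K := fun x hx => (le_sup_right : mW (n + 1) ≤ K) (hTK x hx)
  have hstep : ∀ j, j ≤ n → ∀ g ∈ mW j, Polynomial.aeval (lam • V) (psi1 (-lam ^ 2) n) g ∈ K ⊔ mW (j + 1) := by
    intro j hj g hg
    rw [as_sum g, map_sum]
    refine Submodule.sum_mem _ fun m hm => ?_
    have h1 : (monomial m (coeff m g) : MvPolynomial (Fin 2) ℂ) = coeff m g • monomial m 1 := by
      rw [smul_monomial, smul_eq_mul, mul_one]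
    rw [h1, map_smul]
    refine Submodule.smul_mem _ _ ?_
    have hmj : j ≤ m 0 + m 1 := by
      by_contra hlt
      rw [mem_mW, mem_mI_pow] at hg
      exact (mem_support_iff.1 hm) (hg m (by omega))
    have hmm : (monomial m 1 : MvPolynomial (Fin 2) ℂ) ∈ mW (m 0 + m 1) := by
      rw [mem_mW, mem_mI_pow]
      intro k hk
      rw [coeff_monomial, if_neg]
      rintro rfl; omega
    rcases Nat.lt_or_eq_of_le hmj with hlt | heq
    · have h2 : (monomial m 1 : MvPolynomial (Fin 2) ℂ) ∈ mW (j + 1) := mW_mono (by omega) hmm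
      exact (le_sup_right : mW (j + 1) ≤ _) (aeval_mem _ (mW (j + 1)) (hVW (j + 1)) _ h2)
    · have h2 : (lam • V) (monomial m 1) - (lam * ((m 0 : ℂ) - m 1)) • monomial m 1 ∈ mW (j + 1) := by
        have h3 := VL_monomial hX hY m
        rw [← heq] at h3
        rw [LinearMap.smul_apply, mul_smul, ← smul_sub]
        exact (mW (j + 1)).smul_mem _ h3
      have h3 := eig_mod (lam • V) (mW (j + 1)) (hVW (j + 1)) h2 (psi1 (-lam ^ 2) n)
      by_cases hne : m 0 = m 1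
      · -- resonant monomial
        have h4 : (monomial m 1 : MvPolynomial (Fin 2) ℂ) = (X 0 * X 1) ^ (m 0) := by
          have hm' : m = Finsupp.single 0 (m 0) + Finsupp.single 1 (m 0) := by
            ext i; fin_cases i
            · simp
            · simp [hne]
          rw [mul_pow, X_pow_eq_monomial, X_pow_eq_monomial, monomial_mul, one_mul, ← hm']
        have h5 : (monomial m 1 : MvPolynomial (Fin 2) ℂ) ∈ K ⊔ mW (j + 1) := by
          have h6 := (hfk (m 0)).2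
          have h7 : 2 * m 0 + 1 = j + 1 := by omega
          rw [h7] at h6
          have h8 : (monomial m 1 : MvPolynomial (Fin 2) ℂ) = (c ^ (m 0))⁻¹ • f ^ (m 0) -
              (c ^ (m 0))⁻¹ • (f ^ (m 0) - C (c ^ (m 0)) * (X 0 * X 1) ^ (m 0)) := by
            rw [smul_sub, sub_sub_cancel, ← smul_eq_C_mul, smul_smul, inv_mul_cancel₀ (pow_ne_zero _ hc0),
              one_smul, h4]
          rw [h8]
          refine Submodule.sub_mem _ ?_ ?_
          · refine Submodule.smul_mem _ _ ?_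
            refine (le_sup_left : K ≤ _) ((le_sup_left : _ ≤ K) (Submodule.subset_span ⟨m 0, rfl⟩))
          · exact Submodule.smul_mem _ _ ((le_sup_right : mW (j + 1) ≤ _) h6)
        have h6 := Submodule.add_mem _ ((le_sup_right : mW (j + 1) ≤ K ⊔ mW (j + 1)) h3)
          (Submodule.smul_mem _ ((psi1 (-lam ^ 2) n).eval (lam * ((m 0 : ℂ) - m 1))) h5)
        simpa using h6
      · rw [psi1_eval_ne heq.symm hj hne, zero_smul, sub_zero] at h3
        exact (le_sup_right : mW (j + 1) ≤ _) h3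
  have hiter : ∀ i : ℕ, Polynomial.aeval (lam • V) (psi1 (-lam ^ 2) n ^ i) g ∈ K ⊔ mW (2 + i) := by
    intro i
    induction i with
    | zero => rw [pow_zero, map_one]; exact (le_sup_right : mW 2 ≤ _) hg
    | succ i ih =>
      rw [pow_succ', map_mul, Module.End.mul_apply]
      obtain ⟨κ, hκ, w, hw, hkw⟩ := Submodule.mem_sup.1 ih
      rw [← hkw, map_add]
      refine Submodule.add_mem _ ((le_sup_left : K ≤ _) (aeval_mem _ K hTK' _ hκ)) ?_
      by_cases hi : 2 + i ≤ n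
      · exact hstep (2 + i) hi w hw
      · have h1 : w ∈ K := (le_sup_right : mW (n + 1) ≤ K) (mW_mono (by omega) hw)
        exact (le_sup_left : K ≤ _) (aeval_mem _ K hTK' _ h1)
  have hfin := hiter n
  have hle : K ⊔ mW (2 + n) ≤ K := sup_le le_rfl ((mW_mono (by omega)).trans le_sup_right)
  have h9 := hTK _ (hle hfin)
  rw [psi, map_mul, Polynomial.aeval_X, Module.End.mul_apply]
  exact h9

/-- analytic integrability implies the algebraic conditions -/
theorem cond_of_coords (P Q : MvPolynomial (Fin 2) ℂ) (hP : P ∈ mI ℂ ^ 1) (hQ : Q ∈ mI ℂ ^ 1) {J : ℂ}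
    (hJe : J = P.coeff (Finsupp.single 0 1) * Q.coeff (Finsupp.single 1 1) -
      P.coeff (Finsupp.single 1 1) * Q.coeff (Finsupp.single 0 1)) (hJ : J ≠ 0) (h : Coords P Q 0) :
    P.coeff (Finsupp.single 0 1) + Q.coeff (Finsupp.single 1 1) = 0 ∧ Cond P Q J := by
  have htr : P.coeff (Finsupp.single 0 1) + Q.coeff (Finsupp.single 1 1) = 0 := by
    obtain ⟨A, B, hA, hB, hdet, hV⟩ := formal_of_coords hP hQ h 2 (by norm_num)
    exact trace_zero hP hQ hA hB hdet hV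
  refine ⟨htr, ?_⟩
  obtain ⟨lam, M, N, X', Y', hlam, hlam2, hMN, hNM, hX, hY, htau, hPe, hQe⟩ :=
    eigen_form P Q hP hQ htr (by rw [← hJe]; exact hJ)
  rw [← hJe] at hlam2
  have hJl : J = -lam ^ 2 := by rw [hlam2]; ring
  intro n b m hb hm
  have hbm : (monomial b 1 : MvPolynomial (Fin 2) ℂ) ∈ mW 2 := by
    rw [mem_mW, mem_mI_pow]
    intro k hk
    rw [coeff_monomial, if_neg]
    rintro rfl; omega
  have hgoal : Psi P Q J n (monomial b 1) ∈ mW (n + 1) → GG P Q J n b m = 0 := by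
    intro h1
    rw [mem_mW, mem_mI_pow] at h1
    exact h1 m (by omega)
  apply hgoal
  by_cases hn : 2 ≤ n
  · obtain ⟨A, B, hA, hB, hdet, hV⟩ := formal_of_coords hP hQ h n (by omega)
    have h1 := aeval_intertwine (RingHom.id ℂ) (tau M).toRingHom.toAddMonoidHom
      (fun r x => by change tau M (r • x) = _; rw [map_smul]; rfl) (VL P Q) (lam • VL (X 0 + X') (-X 1 + Y'))
      (fun x => htau x) (psi J n) (monomial b 1)
    rw [Polynomial.map_id] at h1
    have h2 : tau M (Psi P Q J n (monomial b 1)) =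
      Polynomial.aeval (lam • VL (X 0 + X') (-X 1 + Y')) (psi J n) (tau M (monomial b 1)) := h1
    have h3 : tau M (Psi P Q J n (monomial b 1)) ∈ mW (n + 1) := by
      rw [h2, hJl]
      have hA' := tau_mem M (lin_part hA)
      have hB' := tau_mem M (lin_part hB)
      have hlin : ∀ (F : MvPolynomial (Fin 2) ℂ) (u v : ℂ), tau M (F - (C u * X 0 + C v * X 1)) =
          tau M F - (C (u * M 0 0 + v * M 1 0) * X 0 + C (u * M 0 1 + v * M 1 1) * X 1) := by
        intro F u v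
        simp only [map_sub, map_add, map_mul, tau_C, tau_X]
        ring
      rw [hlin] at hA' hB'
      refine filtration hX hY lam hn hA' hB' ?_ ?_ (tau_mem M hbm)
      · have hMdet : M 0 0 * M 1 1 - M 0 1 * M 1 0 ≠ 0 := by
          have h5 : M.det * N.det = 1 := by rw [← Matrix.det_mul, hMN, Matrix.det_one]
          rw [Matrix.det_fin_two] at h5
          intro h6
          rw [h6, zero_mul] at h5
          exact zero_ne_one h5
        have h6 := mul_ne_zero hdet hMdet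
        intro h7
        apply h6
        linear_combination h7
      · have h5 := htau (A ^ 2 + B ^ 2)
        rw [map_add (tau M), map_pow, map_pow] at h5
        have h6 : VL (X 0 + X') (-X 1 + Y') (tau M A ^ 2 + tau M B ^ 2) = lam⁻¹ • tau M (VL P Q (A ^ 2 + B ^ 2)) := by
          rw [h5, smul_smul, inv_mul_cancel₀ hlam, one_smul]
        rw [h6]
        exact (mW (n + 1)).smul_mem _ (tau_mem M hV)
    have h4 := tau_mem N h3
    rw [tau_tau, hMN, tau_one] at h4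
    exact h4
  · have h1 : Psi P Q J n (monomial b 1) ∈ mW 2 := aeval_mem _ (mW 2) (VL_mW hP hQ 2) _ hbm
    exact mW_mono (by omega) h1

end

end Pool.Agent.NH60.Cen
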