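import Mathlib
import Pool.Agent.NH60.CenIff2
import Pool.Agent.NH60.CenDefs

/-!
# Centers at arbitrary points
-/

set_option autoImplicit false

namespace Pool.Agent.NH60.Cen

open Complex Topology Filter Set MvPolynomial

noncomputable section

section Shift

variable {R : Type*} [CommRing R]

/-- shift of the origin -/
def shift (p : Fin 2 → R) : MvPolynomial (Fin 2) R →ₐ[R] MvPolynomial (Fin 2) R :=
  aeval fun i => X i + C (p i)

@[simp] theorem shift_X (p : Fin 2 → R) (i : Fin 2) : shift p (X i) = X i + C (p i) := by simp [shift]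

@[simp] theorem shift_C (p : Fin 2 → R) (r : R) : shift p (C r) = C r := by simp [shift]

theorem eval_shift (p z : Fin 2 → R) (f : MvPolynomial (Fin 2) R) :
    eval z (shift p f) = eval (z + p) f := by
  induction f using MvPolynomial.induction_on with
  | C a => simp
  | add f g hf hg => simp only [map_add, hf, hg]
  | mul_X f n hf => simp [hf]

theorem pderiv_shift (p : Fin 2 → R) (i : Fin 2) (f : MvPolynomial (Fin 2) R) :
    pderiv i (shift p f) = shift p (pderiv i f) := by
  induction f using MvPolynomial.induction_on with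
  | C a => simp
  | add f g hf hg => simp only [map_add, hf, hg]
  | mul_X f n hf =>
    simp only [map_mul, pderiv_mul, hf, shift_X, map_add, pderiv_C, add_zero]
    congr 2
    rw [pderiv_X]
    by_cases h : n = i
    · subst h; simp
    · simp [Pi.single_apply, h]

theorem map_shift {S : Type*} [CommRing S] (φ : R →+* S) (p : Fin 2 → R) (f : MvPolynomial (Fin 2) R) :
    map φ (shift p f) = shift (fun i => φ (p i)) (map φ f) := by
  induction f using MvPolynomial.induction_on with
  | C a => simp
  | add f g hf hg => simp only [map_add, hf, hg]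
  | mul_X f n hf => simp [hf]

theorem shift_shift (p q : Fin 2 → R) (f : MvPolynomial (Fin 2) R) :
    shift q (shift p f) = shift (q + p) f := by
  induction f using MvPolynomial.induction_on with
  | C a => simp
  | add f g hf hg => simp only [map_add, hf, hg]
  | mul_X f n hf => simp [hf, add_assoc]

theorem shift_zero (f : MvPolynomial (Fin 2) R) : shift (0 : Fin 2 → R) f = f := by
  induction f using MvPolynomial.induction_on with
  | C a => simp
  | add f g hf hg => simp only [map_add, hf, hg]
  | mul_X f n hf => simp [hf]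

theorem coeff_zero_eq_eval (f : MvPolynomial (Fin 2) R) : f.coeff 0 = eval 0 f := by
  rw [eval_zero, constantCoeff_eq]

theorem coeff_shift_zero (p : Fin 2 → R) (f : MvPolynomial (Fin 2) R) : (shift p f).coeff 0 = eval p f := by
  rw [coeff_zero_eq_eval, eval_shift, zero_add]

theorem coeff_single_eq (f : MvPolynomial (Fin 2) R) (i : Fin 2) :
    f.coeff (Finsupp.single i 1) = eval 0 (pderiv i f) := by
  rw [← coeff_zero_eq_eval, coeff_pderiv]
  simp

theorem coeff_shift_one (p : Fin 2 → R) (f : MvPolynomial (Fin 2) R) (i : Fin 2) :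
    (shift p f).coeff (Finsupp.single i 1) = eval p (pderiv i f) := by
  rw [coeff_single_eq, pderiv_shift, eval_shift, zero_add]

theorem shift_mem {p : Fin 2 → R} {f : MvPolynomial (Fin 2) R} (h : eval p f = 0) : shift p f ∈ mI R ^ 1 := by
  rw [mem_mI_pow]
  intro m hm
  have : m = 0 := by
    ext i; fin_cases i
    · simp; omega
    · simp; omega
  rw [this, coeff_shift_zero, h]

end Shift

theorem Coords.shift {P Q : MvPolynomial (Fin 2) ℂ} {q r : Fin 2 → ℂ} (h : Coords P Q (q + r)) :
    Coords (shift r P) (shift r Q) q := by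
  obtain ⟨a, b, ha, hb, ha0, hb0, hli, hev⟩ := h
  have hsh : AnalyticAt ℂ (fun z : Fin 2 → ℂ => z + r) q := analyticAt_id.add analyticAt_const
  refine ⟨fun z => a (z + r), fun z => b (z + r), AnalyticAt.comp' ha hsh, AnalyticAt.comp' hb hsh, ha0, hb0,
    ?_, ?_⟩
  · rw [fderiv_comp_add_right, fderiv_comp_add_right]
    exact hli
  · have hc : Tendsto (fun z : Fin 2 → ℂ => z + r) (𝓝 q) (𝓝 (q + r)) := hsh.continuousAt
    filter_upwards [hc.eventually hev] with z hz
    have h1 : fderiv ℂ (fun y => a (y + r) ^ 2 + b (y + r) ^ 2) z = fderiv ℂ (fun y => a y ^ 2 + b y ^ 2) (z + r) :=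
      fderiv_comp_add_right (f := fun y => a y ^ 2 + b y ^ 2) r
    rw [h1, eval_shift, eval_shift]
    exact hz

theorem coords_shift_iff (P Q : MvPolynomial (Fin 2) ℂ) (p : Fin 2 → ℂ) :
    Coords P Q p ↔ Coords (shift p P) (shift p Q) 0 := by
  constructor
  · intro h
    apply Coords.shift
    rwa [zero_add]
  · intro h
    have h1 : Coords (Cen.shift p P) (Cen.shift p Q) (p + -p) := by rwa [add_neg_cancel]
    have h2 := Coords.shift h1
    rwa [shift_shift, shift_shift, neg_add_cancel, shift_zero, shift_zero] at h2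

/-- the algebraic characterization of centers -/
theorem isCenter_iff {P Q : MvPolynomial (Fin 2) ℂ} {p : Fin 2 → ℂ} (h0 : eval p P = 0) (h1 : eval p Q = 0)
    (hJ : eval p (jac P Q) ≠ 0) :
    IsCenter P Q p ↔ (eval p (pderiv 0 P + pderiv 1 Q) = 0 ∧
      Cond (shift p P) (shift p Q) (eval p (jac P Q))) := by
  have hJe : eval p (jac P Q) = (shift p P).coeff (Finsupp.single 0 1) * (shift p Q).coeff (Finsupp.single 1 1) -
      (shift p P).coeff (Finsupp.single 1 1) * (shift p Q).coeff (Finsupp.single 0 1) := by
    rw [coeff_shift_one, coeff_shift_one, coeff_shift_one, coeff_shift_one, jac]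
    simp
  have htr : eval p (pderiv 0 P + pderiv 1 Q) = (shift p P).coeff (Finsupp.single 0 1) +
      (shift p Q).coeff (Finsupp.single 1 1) := by
    rw [coeff_shift_one, coeff_shift_one, map_add]
  have hc : IsCenter P Q p ↔ Coords P Q p := by
    constructor
    · intro h; exact h.2.2
    · intro h; exact ⟨⟨h0, h1⟩, hJ, h⟩
  rw [hc, coords_shift_iff, htr]
  constructor
  · intro h
    exact cond_of_coords _ _ (shift_mem h0) (shift_mem h1) hJe hJ h
  · rintro ⟨h2, h3⟩
    exact coords_of_cond _ _ (shift_mem h0) (shift_mem h1) hJe hJ h2 h3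

end

end Pool.Agent.NH60.Cen
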