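import Mathlib
import Pool.Agent.NH60.CenShift
import Pool.Agent.NH60.CenIdem

/-!
# The universal center equations
-/

set_option autoImplicit false

namespace Pool.Agent.NH60.Cen

open MvPolynomial

noncomputable section

variable {A : Type*} [CommRing A]

/-- the tautological point -/
def upt (A : Type*) [CommRing A] : Fin 2 → MvPolynomial (Fin 3) A := ![X 0, X 1]

/-- evaluation at the tautological point -/
def uev : MvPolynomial (Fin 2) A →ₐ[A] MvPolynomial (Fin 3) A := aeval (upt A)

theorem uev_X (i : Fin 2) : uev (X i : MvPolynomial (Fin 2) A) = upt A i := by simp [uev]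

theorem uev_C (a : A) : uev (C a : MvPolynomial (Fin 2) A) = C a := by simp [uev]

theorem pderiv2_upt (i : Fin 2) : pderiv 2 (upt A i) = 0 := by
  fin_cases i
  · exact pderiv_X_of_ne (by decide)
  · exact pderiv_X_of_ne (by decide)

theorem pderiv2_uev (f : MvPolynomial (Fin 2) A) : pderiv 2 (uev f) = 0 := by
  induction f using MvPolynomial.induction_on with
  | C a => simp [uev_C]
  | add f g hf hg => rw [map_add, map_add, hf, hg, add_zero]
  | mul_X f n hf => rw [map_mul, pderiv_mul, hf, uev_X, pderiv2_upt]; simp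

theorem pderiv0_uev (f : MvPolynomial (Fin 2) A) : pderiv 0 (uev f) = uev (pderiv 0 f) := by
  induction f using MvPolynomial.induction_on with
  | C a => simp [uev_C]
  | add f g hf hg => rw [map_add, map_add, hf, hg, map_add, map_add]
  | mul_X f n hf =>
    rw [map_mul, pderiv_mul, hf, uev_X, pderiv_mul, map_add, map_mul, map_mul, uev_X]
    fin_cases n
    · simp [upt, pderiv_X_self]
    · have h1 : pderiv 0 (X 1 : MvPolynomial (Fin 3) A) = 0 := pderiv_X_of_ne (by decide)
      have h2 : pderiv 0 (X 1 : MvPolynomial (Fin 2) A) = 0 := pderiv_X_of_ne (by decide)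
      simp [upt, h1, h2]

theorem pderiv1_uev (f : MvPolynomial (Fin 2) A) : pderiv 1 (uev f) = uev (pderiv 1 f) := by
  induction f using MvPolynomial.induction_on with
  | C a => simp [uev_C]
  | add f g hf hg => rw [map_add, map_add, hf, hg, map_add, map_add]
  | mul_X f n hf =>
    rw [map_mul, pderiv_mul, hf, uev_X, pderiv_mul, map_add, map_mul, map_mul, uev_X]
    fin_cases n
    · have h1 : pderiv 1 (X 0 : MvPolynomial (Fin 3) A) = 0 := pderiv_X_of_ne (by decide)
      have h2 : pderiv 1 (X 0 : MvPolynomial (Fin 2) A) = 0 := pderiv_X_of_ne (by decide)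
      simp [upt, h1, h2]
    · simp [upt, pderiv_X_self]

/-- the universal system of center conditions -/
def usys (P Q : MvPolynomial (Fin 2) A) : Set (MvPolynomial (Fin 3) A) :=
  {g | g = uev (pderiv 0 P + pderiv 1 Q) ∨ ∃ (n : ℕ) (b m : Fin 2 →₀ ℕ), b 0 + b 1 = 2 ∧ m 0 + m 1 ≤ n ∧
    g = GG (shift (upt A) (map C P)) (shift (upt A) (map C Q)) (uev (jac P Q)) n b m}

theorem hom_uev (φ : MvPolynomial (Fin 3) A →+* ℂ) (f : MvPolynomial (Fin 2) A) :
    φ (uev f) = eval (fun i => φ (upt A i)) (map (φ.comp C) f) := by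
  induction f using MvPolynomial.induction_on with
  | C a => simp [uev_C]
  | add f g hf hg => simp only [map_add, hf, hg]
  | mul_X f n hf => simp only [map_mul, hf, uev_X, map_X, eval_X]

theorem map_jac {B : Type*} [CommRing B] (φ : A →+* B) (P Q : MvPolynomial (Fin 2) A) :
    map φ (jac P Q) = jac (map φ P) (map φ Q) := by
  simp [jac, pderiv_map]

theorem closed_point (P Q : MvPolynomial (Fin 2) A) (φ : MvPolynomial (Fin 3) A →+* ℂ) (h0 : φ (uev P) = 0)
    (h1 : φ (uev Q) = 0) (hJ : φ (X 2 * uev (jac P Q) - 1) = 0) :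
    (∀ g ∈ usys P Q, φ g = 0) ↔
      IsCenter (map (φ.comp C) P) (map (φ.comp C) Q) (fun i => φ (upt A i)) := by
  have hJ0 : eval (fun i => φ (upt A i)) (jac (map (φ.comp C) P) (map (φ.comp C) Q)) ≠ 0 := by
    intro h
    rw [map_sub, map_mul, map_one, hom_uev, map_jac, h, mul_zero, zero_sub] at hJ
    exact one_ne_zero (neg_eq_zero.1 hJ)
  rw [hom_uev] at h0 h1
  rw [isCenter_iff h0 h1 hJ0]
  have key : ∀ n b m, φ (GG (shift (upt A) (map C P)) (shift (upt A) (map C Q)) (uev (jac P Q)) n b m) =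
      GG (shift (fun i => φ (upt A i)) (map (φ.comp C) P)) (shift (fun i => φ (upt A i)) (map (φ.comp C) Q))
        (eval (fun i => φ (upt A i)) (jac (map (φ.comp C) P) (map (φ.comp C) Q))) n b m := by
    intro n b m
    rw [GG_map, map_shift, map_shift, hom_uev, map_jac, map_map, map_map]
  have htr : φ (uev (pderiv 0 P + pderiv 1 Q)) =
      eval (fun i => φ (upt A i)) (pderiv 0 (map (φ.comp C) P) + pderiv 1 (map (φ.comp C) Q)) := by
    rw [hom_uev, map_add, pderiv_map, pderiv_map]
  constructor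
  · intro h
    refine ⟨?_, ?_⟩
    · rw [← htr]; exact h _ (Or.inl rfl)
    · intro n b m hb hm
      rw [← key]
      exact h _ (Or.inr ⟨n, b, m, hb, hm, rfl⟩)
  · rintro ⟨h2, h3⟩ g (rfl | ⟨n, b, m, hb, hm, rfl⟩)
    · rw [htr]; exact h2
    · rw [key]; exact h3 n b m hb hm

theorem exists_selector [IsDomain A] [IsNoetherianRing A] (P Q : MvPolynomial (Fin 2) A) :
    ∃ (h a : A) (E : MvPolynomial (Fin 3) A), h ≠ 0 ∧ a ≠ 0 ∧ ∀ φ : MvPolynomial (Fin 3) A →+* ℂ,
      φ (uev P) = 0 → φ (uev Q) = 0 → φ (X 2 * uev (jac P Q) - 1) = 0 → φ (C h) ≠ 0 → φ (C a) ≠ 0 →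
      (φ E = 0 ∨ φ E = φ (C a)) ∧
        (φ E = 0 ↔ IsCenter (map (φ.comp C) P) (map (φ.comp C) Q) (fun i => φ (upt A i))) := by
  obtain ⟨h, a, E, hh, ha, k1, k2, k3⟩ := descent (F := uev P) (G := uev Q) (J := uev (jac P Q))
    (pderiv2_uev P) (pderiv2_uev Q) (pderiv2_uev _) (by
      rw [pderiv0_uev, pderiv0_uev, pderiv1_uev, pderiv1_uev, jac]; simp) (usys P Q)
  refine ⟨h, a, E, hh, ha, ?_⟩
  intro φ hP hQ hJ hφh hφa
  have hker : ∀ x ∈ Ideal.span {uev P, uev Q, X 2 * uev (jac P Q) - 1}, φ x = 0 := by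
    intro x hx
    have hle : Ideal.span {uev P, uev Q, X 2 * uev (jac P Q) - 1} ≤ RingHom.ker φ := by
      rw [Ideal.span_le]
      rintro y (rfl | rfl | rfl)
      · exact hP
      · exact hQ
      · exact hJ
    exact hle hx
  have e1 := hker _ k1
  rw [map_mul, map_mul, map_sub] at e1
  have e1' := (mul_eq_zero.1 e1).resolve_left hφh
  have hor : φ E = 0 ∨ φ E = φ (C a) := (mul_eq_zero.1 e1').imp id sub_eq_zero.1
  refine ⟨hor, ?_⟩
  rw [← closed_point P Q φ hP hQ hJ]
  constructor
  · intro hE g hg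
    have e2 := hker _ (k2 g hg)
    rw [map_mul, map_mul, map_sub, hE, sub_zero] at e2
    exact (mul_eq_zero.1 ((mul_eq_zero.1 e2).resolve_left hφh)).resolve_right hφa
  · intro hg
    have hle : Ideal.span (usys P Q) ⊔ Ideal.span {uev P, uev Q, X 2 * uev (jac P Q) - 1} ≤ RingHom.ker φ := by
      refine sup_le ?_ (fun x hx => hker x hx)
      rw [Ideal.span_le]
      intro y hy
      exact hg y hy
    have e3 : φ (C h * E) = 0 := hle k3
    rw [map_mul] at e3
    exact (mul_eq_zero.1 e3).resolve_left hφh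

end

end Pool.Agent.NH60.Cen
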