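import Mathlib
import Pool.Agent.NH60.CenUniv

/-!
# The homogeneous coordinate ring of an irreducible family of foliations
-/

set_option autoImplicit false

namespace Pool.Agent.NH60.Cen

open MvPolynomial
open scoped LinearAlgebra.Projectivization

noncomputable section

/-- index set of the coefficients of a pair of polynomials -/
abbrev Idx (d : ℕ) : Type := Fin 2 × Fin (d + 1) × Fin (d + 1)

/-- exponents -/
def mon {d : ℕ} (i j : Fin (d + 1)) : Fin 2 →₀ ℕ := Finsupp.single 0 (i : ℕ) + Finsupp.single 1 (j : ℕ)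

theorem mon_zero {d : ℕ} (i j : Fin (d + 1)) : mon i j 0 = i := by simp [mon]

theorem mon_one {d : ℕ} (i j : Fin (d + 1)) : mon i j 1 = j := by simp [mon]

/-- one of the two polynomials of a form -/
def comp {d : ℕ} (s : Fin 2) (w : Forms d) : MvPolynomial (Fin 2) ℂ := if s = 0 then w.P else w.Q

/-- coefficient vector of a form -/
def xv {d : ℕ} (w : Forms d) : Idx d → ℂ := fun k => (comp k.1 w).coeff (mon k.2.1 k.2.2)

theorem xv_smul {d : ℕ} (t : ℂ) (w : Forms d) : xv (t • w) = t • xv w := by
  funext k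
  obtain ⟨s, i, j⟩ := k
  fin_cases s
  · rfl
  · rfl

theorem xv_add {d : ℕ} (v w : Forms d) : xv (v + w) = xv v + xv w := by
  funext k
  obtain ⟨s, i, j⟩ := k
  fin_cases s
  · rfl
  · rfl

theorem polyFun_eval {d : ℕ} (f : MvPolynomial (Idx d) ℂ) : (fun v : Forms d => eval (xv v) f) ∈ polyFun (Forms d) := by
  induction f using MvPolynomial.induction_on with
  | C a =>
    have : (fun v : Forms d => eval (xv v) (C a)) = algebraMap ℂ (Forms d → ℂ) a := by
      funext v; simp
    rw [this]; exact Subalgebra.algebraMap_mem _ _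
  | add f g hf hg =>
    have : (fun v : Forms d => eval (xv v) (f + g)) = (fun v => eval (xv v) f) + fun v => eval (xv v) g := by
      funext v; simp
    rw [this]; exact add_mem hf hg
  | mul_X f k hf =>
    have : (fun v : Forms d => eval (xv v) (f * X k)) = (fun v => eval (xv v) f) * fun v => xv v k := by
      funext v; simp
    rw [this]
    refine mul_mem hf (Algebra.subset_adjoin ?_)
    refine ⟨{ toFun := fun v => xv v k, map_add' := fun v w => ?_, map_smul' := fun t v => ?_ }, rfl⟩
    · rw [xv_add]; rfl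
    · rw [xv_smul]; rfl

section Line

variable {ι : Type*}

/-- restriction of a polynomial to a line through the origin -/
def lineP (x : ι → ℂ) : MvPolynomial ι ℂ →ₐ[ℂ] Polynomial ℂ := aeval fun i => Polynomial.C (x i) * Polynomial.X

theorem eval_lineP (x : ι → ℂ) (t : ℂ) (f : MvPolynomial ι ℂ) : (lineP x f).eval t = eval (t • x) f := by
  induction f using MvPolynomial.induction_on with
  | C a => simp [lineP]
  | add f g hf hg => simp only [map_add, Polynomial.eval_add, hf, hg]
  | mul_X f n hf =>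
    rw [map_mul, Polynomial.eval_mul, hf, map_mul, lineP, aeval_X, Polynomial.eval_mul, Polynomial.eval_C,
      Polynomial.eval_X, eval_X, Pi.smul_apply, smul_eq_mul, mul_comm t]

theorem lineP_monomial (x : ι → ℂ) (m : ι →₀ ℕ) (r : ℂ) :
    lineP x (monomial m r) = Polynomial.C (eval x (monomial m r)) * Polynomial.X ^ m.degree := by
  rw [lineP, aeval_monomial, eval_monomial]
  simp only [mul_pow, Finsupp.prod, Finset.prod_mul_distrib, Polynomial.algebraMap_eq, map_mul, map_prod, map_pow]
  rw [Finset.prod_pow_eq_pow_sum, Finsupp.degree, mul_assoc]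
  rfl

theorem coeff_lineP (x : ι → ℂ) (k : ℕ) (f : MvPolynomial ι ℂ) :
    (lineP x f).coeff k = eval x (homogeneousComponent k f) := by
  induction f using MvPolynomial.induction_on' with
  | monomial m r =>
    rw [lineP_monomial, homogeneousComponent_of_mem (isHomogeneous_monomial r rfl), Polynomial.coeff_C_mul,
      Polynomial.coeff_X_pow]
    split_ifs <;> simp
  | add f g hf hg => rw [map_add, Polynomial.coeff_add, hf, hg, map_add, map_add]

theorem eval_comp_smul (x : ι → ℂ) (t : ℂ) (k : ℕ) (f : MvPolynomial ι ℂ) :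
    eval (t • x) (homogeneousComponent k f) = t ^ k * eval x (homogeneousComponent k f) := by
  have h : lineP x (homogeneousComponent k f) = Polynomial.C (eval x (homogeneousComponent k f)) * Polynomial.X ^ k := by
    ext j
    rw [coeff_lineP, homogeneousComponent_of_mem (homogeneousComponent_isHomogeneous k f), Polynomial.coeff_C_mul,
      Polynomial.coeff_X_pow]
    split_ifs <;> simp
  rw [← eval_lineP, h, Polynomial.eval_mul, Polynomial.eval_C, Polynomial.eval_pow, Polynomial.eval_X, mul_comm]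

theorem lineP_eq_zero_iff (x : ι → ℂ) (f : MvPolynomial ι ℂ) :
    lineP x f = 0 ↔ ∀ k, eval x (homogeneousComponent k f) = 0 := by
  rw [Polynomial.ext_iff]
  simp only [coeff_lineP, Polynomial.coeff_zero]

theorem lineP_eq_zero_of (x : ι → ℂ) (f : MvPolynomial ι ℂ) (h : ∀ t : ℂ, t ≠ 0 → eval (t • x) f = 0) :
    lineP x f = 0 := by
  apply Polynomial.eq_zero_of_infinite_isRoot
  refine Set.Infinite.mono (s := {t : ℂ | t ≠ 0}) ?_ ?_
  · intro t ht
    rw [Set.mem_setOf_eq, Polynomial.IsRoot, eval_lineP]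
    exact h t ht
  · exact (Set.finite_singleton (0 : ℂ)).infinite_compl

end Line

variable {d : ℕ}

/-- the closed set defined by the homogeneous components of a polynomial -/
def zset (f : MvPolynomial (Idx d) ℂ) : Set (ℙ ℂ (Forms d)) :=
  {F | ∀ k, eval (xv F.rep) (homogeneousComponent k f) = 0}

theorem zset_closed (f : MvPolynomial (Idx d) ℂ) : ZClosed (zset f) := by
  refine ⟨{g | ∃ k, g = fun v => eval (xv v) (homogeneousComponent k f)}, ?_, ?_⟩
  · rintro _ ⟨k, rfl⟩
    refine ⟨polyFun_eval _, k, fun t v => ?_⟩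
    change eval (xv (t • v)) _ = t ^ k * eval (xv v) _
    rw [xv_smul, eval_comp_smul]
  · ext F
    constructor
    · rintro h _ ⟨k, rfl⟩
      exact h k
    · intro h k
      exact h _ ⟨k, rfl⟩

theorem mem_zset_iff (f : MvPolynomial (Idx d) ℂ) (F : ℙ ℂ (Forms d)) : F ∈ zset f ↔ lineP (xv F.rep) f = 0 := by
  rw [lineP_eq_zero_iff]; rfl

/-- the closed set defined by a single homogeneous component -/
def zcomp (k : ℕ) (f : MvPolynomial (Idx d) ℂ) : Set (ℙ ℂ (Forms d)) :=
  {F | eval (xv F.rep) (homogeneousComponent k f) = 0}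

theorem zcomp_closed (k : ℕ) (f : MvPolynomial (Idx d) ℂ) : ZClosed (zcomp k f) := by
  refine ⟨{fun v => eval (xv v) (homogeneousComponent k f)}, ?_, ?_⟩
  · rintro _ rfl
    refine ⟨polyFun_eval _, k, fun t v => ?_⟩
    change eval (xv (t • v)) _ = t ^ k * eval (xv v) _
    rw [xv_smul, eval_comp_smul]
  · ext F
    constructor
    · rintro h _ rfl
      exact h
    · intro h
      exact h _ rfl

/-- the vanishing ideal of a family of foliations -/
def vid (X : Set (ℙ ℂ (Forms d))) : Ideal (MvPolynomial (Idx d) ℂ) where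
  carrier := {f | ∀ (v : Forms d) (hv : v ≠ 0), Projectivization.mk ℂ v hv ∈ X → eval (xv v) f = 0}
  add_mem' := fun {f g} hf hg v hv hX => by rw [map_add, hf v hv hX, hg v hv hX, add_zero]
  zero_mem' := fun v hv hX => map_zero _
  smul_mem' := fun c f hf v hv hX => by rw [smul_eq_mul, map_mul, hf v hv hX, mul_zero]

theorem mem_vid {X : Set (ℙ ℂ (Forms d))} {f : MvPolynomial (Idx d) ℂ} :
    f ∈ vid X ↔ ∀ (v : Forms d) (hv : v ≠ 0), Projectivization.mk ℂ v hv ∈ X → eval (xv v) f = 0 := Iff.rfl

theorem smul_rep_mk (F : ℙ ℂ (Forms d)) {t : ℂ} (ht : t ≠ 0) (h : t • F.rep ≠ 0) :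
    Projectivization.mk ℂ (t • F.rep) h = F := by
  conv_rhs => rw [← Projectivization.mk_rep F]
  rw [Projectivization.mk_eq_mk_iff']
  exact ⟨t, rfl⟩

theorem exists_scale {v : Forms d} (hv : v ≠ 0) {F : ℙ ℂ (Forms d)} (h : Projectivization.mk ℂ v hv = F) :
    ∃ s : ℂ, s ≠ 0 ∧ v = s • F.rep := by
  obtain ⟨a, ha⟩ := Projectivization.exists_smul_eq_mk_rep ℂ v hv
  refine ⟨((a⁻¹ : ℂˣ) : ℂ), Units.ne_zero _, ?_⟩
  rw [← h, ← ha]
  change v = a⁻¹ • (a • v)
  rw [inv_smul_smul]

theorem mem_vid_iff {X : Set (ℙ ℂ (Forms d))} {f : MvPolynomial (Idx d) ℂ} : f ∈ vid X ↔ X ⊆ zset f := by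
  constructor
  · intro hf F hF
    rw [mem_zset_iff]
    apply lineP_eq_zero_of
    intro t ht
    have h1 : t • F.rep ≠ 0 := smul_ne_zero ht (Projectivization.rep_nonzero F)
    rw [← xv_smul]
    exact hf _ h1 (by rw [smul_rep_mk F ht h1]; exact hF)
  · intro h v hv hvX
    obtain ⟨s, hs, hvs⟩ := exists_scale hv rfl
    have h1 := h hvX
    rw [mem_zset_iff] at h1
    rw [hvs, xv_smul, ← eval_lineP, h1, Polynomial.eval_zero]

theorem vid_prime {X : Set (ℙ ℂ (Forms d))} (hX : ZIrred X) : (vid X).IsPrime := by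
  obtain ⟨hc, ⟨F0, hF0⟩, hirr⟩ := hX
  constructor
  · rw [Ideal.ne_top_iff_one]
    intro h1
    have := h1 F0.rep (Projectivization.rep_nonzero F0) (by rw [Projectivization.mk_rep]; exact hF0)
    rw [map_one] at this
    exact one_ne_zero this
  · intro f g hfg
    have hsub : X ⊆ zset f ∪ zset g := by
      intro F hF
      have h1 := (mem_vid_iff.1 hfg) hF
      rw [mem_zset_iff, map_mul] at h1
      rcases mul_eq_zero.1 h1 with h2 | h2
      · left; rw [mem_zset_iff]; exact h2
      · right; rw [mem_zset_iff]; exact h2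
    rcases hirr _ _ (zset_closed f) (zset_closed g) hsub with h | h
    · left; exact mem_vid_iff.2 h
    · right; exact mem_vid_iff.2 h

/-- a nonempty open part of an irreducible family is dense -/
theorem openDense_of {X : Set (ℙ ℂ (Forms d))} (hX : ZIrred X) {k : ℕ} {f : MvPolynomial (Idx d) ℂ}
    (h : ¬ X ⊆ zcomp k f) : IsOpenDense (X \ zcomp k f) X := by
  refine ⟨⟨_, zcomp_closed k f, rfl⟩, ?_⟩
  intro Z hZ hU
  have h1 : X ⊆ Z ∪ zcomp k f := by
    intro F hF
    by_cases hf : F ∈ zcomp k f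
    · exact Or.inr hf
    · exact Or.inl (hU ⟨hF, hf⟩)
  exact (hX.2.2 Z _ hZ (zcomp_closed k f) h1).resolve_right h

/-- the universal polynomials -/
def univ (d : ℕ) (s : Fin 2) : MvPolynomial (Fin 2) (MvPolynomial (Idx d) ℂ) :=
  ∑ k : Fin (d + 1) × Fin (d + 1), monomial (mon k.1 k.2) (X (s, k))

theorem comp_totalDegree (s : Fin 2) (w : Forms d) : (comp s w).totalDegree ≤ d := by
  have h := w.2
  rw [Submodule.mem_prod, mem_restrictTotalDegree, mem_restrictTotalDegree] at h
  fin_cases s
  · exact h.1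
  · exact h.2

theorem poly_eq_sum {f : MvPolynomial (Fin 2) ℂ} (hf : f.totalDegree ≤ d) :
    f = ∑ k : Fin (d + 1) × Fin (d + 1), monomial (mon k.1 k.2) (f.coeff (mon k.1 k.2)) := by
  classical
  ext m
  rw [coeff_sum]
  simp only [coeff_monomial]
  by_cases hm : m 0 ≤ d ∧ m 1 ≤ d
  · have h1 : mon (d := d) ⟨m 0, by omega⟩ ⟨m 1, by omega⟩ = m := by
      ext i; fin_cases i
      · exact mon_zero _ _
      · exact mon_one _ _
    rw [Finset.sum_eq_single (⟨m 0, by omega⟩, ⟨m 1, by omega⟩)]
    · rw [if_pos h1, h1]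
    · rintro ⟨i, j⟩ _ hne
      rw [if_neg]
      rintro rfl
      apply hne
      simp only [mon_zero, mon_one]
    · intro h; exact absurd (Finset.mem_univ _) h
  · rw [Finset.sum_eq_zero]
    · apply coeff_eq_zero_of_totalDegree_lt
      have h2 : (∑ i ∈ m.support, m i) = m 0 + m 1 := by
        have := degree_two m
        rw [← this]; rfl
      rw [h2]
      by_contra h3
      exact hm ⟨by omega, by omega⟩
    · rintro ⟨i, j⟩ _
      rw [if_neg]
      rintro rfl
      apply hm
      rw [mon_zero, mon_one]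
      exact ⟨by omega, by omega⟩

theorem map_univ (s : Fin 2) (w : Forms d) : map (eval (xv w)) (univ d s) = comp s w := by
  rw [poly_eq_sum (comp_totalDegree s w), univ, map_sum]
  apply Finset.sum_congr rfl
  intro k _
  rw [map_monomial, eval_X]
  rfl

end

end Pool.Agent.NH60.Cen
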