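import Mathlib
import Pool.Agent.NH60.CenZar

/-!
# Stability of centers for generic members of irreducible families of foliations
-/

set_option autoImplicit false

namespace Pool.Agent.NH60.Cen

open MvPolynomial Topology Filter
open scoped LinearAlgebra.Projectivization

noncomputable section

theorem isSing_smul {P Q : MvPolynomial (Fin 2) ℂ} {t : ℂ} (ht : t ≠ 0) {p : Fin 2 → ℂ} :
    IsSing (t • P) (t • Q) p ↔ IsSing P Q p := by
  unfold IsSing
  rw [smul_eval, smul_eval, mul_eq_zero, mul_eq_zero]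
  simp [ht]

theorem isCenter_smul_of {P Q : MvPolynomial (Fin 2) ℂ} {t : ℂ} (ht : t ≠ 0) {p : Fin 2 → ℂ}
    (h : IsCenter P Q p) : IsCenter (t • P) (t • Q) p := by
  obtain ⟨h1, h2, a, b, ha, hb, ha0, hb0, hli, hev⟩ := h
  refine ⟨(isSing_smul ht).2 h1, ?_, a, b, ha, hb, ha0, hb0, hli, ?_⟩
  · have : jac (t • P) (t • Q) = (t * t) • jac P Q := by
      have e : ∀ (i : Fin 2) (f : MvPolynomial (Fin 2) ℂ), pderiv i (t • f) = t • pderiv i f := fun i f =>
        (pderiv i).map_smul t f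
      rw [jac, jac, e, e, e, e]
      simp only [smul_eq_C_mul, map_mul]
      ring
    rw [this, smul_eval]
    exact mul_ne_zero (mul_ne_zero ht ht) h2
  · filter_upwards [hev] with z hz
    have : (![eval z (t • P), eval z (t • Q)] : Fin 2 → ℂ) = t • ![eval z P, eval z Q] := by
      ext i; fin_cases i <;> simp [smul_eval]
    rw [this, map_smul, hz, smul_zero]

theorem isCenter_smul {P Q : MvPolynomial (Fin 2) ℂ} {t : ℂ} (ht : t ≠ 0) {p : Fin 2 → ℂ} :
    IsCenter (t • P) (t • Q) p ↔ IsCenter P Q p := by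
  constructor
  · intro h
    have := isCenter_smul_of (inv_ne_zero ht) h
    rwa [smul_smul, smul_smul, inv_mul_cancel₀ ht, one_smul, one_smul] at this
  · exact isCenter_smul_of ht

/-- joint continuity of evaluation -/
theorem continuous_eval2 {ι σ : Type*} (E : MvPolynomial σ (MvPolynomial ι ℂ)) :
    Continuous fun z : (ι → ℂ) × (σ → ℂ) => eval₂ (eval z.1) z.2 E := by
  induction E using MvPolynomial.induction_on with
  | C a =>
    simp only [eval₂_C]
    exact (MvPolynomial.continuous_eval a).comp continuous_fst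
  | add f g hf hg =>
    simp only [eval₂_add]
    exact hf.add hg
  | mul_X f n hf =>
    simp only [eval₂_mul, eval₂_X]
    exact hf.mul ((continuous_apply n).comp continuous_snd)

theorem contAt_eval2 {ι σ Z : Type*} [TopologicalSpace Z] (E : MvPolynomial σ (MvPolynomial ι ℂ)) {x : Z → ι → ℂ}
    {w : Z → σ → ℂ} {z0 : Z} (hx : ContinuousAt x z0) (hw : ContinuousAt w z0) :
    ContinuousAt (fun z => eval₂ (eval (x z)) (w z) E) z0 :=
  ContinuousAt.comp' (g := fun z : (ι → ℂ) × (σ → ℂ) => eval₂ (eval z.1) z.2 E)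
    (f := fun z => (x z, w z)) (continuous_eval2 E).continuousAt (hx.prodMk hw)

theorem contAt_eval {ι Z : Type*} [TopologicalSpace Z] (E : MvPolynomial ι ℂ) {x : Z → ι → ℂ}
    {z0 : Z} (hx : ContinuousAt x z0) : ContinuousAt (fun z => eval (x z) E) z0 :=
  ContinuousAt.comp' (g := fun z : ι → ℂ => eval z E) (f := x) (MvPolynomial.continuous_eval E).continuousAt hx

variable {d : ℕ}

theorem stable_core {X : Set (ℙ ℂ (Forms d))} (hX : ZIrred X) :
    ∃ f : MvPolynomial (Idx d) ℂ, f ∉ vid X ∧ ∀ (c : ℂ → Forms d) (p : Fin 2 → ℂ),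
      ContinuousAt (fun e => xv (c e)) 0 →
      (∀ᶠ e in 𝓝 (0 : ℂ), ∃ h : c e ≠ 0, Projectivization.mk ℂ (c e) h ∈ X) →
      eval (xv (c 0)) f ≠ 0 → IsCenter (c 0).P (c 0).Q p →
      ∀ᶠ z in 𝓝 ((0 : ℂ), p), IsSing (c z.1).P (c z.1).Q z.2 → IsCenter (c z.1).P (c z.1).Q z.2 := by
  haveI hprime : (vid X).IsPrime := vid_prime hX
  set π := Ideal.Quotient.mk (vid X) with hπ
  obtain ⟨h, a, E, hh, ha, key⟩ := exists_selector (map π (univ d 0)) (map π (univ d 1))
  obtain ⟨h', rfl⟩ := Ideal.Quotient.mk_surjective h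
  obtain ⟨a', rfl⟩ := Ideal.Quotient.mk_surjective a
  obtain ⟨E', rfl⟩ := MvPolynomial.map_surjective π Ideal.Quotient.mk_surjective E
  refine ⟨h' * a', ?_, ?_⟩
  · intro hmem
    rw [← Ideal.Quotient.eq_zero_iff_mem, map_mul] at hmem
    exact (mul_ne_zero hh ha) hmem
  -- the basic property of the selector at a closed point
  have point : ∀ (v : Forms d) (hv : v ≠ 0), Projectivization.mk ℂ v hv ∈ X → ∀ (q : Fin 2 → ℂ) (τ : ℂ),
      IsSing v.P v.Q q → τ * eval q (jac v.P v.Q) = 1 → eval (xv v) h' ≠ 0 → eval (xv v) a' ≠ 0 →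
      (eval₂ (eval (xv v)) ![q 0, q 1, τ] E' = 0 ∨ eval₂ (eval (xv v)) ![q 0, q 1, τ] E' = eval (xv v) a') ∧
      (eval₂ (eval (xv v)) ![q 0, q 1, τ] E' = 0 ↔ IsCenter v.P v.Q q) := by
    intro v hv hvX q τ hs hτ hh' ha'
    set ev : (MvPolynomial (Idx d) ℂ ⧸ vid X) →+* ℂ := Ideal.Quotient.lift (vid X) (eval (xv v))
      (fun f hf => hf v hv hvX) with hev
    set φ : MvPolynomial (Fin 3) (MvPolynomial (Idx d) ℂ ⧸ vid X) →+* ℂ := eval₂Hom ev ![q 0, q 1, τ] with hφ
    have c1 : φ.comp C = ev := RingHom.ext fun x => by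
      simp [hφ]
    have c2 : ev.comp π = eval (xv v) := RingHom.ext fun x => by
      simp [hev, hπ]
    have c3 : ∀ s, map (φ.comp C) (map π (univ d s)) = comp s v := by
      intro s
      rw [c1, MvPolynomial.map_map, c2, map_univ]
    have c4 : (fun i => φ (upt (MvPolynomial (Idx d) ℂ ⧸ vid X) i)) = q := by
      funext i
      fin_cases i
      · simp [hφ, upt]
      · simp [hφ, upt]
    have c5 : ∀ g, φ (C (π g)) = eval (xv v) g := by
      intro g
      have : φ (C (π g)) = (φ.comp C) (π g) := rfl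
      rw [this, c1]
      simp [hev, hπ]
    have c6 : φ (map π E') = eval₂ (eval (xv v)) ![q 0, q 1, τ] E' := by
      rw [hφ, coe_eval₂Hom, eval₂_map, c2]
    have c7 : comp 0 v = v.P := rfl
    have c8 : comp 1 v = v.Q := rfl
    have e0 : φ (uev (map π (univ d 0))) = 0 := by rw [hom_uev, c3, c4, c7]; exact hs.1
    have e1 : φ (uev (map π (univ d 1))) = 0 := by rw [hom_uev, c3, c4, c8]; exact hs.2
    have e2 : φ (MvPolynomial.X 2 * uev (jac (map π (univ d 0)) (map π (univ d 1))) - 1) = 0 := by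
      rw [map_sub, map_mul, map_one, hom_uev, map_jac, c3, c3, c4, c7, c8]
      have : φ (MvPolynomial.X 2) = τ := by simp [hφ]
      rw [this, hτ, sub_self]
    have := key φ e0 e1 e2 (by rw [c5]; exact hh') (by rw [c5]; exact ha')
    rw [c6, c5, c3, c3, c4, c7, c8] at this
    exact this
  intro c p hc hcX hf hcen
  rw [map_mul] at hf
  have hf1 : eval (xv (c 0)) h' ≠ 0 := left_ne_zero_of_mul hf
  have hf2 : eval (xv (c 0)) a' ≠ 0 := right_ne_zero_of_mul hf
  -- continuity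
  have hfst : ContinuousAt (fun z : ℂ × (Fin 2 → ℂ) => z.1) ((0 : ℂ), p) := continuousAt_fst
  have hx : ContinuousAt (fun z : ℂ × (Fin 2 → ℂ) => xv (c z.1)) ((0 : ℂ), p) :=
    ContinuousAt.comp' (g := fun e => xv (c e)) (f := fun z : ℂ × (Fin 2 → ℂ) => z.1) hc hfst
  have hJeq : ∀ z : ℂ × (Fin 2 → ℂ), eval z.2 (jac (c z.1).P (c z.1).Q) =
      eval₂ (eval (xv (c z.1))) z.2 (jac (univ d 0) (univ d 1)) := by
    intro z
    have h1 : map (eval (xv (c z.1))) (jac (univ d 0) (univ d 1)) = jac (c z.1).P (c z.1).Q := by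
      rw [map_jac, map_univ, map_univ]; rfl
    rw [← h1, eval_map]
  have hJc : ContinuousAt (fun z : ℂ × (Fin 2 → ℂ) => eval z.2 (jac (c z.1).P (c z.1).Q)) ((0 : ℂ), p) := by
    simp only [hJeq]
    exact contAt_eval2 _ hx continuousAt_snd
  have hJ0 : eval p (jac (c 0).P (c 0).Q) ≠ 0 := hcen.2.1
  have hτ : ContinuousAt (fun z : ℂ × (Fin 2 → ℂ) => (eval z.2 (jac (c z.1).P (c z.1).Q))⁻¹) ((0 : ℂ), p) :=
    hJc.inv₀ hJ0
  have hΦ : ContinuousAt (fun z : ℂ × (Fin 2 → ℂ) => eval₂ (eval (xv (c z.1)))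
      ![z.2 0, z.2 1, (eval z.2 (jac (c z.1).P (c z.1).Q))⁻¹] E') ((0 : ℂ), p) := by
    refine contAt_eval2 E' hx ?_
    rw [continuousAt_pi]
    intro i
    fin_cases i
    · exact ((continuous_apply (0 : Fin 2)).comp continuous_snd).continuousAt
    · exact ((continuous_apply (1 : Fin 2)).comp continuous_snd).continuousAt
    · exact hτ
  have hα : ContinuousAt (fun z : ℂ × (Fin 2 → ℂ) => eval (xv (c z.1)) a') ((0 : ℂ), p) :=
    contAt_eval a' hx
  have hh'c : ContinuousAt (fun z : ℂ × (Fin 2 → ℂ) => eval (xv (c z.1)) h') ((0 : ℂ), p) :=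
    contAt_eval h' hx
  have hΦ0 : eval₂ (eval (xv (c 0))) ![p 0, p 1, (eval p (jac (c 0).P (c 0).Q))⁻¹] E' = 0 := by
    obtain ⟨h0, h0X⟩ := hcX.self_of_nhds
    exact (point (c 0) h0 h0X p _ hcen.1 (inv_mul_cancel₀ hJ0) hf1 hf2).2.2 hcen
  have hlt : ∀ᶠ z : ℂ × (Fin 2 → ℂ) in 𝓝 ((0 : ℂ), p), ‖eval₂ (eval (xv (c z.1)))
      ![z.2 0, z.2 1, (eval z.2 (jac (c z.1).P (c z.1).Q))⁻¹] E'‖ < ‖eval (xv (c z.1)) a'‖ := by
    refine Filter.Tendsto.eventually_lt hΦ.norm hα.norm ?_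
    change ‖eval₂ (eval (xv (c 0))) ![p 0, p 1, (eval p (jac (c 0).P (c 0).Q))⁻¹] E'‖ < ‖eval (xv (c 0)) a'‖
    rw [hΦ0, norm_zero]
    exact norm_pos_iff.2 hf2
  filter_upwards [hlt, hh'c.eventually_ne hf1, hα.eventually_ne hf2, hJc.eventually_ne hJ0,
    hfst.eventually hcX] with z z1 z2 z3 z4 z5 hsing
  obtain ⟨h0, h0X⟩ := z5
  obtain ⟨hor, hiff⟩ := point (c z.1) h0 h0X z.2 _ hsing (inv_mul_cancel₀ z4) z2 z3
  rcases hor with h | h
  · exact hiff.1 h
  · rw [h] at z1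
    exact absurd z1 (lt_irrefl _)

/-- for a generic member of an irreducible family of foliations all centers are stable -/
theorem generic_stability {X : Set (ℙ ℂ (Forms d))} (hX : ZIrred X) :
    ∃ U : Set (ℙ ℂ (Forms d)), U ⊆ X ∧ IsOpenDense U X ∧
      ∀ F ∈ U, ∀ p, IsCenter F.rep.P F.rep.Q p → IsStable X F p := by
  obtain ⟨f, hf, hcore⟩ := stable_core hX
  rw [mem_vid_iff, Set.not_subset] at hf
  obtain ⟨F0, hF0, hF0f⟩ := hf
  obtain ⟨k, hk⟩ : ∃ k, eval (xv F0.rep) (homogeneousComponent k f) ≠ 0 := by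
    by_contra hcon
    push Not at hcon
    exact hF0f hcon
  have hnot : ¬ X ⊆ zcomp k f := fun h => hk (h hF0)
  refine ⟨X \ zcomp k f, Set.diff_subset, openDense_of hX hnot, ?_⟩
  rintro F ⟨hFX, hFf⟩ p hcen
  intro c hcP hcQ hc0 hcX
  obtain ⟨h0, hF⟩ := hc0
  obtain ⟨s, hs, hcs⟩ := exists_scale h0 hF
  obtain ⟨T, hT, hTf⟩ : ∃ T : ℂ, T ≠ 0 ∧ eval (T • xv F.rep) f ≠ 0 := by
    by_contra hcon
    push Not at hcon
    have := lineP_eq_zero_of (xv F.rep) f hcon
    rw [lineP_eq_zero_iff] at this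
    exact hFf (this k)
  set t : ℂ := T / s with ht
  have ht0 : t ≠ 0 := div_ne_zero hT hs
  have hc0' : t • c 0 = T • F.rep := by
    rw [hcs, smul_smul, ht, div_mul_cancel₀ _ hs]
  have hP : ∀ w : Forms d, ∀ r : ℂ, (r • w).P = r • w.P := fun w r => rfl
  have hQ : ∀ w : Forms d, ∀ r : ℂ, (r • w).Q = r • w.Q := fun w r => rfl
  have hcont : ContinuousAt (fun e => xv (t • c e)) 0 := by
    rw [continuousAt_pi]
    rintro ⟨i, j⟩
    fin_cases i
    · have h1 := (hcP (mon j.1 j.2)).continuousAt.const_mul t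
      exact h1
    · have h1 := (hcQ (mon j.1 j.2)).continuousAt.const_mul t
      exact h1
  have hcone : ∀ᶠ e in 𝓝 (0 : ℂ), ∃ h : t • c e ≠ 0, Projectivization.mk ℂ (t • c e) h ∈ X := by
    filter_upwards [hcX] with e he
    obtain ⟨h1, h2⟩ := he
    refine ⟨smul_ne_zero ht0 h1, ?_⟩
    have : Projectivization.mk ℂ (t • c e) (smul_ne_zero ht0 h1) = Projectivization.mk ℂ (c e) h1 := by
      rw [Projectivization.mk_eq_mk_iff']
      exact ⟨t, rfl⟩
    rw [this]; exact h2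
  have hres := hcore (fun e => t • c e) p hcont hcone (by rw [hc0', xv_smul]; exact hTf) (by
    rw [hc0', hP, hQ]
    exact isCenter_smul_of hT hcen)
  filter_upwards [hres] with z hz
  rw [hP, hQ] at hz
  rw [isSing_smul ht0, isCenter_smul ht0] at hz
  exact hz

end

end Pool.Agent.NH60.Cen
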