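import Pool.Agent.Helper819.S0

/-!
A counting inequality.
-/

open MvPolynomial

namespace Pool.Agent.NH60

open Pool.Agent.Helper819.Dyn

noncomputable section

theorem card_Ex {N d : ℕ} (hN : 2 ≤ N) (hd : 2 ≤ d) : 2 * (N + 1) ≤ Fintype.card (Ex N d) := by
  have h1 : Fintype.card (Ex N d) = (N + d).choose N := by
    rw [Fintype.card_coe, Finset.card_finsuppAntidiag_nat_eq_choose]
    rw [Finset.card_univ, Fintype.card_fin]
    have h2 : N + 1 + d - 1 = N + d := by omega
    rw [h2, Nat.choose_symm_add]
  rw [h1]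
  have h2 : (N + 2).choose N ≤ (N + d).choose N := Nat.choose_le_choose N (by omega)
  refine le_trans ?_ h2
  rw [Nat.choose_symm_add, Nat.choose_two_right]
  rw [Nat.le_div_iff_mul_le (by norm_num)]
  have h3 : N + 2 - 1 = N + 1 := by omega
  rw [h3]
  nlinarith

theorem count {k : Type} [DecidableEq k] {N d : ℕ} (l : Fin (N + 1) → k) (e : Ex N d → k)
    (hl : ∃ i j, l i ≠ l j) (hM : 2 * (N + 1) ≤ Fintype.card (Ex N d)) :
    Fintype.card {p : Fin (N + 1) × Fin (N + 1) // l p.1 ≠ l p.2} + 2 ≤
      Fintype.card {p : Ix N d // e p.2 ≠ l p.1} := by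
  classical
  let cl : Fin (N + 1) → Finset (Fin (N + 1)) := fun i => Finset.univ.filter (fun j => l j = l i)
  obtain ⟨i0, -, hi0⟩ := Finset.exists_max_image Finset.univ (fun i => (cl i).card)
    ⟨0, Finset.mem_univ _⟩
  obtain ⟨μ, hμ⟩ : ∃ μ, μ = (cl i0).card := ⟨_, rfl⟩
  obtain ⟨κ, hκ⟩ : ∃ κ, κ = (cl i0)ᶜ.card := ⟨_, rfl⟩
  have hn : μ + κ = N + 1 := by
    rw [hμ, hκ, Finset.card_add_card_compl, Fintype.card_fin]
  have hκ1 : 1 ≤ κ := by
    rw [hκ]
    rw [Nat.one_le_iff_ne_zero, Finset.card_ne_zero]
    obtain ⟨i, j, hij⟩ := hl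
    by_cases h : l i = l i0
    · refine ⟨j, ?_⟩
      rw [Finset.mem_compl, Finset.mem_filter]
      rintro ⟨_, h2⟩
      exact hij (h.trans h2.symm)
    · refine ⟨i, ?_⟩
      rw [Finset.mem_compl, Finset.mem_filter]
      rintro ⟨_, h2⟩
      exact h h2
  -- the off-diagonal pairs
  have h1 : Fintype.card {p : Fin (N + 1) × Fin (N + 1) // l p.1 ≠ l p.2} + (μ * μ + κ) ≤
      (N + 1) * (N + 1) := by
    have e1 : Fintype.card {p : Fin (N + 1) × Fin (N + 1) // l p.1 ≠ l p.2} =
        (Finset.univ.filter (fun p : Fin (N + 1) × Fin (N + 1) => l p.1 ≠ l p.2)).card :=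
      Fintype.card_subtype _
    have e2 : μ * μ + κ = (((cl i0) ×ˢ (cl i0)) ∪
        ((cl i0)ᶜ.image (fun i => ((i, i) : Fin (N + 1) × Fin (N + 1))))).card := by
      rw [Finset.card_union_of_disjoint, Finset.card_product, ← hμ, Finset.card_image_of_injective,
        ← hκ]
      · intro a b hab
        exact (Prod.mk.inj hab).1
      · rw [Finset.disjoint_left]
        rintro ⟨a, b⟩ h2 h3
        rw [Finset.mem_product] at h2
        rw [Finset.mem_image] at h3
        obtain ⟨c, hc, hc2⟩ := h3
        rw [Prod.mk.injEq] at hc2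
        rw [Finset.mem_compl] at hc
        apply hc
        rw [hc2.1]
        exact h2.1
    rw [e1, e2, ← Finset.card_union_of_disjoint]
    · refine le_trans (Finset.card_le_univ _) ?_
      rw [Fintype.card_prod, Fintype.card_fin]
    · rw [Finset.disjoint_left]
      rintro ⟨a, b⟩ h2 h3
      rw [Finset.mem_filter] at h2
      apply h2.2
      rw [Finset.mem_union] at h3
      rcases h3 with h3 | h3
      · rw [Finset.mem_product] at h3
        have h4 := (Finset.mem_filter.mp h3.1).2
        have h5 := (Finset.mem_filter.mp h3.2).2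
        exact h4.trans h5.symm
      · rw [Finset.mem_image] at h3
        obtain ⟨c, _, hc2⟩ := h3
        rw [Prod.mk.injEq] at hc2
        change l a = l b
        rw [← hc2.1, ← hc2.2]
  have h2 : Fintype.card (Ex N d) * κ ≤ Fintype.card {p : Ix N d // e p.2 ≠ l p.1} := by
    have e1 : Fintype.card {p : Ix N d // e p.2 ≠ l p.1} =
        (Finset.univ.filter (fun p : Ix N d => e p.2 ≠ l p.1)).card :=
      Fintype.card_subtype _
    have e2 : (Finset.univ.filter (fun p : Ix N d => e p.2 ≠ l p.1)).card =
        ∑ m : Ex N d, (Finset.univ.filter (fun i : Fin (N + 1) => e m ≠ l i)).card := by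
      rw [Finset.card_eq_sum_card_fiberwise (f := fun p : Ix N d => p.2) (t := Finset.univ)
        (fun _ _ => Finset.mem_coe.mpr (Finset.mem_univ _))]
      refine Finset.sum_congr rfl fun m _ => ?_
      refine Finset.card_bij (fun p _ => p.1) ?_ ?_ ?_
      · intro p hp
        rw [Finset.mem_filter] at hp
        obtain ⟨hp1, hp2⟩ := hp
        rw [Finset.mem_filter] at hp1 ⊢
        refine ⟨Finset.mem_univ _, ?_⟩
        rw [← hp2]
        exact hp1.2
      · intro p hp q hq h
        rw [Finset.mem_filter] at hp hq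
        exact Prod.ext h (hp.2.trans hq.2.symm)
      · intro i hi
        refine ⟨(i, m), ?_, rfl⟩
        rw [Finset.mem_filter, Finset.mem_filter]
        exact ⟨⟨Finset.mem_univ _, (Finset.mem_filter.mp hi).2⟩, rfl⟩
    have e3 : ∀ m : Ex N d, κ ≤
        (Finset.univ.filter (fun i : Fin (N + 1) => e m ≠ l i)).card := by
      intro m
      have h3 : (Finset.univ.filter (fun i : Fin (N + 1) => l i = e m)).card ≤ μ := by
        by_cases hne : ∃ i, l i = e m
        · obtain ⟨i, hi⟩ := hne
          have := hi0 i (Finset.mem_univ _)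
          rw [← hμ] at this
          refine le_trans (le_of_eq ?_) this
          rw [← hi]
        · push Not at hne
          have h4 : (Finset.univ.filter (fun i : Fin (N + 1) => l i = e m)) = ∅ := by
            apply Finset.filter_eq_empty_iff.mpr
            intro i _
            exact hne i
          rw [h4, Finset.card_empty]
          exact Nat.zero_le _
      have h4 := Finset.card_filter_add_card_filter_not (s := (Finset.univ : Finset (Fin (N + 1))))
        (fun i => l i = e m)
      rw [Finset.card_univ, Fintype.card_fin] at h4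
      have h5 : (Finset.univ.filter (fun i : Fin (N + 1) => e m ≠ l i)) =
          (Finset.univ.filter (fun i : Fin (N + 1) => ¬ l i = e m)) := by
        apply Finset.filter_congr
        intro i _
        exact ⟨fun h h2 => h h2.symm, fun h h2 => h h2.symm⟩
      rw [h5]
      omega
    rw [e1, e2]
    refine le_trans (le_of_eq ?_) (Finset.sum_le_sum fun m _ => e3 m)
    rw [Finset.sum_const, Finset.card_univ, smul_eq_mul]
  have h3 : 2 * (N + 1) * κ ≤ Fintype.card (Ex N d) * κ := Nat.mul_le_mul_right _ hM
  have h4 : (N + 1) * (N + 1) = (μ + κ) * (μ + κ) := by rw [hn]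
  have h5 : 2 * (N + 1) * κ = 2 * (μ + κ) * κ := by rw [hn]
  rw [h4] at h1
  rw [h5] at h3
  nlinarith

end

end Pool.Agent.NH60
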