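import Pool.Agent.NH60.Dg

/-!
Hypersurfaces contain points with trivial stabiliser.
-/

open MvPolynomial

namespace Pool.Agent.NH60

open Pool.Agent.Helper819.Apolar Pool.Agent.Helper819.Dyn

noncomputable section

set_option linter.unusedSectionVars false

/-- A prime polynomial does not contain the kernel of a map to a polynomial ring in at most
`card ι - 2` variables. -/
theorem exists_ker {k ι τ : Type} [Field k] [Fintype ι] [DecidableEq ι] [Fintype τ]
    (ψ : MvPolynomial ι k →ₐ[k] MvPolynomial τ k) (hc : Fintype.card τ + 2 ≤ Fintype.card ι)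
    {π : MvPolynomial ι k} (hπ : Prime π) : ∃ V, ψ V = 0 ∧ ¬ π ∣ V := by
  by_contra hcon
  push Not at hcon
  obtain ⟨p0, hp0⟩ : ∃ p0, degreeOf p0 π ≠ 0 := by
    by_contra h
    push Not at h
    have h1 : π.totalDegree = 0 := by
      rw [totalDegree_eq_zero_iff]
      intro m hm i
      have := monomial_le_degreeOf i hm
      rw [h i] at this
      exact Nat.le_zero.mp this
    rw [totalDegree_eq_zero_iff_eq_C] at h1
    apply hπ.not_isUnit
    rw [h1]
    apply IsUnit.map
    rw [isUnit_iff_ne_zero]
    intro h2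
    rw [h2, C_0] at h1
    exact hπ.ne_zero h1
  have hind : AlgebraicIndependent k (fun p : {p : ι // p ≠ p0} => ψ (X p.1)) := by
    rw [algebraicIndependent_iff]
    intro F hF
    have h1 : ψ (rename Subtype.val F) = 0 := by
      rw [← hF]
      have h2 := comp_aeval_apply (fun p : {p : ι // p ≠ p0} => (X p.1 : MvPolynomial ι k)) ψ F
      have h3 : (rename Subtype.val : MvPolynomial {p : ι // p ≠ p0} k →ₐ[k] MvPolynomial ι k) =
          aeval (fun p : {p : ι // p ≠ p0} => (X p.1 : MvPolynomial ι k)) := by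
        apply algHom_ext
        intro i
        rw [rename_X, aeval_X]
      rw [← h2, h3]
    obtain ⟨h, hh⟩ := hcon _ h1
    by_contra hF0
    have h3 : rename Subtype.val F ≠ (0 : MvPolynomial ι k) := by
      intro h4
      apply hF0
      apply rename_injective _ Subtype.val_injective
      rw [h4, map_zero]
    have h5 : h ≠ 0 := by
      rintro rfl
      rw [mul_zero] at hh
      exact h3 hh
    have h6 : degreeOf p0 (rename Subtype.val F : MvPolynomial ι k) = 0 := by
      rw [degreeOf_eq_sup]
      apply Nat.le_zero.mp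
      apply Finset.sup_le
      intro m hm
      rw [Nat.le_zero]
      by_contra h7
      have h8 : p0 ∈ (rename Subtype.val F : MvPolynomial ι k).vars := by
        rw [mem_vars_iff_mem_support]
        exact ⟨m, hm, Finsupp.mem_support_iff.mpr h7⟩
      have h9 := vars_rename (Subtype.val : {p : ι // p ≠ p0} → ι) F h8
      rw [Finset.mem_image] at h9
      obtain ⟨q, _, hq⟩ := h9
      exact q.2 hq
    rw [hh, degreeOf_mul_eq hπ.ne_zero h5] at h6
    omega
  have h1 := hind.lift_cardinalMk_le_trdeg
  rw [MvPolynomial.trdeg_of_isDomain] at h1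
  simp only [Cardinal.mk_fintype, Cardinal.lift_natCast, Nat.cast_le] at h1
  have h2 : Fintype.card {p : ι // p ≠ p0} = Fintype.card ι - 1 := by
    rw [Fintype.card_subtype_compl, Fintype.card_subtype_eq]
  rw [h2] at h1
  omega

section fam

variable {k : Type} [Field k] {N d : ℕ}

/-- parameters: off-block entries and coefficients -/
abbrev Par (O : Finset (Fin (N + 1) × Fin (N + 1))) (Sg : Finset (Ix N d)) : Type :=
  {q : Fin (N + 1) × Fin (N + 1) // q ∈ O} ⊕ {p : Ix N d // p ∈ Sg}

open Classical in
/-- the matrix `1 + u` -/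
def uM (k : Type) [Field k] (O : Finset (Fin (N + 1) × Fin (N + 1))) (Sg : Finset (Ix N d)) :
    Matrix (Fin (N + 1)) (Fin (N + 1)) (MvPolynomial (Par O Sg) k) :=
  1 + Matrix.of fun i j => if h : (i, j) ∈ O then X (Sum.inl ⟨(i, j), h⟩) else 0

open Classical in
/-- the generic coefficient vector supported on `Sg` -/
def cM (k : Type) [Field k] (O : Finset (Fin (N + 1) × Fin (N + 1))) (Sg : Finset (Ix N d)) :
    Ix N d → MvPolynomial (Par O Sg) k :=
  fun p => if h : p ∈ Sg then X (Sum.inr ⟨p, h⟩) else 0

/-- the family of conjugates -/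
def psi (k : Type) [Field k] (O : Finset (Fin (N + 1) × Fin (N + 1))) (Sg : Finset (Ix N d)) :
    SS k N d →ₐ[k] MvPolynomial (Par O Sg) k :=
  aeval (actT (uM k O Sg) (cM k O Sg))

theorem psi_zero {O : Finset (Fin (N + 1) × Fin (N + 1))} {Sg : Finset (Ix N d)} {V : SS k N d}
    (hV : psi k O Sg V = 0) {u : Matrix (Fin (N + 1)) (Fin (N + 1)) k}
    (hu : ∀ i j, (i, j) ∉ O → u i j = 0) {c : Ix N d → k} (hc : ∀ p, p ∉ Sg → c p = 0) :
    eval (actT (1 + u) c) V = 0 := by
  classical
  let x : Par O Sg → k := Sum.elim (fun q => u q.1.1 q.1.2) (fun p => c p.1)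
  have h1 := congrArg (eval x) hV
  rw [map_zero] at h1
  rw [← h1]
  unfold psi
  have h2 := comp_aeval_apply (actT (uM k O Sg) (cM k O Sg))
    (aeval x : MvPolynomial (Par O Sg) k →ₐ[k] k) V
  have h3 : ∀ q : MvPolynomial (Par O Sg) k, aeval x q = eval x q := by
    intro q
    rw [← coe_aeval_eq_eval]
    rfl
  rw [h3] at h2
  rw [h2]
  have h4 : (fun p => (aeval x : MvPolynomial (Par O Sg) k →ₐ[k] k)
      (actT (uM k O Sg) (cM k O Sg) p)) = actT (1 + u) c := by
    funext p
    rw [h3, map_actT]
    congr 1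
    · ext i j
      unfold uM
      rw [Matrix.map_apply, Matrix.add_apply, Matrix.add_apply, map_add, Matrix.of_apply]
      congr 1
      · by_cases hij : i = j
        · rw [hij, Matrix.one_apply_eq, Matrix.one_apply_eq, map_one]
        · rw [Matrix.one_apply_ne hij, Matrix.one_apply_ne hij, map_zero]
      · split_ifs with h
        · rw [eval_X]; rfl
        · rw [map_zero, hu i j h]
    · funext p
      unfold cM
      split_ifs with h
      · rw [eval_X]; rfl
      · rw [map_zero, hc p h]
  rw [h4]
  have h5 : ∀ q : SS k N d, aeval (actT (1 + u) c) q = eval (actT (1 + u) c) q := by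
    intro q
    rw [← coe_aeval_eq_eval]
    rfl
  rw [h5]

open Classical in
/-- off-block entries of a diagonal matrix -/
def OO (l : Fin (N + 1) → k) : Finset (Fin (N + 1) × Fin (N + 1)) :=
  Finset.univ.filter (fun q => l q.1 ≠ l q.2)

open Classical in
/-- fixed coefficients of a diagonal matrix -/
def SG (d : ℕ) (l : Fin (N + 1) → k) : Finset (Ix N d) :=
  Finset.univ.filter (fun p => eig l p = 1)

open Classical in
/-- the block part of a matrix -/
def blk {R : Type} [CommRing R] (l : Fin (N + 1) → k) (g : Matrix (Fin (N + 1)) (Fin (N + 1)) R) :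
    Matrix (Fin (N + 1)) (Fin (N + 1)) R :=
  Matrix.of fun i j => if l i = l j then g i j else 0

theorem comm_iff (l : Fin (N + 1) → k) (z : Matrix (Fin (N + 1)) (Fin (N + 1)) k) :
    z * Matrix.diagonal l = Matrix.diagonal l * z ↔ ∀ i j, l i ≠ l j → z i j = 0 := by
  constructor
  · intro h i j hij
    have h1 := congrFun (congrFun h i) j
    rw [Matrix.mul_diagonal, Matrix.diagonal_mul] at h1
    have h2 : (l i - l j) * z i j = 0 := by linear_combination -h1
    exact (mul_eq_zero.mp h2).resolve_left (sub_ne_zero.mpr hij)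
  · intro h
    ext i j
    rw [Matrix.mul_diagonal, Matrix.diagonal_mul]
    by_cases hij : l i = l j
    · rw [hij, mul_comm]
    · rw [h i j hij, mul_zero, zero_mul]

theorem blk_comm (l : Fin (N + 1) → k) (g : Matrix (Fin (N + 1)) (Fin (N + 1)) k) :
    blk l g * Matrix.diagonal l = Matrix.diagonal l * blk l g := by
  rw [comm_iff]
  intro i j hij
  unfold blk
  rw [Matrix.of_apply, if_neg hij]

theorem fixed_iff (l : Fin (N + 1) → k) (c : Ix N d → k) :
    actT (Matrix.diagonal l) c = c ↔ ∀ p, p ∉ SG d l → c p = 0 := by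
  classical
  constructor
  · intro h p hp
    have h1 := congrFun h p
    rw [act_diag] at h1
    have h2 : eig l p ≠ 1 := by
      intro h3
      apply hp
      unfold SG
      rw [Finset.mem_filter]
      exact ⟨Finset.mem_univ _, h3⟩
    have h3 : (eig l p - 1) * c p = 0 := by linear_combination h1
    exact (mul_eq_zero.mp h3).resolve_left (sub_ne_zero.mpr h2)
  · intro h
    funext p
    rw [act_diag]
    by_cases hp : p ∈ SG d l
    · unfold SG at hp
      rw [Finset.mem_filter] at hp
      rw [hp.2, one_mul]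
    · rw [h p hp, mul_zero]

/-- decomposition with respect to blocks -/
theorem psi_zero_big {l : Fin (N + 1) → k} {V : SS k N d}
    (hV : psi k (OO l) (SG d l) V = 0) {c : Ix N d → k}
    (hc : actT (Matrix.diagonal l) c = c) {g : Matrix (Fin (N + 1)) (Fin (N + 1)) k}
    (hz : (blk l g).det ≠ 0) : eval (actT g c) V = 0 := by
  classical
  obtain ⟨z, hzdef⟩ : ∃ z, z = blk l g := ⟨_, rfl⟩
  have hzu : IsUnit z.det := by rw [hzdef]; exact isUnit_iff_ne_zero.mpr hz
  have hzc : z * Matrix.diagonal l = Matrix.diagonal l * z := by rw [hzdef]; exact blk_comm l g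
  have hzic : z⁻¹ * Matrix.diagonal l = Matrix.diagonal l * z⁻¹ := by
    have h1 : z⁻¹ * (z * Matrix.diagonal l) * z⁻¹ = z⁻¹ * (Matrix.diagonal l * z) * z⁻¹ := by
      rw [hzc]
    rw [← mul_assoc, Matrix.nonsing_inv_mul _ hzu, one_mul, ← mul_assoc, mul_assoc (z⁻¹ * _),
      Matrix.mul_nonsing_inv _ hzu, mul_one] at h1
    exact h1.symm
  have hg : g = z * (1 + z⁻¹ * (g - z)) := by
    rw [mul_add, mul_one, ← mul_assoc, Matrix.mul_nonsing_inv _ hzu, one_mul]
    abel
  rw [hg, ← actT_actT]
  apply psi_zero hV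
  · intro i j hij
    have hij' : l i = l j := by
      by_contra h
      apply hij
      unfold OO
      rw [Finset.mem_filter]
      exact ⟨Finset.mem_univ _, h⟩
    rw [Matrix.mul_apply]
    refine Finset.sum_eq_zero fun m _ => ?_
    by_cases him : l i = l m
    · have h1 : (g - z) m j = 0 := by
        rw [hzdef]
        unfold blk
        rw [Matrix.sub_apply, Matrix.of_apply, if_pos (him.symm.trans hij'), sub_self]
      rw [h1, mul_zero]
    · rw [(comm_iff l z⁻¹).mp hzic i m him, zero_mul]
  · rw [← fixed_iff, actT_actT, hzc, ← actT_actT, hc]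

/-- vanishing on all conjugates -/
theorem psi_zero_all [Infinite k] {l : Fin (N + 1) → k} {V : SS k N d}
    (hV : psi k (OO l) (SG d l) V = 0) {c : Ix N d → k}
    (hc : actT (Matrix.diagonal l) c = c) (g : Matrix (Fin (N + 1)) (Fin (N + 1)) k) :
    eval (actT g c) V = 0 := by
  classical
  have h1 : aeval (orb c) V * (blk l (gm k N)).det = 0 := by
    apply poly_ext
    intro A _
    rw [map_mul, map_zero, eval_aeval_orb]
    have h2 : eval (ent A) (blk l (gm k N)).det = (blk l A).det := by
      rw [RingHom.map_det]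
      congr 1
      ext i j
      unfold blk
      rw [RingHom.mapMatrix_apply, Matrix.map_apply, Matrix.of_apply, Matrix.of_apply]
      split_ifs with h
      · have := congrFun (congrFun (gm_map A) i) j
        rwa [Matrix.map_apply] at this
      · rw [map_zero]
    rw [h2]
    by_cases hz : (blk l A).det = 0
    · rw [hz, mul_zero]
    · rw [psi_zero_big hV hc hz, zero_mul]
  have h3 : (blk l (gm k N)).det ≠ 0 := by
    intro h4
    have h5 := congrArg (eval (ent (1 : Matrix (Fin (N + 1)) (Fin (N + 1)) k))) h4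
    rw [map_zero, RingHom.map_det] at h5
    have h6 : (eval (ent (1 : Matrix (Fin (N + 1)) (Fin (N + 1)) k))).mapMatrix
        (blk l (gm k N)) = 1 := by
      ext i j
      unfold blk
      rw [RingHom.mapMatrix_apply, Matrix.map_apply, Matrix.of_apply]
      split_ifs with h
      · have := congrFun (congrFun (gm_map (1 : Matrix (Fin (N + 1)) (Fin (N + 1)) k)) i) j
        rwa [Matrix.map_apply] at this
      · rw [map_zero, Matrix.one_apply_ne]
        rintro rfl
        exact h rfl
    rw [h6, Matrix.det_one] at h5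
    exact one_ne_zero h5
  have h4 := (mul_eq_zero.mp h1).resolve_right h3
  have h5 := congrArg (eval (ent g)) h4
  rwa [eval_aeval_orb, map_zero] at h5

theorem card_par (hN : 2 ≤ N) (hd : 2 ≤ d) {l : Fin (N + 1) → k}
    (hl : ∀ i, l i ≠ 0) (hne : ∃ i j, l i ≠ l j) :
    Fintype.card (Par (OO l) (SG d l)) + 2 ≤ Fintype.card (Ix N d) := by
  classical
  have h1 := count_eig hN hd (d := d) hl hne
  rw [Fintype.card_sum]
  have h2 : Fintype.card {q : Fin (N + 1) × Fin (N + 1) // q ∈ OO l} =
      Fintype.card {p : Fin (N + 1) × Fin (N + 1) // l p.1 ≠ l p.2} := by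
    apply Fintype.card_congr
    refine Equiv.subtypeEquivRight fun q => ?_
    unfold OO
    rw [Finset.mem_filter]
    exact ⟨fun h => h.2, fun h => ⟨Finset.mem_univ _, h⟩⟩
  have h3 : Fintype.card {p : Ix N d // p ∈ SG d l} =
      Fintype.card {p : Ix N d // eig l p = 1} := by
    apply Fintype.card_congr
    refine Equiv.subtypeEquivRight fun q => ?_
    unfold SG
    rw [Finset.mem_filter]
    exact ⟨fun h => h.2, fun h => ⟨Finset.mem_univ _, h⟩⟩
  have h4 : Fintype.card {p : Ix N d // ¬ eig l p = 1} = Fintype.card (Ix N d) -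
      Fintype.card {p : Ix N d // eig l p = 1} := Fintype.card_subtype_compl _
  have h5 : Fintype.card {p : Ix N d // eig l p = 1} ≤ Fintype.card (Ix N d) :=
    Fintype.card_subtype_le _
  have h6 : Fintype.card {p : Ix N d // eig l p ≠ 1} =
      Fintype.card {p : Ix N d // ¬ eig l p = 1} := rfl
  rw [h6] at h1
  rw [h2, h3]
  omega

end fam

variable {k : Type} [Field k] [IsAlgClosed k] [CharZero k] {N d : ℕ}

/-- A hypersurface contains points with trivial stabiliser. -/
theorem codim (hN : 2 ≤ N) (hd : 2 ≤ d) {π g : SS k N d} (hπ : Prime π) (hg : ¬ π ∣ g)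
    (hgN : ∀ c, eval c g ≠ 0 → NZ (tup c)) :
    ∃ s, eval s π = 0 ∧ eval s g ≠ 0 ∧ Triv s := by
  classical
  have hinf : Infinite k := inferInstance
  by_contra hcon
  push Not at hcon
  let T : Type := {t : Finset (Fin (N + 1) × Fin (N + 1)) × Finset (Ix N d) //
    Fintype.card (Par t.1 t.2) + 2 ≤ Fintype.card (Ix N d)}
  have hV : ∀ t : T, ∃ V, psi k t.1.1 t.1.2 V = 0 ∧ ¬ π ∣ V := fun t =>
    exists_ker (psi k t.1.1 t.1.2) t.2 hπ
  choose V hV1 hV2 using hV
  have hrad : g * ∏ t, V t ∈ (Ideal.span {π}).radical := by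
    rw [← vanishingIdeal_zeroLocus_eq_radical (K := k), mem_vanishingIdeal_iff]
    intro s hs
    have hs' : eval s π = 0 := by
      have := (mem_zeroLocus_iff.mp hs) π (Ideal.subset_span rfl)
      rw [← coe_aeval_eq_eval]
      exact this
    have goal : eval s (g * ∏ t, V t) = 0 := by
      rw [map_mul]
      by_cases hgs : eval s g = 0
      · rw [hgs, zero_mul]
      · obtain ⟨A, l, hA, hl0, hl1, hD⟩ := exists_diag' hd (hgN s hgs) (hcon s hs' hgs)
        have hAu : IsUnit A.det := isUnit_iff_ne_zero.mpr hA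
        let t : T := ⟨(OO l, SG d l), card_par hN hd hl0 hl1⟩
        have h1 := psi_zero_all (hV1 t) hD A⁻¹
        rw [actT_actT, Matrix.mul_nonsing_inv _ hAu, actT_one] at h1
        rw [map_prod, Finset.prod_eq_zero (Finset.mem_univ t) h1, mul_zero]
    rw [← coe_aeval_eq_eval] at goal
    exact goal
  obtain ⟨r, hr⟩ := hrad
  rw [Ideal.mem_span_singleton] at hr
  have h1 := hπ.dvd_of_dvd_pow hr
  rcases hπ.dvd_or_dvd h1 with h2 | h2
  · exact hg h2
  · obtain ⟨t, _, ht⟩ := (hπ.dvd_finsetProd_iff _).mp h2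
    exact hV2 t ht

end

end Pool.Agent.NH60
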