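import Pool.Agent.Helper819.S0

/-!
Conjugation of tuples of polynomials by invertible matrices.
-/

open MvPolynomial

namespace Pool.Agent.NH60.Sing

open Pool.Agent.Helper819.Dyn

variable {k : Type} [Field k] {N : ℕ}

theorem conj_mul (φ ψ : GL (Fin (N + 1)) k) (F : Tuple k N) :
    conj (φ * ψ) F = conj ψ (conj φ F) := by
  funext i
  unfold conj
  have h1 : ∀ G : MvPolynomial (Fin (N + 1)) k,
      bind₁ (fun l => ∑ m, C ((ψ : Matrix (Fin (N + 1)) (Fin (N + 1)) k) l m) * X m)
        (bind₁ (fun l => ∑ m, C ((φ : Matrix (Fin (N + 1)) (Fin (N + 1)) k) l m) * X m) G) =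
      bind₁ (fun l => ∑ m, C (((φ * ψ : GL (Fin (N + 1)) k) :
        Matrix (Fin (N + 1)) (Fin (N + 1)) k) l m) * X m) G := by
    intro G
    rw [bind₁_bind₁]
    congr 2
    funext l
    rw [bind_lin]
    rfl
  simp_rw [map_sum, map_mul (bind₁ _), bind₁_C_right, h1, Finset.mul_sum]
  rw [Finset.sum_comm]
  refine Finset.sum_congr rfl fun j _ => ?_
  rw [mul_inv_rev, Units.val_mul, Matrix.mul_apply, map_sum, Finset.sum_mul]
  refine Finset.sum_congr rfl fun l _ => ?_
  rw [map_mul, mul_assoc]

theorem conj_one (F : Tuple k N) : conj 1 F = F := by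
  funext i
  unfold conj
  have h1 : (fun l => ∑ m, C (((1 : GL (Fin (N + 1)) k) :
      Matrix (Fin (N + 1)) (Fin (N + 1)) k) l m) * X m) =
      (X : Fin (N + 1) → MvPolynomial (Fin (N + 1)) k) := by
    funext l
    rw [Finset.sum_eq_single l]
    · simp
    · intro b _ hb
      rw [Units.val_one, Matrix.one_apply_ne hb.symm]; simp
    · simp
  rw [h1, Finset.sum_eq_single i]
  · rw [bind₁_X_left]
    simp
  · intro j _ hj
    rw [inv_one, Units.val_one, Matrix.one_apply_ne hj.symm]; simp
  · simp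

theorem conj_C_mul (φ : GL (Fin (N + 1)) k) (c : k) (F : Tuple k N) :
    conj φ (fun i => C c * F i) = fun i => C c * conj φ F i := by
  funext i
  unfold conj
  rw [Finset.mul_sum]
  refine Finset.sum_congr rfl fun j _ => ?_
  rw [map_mul, bind₁_C_right]
  ring

end Pool.Agent.NH60.Sing
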