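import Pool.Agent.NH60.Lead

/-!
Generators of the maximal ideal at a point with trivial stabiliser.
-/

open MvPolynomial

namespace Pool.Agent.NH60

open Pool.Agent.Helper819.Apolar Pool.Agent.Helper819.Dyn
open Pool.Agent.Helper819.Gr (DAct lf Ord tayl)

noncomputable section

set_option linter.unusedSectionVars false

variable {k : Type} [Field k] {N d : ℕ}

theorem om_self (P : SS k N d) : om P P = 0 := by
  funext p
  simp [om]

theorem dd_sub' (P Q : SS k N d) (c v : Ix N d → k) :
    dd (P - Q) c v = dd P c v - dd Q c v := by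
  unfold dd
  rw [← Finset.sum_sub_distrib]
  refine Finset.sum_congr rfl fun p _ => ?_
  rw [map_sub, map_sub]
  ring

variable [IsAlgClosed k] [CharZero k]

/-- Local coordinates at a point with trivial stabiliser. -/
theorem exists_coords (hd : 2 ≤ d) {f : Ix N d → k} (hf : NZ (tup f)) (ht : Triv f) {m : ℕ}
    {v : Fin m → Ix N d → k} (hv : LinearIndependent k (FF f v)) :
    ∃ (w : ℕ) (A : Fin m → SS k N d) (D : SS k N d), (∀ i, IsSemi w (A i)) ∧ IsSemi w D ∧
      eval f D ≠ 0 ∧ (∀ i, eval f (A i) = 0) ∧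
      (Matrix.of fun i j => dd (A i) f (v j)).det ≠ 0 := by
  obtain ⟨w, R, hR, hRf, hRN⟩ := exists_semi_NZ hd hf
  obtain ⟨r, hr1, hr2⟩ := exists_rows
    {r : Fin m → k | ∃ (j : ℕ) (P : SS k N d), IsSemi (w * j) P ∧
      r = fun i => eval f (pa (om P (R ^ j)) (v i))} (by
    intro t ht'
    obtain ⟨Y, hY⟩ := tang_sep hd hf ht hR hRf hRN (∑ j, t j • v j) (by
      intro j P hP
      have h1 := ht' _ ⟨j, P, hP, rfl⟩
      have h2 : (fun i => eval f (pa (om P (R ^ j)) (v i))) ⬝ᵥ t =
          ∑ i, eval f (pa (om P (R ^ j)) (v i)) * t i := rfl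
      rw [h2, eval_pa_sum, eval_pa_om, sub_eq_zero] at h1
      exact h1)
    exact FF_sep hv hY)
  choose jj PP hPP hrr using hr1
  obtain ⟨J, hJ⟩ : ∃ J, J = ∑ i, jj i := ⟨_, rfl⟩
  have hle : ∀ i, jj i ≤ J := by
    intro i
    rw [hJ]
    exact Finset.single_le_sum (fun _ _ => Nat.zero_le _) (Finset.mem_univ i)
  have hRJ : eval f (R ^ J) ≠ 0 := by
    rw [map_pow]
    exact pow_ne_zero _ hRf
  have hsemi : ∀ i, IsSemi (w * J) (PP i * R ^ (J - jj i)) := by
    intro i
    have h1 := (hPP i).mul (hR.pow (J - jj i))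
    rw [← mul_add, Nat.add_sub_cancel' (hle i)] at h1
    exact h1
  refine ⟨w * J, fun i => PP i * R ^ (J - jj i) -
    C (eval f (PP i * R ^ (J - jj i)) / eval f (R ^ J)) * R ^ J, R ^ J, ?_, hR.pow J, hRJ,
    ?_, ?_⟩
  · intro i
    exact (hsemi i).sub ((hR.pow J).C_mul _)
  · intro i
    rw [map_sub, map_mul (eval f) (C _), eval_C, div_mul_cancel₀ _ hRJ, sub_self]
  · have hmat : (Matrix.of fun i j => dd (PP i * R ^ (J - jj i) -
        C (eval f (PP i * R ^ (J - jj i)) / eval f (R ^ J)) * R ^ J) f (v j)) =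
        Matrix.diagonal (fun i => eval f (R ^ (J - jj i)) ^ 2 / eval f (R ^ J)) * Matrix.of r := by
      ext1 i j
      rw [Matrix.diagonal_mul, Matrix.of_apply, Matrix.of_apply, hrr i]
      rw [dd_sub', dd_mul (C _), dd_C, eval_C, mul_zero, add_zero]
      have h1 := om_mul (PP i) (R ^ jj i) (R ^ (J - jj i)) (R ^ (J - jj i))
      rw [om_self, smul_zero, add_zero, ← pow_add, Nat.add_sub_cancel' (hle i)] at h1
      have h2 := congrArg (fun x => eval f (pa x (v j))) h1
      simp only [pa_smul] at h2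
      rw [eval_pa_om, map_mul (eval f) (R ^ (J - jj i) * R ^ (J - jj i))] at h2
      rw [map_mul (eval f) (R ^ (J - jj i)) (R ^ (J - jj i))] at h2
      field_simp
      linear_combination h2
    rw [hmat, Matrix.det_mul, Matrix.det_diagonal]
    refine mul_ne_zero (Finset.prod_ne_zero_iff.mpr fun i _ => ?_) hr2
    refine div_ne_zero (pow_ne_zero _ ?_) hRJ
    rw [map_pow]
    exact pow_ne_zero _ hRf

/-- An element congruent to a nonzero constant can be cancelled modulo powers. -/
theorem cancel_pow {f : Ix N d → k} {I : Ideal (SS k N d)} {J : ℕ} {X P : SS k N d}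
    (hX : eval f X ≠ 0) (h : X * P ∈ I ⊔ mf f ^ J) : P ∈ I ⊔ mf f ^ J := by
  have hmax : (mf f).IsMaximal :=
    RingHom.ker_isMaximal_of_surjective (eval f) (fun a => ⟨C a, eval_C a⟩)
  have h1 : X ∉ mf f := by
    rw [mem_mf]; exact hX
  have h2 : Ideal.span {X} ⊔ mf f ^ J = ⊤ := by
    apply Ideal.sup_pow_eq_top
    rw [sup_comm]
    by_contra hne
    have h3 := hmax.eq_of_le hne le_sup_left
    apply h1
    rw [h3]
    exact Ideal.mem_sup_right (Ideal.subset_span rfl)
  have h3 : (1 : SS k N d) ∈ Ideal.span {X} ⊔ mf f ^ J := by rw [h2]; trivial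
  obtain ⟨a, ha, b, hb, hab⟩ := Submodule.mem_sup.mp h3
  obtain ⟨c, hc⟩ := Ideal.mem_span_singleton'.mp ha
  have h4 : P = c * (X * P) + P * b := by
    calc P = 1 * P := (one_mul P).symm
      _ = (c * X + b) * P := by rw [hc, hab]
      _ = _ := by ring
  rw [h4]
  refine Ideal.add_mem _ (Ideal.mul_mem_left _ _ h) ?_
  exact Ideal.mem_sup_right (Ideal.mul_mem_left _ _ hb)

/-- Semi-invariants vanishing at `f` lie in the ideal of the coordinates up to high order. -/
theorem mem_sup_pow (hd : 2 ≤ d) {f : Ix N d → k} {m w₀ : ℕ} {A : Fin m → SS k N d}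
    {D : SS k N d} {v : Fin m → Ix N d → k} (hA : ∀ i, IsSemi w₀ (A i)) (hD : IsSemi w₀ D)
    (hDf : eval f D ≠ 0) (hAf : ∀ i, eval f (A i) = 0)
    (hdet : (Matrix.of fun i j => dd (A i) f (v j)).det ≠ 0)
    (hv2 : ∀ w : Ix N d → k, ∃ (Y : Matrix (Fin (N + 1)) (Fin (N + 1)) k) (t : Fin m → k),
        w = xi Y f + ∑ j, t j • v j) (n : ℕ) :
    ∀ (i : ℕ) (P Q : SS k N d), Adm f P Q → Ord i P f → 1 ≤ i →
      P ∈ Ideal.span (Set.range A) ⊔ mf f ^ (i + n) := by
  classical
  have hinf : Infinite k := inferInstance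
  induction n with
  | zero =>
    intro i P Q _ hP _
    exact Ideal.mem_sup_right (mem_pow_of_ord hP)
  | succ n ih =>
    intro i P Q hPQ hP hi
    obtain ⟨w, hPs, hQs, hQf⟩ := hPQ
    set M : Matrix (Fin m) (Fin m) k := Matrix.of fun i j => dd (A i) f (v j) with hM
    have hMu : IsUnit M.det := isUnit_iff_ne_zero.mpr hdet
    let g : MvPolynomial (Fin m) k :=
      aeval (fun p => ∑ l, C (∑ j, M⁻¹ j l * v j p) * X l) (lf i P f)
    have hg : g.IsHomogeneous i := by
      have h1 := (Pool.Agent.Helper819.Gr.lf_homog i P f).aeval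
        (fun p => ∑ l, C (∑ j, M⁻¹ j l * v j p) * X l : Ix N d → MvPolynomial (Fin m) k)
        (n := 1) (by
          intro p
          refine IsHomogeneous.sum _ _ _ fun l _ => ?_
          exact isHomogeneous_C_mul_X _ _)
      rwa [one_mul] at h1
    have hgeval : ∀ y : Fin m → k,
        eval y g = eval (∑ j, (M⁻¹.mulVec y) j • v j) (lf i P f) := by
      intro y
      have h1 := comp_aeval_apply
        (fun p => ∑ l, C (∑ j, M⁻¹ j l * v j p) * X l : Ix N d → MvPolynomial (Fin m) k)
        (aeval y : MvPolynomial (Fin m) k →ₐ[k] k) (lf i P f)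
      have h2 : ∀ q : MvPolynomial (Fin m) k, aeval y q = eval y q := by
        intro q
        rw [← coe_aeval_eq_eval]
        rfl
      rw [h2] at h1
      rw [h1, ← coe_aeval_eq_eval]
      change aeval _ (lf i P f) = aeval _ (lf i P f)
      congr 2
      funext p
      rw [h2, map_sum, Finset.sum_apply]
      simp_rw [map_mul, eval_C, eval_X, Finset.sum_mul, Pi.smul_apply, smul_eq_mul]
      rw [Finset.sum_comm]
      refine Finset.sum_congr rfl fun j _ => ?_
      rw [Matrix.mulVec, dotProduct, Finset.sum_mul]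
      exact Finset.sum_congr rfl fun l _ => by ring
    have hgA : ∀ x : Ix N d → k, eval (fun l => dd (A l) f x) g = eval x (lf i P f) := by
      intro x
      obtain ⟨Y, t, hx⟩ := hv2 x
      have h1 : (fun l => dd (A l) f x) = M.mulVec t := by
        funext l
        rw [hx, dd_vadd, semi_lie (hA l), hAf l, mul_zero, zero_add]
        have h2 : ∀ s : Finset (Fin m), dd (A l) f (∑ j ∈ s, t j • v j) =
            ∑ j ∈ s, t j * dd (A l) f (v j) := by
          intro s
          induction s using Finset.induction_on with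
          | empty =>
            rw [Finset.sum_empty, Finset.sum_empty]
            unfold dd
            exact Finset.sum_eq_zero fun p _ => by rw [Pi.zero_apply, zero_mul]
          | insert a s ha ih => rw [Finset.sum_insert ha, Finset.sum_insert ha, dd_vadd,
              dd_vsmul, ih]
        rw [h2, Matrix.mulVec, dotProduct]
        exact Finset.sum_congr rfl fun j _ => by rw [hM, Matrix.of_apply, mul_comm]
      rw [h1, hgeval, Matrix.mulVec_mulVec, Matrix.nonsing_inv_mul _ hMu, Matrix.one_mulVec,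
        hx, add_comm, lf_trans hPs hP]
    have hgO := fun x => tayl_comp hAf hg x
    have hgOrd : Ord i (aeval A g) f := by
      rw [Pool.Agent.Helper819.Gr.ord_iff]
      intro a ha x
      exact (hgO x).1 a ha
    have hglf : lf i (aeval A g) f = lf i P f := by
      apply MvPolynomial.funext
      intro x
      rw [Pool.Agent.Helper819.Gr.eval_lf, (hgO x).2, hgA]
    set P' : SS k N d := C (eval f Q) * (D ^ i * P) - C (eval f D ^ i) * (Q * aeval A g) with hP'
    have hsemi : IsSemi (w₀ * i + w) P' := by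
      refine IsSemi.sub (((hD.pow i).mul hPs).C_mul _) (IsSemi.C_mul ?_ _)
      rw [add_comm]
      exact hQs.mul (semi_comp hA hg)
    have hadm : Adm f P' (D ^ i * Q) := ⟨w₀ * i + w, hsemi, (hD.pow i).mul hQs, by
      rw [map_mul, map_pow]
      exact mul_ne_zero (pow_ne_zero _ hDf) hQf⟩
    have hord : Ord (i + 1) P' f := by
      intro a ha
      by_cases hai : a < i
      · exact ((hP.mul_left (D ^ i)).mul_left _).sub ((hgOrd.mul_left Q).mul_left _) a hai
      · have hai' : a = i := by omega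
        subst hai'
        rw [hP', Pool.Agent.Helper819.Gr.lf_sub,
          Pool.Agent.Helper819.Gr.lf_mul_left (hP.mul_left (D ^ a)),
          Pool.Agent.Helper819.Gr.lf_mul_left hP,
          Pool.Agent.Helper819.Gr.lf_mul_left (hgOrd.mul_left Q),
          Pool.Agent.Helper819.Gr.lf_mul_left hgOrd, hglf, eval_C, eval_C, map_pow]
        simp only [C_pow]
        ring
    have h1 := ih (i + 1) P' (D ^ i * Q) hadm hord (by omega)
    have hexp : i + 1 + n = i + (n + 1) := by omega
    rw [hexp] at h1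
    have h2 : aeval A g ∈ Ideal.span (Set.range A) := aeval_mem_span hg hi A
    have h3 : C (eval f Q) * (D ^ i * P) ∈ Ideal.span (Set.range A) ⊔ mf f ^ (i + (n + 1)) := by
      have h4 : C (eval f Q) * (D ^ i * P) = P' + C (eval f D ^ i) * (Q * aeval A g) := by
        rw [hP']; ring
      rw [h4]
      refine Ideal.add_mem _ h1 (Ideal.mem_sup_left ?_)
      exact Ideal.mul_mem_left _ _ (Ideal.mul_mem_left _ _ h2)
    rw [← mul_assoc] at h3
    refine cancel_pow ?_ h3
    rw [map_mul, eval_C, map_pow]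
    exact mul_ne_zero hQf (pow_ne_zero _ hDf)

/-- Krull intersection. -/
theorem exists_mul_mem {f : Ix N d → k} {I : Ideal (SS k N d)} {P : SS k N d}
    (h : ∀ n, P ∈ I ⊔ mf f ^ n) : ∃ H, eval f H ≠ 0 ∧ H * P ∈ I := by
  have h1 : (Ideal.Quotient.mk I P) ∈
      (⨅ i : ℕ, mf f ^ i • ⊤ : Submodule (SS k N d) (SS k N d ⧸ I)) := by
    rw [Submodule.mem_iInf]
    intro i
    obtain ⟨a, ha, b, hb, hab⟩ := Submodule.mem_sup.mp (h i)
    rw [← hab, map_add, Ideal.Quotient.eq_zero_iff_mem.mpr ha, zero_add]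
    have h2 : (Ideal.Quotient.mk I b) = b • (Ideal.Quotient.mk I 1) := by
      have h3 : b • (Ideal.Quotient.mk I 1) = Ideal.Quotient.mk I (b * 1) := rfl
      rw [h3, mul_one]
    rw [h2]
    exact Submodule.smul_mem_smul hb trivial
  obtain ⟨r, hr⟩ := (Ideal.mem_iInf_smul_pow_eq_bot_iff (mf f) _).mp h1
  refine ⟨1 - r, ?_, ?_⟩
  · have hr' := mem_mf.mp r.2
    rw [map_sub, hr', map_one, sub_zero]
    exact one_ne_zero
  · have h2 : Ideal.Quotient.mk I ((r : SS k N d) * P) = Ideal.Quotient.mk I P := hr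
    rw [← Ideal.Quotient.eq_zero_iff_mem, sub_mul, one_mul, map_sub, h2, sub_self]

end

end Pool.Agent.NH60
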