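import Pool.Agent.NH60.Conv1

/-!
At points with trivial stabiliser the ring of quotients of semi-invariants is regular.
-/

open MvPolynomial

namespace Pool.Agent.NH60

open Pool.Agent.Helper819.Apolar Pool.Agent.Helper819.Dyn
open Pool.Agent.Helper819.Gr (DAct lf Ord tayl)

noncomputable section

set_option linter.unusedSectionVars false

variable {k : Type} [Field k] {N d : ℕ}

theorem mf_prime (f : Ix N d → k) : (mf f).IsPrime :=
  RingHom.ker_isPrime (eval f)

/-- functionals given by differentials -/
def dL (f : Ix N d → k) (P : SS k N d) : (Ix N d → k) →ₗ[k] k where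
  toFun w := dd P f w
  map_add' v w := dd_vadd P f v w
  map_smul' r v := dd_vsmul P f v r

theorem dd_smulC (P : SS k N d) (f w : Ix N d → k) (r : k) :
    dd (C r * P) f w = r * dd P f w := by
  rw [dd_mul, dd_C, eval_C, mul_zero, add_zero]

theorem dd_sum' {ι : Type} (s : Finset ι) (P : ι → SS k N d) (f w : Ix N d → k) :
    dd (∑ i ∈ s, P i) f w = ∑ i ∈ s, dd (P i) f w := by
  classical
  induction s using Finset.induction_on with
  | empty => rw [Finset.sum_empty, Finset.sum_empty, ← C_0]; exact dd_C _ _ _
  | insert a s ha ih => rw [Finset.sum_insert ha, Finset.sum_insert ha, dd_add, ih]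

variable [IsAlgClosed k] [CharZero k]

theorem ord_one {f : Ix N d → k} {P : SS k N d} (hP : eval f P = 0) : Ord 1 P f := by
  have hinf : Infinite k := inferInstance
  rw [Pool.Agent.Helper819.Gr.ord_iff]
  intro i hi v
  have hi0 : i = 0 := by omega
  rw [hi0, Pool.Agent.Helper819.Gr.tayl_coeff_zero, ← hP, ← coe_aeval_eq_eval]
  rfl

theorem ord_two {f : Ix N d → k} {P : SS k N d} (hP : eval f P = 0)
    (h : ∀ v, dd P f v = 0) : Ord 2 P f := by
  have hinf : Infinite k := inferInstance
  rw [Pool.Agent.Helper819.Gr.ord_iff]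
  intro i hi v
  by_cases hi0 : i = 0
  · rw [hi0, Pool.Agent.Helper819.Gr.tayl_coeff_zero, ← hP, ← coe_aeval_eq_eval]
    rfl
  · have hi1 : i = 1 := by omega
    rw [hi1, tayl_coeff_one, h]

/-- The maximal ideal is generated by the coordinates. -/
theorem span_coords (hd : 2 ≤ d) {f : Ix N d → k} (hf : NZ (tup f)) {m w₀ : ℕ}
    {A : Fin m → SS k N d} {D : SS k N d} {v : Fin m → Ix N d → k}
    (hA : ∀ i, IsSemi w₀ (A i)) (hD : IsSemi w₀ D)
    (hDf : eval f D ≠ 0) (hAf : ∀ i, eval f (A i) = 0)
    (hdet : (Matrix.of fun i j => dd (A i) f (v j)).det ≠ 0)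
    (hv2 : ∀ w : Ix N d → k, ∃ (Y : Matrix (Fin (N + 1)) (Fin (N + 1)) k) (t : Fin m → k),
        w = xi Y f + ∑ j, t j • v j) :
    Ideal.span (Set.range (fun i => mk f (A i) D ⟨w₀, hA i, hD, hDf⟩)) =
      IsLocalRing.maximalIdeal (BK f) := by
  apply le_antisymm
  · rw [Ideal.span_le]
    rintro _ ⟨i, rfl⟩
    exact ((rep_mk f (A i) D ⟨w₀, hA i, hD, hDf⟩).mem_iff).mpr (hAf i)
  · intro b hb
    obtain ⟨P, Q, hPQ⟩ := exists_rep b
    have hP : eval f P = 0 := hPQ.mem_iff.mp hb
    obtain ⟨H, hHf, hH⟩ := exists_mul_mem (f := f) (I := Ideal.span (Set.range A)) (P := P) (by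
      intro n
      cases n with
      | zero =>
        rw [pow_zero, Ideal.one_eq_top, sup_top_eq]
        trivial
      | succ n =>
        have h1 := mem_sup_pow hd hA hD hDf hAf hdet hv2 n 1 P Q hPQ.1 (ord_one hP) le_rfl
        rwa [add_comm 1 n] at h1)
    obtain ⟨U, hU⟩ := (Submodule.mem_span_range_iff_exists_fun _).mp hH
    refine contract hd hf (H := H * Q) (U := fun i => U i * D) ?_ ?_
    · rw [map_mul]
      exact mul_ne_zero hHf hPQ.1.eval_ne
    · have h1 := congrArg (em k N d) hU
      rw [map_sum, map_mul _ H P, ← hPQ.2] at h1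
      calc em k N d (H * Q) * (b : KK k N d) =
          em k N d H * ((b : KK k N d) * em k N d Q) := by rw [map_mul]; ring
        _ = ∑ i, em k N d (U i • A i) := h1.symm
        _ = _ := Finset.sum_congr rfl fun i _ => by
          rw [smul_eq_mul, map_mul, map_mul,
            ← (rep_mk f (A i) D ⟨w₀, hA i, hD, hDf⟩).2]
          ring

/-- Functions whose differentials separate vectors generate the ideal of the point locally. -/
theorem gen_mf {f : Ix N d → k} {ι : Type} [Finite ι] {g : ι → SS k N d}
    (hg : ∀ i, eval f (g i) = 0) (hsep : ∀ w, (∀ i, dd (g i) f w = 0) → w = 0) :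
    ∃ H, eval f H ≠ 0 ∧ ∀ x ∈ mf f, H * x ∈ Ideal.span (Set.range g) := by
  classical
  have hinf : Infinite k := inferInstance
  have hfin := Fintype.ofFinite ι
  have hle : mf f ≤ Ideal.span (Set.range g) ⊔ mf f • mf f := by
    intro x hx
    have h1 : dL f x ∈ Submodule.span k (Set.range (fun i => dL f (g i))) := by
      apply mem_span_of_iInf_ker_le_ker
      intro w hw
      rw [Submodule.mem_iInf] at hw
      have h2 := hsep w (fun i => hw i)
      rw [h2]
      exact Submodule.zero_mem _
    obtain ⟨c, hc⟩ := (Submodule.mem_span_range_iff_exists_fun _).mp h1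
    have h2 : x = ∑ i, C (c i) * g i + (x - ∑ i, C (c i) * g i) := by ring
    rw [h2]
    refine Ideal.add_mem _ (Ideal.mem_sup_left ?_) (Ideal.mem_sup_right ?_)
    · exact Ideal.sum_mem _ fun i _ => Ideal.mul_mem_left _ _ (Ideal.subset_span ⟨i, rfl⟩)
    · have h3 : Ord 2 (x - ∑ i, C (c i) * g i) f := by
        apply ord_two
        · rw [map_sub, mem_mf.mp hx, map_sum, zero_sub, neg_eq_zero]
          exact Finset.sum_eq_zero fun i _ => by rw [map_mul, hg, mul_zero]
        · intro v
          have h4 := congrArg (fun L => L v) hc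
          simp only [LinearMap.sum_apply, LinearMap.smul_apply, smul_eq_mul] at h4
          rw [dd_sub', dd_sum', sub_eq_zero]
          simp_rw [dd_smulC]
          exact h4.symm
      have h4 := mem_pow_of_ord h3
      rw [pow_two] at h4
      exact h4
  obtain ⟨r, hr1, hr2⟩ := Submodule.exists_sub_one_mem_and_smul_le_of_fg_of_le_sup
    (I := mf f) (N' := mf f) (IsNoetherian.noetherian _) le_rfl hle
  refine ⟨r, ?_, ?_⟩
  · rw [mem_mf, map_sub, map_one, sub_eq_zero] at hr1
    rw [hr1]
    exact one_ne_zero
  · intro x hx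
    apply hr2
    exact Submodule.smul_mem_pointwise_smul _ _ _ hx

/-- translation -/
theorem height_mf_eq (f y : Ix N d → k) : (mf f).height = (mf y).height := by
  have hinf : Infinite k := inferInstance
  let T : (Ix N d → k) → SS k N d →ₐ[k] SS k N d := fun z => aeval (fun p => X p + C (z p))
  have hT : ∀ z z' P, T z (T z' P) = T (z + z') P := by
    intro z z' P
    change T z (aeval (fun p => (X p + C (z' p) : SS k N d)) P) = _
    rw [comp_aeval_apply]
    change aeval _ P = aeval _ P
    congr 2
    funext p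
    change T z (X p + C (z' p)) = _
    rw [map_add]
    change aeval _ (X p) + aeval _ (C (z' p)) = _
    rw [aeval_X, algHom_C, Pi.add_apply, C_add, add_assoc]
    rfl
  have hT0 : ∀ P, T 0 P = P := by
    intro P
    change aeval _ P = P
    have h1 : (fun p => (X p + C ((0 : Ix N d → k) p) : SS k N d)) = X := by
      funext p
      rw [Pi.zero_apply, C_0, add_zero]
    rw [h1, aeval_X_left, AlgHom.id_apply]
  have hTe : ∀ z x P, eval x (T z P) = eval (x + z) P := by
    intro z x P
    have h1 := comp_aeval_apply (fun p => (X p + C (z p) : SS k N d))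
      (aeval x : SS k N d →ₐ[k] k) P
    have h2 : ∀ q : SS k N d, aeval x q = eval x q := by
      intro q
      rw [← coe_aeval_eq_eval]
      rfl
    rw [h2] at h1
    change eval x (aeval _ P) = _
    rw [h1, ← coe_aeval_eq_eval]
    change aeval _ P = aeval _ P
    congr 2
    funext p
    rw [h2, map_add, eval_X, eval_C, Pi.add_apply]
  let e : SS k N d ≃+* SS k N d :=
    { (T (y - f) : SS k N d →+* SS k N d) with
      invFun := T (f - y)
      left_inv := by
        intro P
        change T (f - y) (T (y - f) P) = P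
        rw [hT]
        have : f - y + (y - f) = 0 := by ring
        rw [this, hT0]
      right_inv := by
        intro P
        change T (y - f) (T (f - y) P) = P
        rw [hT]
        have : y - f + (f - y) = 0 := by ring
        rw [this, hT0] }
  have h1 : (mf f).comap e = mf y := by
    ext P
    rw [Ideal.mem_comap, mem_mf, mem_mf]
    change eval f (T (y - f) P) = 0 ↔ _
    rw [hTe]
    have : f + (y - f) = y := by ring
    rw [this]
  rw [← h1, RingEquiv.height_comap]

theorem height_mf (f : Ix N d → k) : (Fintype.card (Ix N d) : ℕ∞) ≤ (mf f).height := by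
  have h1 : ringKrullDim (SS k N d) = Fintype.card (Ix N d) := by
    rw [MvPolynomial.ringKrullDim_of_isNoetherianRing, ringKrullDim_eq_zero_of_field,
      Nat.card_eq_fintype_card, zero_add]
  obtain ⟨l, hl⟩ := (Order.le_krullDim_iff (α := PrimeSpectrum (SS k N d))).mp h1.ge
  obtain ⟨𝔪, hm, hle⟩ := Ideal.exists_le_maximal l.last.asIdeal l.last.isPrime.ne_top
  obtain ⟨y, hy⟩ := isMaximal_iff_eq_vanishingIdeal_singleton.mp hm
  have hmy : 𝔪 = mf y := by
    ext P
    rw [hy, mem_vanishingIdeal_singleton_iff, mem_mf, ← coe_aeval_eq_eval]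
    rfl
  rw [height_mf_eq f y]
  have h2 := PrimeSpectrum.height_eq_orderHeight (⟨mf y, mf_prime y⟩ : PrimeSpectrum (SS k N d))
  change (mf y).height = _ at h2
  rw [h2, ← hl]
  apply Order.length_le_height
  change l.last.asIdeal ≤ mf y
  rw [← hmy]
  exact hle

/-- Representations of elements of a span. -/
theorem span_rep {f : Ix N d → k} {ι : Type} {b : ι → BK f} {P Q : ι → SS k N d}
    (hr : ∀ i, Rep f (b i) (P i) (Q i)) {x : BK f} (hx : x ∈ Ideal.span (Set.range b))
    {A D : SS k N d} (hAD : Rep f x A D) :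
    ∃ X, eval f X ≠ 0 ∧ X * A ∈ Ideal.span (Set.range P) := by
  have h1 : ∃ P' Q' X, Rep f x P' Q' ∧ eval f X ≠ 0 ∧ X * P' ∈ Ideal.span (Set.range P) := by
    refine Submodule.span_induction (p := fun x _ => ∃ P' Q' X, Rep f x P' Q' ∧
      eval f X ≠ 0 ∧ X * P' ∈ Ideal.span (Set.range P)) ?_ ?_ ?_ ?_ hx
    · rintro _ ⟨i, rfl⟩
      refine ⟨P i, Q i, 1, hr i, by rw [map_one]; exact one_ne_zero, ?_⟩
      rw [one_mul]
      exact Ideal.subset_span ⟨i, rfl⟩
    · have h := Rep.const f (0 : k)
      rw [map_zero, C_0] at h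
      exact ⟨0, 1, 1, h, by rw [map_one]; exact one_ne_zero, by
        rw [mul_zero]; exact Ideal.zero_mem _⟩
    · rintro x y _ _ ⟨P1, Q1, X1, h1, h2, h3⟩ ⟨P2, Q2, X2, h4, h5, h6⟩
      refine ⟨_, _, X1 * X2, h1.add h4, by rw [map_mul]; exact mul_ne_zero h2 h5, ?_⟩
      have e : X1 * X2 * (P1 * Q2 + P2 * Q1) =
          (X2 * Q2) * (X1 * P1) + (X1 * Q1) * (X2 * P2) := by ring
      rw [e]
      exact Ideal.add_mem _ (Ideal.mul_mem_left _ _ h3) (Ideal.mul_mem_left _ _ h6)
    · rintro c x _ ⟨P1, Q1, X1, h1, h2, h3⟩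
      obtain ⟨P2, Q2, h4⟩ := exists_rep c
      refine ⟨_, _, X1, h4.mul h1, h2, ?_⟩
      have e : X1 * (P2 * P1) = P2 * (X1 * P1) := by ring
      rw [e]
      exact Ideal.mul_mem_left _ _ h3
  obtain ⟨P', Q', X, h1, h2, h3⟩ := h1
  refine ⟨X * Q', ?_, ?_⟩
  · rw [map_mul]
    exact mul_ne_zero h2 h1.1.eval_ne
  · have h4 := h1.unique hAD
    have e : X * Q' * A = D * (X * P') := by linear_combination -X * h4
    rw [e]
    exact Ideal.mul_mem_left _ _ h3

/-- The ring at a point with trivial stabiliser is regular. -/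
theorem regular (hd : 2 ≤ d) {f : Ix N d → k} (hf : NZ (tup f)) (ht : Triv f) :
    IsRegularLocalRing (BK f) := by
  classical
  have hinf : Infinite k := inferInstance
  have hnoeth := noeth hd hf
  have hinj : Function.Injective (xiL f) := by
    rw [← LinearMap.ker_eq_bot, LinearMap.ker_eq_bot']
    intro Z hZ
    exact xi_inj hd hf hZ
  have hcard : (N + 1) * (N + 1) ≤ Fintype.card (Ix N d) := by
    have h1 := LinearMap.finrank_le_finrank_of_injective hinj
    rw [Module.finrank_matrix, Module.finrank_self, Fintype.card_fin, mul_one,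
      Module.finrank_pi] at h1
    exact h1
  obtain ⟨m, hm⟩ : ∃ m, m + (N + 1) * (N + 1) = Fintype.card (Ix N d) :=
    ⟨Fintype.card (Ix N d) - (N + 1) * (N + 1), by omega⟩
  obtain ⟨v, hv1, hv2⟩ := exists_trans hd hf hm
  obtain ⟨w₀, A, D, hA, hD, hDf, hAf, hdet⟩ := exists_coords hd hf ht hv1
  have hspan := span_coords hd hf hA hD hDf hAf hdet hv2
  apply IsRegularLocalRing.of_spanFinrank_maximalIdeal_le
  -- upper bound for the number of generators
  have hup : (IsLocalRing.maximalIdeal (BK f)).spanFinrank ≤ m := by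
    rw [← hspan]
    refine le_trans (Submodule.spanFinrank_span_le_ncard_of_finite (Set.finite_range _)) ?_
    have h1 := Set.ncard_image_le (s := (Set.univ : Set (Fin m)))
      (f := fun i => mk f (A i) D ⟨w₀, hA i, hD, hDf⟩) Set.finite_univ
    rw [Set.image_univ, Set.ncard_univ, Nat.card_eq_fintype_card, Fintype.card_fin] at h1
    exact h1
  -- lower bound for the dimension
  obtain ⟨s, hs1, hs2⟩ := Ideal.exists_finset_card_eq_height_of_isNoetherianRing
    (IsLocalRing.maximalIdeal (BK f))
  have hlow : m ≤ s.card := by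
    obtain ⟨lam, hlam⟩ := LinearMap.exists_leftInverse_of_injective (xiL f)
      (LinearMap.ker_eq_bot.mpr hinj)
    have hlam' : ∀ Y, lam (xi Y f) = Y := fun Y => congrArg (fun L => L Y) hlam
    let L : Fin (N + 1) × Fin (N + 1) → SS k N d := fun q =>
      ∑ p, C (lam (Pi.single p 1) q.1 q.2) * (X p - C (f p))
    have hLf : ∀ q, eval f (L q) = 0 := by
      intro q
      change eval f (∑ p, C (lam (Pi.single p 1) q.1 q.2) * (X p - C (f p))) = 0
      rw [map_sum]
      refine Finset.sum_eq_zero fun p _ => ?_
      rw [map_mul, map_sub, eval_X, eval_C, eval_C, sub_self, mul_zero]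
    have hLd : ∀ q w, dd (L q) f w = lam w q.1 q.2 := by
      intro q w
      have h1 : w = ∑ p, w p • (Pi.single p (1 : k) : Ix N d → k) := by
        funext q
        rw [Finset.sum_apply]
        simp [Pi.single_apply]
      have h2 : lam w q.1 q.2 = ∑ p, w p * lam (Pi.single p 1) q.1 q.2 := by
        conv_lhs => rw [h1]
        rw [map_sum, Matrix.sum_apply]
        refine Finset.sum_congr rfl fun p _ => ?_
        rw [map_smul, Matrix.smul_apply, smul_eq_mul]
      rw [h2, dd_sum']
      refine Finset.sum_congr rfl fun p _ => ?_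
      rw [dd_smulC, dd_sub', dd_C, sub_zero]
      unfold dd
      rw [Finset.sum_eq_single p]
      · rw [pderiv_X_self, map_one, mul_one, mul_comm]
      · intro q' _ hq'
        rw [pderiv_X_of_ne hq'.symm, map_zero, mul_zero]
      · simp
    obtain ⟨H, hHf, hH⟩ := gen_mf (f := f) (g := Sum.elim A L) (by
      rintro (i | q)
      · exact hAf i
      · exact hLf q) (by
      intro w hw
      obtain ⟨Y, t, hwt⟩ := hv2 w
      have h1 : t = 0 := by
        apply Matrix.eq_zero_of_mulVec_eq_zero hdet
        funext i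
        have h2 := hw (Sum.inl i)
        rw [Sum.elim_inl, hwt, dd_vadd, semi_lie (hA i), hAf i, mul_zero, zero_add] at h2
        have h3 : dd (A i) f (∑ j, t j • v j) = ∑ j, t j * dd (A i) f (v j) := by
          change dL f (A i) (∑ j, t j • v j) = _
          rw [map_sum]
          refine Finset.sum_congr rfl fun j _ => ?_
          rw [map_smul, smul_eq_mul]
          rfl
        rw [h3] at h2
        rw [Matrix.mulVec, dotProduct, Pi.zero_apply, ← h2]
        exact Finset.sum_congr rfl fun j _ => by rw [Matrix.of_apply, mul_comm]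
      have h2 : w = xi Y f := by
        rw [hwt, h1]
        simp
      have h3 : Y = 0 := by
        ext i j
        have h4 := hw (Sum.inr (i, j))
        rw [Sum.elim_inr, hLd, h2, hlam'] at h4
        exact h4
      rw [h2, h3, xi_zero_mat])
    choose P Q hr using fun b : s => exists_rep (b : BK f)
    have hsle : Ideal.span (s : Set (BK f)) ≤ IsLocalRing.maximalIdeal (BK f) := hs1.1.2
    have hPf : ∀ b : s, eval f (P b) = 0 := fun b =>
      (hr b).mem_iff.mp (hsle (Ideal.subset_span b.2))
    have hrange : Set.range (fun b : s => (b : BK f)) = (s : Set (BK f)) := Subtype.range_coe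
    have hmin : mf f ∈ (Ideal.span ((Finset.univ.image P ∪ Finset.univ.image L :
        Finset (SS k N d)) : Set (SS k N d))).minimalPrimes := by
      refine ⟨⟨mf_prime f, ?_⟩, ?_⟩
      · rw [Ideal.span_le]
        intro x hx
        rw [Finset.coe_union, Finset.coe_image, Finset.coe_image, Finset.coe_univ,
          Finset.coe_univ, Set.image_univ, Set.image_univ] at hx
        rcases hx with ⟨b, rfl⟩ | ⟨q, rfl⟩
        · exact mem_mf.mpr (hPf b)
        · exact mem_mf.mpr (hLf q)
      · rintro 𝔭 ⟨hp, hIp⟩ hpm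
        rw [Ideal.span_le] at hIp
        rw [Finset.coe_union, Finset.coe_image, Finset.coe_image, Finset.coe_univ,
          Finset.coe_univ, Set.image_univ, Set.image_univ, Set.union_subset_iff] at hIp
        have hAp : ∀ i, A i ∈ 𝔭 := by
          intro i
          set a := mk f (A i) D ⟨w₀, hA i, hD, hDf⟩ with ha
          have hrep : Rep f a (A i) D := rep_mk f (A i) D ⟨w₀, hA i, hD, hDf⟩
          have ham : a ∈ IsLocalRing.maximalIdeal (BK f) := hrep.mem_iff.mpr (hAf i)
          have hrad : a ∈ (Ideal.span (s : Set (BK f))).radical := by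
            rw [Ideal.radical_eq_sInf, Ideal.mem_sInf]
            rintro J ⟨hJ1, hJ2⟩
            have hJ3 : J ≤ IsLocalRing.maximalIdeal (BK f) :=
              IsLocalRing.le_maximalIdeal hJ2.ne_top
            exact hs1.2 ⟨hJ2, hJ1⟩ hJ3 ham
          obtain ⟨r, hr'⟩ := hrad
          have hpow : ∀ r : ℕ, Rep f (a ^ r) (A i ^ r) (D ^ r) := by
            intro r
            induction r with
            | zero =>
              rw [pow_zero, pow_zero, pow_zero]
              have h := Rep.const f (1 : k)
              rw [map_one, C_1] at h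
              exact h
            | succ r ih =>
              rw [pow_succ, pow_succ, pow_succ]
              exact ih.mul hrep
          rw [← hrange] at hr'
          obtain ⟨X, hXf, hX⟩ := span_rep hr hr' (hpow r)
          have h1 : X * A i ^ r ∈ 𝔭 := (Ideal.span_le.mpr hIp.1) hX
          have h2 : X ∉ 𝔭 := fun h => hXf (mem_mf.mp (hpm h))
          exact hp.mem_of_pow_mem r ((hp.mem_or_mem h1).resolve_left h2)
        intro x hx
        have h1 : H * x ∈ 𝔭 := by
          refine (Ideal.span_le.mpr ?_) (hH x hx)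
          rintro _ ⟨(i | q), rfl⟩
          · exact hAp i
          · exact hIp.2 ⟨q, rfl⟩
        have h2 : H ∉ 𝔭 := fun h => hHf (mem_mf.mp (hpm h))
        exact (hp.mem_or_mem h1).resolve_left h2
    have h1 := Ideal.height_le_card_of_mem_minimalPrimes_span_finset hmin
    have h2 := le_trans (height_mf f) h1
    have h3 : (Finset.univ.image P ∪ Finset.univ.image L).card ≤
        s.card + (N + 1) * (N + 1) := by
      refine le_trans (Finset.card_union_le _ _) ?_
      apply Nat.add_le_add
      · refine le_trans Finset.card_image_le ?_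
        rw [Finset.card_univ, Fintype.card_coe]
      · refine le_trans Finset.card_image_le ?_
        rw [Finset.card_univ, Fintype.card_prod, Fintype.card_fin]
    have h4 : Fintype.card (Ix N d) ≤ (Finset.univ.image P ∪ Finset.univ.image L).card := by
      exact_mod_cast h2
    omega
  rw [← IsLocalRing.maximalIdeal_height_eq_ringKrullDim, ← hs2]
  have h1 : (IsLocalRing.maximalIdeal (BK f)).spanFinrank ≤ s.card := le_trans hup hlow
  exact_mod_cast h1

end

end Pool.Agent.NH60
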