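import Pool.Agent.NH60.Tsep
import Pool.Agent.NH60.Cnt

/-!
Diagonal matrices and differentials at points with nontrivial stabiliser.
-/

open MvPolynomial

namespace Pool.Agent.NH60

open Pool.Agent.Helper819.Apolar Pool.Agent.Helper819.Dyn

noncomputable section

set_option linter.unusedSectionVars false

variable {k : Type} [Field k] {N d : ℕ}

/-- eigenvalues of a diagonal matrix on coefficient vectors -/
def eig {R : Type} [CommRing R] (l : Fin (N + 1) → R) (p : Ix N d) : R :=
  (∏ j ∈ Finset.univ.erase p.1, l j) * ∏ j, l j ^ (p.2.1 j)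

theorem coeff_scale {R σ : Type} [CommRing R] [Fintype σ] (l : σ → R)
    (F : MvPolynomial σ R) (m : σ →₀ ℕ) :
    coeff m (bind₁ (fun i => C (l i) * X i) F) = (∏ j, l j ^ (m j)) * coeff m F := by
  classical
  induction F using MvPolynomial.induction_on' with
  | monomial u a =>
    have h1 : bind₁ (fun i => C (l i) * X i) (monomial u a) =
        monomial u ((∏ j, l j ^ (u j)) * a) := by
      rw [bind₁_monomial]
      have h2 : (∏ i ∈ u.support, (C (l i) * X i : MvPolynomial σ R) ^ u i) =
          ∏ i, (C (l i) * X i) ^ u i := by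
        refine Finset.prod_subset (Finset.subset_univ _) fun i _ hi => ?_
        rw [Finsupp.notMem_support_iff.mp hi, pow_zero]
      rw [h2]
      simp only [mul_pow, Finset.prod_mul_distrib]
      rw [monomial_eq (s := u)]
      have h3 : (u.prod fun n e => (X n : MvPolynomial σ R) ^ e) = ∏ i, X i ^ u i :=
        Finsupp.prod_fintype _ _ (fun i => pow_zero _)
      rw [h3]
      simp only [map_mul, map_prod, map_pow]
      ring
    rw [h1, coeff_monomial, coeff_monomial]
    split_ifs with h
    · rw [h]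
    · rw [mul_zero]
  | add p q hp hq => rw [map_add, coeff_add, hp, hq, coeff_add, mul_add]

theorem act_diag {R : Type} [CommRing R] (l : Fin (N + 1) → R) (c : Ix N d → R) (p : Ix N d) :
    actT (Matrix.diagonal l) c p = eig l p * c p := by
  unfold actT cf act
  rw [Finset.sum_eq_single p.1]
  · rw [coeff_C_mul, Matrix.adjugate_diagonal, Matrix.diagonal_apply_eq]
    have h1 : (fun i => ∑ m, C (Matrix.diagonal l i m) * X m :
        Fin (N + 1) → MvPolynomial (Fin (N + 1)) R) = fun i => C (l i) * X i := by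
      funext i
      rw [Finset.sum_eq_single i]
      · rw [Matrix.diagonal_apply_eq]
      · intro j _ hj
        rw [Matrix.diagonal_apply_ne _ hj.symm, map_zero, zero_mul]
      · simp
    rw [h1, coeff_scale, coeff_tup]
    unfold eig
    ring
  · intro j _ hj
    rw [Matrix.adjugate_diagonal, Matrix.diagonal_apply_ne _ hj.symm, map_zero, zero_mul]
  · simp

theorem eig_one_iff {l : Fin (N + 1) → k} (hl : ∀ i, l i ≠ 0) (p : Ix N d) :
    eig l p = 1 ↔ (∏ j, l j) * (∏ j, l j ^ (p.2.1 j)) = l p.1 := by
  unfold eig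
  have h1 : (∏ j, l j) = l p.1 * ∏ j ∈ Finset.univ.erase p.1, l j :=
    (Finset.mul_prod_erase _ _ (Finset.mem_univ _)).symm
  rw [h1]
  constructor
  · intro h
    rw [mul_assoc, h, mul_one]
  · intro h
    apply mul_left_cancel₀ (hl p.1)
    rw [mul_one, ← mul_assoc]
    exact h

/-- The counting inequality for a non-scalar diagonal matrix. -/
theorem count_eig [DecidableEq k] (hN : 2 ≤ N) (hd : 2 ≤ d) {l : Fin (N + 1) → k}
    (hl : ∀ i, l i ≠ 0) (hne : ∃ i j, l i ≠ l j) :
    Fintype.card {p : Fin (N + 1) × Fin (N + 1) // l p.1 ≠ l p.2} + 2 ≤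
      Fintype.card {p : Ix N d // eig l p ≠ 1} := by
  refine le_trans (count (d := d) l (fun m => (∏ j, l j) * (∏ j, l j ^ (m.1 j))) hne
    (card_Ex hN hd)) ?_
  apply le_of_eq
  apply Fintype.card_congr
  refine Equiv.subtypeEquivRight fun p => ?_
  rw [not_iff_not]
  exact (eig_one_iff hl p).symm

/-- equivariance of the infinitesimal action -/
theorem actT_xi {g : Matrix (Fin (N + 1)) (Fin (N + 1)) k} (hg : g.det ≠ 0)
    (Y : Matrix (Fin (N + 1)) (Fin (N + 1)) k) (c : Ix N d → k) :
    actT g (xi Y c) = xi (g⁻¹ * Y * g) (actT g c) := by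
  have hgu : IsUnit g.det := isUnit_iff_ne_zero.mpr hg
  let e : DualNumber k := DualNumber.eps
  have h1 : oneEps e Y * g.map (algebraMap k (DualNumber k)) =
      g.map (algebraMap k (DualNumber k)) * oneEps e (g⁻¹ * Y * g) := by
    unfold oneEps
    rw [add_mul, mul_add, one_mul, mul_one, Matrix.smul_mul, Matrix.mul_smul, ← Matrix.map_mul,
      ← Matrix.map_mul, ← mul_assoc, ← mul_assoc, Matrix.mul_nonsing_inv _ hgu, one_mul]
  have h2 : ∀ (Y : Matrix (Fin (N + 1)) (Fin (N + 1)) k) (c : Ix N d → k),
      actT (oneEps e Y) (fun q => algebraMap k (DualNumber k) (c q)) =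
        (fun q => algebraMap k (DualNumber k) (c q)) +
          e • (fun q => algebraMap k (DualNumber k) (xi Y c q)) := by
    intro Y c
    funext q
    exact actT_eps _ DualNumber.eps_mul_eps _ _ _
  funext p
  have h3 : actT (oneEps e Y * g.map (algebraMap k (DualNumber k)))
      (fun q => algebraMap k (DualNumber k) (c q)) p =
      actT (g.map (algebraMap k (DualNumber k)) * oneEps e (g⁻¹ * Y * g))
      (fun q => algebraMap k (DualNumber k) (c q)) p := by rw [h1]
  have h4 : actT (g.map (algebraMap k (DualNumber k)))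
      (fun q => algebraMap k (DualNumber k) (c q)) =
      fun q => algebraMap k (DualNumber k) (actT g c q) := by
    funext q
    rw [map_actT]
  rw [← actT_actT, ← actT_actT, h2, h4, h2, actT_add, actT_smul, h4] at h3
  simp only [Pi.add_apply, Pi.smul_apply, smul_eq_mul] at h3
  rw [← map_actT] at h3
  have h5 := congrArg TrivSqZeroExt.snd h3
  rw [snd_form, snd_form] at h5
  exact h5

theorem card_le_of_span {ι κ V : Type} [Fintype ι] [Fintype κ] [AddCommGroup V] [Module k V]
    {e : ι → V} (he : LinearIndependent k e) (b : κ → V)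
    (h : ∀ i, e i ∈ Submodule.span k (Set.range b)) : Fintype.card ι ≤ Fintype.card κ := by
  have h1 : Submodule.span k (Set.range e) ≤ Submodule.span k (Set.range b) := by
    rw [Submodule.span_le]
    rintro _ ⟨i, rfl⟩
    exact h i
  have h2 : Module.Finite k (Submodule.span k (Set.range b)) :=
    Module.Finite.span_of_finite k (Set.finite_range b)
  rw [← finrank_span_eq_card he]
  exact le_trans (Submodule.finrank_mono h1) (finrank_range_le_card b)

/-- Some eigenvector with nontrivial eigenvalue is not tangent to the orbit. -/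
theorem exists_eig (hN : 2 ≤ N) (hd : 2 ≤ d) {l : Fin (N + 1) → k}
    (hl : ∀ i, l i ≠ 0) (hne : ∃ i j, l i ≠ l j) {f : Ix N d → k}
    (hf : actT (Matrix.diagonal l) f = f) :
    ∃ p : Ix N d, eig l p ≠ 1 ∧ ∀ Y, (Pi.single p 1 : Ix N d → k) ≠ xi Y f := by
  classical
  by_contra hcon
  push Not at hcon
  have hD : (Matrix.diagonal l).det ≠ 0 := by
    rw [Matrix.det_diagonal]
    exact Finset.prod_ne_zero_iff.mpr fun i _ => hl i
  have h1 := count_eig hN hd (d := d) hl hne
  have h2 : Fintype.card {p : Ix N d // eig l p ≠ 1} ≤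
      Fintype.card {p : Fin (N + 1) × Fin (N + 1) // l p.1 ≠ l p.2} := by
    apply card_le_of_span (k := k)
      (e := fun p : {p : Ix N d // eig l p ≠ 1} => (Pi.single p.1 1 : Ix N d → k))
      (b := fun q : {p : Fin (N + 1) × Fin (N + 1) // l p.1 ≠ l p.2} =>
        xi (Matrix.single q.1.1 q.1.2 (1 : k)) f)
    · exact (Pi.linearIndependent_single_one (Ix N d) k).comp _ Subtype.val_injective
    · rintro ⟨p, hp⟩
      obtain ⟨Y, hY⟩ := hcon p hp
      set D := Matrix.diagonal l with hDdef
      have h3 : actT D (xi Y f) = xi (D⁻¹ * Y * D) f := by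
        rw [actT_xi hD, hf]
      have h4 : actT D (Pi.single p 1 : Ix N d → k) = eig l p • (Pi.single p 1 : Ix N d → k) := by
        funext q
        rw [hDdef, act_diag, Pi.smul_apply, smul_eq_mul]
        by_cases hq : q = p
        · rw [hq]
        · rw [Pi.single_eq_of_ne hq, mul_zero, mul_zero]
      have h5 : (Pi.single p 1 : Ix N d → k) =
          xi ((eig l p - 1)⁻¹ • (D⁻¹ * Y * D - Y)) f := by
        have h6 : xi (D⁻¹ * Y * D - Y) f = (eig l p - 1) • (Pi.single p 1 : Ix N d → k) := by
          have h7 : xi (D⁻¹ * Y * D - Y) f = xi (D⁻¹ * Y * D) f - xi Y f := by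
            change xiL f _ = xiL f _ - xiL f _
            rw [map_sub]
          rw [h7, ← h3, ← hY, h4, sub_smul, one_smul]
        rw [xi_smul, h6, smul_smul, inv_mul_cancel₀ (sub_ne_zero.mpr hp), one_smul]
      have hZ : ∀ i j, l i = l j → ((eig l p - 1)⁻¹ • (D⁻¹ * Y * D - Y)) i j = 0 := by
        intro i j hij
        have h6 : D⁻¹ = Matrix.diagonal (fun i => (l i)⁻¹) := by
          rw [hDdef]
          apply Matrix.inv_eq_right_inv
          rw [Matrix.diagonal_mul_diagonal]
          rw [← Matrix.diagonal_one]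
          congr 1
          funext i
          exact mul_inv_cancel₀ (hl i)
        rw [Matrix.smul_apply, Matrix.sub_apply, h6, hDdef, Matrix.mul_diagonal,
          Matrix.diagonal_mul, hij]
        have : (l j)⁻¹ * Y i j * l j - Y i j = 0 := by
          field_simp [hl j]
          ring
        rw [this, smul_zero]
      rw [h5]
      generalize (eig l p - 1)⁻¹ • (D⁻¹ * Y * D - Y) = Z at hZ
      have hZs : xi Z f = xiL f (∑ i, ∑ j, Matrix.single i j (Z i j)) := by
        rw [← Matrix.matrix_eq_sum_single Z]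
        rfl
      rw [hZs, map_sum]
      refine Submodule.sum_mem _ fun i _ => ?_
      rw [map_sum]
      refine Submodule.sum_mem _ fun j _ => ?_
      by_cases hij : l i = l j
      · rw [hZ i j hij, Matrix.single_zero, map_zero]
        exact Submodule.zero_mem _
      · have h8 : Matrix.single i j (Z i j) = Z i j • Matrix.single i j (1 : k) := by
          rw [Matrix.smul_single, smul_eq_mul, mul_one]
        rw [h8, map_smul]
        apply Submodule.smul_mem
        apply Submodule.subset_span
        exact ⟨⟨(i, j), hij⟩, rfl⟩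
  omega

theorem not_triv_iff {s : Ix N d → k} : ¬ Triv s ↔
    ∃ A : Matrix (Fin (N + 1)) (Fin (N + 1)) k, A.det ≠ 0 ∧ actT A s = s ∧
      ∀ r : k, A ≠ r • (1 : Matrix (Fin (N + 1)) (Fin (N + 1)) k) := by
  unfold Triv
  push Not
  rfl

variable [IsAlgClosed k] [CharZero k]

/-- Points with nontrivial stabiliser are conjugate to points fixed by a non-scalar diagonal
matrix. -/
theorem exists_diag' (hd : 2 ≤ d) {f : Ix N d → k} (hf : NZ (tup f)) (hnt : ¬ Triv f) :
    ∃ (g : Matrix (Fin (N + 1)) (Fin (N + 1)) k) (l : Fin (N + 1) → k), g.det ≠ 0 ∧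
      (∀ i, l i ≠ 0) ∧ (∃ i j, l i ≠ l j) ∧
      actT (Matrix.diagonal l) (actT g f) = actT g f := by
  rw [not_triv_iff] at hnt
  obtain ⟨A, hA, hAf, hAn⟩ := hnt
  obtain ⟨g, l, hg, hgl⟩ := exists_diag hd hf A hA hAf
  have hgu : IsUnit g.det := isUnit_iff_ne_zero.mpr hg
  have hdet : A.det = ∏ i, l i := by
    have h1 := congrArg Matrix.det hgl
    rw [Matrix.det_mul, Matrix.det_mul, Matrix.det_diagonal, mul_comm] at h1
    exact mul_left_cancel₀ hg h1
  refine ⟨g, l, hg, ?_, ?_, ?_⟩
  · intro i
    rw [hdet] at hA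
    exact (Finset.prod_ne_zero_iff.mp hA) i (Finset.mem_univ _)
  · by_contra hcon
    push Not at hcon
    apply hAn (l 0)
    have h1 : Matrix.diagonal l = l 0 • (1 : Matrix (Fin (N + 1)) (Fin (N + 1)) k) := by
      rw [← Matrix.diagonal_one, ← Matrix.diagonal_smul]
      congr 1
      funext i
      rw [hcon i 0]
      simp
    have h2 : A = A * g * g⁻¹ := by
      rw [mul_assoc, Matrix.mul_nonsing_inv _ hgu, mul_one]
    rw [h2, hgl, h1, Matrix.mul_smul, mul_one, Matrix.smul_mul, Matrix.mul_nonsing_inv _ hgu]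
  · rw [actT_actT, ← hgl, ← actT_actT, hAf]

/-- At a point with nontrivial stabiliser the differentials of quotients of semi-invariants do not
cut out the tangent space of the orbit. -/
theorem not_span (hN : 2 ≤ N) (hd : 2 ≤ d) {f : Ix N d → k} (hf : NZ (tup f))
    (hnt : ¬ Triv f) : ∃ v : Ix N d → k, (∀ Y, v ≠ xi Y f) ∧
      ∀ (w : ℕ) (P Q : SS k N d), IsSemi w P → IsSemi w Q → eval f Q ≠ 0 → dd P f v = 0 := by
  have hinf : Infinite k := inferInstance
  obtain ⟨g, l, hg, hl0, hl1, hD⟩ := exists_diag' hd hf hnt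
  have hgu : IsUnit g.det := isUnit_iff_ne_zero.mpr hg
  have hgi : (g⁻¹).det ≠ 0 := by
    rw [Matrix.det_nonsing_inv, Ring.inverse_eq_inv']
    exact inv_ne_zero hg
  obtain ⟨p, hp1, hp2⟩ := exists_eig hN hd hl0 hl1 hD
  refine ⟨actT g⁻¹ (Pi.single p 1), ?_, ?_⟩
  · intro Y hY
    apply hp2 (g⁻¹ * Y * g)
    rw [← actT_xi hg, ← hY, actT_actT, Matrix.nonsing_inv_mul _ hgu, actT_one]
  · intro w P Q hP hQ hQf
    have e1 : f = actT g⁻¹ (actT g f) := by
      rw [actT_actT, Matrix.mul_nonsing_inv _ hgu, actT_one]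
    set D := Matrix.diagonal l with hDdef
    have h4 : actT D (Pi.single p 1 : Ix N d → k) = eig l p • (Pi.single p 1 : Ix N d → k) := by
      funext q
      rw [hDdef, act_diag, Pi.smul_apply, smul_eq_mul]
      by_cases hq : q = p
      · rw [hq]
      · rw [Pi.single_eq_of_ne hq, mul_zero, mul_zero]
    have hQ' : eval (actT g f) Q ≠ 0 := by
      rw [hQ g f]
      exact mul_ne_zero (pow_ne_zero _ hg) hQf
    have hdet : D.det ^ w = 1 := by
      have h1 := hQ D (actT g f)
      rw [hD] at h1
      exact (mul_right_cancel₀ hQ' (by rw [one_mul]; exact h1)).symm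
    have h5 := semi_equiv hP D (actT g f) (Pi.single p 1)
    rw [hD, h4, hdet, one_mul, dd_vsmul] at h5
    have h6 : dd P (actT g f) (Pi.single p 1) = 0 := by
      have h7 : (eig l p - 1) * dd P (actT g f) (Pi.single p 1) = 0 := by
        linear_combination h5
      exact (mul_eq_zero.mp h7).resolve_left (sub_ne_zero.mpr hp1)
    have h8 := semi_equiv hP g⁻¹ (actT g f) (Pi.single p 1)
    rw [h6, mul_zero, ← e1] at h8
    exact h8

end

end Pool.Agent.NH60
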