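import Pool.Agent.NH60.A0

/-!
Extension of scalars for the action and its derivative.
-/

open MvPolynomial

namespace Pool.Agent.NH60

open Pool.Agent.Helper819.Apolar Pool.Agent.Helper819.Dyn

noncomputable section

set_option linter.unusedSectionVars false

variable {k : Type} [Field k] {N d : ℕ}

/-- extension of scalars for vectors -/
def up {k : Type} [Field k] (K : Type) [CommRing K] [Algebra k K] {σ : Type} (c : σ → k) : σ → K :=
  fun p => algebraMap k K (c p)

theorem xi_zero_mat {R : Type} [CommRing R] (c : Ix N d → R) : xi 0 c = 0 := by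
  have h := xi_smul (0 : R) (0 : Matrix (Fin (N + 1)) (Fin (N + 1)) R) c
  rwa [zero_smul, zero_smul] at h

theorem up_xi {K : Type} [CommRing K] [Algebra k K] (A : Matrix (Fin (N + 1)) (Fin (N + 1)) k)
    (c : Ix N d → k) : up K (xi A c) = xi (A.map (algebraMap k K)) (up K c) :=
  funext fun p => map_xi (algebraMap k K) A c p

theorem up_actT {K : Type} [CommRing K] [Algebra k K] (A : Matrix (Fin (N + 1)) (Fin (N + 1)) k)
    (c : Ix N d → k) : up K (actT A c) = actT (A.map (algebraMap k K)) (up K c) :=
  funext fun p => map_actT (algebraMap k K) A c p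

theorem up_inj {K : Type} [Field K] [Algebra k K] {σ : Type} {c c' : σ → k}
    (h : up K c = up K c') : c = c' :=
  funext fun p => (algebraMap k K).injective (congrFun h p)

theorem NZ_up [IsAlgClosed k] {K : Type} [Field K] [Algebra k K] {s : Ix N d → k}
    (hs : NZ (tup s)) : NZ (tup (up K s)) := by
  have h := NZ_map (K := K) hs
  have h2 : (fun i => map (algebraMap k K) (tup s i)) = tup (up K s) :=
    funext fun i => map_tup (algebraMap k K) s i
  rwa [h2] at h

/-- infinitesimal automorphisms vanish -/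
theorem xi_inj [IsAlgClosed k] [CharZero k] (hd : 2 ≤ d) {s : Ix N d → k} (hs : NZ (tup s))
    {Z : Matrix (Fin (N + 1)) (Fin (N + 1)) k} (h : xi Z s = 0) : Z = 0 := by
  apply lie_inj hd hs
  intro i
  have h1 : lieT Z (tup s) = 0 := by
    rw [← tup_xi (by omega : 1 ≤ d), h]
    funext i
    simp [tup]
  have h2 := congrFun h1 i
  unfold lieT at h2
  rw [Pi.zero_apply] at h2
  linear_combination h2

/-- infinitesimal automorphisms vanish, over extensions -/
theorem xi_up_inj [IsAlgClosed k] [CharZero k] (hd : 2 ≤ d) {s : Ix N d → k} (hs : NZ (tup s))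
    {K : Type} [Field K] [Algebra k K] {Z : Matrix (Fin (N + 1)) (Fin (N + 1)) K}
    (h : xi Z (up K s) = 0) : Z = 0 := by
  have hchar : CharZero (AlgebraicClosure K) :=
    charZero_of_injective_algebraMap (algebraMap k (AlgebraicClosure K)).injective
  have h1 : xi (Z.map (algebraMap K (AlgebraicClosure K))) (up (AlgebraicClosure K) s) = 0 := by
    have h2 : up (AlgebraicClosure K) s = up (AlgebraicClosure K) (up K s) := by
      funext p
      exact IsScalarTower.algebraMap_apply k K (AlgebraicClosure K) (s p)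
    rw [h2, ← up_xi, h]
    funext p
    exact map_zero _
  have h3 := xi_inj hd (NZ_up (K := AlgebraicClosure K) hs) h1
  ext i j
  have h4 := congrFun (congrFun h3 i) j
  rw [Matrix.map_apply, Matrix.zero_apply] at h4
  exact (map_eq_zero _).mp h4

theorem xi_expand {K : Type} [CommRing K] [Algebra k K]
    (Z : Matrix (Fin (N + 1)) (Fin (N + 1)) K) (s : Ix N d → k) :
    xi Z (up K s) = ∑ i, ∑ j, Z i j • up K (xi (Matrix.single i j (1 : k)) s) := by
  conv_lhs => rw [Matrix.matrix_eq_sum_single Z]
  change xiL (up K s) _ = _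
  rw [map_sum]
  refine Finset.sum_congr rfl fun i _ => ?_
  rw [map_sum]
  refine Finset.sum_congr rfl fun j _ => ?_
  have h1 : Matrix.single i j (Z i j) =
      Z i j • (Matrix.single i j (1 : k)).map (algebraMap k K) := by
    rw [Matrix.map_single, map_one, Matrix.smul_single, smul_eq_mul, mul_one]
  rw [h1, map_smul]
  congr 1
  exact (up_xi _ s).symm

/-- descent of tangency -/
theorem xi_descend {K : Type} [Field K] [Algebra k K]
    {Z : Matrix (Fin (N + 1)) (Fin (N + 1)) K} {s v : Ix N d → k}
    (h : xi Z (up K s) = up K v) : ∃ Y, v = xi Y s := by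
  by_contra hcon
  have hv : v ∉ LinearMap.range (xiL s) := by
    rintro ⟨Y, hY⟩
    exact hcon ⟨Y, hY.symm⟩
  obtain ⟨f, hfv, hf⟩ := Submodule.exists_le_ker_of_notMem hv
  let g : (Ix N d → K) →ₗ[K] K := ∑ p, (algebraMap k K (f (Pi.single p 1))) • LinearMap.proj p
  have hg : ∀ c : Ix N d → k, g (up K c) = algebraMap k K (f c) := by
    intro c
    have h1 : c = ∑ p, c p • (Pi.single p (1 : k) : Ix N d → k) := by
      funext q
      rw [Finset.sum_apply]
      simp [Pi.single_apply]
    conv_rhs => rw [h1]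
    rw [map_sum, map_sum]
    change (∑ p, (algebraMap k K (f (Pi.single p 1))) • LinearMap.proj (R := K) p) (up K c) = _
    rw [LinearMap.sum_apply]
    refine Finset.sum_congr rfl fun p _ => ?_
    rw [LinearMap.smul_apply, map_smul, smul_eq_mul, smul_eq_mul, map_mul]
    change _ * algebraMap k K (c p) = _
    ring
  have h1 := congrArg g h
  rw [xi_expand, map_sum, hg] at h1
  have h2 : ∀ i j, f (xi (Matrix.single i j (1 : k)) s) = 0 := by
    intro i j
    exact hf ⟨Matrix.single i j 1, rfl⟩
  have h3 : ∑ i, g (∑ j, Z i j • up K (xi (Matrix.single i j (1 : k)) s)) = 0 := by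
    refine Finset.sum_eq_zero fun i _ => ?_
    rw [map_sum]
    refine Finset.sum_eq_zero fun j _ => ?_
    rw [map_smul, hg, h2, map_zero, smul_zero]
  rw [h3] at h1
  exact hfv ((map_eq_zero _).mp h1.symm)

/-- a matrix is scalar when its off-diagonal entries vanish and its diagonal entries agree -/
theorem scalar_of {R : Type} [CommRing R] {B : Matrix (Fin (N + 1)) (Fin (N + 1)) R}
    (h1 : ∀ i j, i ≠ j → B i j = 0) (h2 : ∀ i, B i i = B 0 0) : B = B 0 0 • 1 := by
  ext i j
  rw [Matrix.smul_apply]
  by_cases hij : i = j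
  · subst hij
    rw [Matrix.one_apply_eq, smul_eq_mul, mul_one, h2]
  · rw [Matrix.one_apply_ne hij, smul_zero, h1 i j hij]

/-- The stabiliser consists of scalar matrices. -/
def Triv (s : Ix N d → k) : Prop :=
  ∀ A : Matrix (Fin (N + 1)) (Fin (N + 1)) k, A.det ≠ 0 → actT A s = s →
    ∃ r : k, A = r • (1 : Matrix (Fin (N + 1)) (Fin (N + 1)) k)

theorem scal_pow {K : Type} [Field K] {s : Ix N d → K} (hs : s ≠ 0) {r : K}
    (h : actT (r • (1 : Matrix (Fin (N + 1)) (Fin (N + 1)) K)) s = s) : r ^ (N + d) = 1 := by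
  rw [actT_scalar] at h
  obtain ⟨p, hp⟩ : ∃ p, s p ≠ 0 := by
    by_contra hcon
    push Not at hcon
    exact hs (funext hcon)
  have h1 := congrFun h p
  rw [Pi.smul_apply, smul_eq_mul] at h1
  exact mul_right_cancel₀ hp (by rw [h1, one_mul])

/-- transfer of triviality of the stabiliser to extensions -/
theorem Triv.up [IsAlgClosed k] {s : Ix N d → k} (hs : Triv s) {K : Type} [Field K] [Algebra k K]
    {B : Matrix (Fin (N + 1)) (Fin (N + 1)) K} (hB : B.det ≠ 0)
    (h : actT B (up K s) = up K s) : B = B 0 0 • 1 := by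
  have hpt : ∀ q : KA k N, aeval (ent B) q ≠ 0 → ∃ r : k,
      eval (ent (r • (1 : Matrix (Fin (N + 1)) (Fin (N + 1)) k))) q ≠ 0 := by
    intro q hq
    obtain ⟨y, hy1, hy2⟩ := exists_point (ent B) (q * dt (N + 1) k) (by
      rw [map_mul, aeval_dt_S]
      exact mul_ne_zero hq hB)
    obtain ⟨A, rfl⟩ := ent_surj y
    rw [map_mul, eval_dt] at hy2
    have hA : actT A s = s := by
      funext p
      have h1 := hy1 (orb s p - C (s p)) (by
        rw [map_sub, aeval_orb_S, algHom_C]
        change actT B (Pool.Agent.NH60.up K s) p - Pool.Agent.NH60.up K s p = 0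
        rw [h, sub_self])
      rw [map_sub, eval_orb, eval_C, sub_eq_zero] at h1
      exact h1
    obtain ⟨r, hr⟩ := hs A (right_ne_zero_of_mul hy2) hA
    exact ⟨r, by rw [← hr]; exact left_ne_zero_of_mul hy2⟩
  apply scalar_of
  · intro i j hij
    by_contra hne
    obtain ⟨r, hr⟩ := hpt (X (i, j)) (by rwa [aeval_X])
    apply hr
    rw [eval_X]
    change (r • (1 : Matrix (Fin (N + 1)) (Fin (N + 1)) k)) i j = 0
    rw [Matrix.smul_apply, Matrix.one_apply_ne hij, smul_zero]
  · intro i
    by_contra hne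
    obtain ⟨r, hr⟩ := hpt (X (i, i) - X (0, 0)) (by
      rw [map_sub, aeval_X, aeval_X]
      exact sub_ne_zero.mpr hne)
    apply hr
    rw [map_sub, eval_X, eval_X]
    change (r • (1 : Matrix (Fin (N + 1)) (Fin (N + 1)) k)) i i -
      (r • (1 : Matrix (Fin (N + 1)) (Fin (N + 1)) k)) 0 0 = 0
    simp

end

end Pool.Agent.NH60
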