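import Pool.Agent.Helper819.DynDefs
import Pool.Agent.NH60.ConjLem

/-!
The local rings of the geometric quotient `M_d^N = End_d^N / PGL_{N+1}`, its singular locus and
automorphism groups of endomorphisms of projective space.
-/

open MvPolynomial Topology Filter

namespace Pool.Agent.NH60.Sing

open Pool.Agent.Helper819.Dyn

noncomputable section

variable {k : Type} [Field k] {N d : ℕ}

/-- A function on the affine cone over `End_d^N(k)` is regular at `F` if near `F` it is the
quotient of two polynomials in the coefficients, the denominator not vanishing at `F`. -/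
def RegularAt (φ : EndTuple k N d → k) (F : EndTuple k N d) : Prop :=
  ∃ P Q : MvPolynomial (Fin (N + 1) × (Fin (N + 1) →₀ ℕ)) k, eval (coords F) Q ≠ 0 ∧
    ∀ᶠ G in 𝓝 F, φ G * eval (coords G) Q = eval (coords G) P

/-- A function on `M_d^N(k)` is regular near `x` if its pullback to the cone over `End_d^N(k)` is
regular at all points over a neighbourhood of `x`. -/
def RegularNear (φ : Moduli k N d → k) (x : Moduli k N d) : Prop :=
  ∀ᶠ y in 𝓝 x, ∀ F : EndTuple k N d, cls F = y → RegularAt (φ ∘ cls) F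

theorem RegularAt.const (F : EndTuple k N d) (a : k) : RegularAt (fun _ => a) F :=
  ⟨C a, 1, by simp, Eventually.of_forall fun G => by simp⟩

theorem RegularAt.add {φ ψ : EndTuple k N d → k} {F : EndTuple k N d} (hφ : RegularAt φ F)
    (hψ : RegularAt ψ F) : RegularAt (φ + ψ) F := by
  obtain ⟨P, Q, hQ, h⟩ := hφ
  obtain ⟨P', Q', hQ', h'⟩ := hψ
  refine ⟨P * Q' + P' * Q, Q * Q', by rw [map_mul]; exact mul_ne_zero hQ hQ', ?_⟩
  filter_upwards [h, h'] with G h1 h2
  rw [map_add, map_mul, map_mul, map_mul, ← h1, ← h2, Pi.add_apply]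
  ring

theorem RegularAt.mul {φ ψ : EndTuple k N d → k} {F : EndTuple k N d} (hφ : RegularAt φ F)
    (hψ : RegularAt ψ F) : RegularAt (φ * ψ) F := by
  obtain ⟨P, Q, hQ, h⟩ := hφ
  obtain ⟨P', Q', hQ', h'⟩ := hψ
  refine ⟨P * P', Q * Q', by rw [map_mul]; exact mul_ne_zero hQ hQ', ?_⟩
  filter_upwards [h, h'] with G h1 h2
  rw [map_mul, map_mul, ← h1, ← h2, Pi.mul_apply]
  ring

theorem RegularAt.neg {φ : EndTuple k N d → k} {F : EndTuple k N d} (hφ : RegularAt φ F) :
    RegularAt (-φ) F := by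
  obtain ⟨P, Q, hQ, h⟩ := hφ
  refine ⟨-P, Q, hQ, ?_⟩
  filter_upwards [h] with G h1
  rw [map_neg, ← h1, Pi.neg_apply]
  ring

/-- The local ring of `M_d^N` at `x`: germs at `x` (for the Zariski topology) of regular
functions. -/
def localRing (x : Moduli k N d) : Subring (Germ (𝓝 x) k) where
  carrier := {g | ∃ φ : Moduli k N d → k, (φ : Germ (𝓝 x) k) = g ∧ RegularNear φ x}
  mul_mem' := by
    rintro _ _ ⟨φ, rfl, hφ⟩ ⟨ψ, rfl, hψ⟩
    refine ⟨φ * ψ, rfl, ?_⟩
    filter_upwards [hφ, hψ] with y h1 h2 F hF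
    exact (h1 F hF).mul (h2 F hF)
  one_mem' := ⟨fun _ => 1, rfl, Eventually.of_forall fun _ F _ => RegularAt.const F 1⟩
  add_mem' := by
    rintro _ _ ⟨φ, rfl, hφ⟩ ⟨ψ, rfl, hψ⟩
    refine ⟨φ + ψ, rfl, ?_⟩
    filter_upwards [hφ, hψ] with y h1 h2 F hF
    exact (h1 F hF).add (h2 F hF)
  zero_mem' := ⟨fun _ => 0, rfl, Eventually.of_forall fun _ F _ => RegularAt.const F 0⟩
  neg_mem' := by
    rintro _ ⟨φ, rfl, hφ⟩
    refine ⟨-φ, rfl, ?_⟩
    filter_upwards [hφ] with y h1 F hF
    exact (h1 F hF).neg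

/-- The singular locus of `M_d^N` over `k`: the points whose local ring is not regular. -/
def singularLocus (k : Type) [Field k] (N d : ℕ) : Set (Moduli k N d) :=
  {x | ¬ IsRegularLocalRing (localRing x)}

/-- The automorphism group of the endomorphism `[F_0 : ... : F_N]` of projective space: the
classes in `PGL_{N+1}(k)` of the matrices `φ` such that `φ⁻¹ ∘ F ∘ φ` and `F` are proportional,
i.e. define the same endomorphism. -/
def autGroup (F : EndTuple k N d) : Subgroup (Matrix.ProjGenLinGroup (Fin (N + 1)) k) where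
  carrier := {g | ∃ φ : GL (Fin (N + 1)) k, Matrix.ProjGenLinGroup.mk φ = g ∧
    ∃ c : kˣ, conj φ F.1 = fun i => C (c : k) * F.1 i}
  mul_mem' := by
    rintro _ _ ⟨φ, rfl, c, hc⟩ ⟨ψ, rfl, e, he⟩
    refine ⟨φ * ψ, map_mul _ _ _, c * e, ?_⟩
    rw [conj_mul, hc, conj_C_mul, he]
    funext i
    rw [Units.val_mul, map_mul, mul_assoc]
  one_mem' := ⟨1, map_one _, 1, by
    rw [conj_one]
    funext i
    rw [Units.val_one, C_1, one_mul]⟩
  inv_mem' := by
    rintro _ ⟨φ, rfl, c, hc⟩
    refine ⟨φ⁻¹, map_inv _ _, c⁻¹, ?_⟩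
    have h1 : conj φ⁻¹ (conj φ F.1) = F.1 := by
      rw [← conj_mul, mul_inv_cancel, conj_one]
    rw [hc, conj_C_mul] at h1
    funext i
    have h2 := congrFun h1 i
    rw [← h2, ← mul_assoc, ← C_mul, Units.inv_mul, C_1, one_mul]

end

end Pool.Agent.NH60.Sing
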