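import Pool.Agent.NH60.Main2
import Pool.Agent.NH60.SingDefs

/-!
The local ring of the geometric quotient is the ring of quotients of semi-invariants.
-/

open MvPolynomial Topology Filter

namespace Pool.Agent.NH60

open Pool.Agent.Helper819.Apolar Pool.Agent.Helper819.Dyn Pool.Agent.Helper819.Zar Sing

noncomputable section

set_option linter.unusedSectionVars false

variable {k : Type} [Field k] {N d : ℕ}

/-- coefficients of an endomorphism -/
def cfE (F : EndTuple k N d) : Ix N d → k := cf F.1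

theorem tup_cfE (F : EndTuple k N d) : tup (cfE F) = F.1 := tup_cf F.2.1

/-- restriction of polynomials to the coefficients of degree `d` -/
def dn : MvPolynomial (Fin (N + 1) × (Fin (N + 1) →₀ ℕ)) k →ₐ[k] SS k N d :=
  aeval (fun p => if h : p.2 ∈ Finset.finsuppAntidiag Finset.univ d then
    X ((p.1, ⟨p.2, h⟩) : Ix N d) else 0)

theorem eval_dn (F : EndTuple k N d) (P : MvPolynomial (Fin (N + 1) × (Fin (N + 1) →₀ ℕ)) k) :
    eval (cfE F) (dn P) = eval (coords F) P := by
  unfold dn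
  have h1 : ∀ q : SS k N d, aeval (cfE F) q = eval (cfE F) q := by
    intro q
    rw [← coe_aeval_eq_eval]
    rfl
  rw [← h1, comp_aeval_apply, ← coe_aeval_eq_eval]
  change _ = aeval (coords F) P
  congr 2
  funext p
  by_cases h : p.2 ∈ Finset.finsuppAntidiag Finset.univ d
  · rw [dif_pos h, aeval_X]
    rfl
  · rw [dif_neg h, map_zero]
    symm
    apply (F.2.1 p.1).coeff_eq_zero
    intro hm
    apply h
    rw [Finset.mem_finsuppAntidiag]
    refine ⟨?_, Finset.subset_univ _⟩
    rw [← hm, Finsupp.degree_eq_sum]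

/-- extension of polynomials -/
def upP : SS k N d →ₐ[k] MvPolynomial (Fin (N + 1) × (Fin (N + 1) →₀ ℕ)) k :=
  rename (fun p : Ix N d => (p.1, p.2.1))

theorem eval_upP (F : EndTuple k N d) (P : SS k N d) :
    eval (coords F) (upP P) = eval (cfE F) P := by
  unfold upP
  rw [eval_rename]
  rfl

theorem isOpen_SS (P : SS k N d) : IsOpen {F : EndTuple k N d | eval (cfE F) P ≠ 0} := by
  have h := (isZar_coords k N d).isOpen_ne (upP P)
  simp_rw [eval_upP] at h
  exact h

theorem exists_basic {F : EndTuple k N d} {p : EndTuple k N d → Prop} (h : ∀ᶠ G in 𝓝 F, p G) :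
    ∃ H : SS k N d, eval (cfE F) H ≠ 0 ∧ ∀ G : EndTuple k N d, eval (cfE G) H ≠ 0 → p G := by
  rw [Filter.Eventually, (isZar_coords k N d).isTopologicalBasis.mem_nhds_iff] at h
  obtain ⟨_, ⟨q, rfl⟩, h1, h2⟩ := h
  refine ⟨dn q, ?_, ?_⟩
  · rw [eval_dn]; exact h1
  · intro G hG
    rw [eval_dn] at hG
    exact h2 hG

variable [IsAlgClosed k]

theorem NZ_cfE (F : EndTuple k N d) : NZ (tup (cfE F)) := by
  rw [tup_cfE]
  exact ((isEnd_iff_NZ F.1).mp F.2).2

/-- the endomorphism with given coefficients -/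
def ofC (c : Ix N d → k) (h : NZ (tup c)) : EndTuple k N d :=
  ⟨tup c, (isEnd_iff_NZ _).mpr ⟨tup_homog c, h⟩⟩

theorem cfE_ofC (c : Ix N d → k) (h : NZ (tup c)) : cfE (ofC c h) = c := cf_tup c

theorem cfE_actE (A : Matrix (Fin (N + 1)) (Fin (N + 1)) k) (hA : A.det ≠ 0)
    (F : EndTuple k N d) : cfE (actE A hA F) = actT A (cfE F) := by
  unfold actT
  rw [tup_cfE]
  rfl

theorem cls_actE (hd : 2 ≤ d) (A : Matrix (Fin (N + 1)) (Fin (N + 1)) k) (hA : A.det ≠ 0)
    (F : EndTuple k N d) : cls (actE A hA F) = cls F :=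
  ((cls_eq_iff (by omega) F _).mpr ⟨A, hA, rfl⟩).symm

theorem semi_of_inv [Infinite k] {w : ℕ} {P : SS k N d}
    (h : ∀ A : Matrix (Fin (N + 1)) (Fin (N + 1)) k, A.det ≠ 0 → ∀ c : Ix N d → k,
      eval (actT A c) P = A.det ^ w * eval c P) : IsSemi w P := by
  intro A c
  have h1 : aeval (orb c) P = C (eval c P) * dt (N + 1) k ^ w := by
    apply poly_ext
    intro B hB
    rw [eval_aeval_orb, h B hB, map_mul, eval_C, map_pow, eval_dt, mul_comm]
  have h2 := congrArg (eval (ent A)) h1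
  rw [eval_aeval_orb, map_mul, eval_C, map_pow, eval_dt, mul_comm] at h2
  exact h2

variable [CharZero k]

/-- A polynomial vanishing on the nondegenerate locus is zero. -/
theorem zero_of_NZ {f : Ix N d → k} (hf : NZ (tup f)) {P : SS k N d}
    (h : ∀ c, NZ (tup c) → eval c P = 0) : P = 0 := by
  have hinf : Infinite k := inferInstance
  obtain ⟨R, hRf, hRN⟩ := exists_open hf
  have hR0 : R ≠ 0 := by
    rintro rfl
    exact hRf (map_zero _)
  have h1 : P * R = 0 := by
    apply MvPolynomial.funext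
    intro c
    rw [map_mul, map_zero]
    by_cases hc : eval c R = 0
    · rw [hc, mul_zero]
    · rw [h c (hRN c hc), zero_mul]
  exact (mul_eq_zero.mp h1).resolve_right hR0

/-- An invariant function which is regular at a point is near it a quotient of
semi-invariants. -/
theorem exists_adm (hd : 2 ≤ d) {φ : Moduli k N d → k} {F : EndTuple k N d}
    (hφ : RegularAt (φ ∘ cls) F) : ∃ P Q, Adm (cfE F) P Q ∧
      ∀ G : EndTuple k N d, φ (cls G) * eval (cfE G) Q = eval (cfE G) P := by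
  have hinf : Infinite k := inferInstance
  have hf := NZ_cfE F
  let J : Ideal (SS k N d) :=
    { carrier := {Q | ∃ P : SS k N d, ∀ G : EndTuple k N d,
        φ (cls G) * eval (cfE G) Q = eval (cfE G) P}
      add_mem' := by
        rintro a b ⟨P, hP⟩ ⟨P', hP'⟩
        refine ⟨P + P', fun G => ?_⟩
        rw [map_add, map_add, mul_add, hP, hP']
      zero_mem' := ⟨0, fun G => by rw [map_zero, mul_zero]⟩
      smul_mem' := by
        rintro c b ⟨P, hP⟩
        refine ⟨c * P, fun G => ?_⟩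
        rw [smul_eq_mul, map_mul, map_mul, ← hP]
        ring }
  have hJ : ∀ Q, Q ∈ J ↔ ∃ P : SS k N d, ∀ G : EndTuple k N d,
        φ (cls G) * eval (cfE G) Q = eval (cfE G) P := fun Q => Iff.rfl
  let Z : Set (Ix N d → k) := {c | ∀ Q ∈ J, eval c Q = 0}
  obtain ⟨w, R, hR, hRf, hRZ⟩ := exists_semi hd hf Z (by
    intro c hc Q hQ
    apply hc
    intro z hz
    exact hz Q hQ) (by
    intro A hA z hz Q hQ
    rw [← eval_compT]
    apply hz
    rw [hJ] at hQ ⊢
    obtain ⟨P, hP⟩ := hQ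
    refine ⟨compT A P, fun G => ?_⟩
    rw [eval_compT, eval_compT, ← cfE_actE A hA, ← hP, cls_actE hd]) (by
    intro hfZ
    obtain ⟨P0, Q0, hQ0, h0⟩ := hφ
    obtain ⟨H, hH, hH2⟩ := exists_basic h0
    have h1 := hfZ (dn Q0 * H) (by
      rw [hJ]
      refine ⟨dn P0 * H, fun G => ?_⟩
      rw [map_mul, map_mul, eval_dn, eval_dn]
      by_cases hG : eval (cfE G) H = 0
      · rw [hG, mul_zero, mul_zero, mul_zero]
      · rw [← hH2 G hG, Function.comp_apply]
        ring)
    rw [map_mul, eval_dn] at h1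
    exact mul_ne_zero hQ0 hH h1)
  have hrad : R ∈ J.radical := by
    rw [← vanishingIdeal_zeroLocus_eq_radical (K := k), mem_vanishingIdeal_iff]
    intro c hc
    have hc' : c ∈ Z := by
      intro Q hQ
      have := (mem_zeroLocus_iff.mp hc) Q hQ
      rw [← coe_aeval_eq_eval]
      exact this
    have goal := hRZ c hc'
    rw [← coe_aeval_eq_eval] at goal
    exact goal
  obtain ⟨j, hj⟩ := hrad
  rw [hJ] at hj
  obtain ⟨P, hP⟩ := hj
  have hRj := hR.pow j
  refine ⟨P, R ^ j, ⟨w * j, ?_, hRj, by rw [map_pow]; exact pow_ne_zero _ hRf⟩, hP⟩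
  apply semi_of_inv
  intro A hA c
  have h1 : compT A P - C (A.det ^ (w * j)) * P = 0 := by
    apply zero_of_NZ hf
    intro c hc
    have h2 := hP (ofC c hc)
    have h3 := hP (actE A hA (ofC c hc))
    rw [cls_actE hd, cfE_actE, cfE_ofC, hRj A c] at h3
    rw [cfE_ofC] at h2
    rw [map_sub, eval_compT, map_mul, eval_C, ← h2, ← h3]
    ring
  have h2 := congrArg (eval c) h1
  rw [map_sub, eval_compT, map_mul, eval_C, map_zero, sub_eq_zero] at h2
  exact h2

/-- The function on the moduli space given by an admissible pair. -/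
def fn (hd : 2 ≤ d) (P Q : SS k N d) (h : ∃ w, IsSemi w P ∧ IsSemi w Q) : Moduli k N d → k :=
  Quot.lift (fun G => eval (cfE G) P / eval (cfE G) Q) (by
    intro F G hFG
    obtain ⟨w, hP, hQ⟩ := h
    rw [rel_iff (by omega)] at hFG
    obtain ⟨A, hA, rfl⟩ := hFG
    simp only [cfE_actE]
    rw [hP A, hQ A, mul_div_mul_left _ _ (pow_ne_zero _ hA)])

theorem fn_cls (hd : 2 ≤ d) (P Q : SS k N d) (h : ∃ w, IsSemi w P ∧ IsSemi w Q)
    (G : EndTuple k N d) : fn hd P Q h (cls G) = eval (cfE G) P / eval (cfE G) Q := rfl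

theorem Adm.ex {f : Ix N d → k} {P Q : SS k N d} (h : Adm f P Q) :
    ∃ w, IsSemi w P ∧ IsSemi w Q := by
  obtain ⟨w, h1, h2, _⟩ := h
  exact ⟨w, h1, h2⟩

theorem nb (hd : 2 ≤ d) {F : EndTuple k N d} {P Q : SS k N d} (h : Adm (cfE F) P Q) :
    ∀ᶠ y in 𝓝 (cls F), ∀ G : EndTuple k N d, cls G = y → eval (cfE G) Q ≠ 0 := by
  obtain ⟨w, _, hQ, hQF⟩ := h
  apply IsOpen.mem_nhds
  · rw [isOpen_iff_cls]
    convert isOpen_SS Q using 1
    ext G
    constructor
    · intro h
      exact h G rfl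
    · intro h G' hG'
      obtain ⟨A, hA, rfl⟩ := (cls_eq_iff (by omega) G G').mp hG'.symm
      rw [cfE_actE, hQ A]
      exact mul_ne_zero (pow_ne_zero _ hA) h
  · intro G' hG'
    obtain ⟨A, hA, rfl⟩ := (cls_eq_iff (by omega) F G').mp hG'.symm
    rw [cfE_actE, hQ A]
    exact mul_ne_zero (pow_ne_zero _ hA) hQF

theorem fn_eq (hd : 2 ≤ d) {F : EndTuple k N d} {P Q P' Q' : SS k N d} (h : Adm (cfE F) P Q)
    (h' : Adm (cfE F) P' Q') (e : P * Q' = P' * Q) :
    fn hd P Q h.ex =ᶠ[𝓝 (cls F)] fn hd P' Q' h'.ex := by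
  filter_upwards [nb hd h, nb hd h'] with y h1 h2
  obtain ⟨G, rfl⟩ := cls_surjective y
  rw [fn_cls, fn_cls]
  have h3 := congrArg (eval (cfE G)) e
  rw [map_mul, map_mul] at h3
  rw [div_eq_div_iff (h1 G rfl) (h2 G rfl), h3]

/-- the germ of an element -/
def theta (hd : 2 ≤ d) (F : EndTuple k N d) (b : BK (cfE F)) : Germ (𝓝 (cls F)) k :=
  (fn hd (exists_rep b).choose (exists_rep b).choose_spec.choose
    (exists_rep b).choose_spec.choose_spec.1.ex : Moduli k N d → k)

theorem theta_eq (hd : 2 ≤ d) {F : EndTuple k N d} {b : BK (cfE F)} {P Q : SS k N d}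
    (h : Rep (cfE F) b P Q) : theta hd F b = (fn hd P Q h.1.ex : Moduli k N d → k) :=
  Germ.coe_eq.mpr (fn_eq hd (exists_rep b).choose_spec.choose_spec.1 h.1
    ((exists_rep b).choose_spec.choose_spec.unique h))

/-- The embedding of the ring of quotients of semi-invariants in the ring of germs. -/
def thetaHom (hd : 2 ≤ d) (F : EndTuple k N d) : BK (cfE F) →+* Germ (𝓝 (cls F)) k where
  toFun := theta hd F
  map_one' := by
    have h := Rep.const (cfE F) (1 : k)
    rw [map_one, C_1] at h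
    rw [theta_eq hd h]
    apply Germ.coe_eq.mpr
    apply Eventually.of_forall
    intro y
    obtain ⟨G, rfl⟩ := cls_surjective y
    rw [fn_cls, map_one, div_one]
  map_mul' a b := by
    obtain ⟨P, Q, h⟩ := exists_rep a
    obtain ⟨P', Q', h'⟩ := exists_rep b
    rw [theta_eq hd h, theta_eq hd h', theta_eq hd (h.mul h')]
    apply Germ.coe_eq.mpr
    apply Eventually.of_forall
    intro y
    obtain ⟨G, rfl⟩ := cls_surjective y
    change eval (cfE G) (P * P') / eval (cfE G) (Q * Q') =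
      eval (cfE G) P / eval (cfE G) Q * (eval (cfE G) P' / eval (cfE G) Q')
    rw [map_mul, map_mul, mul_div_mul_comm]
  map_zero' := by
    have h := Rep.const (cfE F) (0 : k)
    rw [map_zero, C_0] at h
    rw [theta_eq hd h]
    apply Germ.coe_eq.mpr
    apply Eventually.of_forall
    intro y
    obtain ⟨G, rfl⟩ := cls_surjective y
    rw [fn_cls, map_zero, zero_div]
  map_add' a b := by
    obtain ⟨P, Q, h⟩ := exists_rep a
    obtain ⟨P', Q', h'⟩ := exists_rep b
    rw [theta_eq hd h, theta_eq hd h', theta_eq hd (h.add h')]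
    apply Germ.coe_eq.mpr
    filter_upwards [nb hd h.1, nb hd h'.1] with y h1 h2
    obtain ⟨G, rfl⟩ := cls_surjective y
    have e1 := h1 G rfl
    have e2 := h2 G rfl
    change eval (cfE G) (P * Q' + P' * Q) / eval (cfE G) (Q * Q') =
      eval (cfE G) P / eval (cfE G) Q + eval (cfE G) P' / eval (cfE G) Q'
    rw [map_add, map_mul, map_mul, map_mul]
    field_simp

theorem thetaHom_inj (hd : 2 ≤ d) (F : EndTuple k N d) :
    Function.Injective (thetaHom hd F) := by
  rw [injective_iff_map_eq_zero]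
  intro b hb
  obtain ⟨P, Q, h⟩ := exists_rep b
  have h1 : theta hd F b = 0 := hb
  rw [theta_eq hd h] at h1
  have h2 : fn hd P Q h.1.ex =ᶠ[𝓝 (cls F)] fun _ => 0 := Germ.coe_eq.mp h1
  have h3 : ∀ᶠ G in 𝓝 F, fn hd P Q h.1.ex (cls G) = 0 :=
    (continuous_cls.tendsto F).eventually h2
  obtain ⟨H, hH1, hH2⟩ := exists_basic h3
  have h4 : P * (Q * H) = 0 := by
    apply zero_of_NZ (NZ_cfE F)
    intro c hc
    rw [map_mul, map_mul]
    by_cases hcH : eval c H = 0
    · rw [hcH, mul_zero, mul_zero]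
    · by_cases hcQ : eval c Q = 0
      · rw [hcQ, zero_mul, mul_zero]
      · have h5 := hH2 (ofC c hc) (by rw [cfE_ofC]; exact hcH)
        rw [fn_cls, cfE_ofC, div_eq_zero_iff] at h5
        rw [h5.resolve_right hcQ, zero_mul]
  have hQ0 : Q ≠ 0 := h.1.ne_zero
  have hH0 : H ≠ 0 := by
    rintro rfl
    exact hH1 (map_zero _)
  have hP : P = 0 := (mul_eq_zero.mp h4).resolve_right (mul_ne_zero hQ0 hH0)
  have h6 := Rep.const (cfE F) (0 : k)
  rw [map_zero, C_0] at h6
  exact h.eq h6 (by rw [hP, zero_mul, zero_mul])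

theorem thetaHom_range (hd : 2 ≤ d) (F : EndTuple k N d) :
    (thetaHom hd F).range = localRing (cls F) := by
  ext g
  constructor
  · rintro ⟨b, rfl⟩
    obtain ⟨P, Q, h⟩ := exists_rep b
    refine ⟨fn hd P Q h.1.ex, (theta_eq hd h).symm, ?_⟩
    filter_upwards [nb hd h.1] with y h1 G hG
    refine ⟨upP P, upP Q, ?_, ?_⟩
    · rw [eval_upP]
      exact h1 G hG
    · filter_upwards [(isOpen_SS Q).mem_nhds (h1 G hG)] with G' hG'
      rw [eval_upP, eval_upP, Function.comp_apply, fn_cls]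
      exact div_mul_cancel₀ _ hG'
  · rintro ⟨φ, rfl, hφ⟩
    have h1 : RegularAt (φ ∘ cls) F := hφ.self_of_nhds F rfl
    obtain ⟨P, Q, h2, h3⟩ := exists_adm hd h1
    refine ⟨mk (cfE F) P Q h2, ?_⟩
    change theta hd F _ = _
    rw [theta_eq hd (rep_mk _ P Q h2)]
    apply Germ.coe_eq.mpr
    filter_upwards [nb hd h2] with y h4
    obtain ⟨G, rfl⟩ := cls_surjective y
    rw [fn_cls, ← h3 G]
    exact mul_div_cancel_right₀ _ (h4 G rfl)

/-- The local ring of the moduli space. -/
def localEquiv (hd : 2 ≤ d) (F : EndTuple k N d) : BK (cfE F) ≃+* localRing (cls F) :=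
  (RingEquiv.ofBijective (thetaHom hd F).rangeRestrict
    ⟨fun a b h => thetaHom_inj hd F (congrArg Subtype.val h),
      (thetaHom hd F).rangeRestrict_surjective⟩).trans
    (RingEquiv.subringCongr (thetaHom_range hd F))

end

end Pool.Agent.NH60
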