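import Pool.Agent.NH60.Naka

/-!
Bound for the number of algebraically independent quotients of semi-invariants.
-/

open MvPolynomial

namespace Pool.Agent.NH60

open Pool.Agent.Helper819.Apolar Pool.Agent.Helper819.Dyn

noncomputable section

set_option linter.unusedSectionVars false

variable {k : Type} [Field k] {N d : ℕ}

/-- the generic coefficient vector over the field of rational functions -/
def XL (k : Type) [Field k] (N d : ℕ) : Ix N d → KK k N d := fun p => em k N d (X p)

theorem semi_pde [Infinite k] {w : ℕ} {P : SS k N d} (hP : IsSemi w P)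
    (A : Matrix (Fin (N + 1)) (Fin (N + 1)) k) :
    ∑ p, xi (A.map C) (X : Ix N d → SS k N d) p * pderiv p P = C (w * A.trace) * P := by
  apply MvPolynomial.funext
  intro c
  rw [map_mul, eval_C, ← semi_lie hP A c, map_sum]
  unfold dd
  refine Finset.sum_congr rfl fun p _ => ?_
  rw [map_mul]
  congr 1
  rw [map_xi (eval c) (A.map C) (X : Ix N d → SS k N d) p]
  congr 1
  · ext i j
    simp
  · funext q
    exact eval_X q

theorem om_xi [Infinite k] {f : Ix N d → k} {P Q : SS k N d} (h : Adm f P Q)
    (A : Matrix (Fin (N + 1)) (Fin (N + 1)) k) :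
    ∑ p, xi (A.map C) (X : Ix N d → SS k N d) p * om P Q p = 0 := by
  obtain ⟨w, h1, h2, _⟩ := h
  have e1 := semi_pde h1 A
  have e2 := semi_pde h2 A
  have h3 : ∑ p, xi (A.map C) (X : Ix N d → SS k N d) p * om P Q p =
      Q * (∑ p, xi (A.map C) (X : Ix N d → SS k N d) p * pderiv p P) -
      P * (∑ p, xi (A.map C) (X : Ix N d → SS k N d) p * pderiv p Q) := by
    rw [Finset.mul_sum, Finset.mul_sum, ← Finset.sum_sub_distrib]
    refine Finset.sum_congr rfl fun p _ => ?_
    unfold om
    ring
  rw [h3, e1, e2]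
  ring

/-- pairing with the differential -/
def Lam {δ : ℕ} (P Q : Fin δ → SS k N d) : (Ix N d → KK k N d) →ₗ[KK k N d] (Fin δ → KK k N d) where
  toFun y := fun j => ∑ p, y p * em k N d (om (P j) (Q j) p)
  map_add' y z := by
    funext j
    rw [Pi.add_apply, ← Finset.sum_add_distrib]
    refine Finset.sum_congr rfl fun p _ => ?_
    rw [Pi.add_apply]
    ring
  map_smul' r y := by
    funext j
    rw [Pi.smul_apply, smul_eq_mul, RingHom.id_apply, Finset.mul_sum]
    refine Finset.sum_congr rfl fun p _ => ?_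
    rw [Pi.smul_apply, smul_eq_mul]
    ring

theorem Lam_apply {δ : ℕ} (P Q : Fin δ → SS k N d) (y : Ix N d → KK k N d) (j : Fin δ) :
    Lam P Q y j = ∑ p, y p * em k N d (om (P j) (Q j) p) := rfl

theorem Lam_xi [Infinite k] {f : Ix N d → k} {δ : ℕ} (P Q : Fin δ → SS k N d)
    (h : ∀ i, Adm f (P i) (Q i)) (Z : Matrix (Fin (N + 1)) (Fin (N + 1)) (KK k N d)) :
    Lam P Q (xi Z (XL k N d)) = 0 := by
  have h0 : ∀ a b, Lam P Q (xi (Matrix.single a b (1 : KK k N d)) (XL k N d)) = 0 := by
    intro a b
    funext j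
    rw [Lam_apply, Pi.zero_apply]
    have h1 := congrArg (em k N d) (om_xi (h j) (Matrix.single a b (1 : k)))
    rw [map_zero, map_sum] at h1
    rw [← h1]
    refine Finset.sum_congr rfl fun p _ => ?_
    rw [map_mul]
    congr 1
    rw [map_xi (em k N d)]
    congr 1
    rw [Matrix.map_map]
    ext i j
    rw [Matrix.map_apply, Matrix.single_apply, Matrix.single_apply]
    split_ifs with h
    · simp
    · simp
  have h1 : xi Z (XL k N d) = xiL (XL k N d) (∑ i, ∑ j, Matrix.single i j (Z i j)) := by
    rw [← Matrix.matrix_eq_sum_single Z]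
    rfl
  rw [h1, map_sum, map_sum]
  refine Finset.sum_eq_zero fun i _ => ?_
  rw [map_sum, map_sum]
  refine Finset.sum_eq_zero fun j _ => ?_
  have h2 : Matrix.single i j (Z i j) = Z i j • Matrix.single i j (1 : KK k N d) := by
    rw [Matrix.smul_single, smul_eq_mul, mul_one]
  rw [h2, map_smul, map_smul]
  change Z i j • Lam P Q (xi (Matrix.single i j (1 : KK k N d)) (XL k N d)) = 0
  rw [h0, smul_zero]

instance : Algebra.EssFiniteType k (KK k N d) :=
  Algebra.EssFiniteType.comp k (SS k N d) (KK k N d)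

theorem aeval_XL (P : SS k N d) : aeval (XL k N d) P = em k N d P := by
  have h1 : (aeval (XL k N d) : SS k N d →ₐ[k] KK k N d) =
      IsScalarTower.toAlgHom k (SS k N d) (KK k N d) := by
    apply algHom_ext
    intro p
    rw [aeval_X]
    rfl
  rw [h1]
  rfl

theorem snd_em {φ : KK k N d →+* DualNumber (KK k N d)} (h1 : ∀ a, (φ a).fst = a)
    (h2 : ∀ a : k, φ (algebraMap k _ a) = algebraMap k _ a) (P : SS k N d) :
    (φ (em k N d P)).snd = ∑ p, (φ (em k N d (X p))).snd * em k N d (pderiv p P) := by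
  let ψ : SS k N d →ₐ[k] DualNumber (KK k N d) :=
    { φ.comp (em k N d) with
      commutes' := by
        intro a
        change φ (em k N d (algebraMap k (SS k N d) a)) = _
        rw [← h2 a]
        congr 1 }
  have h3 : ψ = aeval (fun p => algebraMap (KK k N d) (DualNumber (KK k N d)) (XL k N d p) +
      DualNumber.eps * algebraMap (KK k N d) (DualNumber (KK k N d))
        ((φ (em k N d (X p))).snd)) := by
    apply algHom_ext
    intro p
    rw [aeval_X]
    change φ (em k N d (X p)) = _
    apply TrivSqZeroExt.ext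
    · rw [fst_form, h1]; rfl
    · rw [snd_form]
  have h4 : φ (em k N d P) = ψ P := rfl
  rw [h4, h3, aeval_dual, snd_form]
  refine Finset.sum_congr rfl fun p _ => ?_
  rw [aeval_XL]

variable [IsAlgClosed k] [CharZero k]

theorem xi_XL_inj (hd : 2 ≤ d) {f : Ix N d → k} (hf : NZ (tup f))
    {Z : Matrix (Fin (N + 1)) (Fin (N + 1)) (KK k N d)} (h : xi Z (XL k N d) = 0) : Z = 0 := by
  have hinf : Infinite k := inferInstance
  obtain ⟨D, hD⟩ := IsLocalization.exist_integer_multiples_of_finite
    (nonZeroDivisors (SS k N d)) (fun q : Fin (N + 1) × Fin (N + 1) => Z q.1 q.2)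
  choose z hz using hD
  let Z' : Matrix (Fin (N + 1)) (Fin (N + 1)) (SS k N d) := Matrix.of fun i j => z (i, j)
  have hD0 : em k N d (D : SS k N d) ≠ 0 := em_ne (nonZeroDivisors.ne_zero D.2)
  have hZ' : Z'.map (em k N d) = em k N d (D : SS k N d) • Z := by
    ext i j
    rw [Matrix.map_apply, Matrix.smul_apply, smul_eq_mul]
    change algebraMap _ _ (z (i, j)) = _
    rw [hz]
    rw [Algebra.smul_def]
  have h1 : xi Z' (X : Ix N d → SS k N d) = 0 := by
    funext p
    apply em_inj
    rw [map_xi (em k N d), hZ', Pi.zero_apply, map_zero]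
    have h2 := congrFun (xi_smul (em k N d (D : SS k N d)) Z (XL k N d)) p
    rw [h, smul_zero, Pi.zero_apply] at h2
    exact h2
  by_contra hZ
  obtain ⟨i, j, hij⟩ : ∃ i j, Z' i j ≠ 0 := by
    by_contra hcon
    push Not at hcon
    apply hZ
    have h3 : Z'.map (em k N d) = 0 := by
      ext i j
      rw [Matrix.map_apply, hcon, map_zero, Matrix.zero_apply]
    rw [h3] at hZ'
    exact (smul_eq_zero.mp hZ'.symm).resolve_left hD0
  obtain ⟨R, hRf, hRN⟩ := exists_open hf
  have hR0 : R ≠ 0 := by
    rintro rfl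
    exact hRf (map_zero _)
  obtain ⟨s, hs⟩ : ∃ s, eval s (Z' i j * R) ≠ 0 := by
    by_contra hcon
    push Not at hcon
    apply mul_ne_zero hij hR0
    apply MvPolynomial.funext
    intro s
    rw [hcon s, map_zero]
  rw [map_mul] at hs
  have h4 : xi (Z'.map (eval s)) s = 0 := by
    funext p
    have h5 := congrArg (eval s) (congrFun h1 p)
    rw [map_xi (eval s), Pi.zero_apply, map_zero] at h5
    rw [Pi.zero_apply, ← h5]
    congr 1
    funext q
    exact (eval_X q).symm
  have h5 := xi_inj hd (hRN s (right_ne_zero_of_mul hs)) h4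
  have h6 := congrFun (congrFun h5 i) j
  rw [Matrix.map_apply, Matrix.zero_apply] at h6
  exact left_ne_zero_of_mul hs h6

/-- At most `card - (N+1)^2` quotients of semi-invariants are algebraically independent. -/
theorem indep_le (hd : 2 ≤ d) {f : Ix N d → k} (hf : NZ (tup f)) {δ : ℕ} (x : Fin δ → BK f)
    (hx : ∀ F : MvPolynomial (Fin δ) k, aeval x F = 0 → F = 0) :
    δ + (N + 1) * (N + 1) ≤ Fintype.card (Ix N d) := by
  classical
  have hinf : Infinite k := inferInstance
  choose P Q hPQ using fun i => exists_rep (x i)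
  have hQ : ∀ i, em k N d (Q i) ≠ 0 := fun i => em_ne (hPQ i).1.ne_zero
  have hphi : ∀ i : Fin δ, ∃ φ : KK k N d →+* DualNumber (KK k N d), (∀ a, (φ a).fst = a) ∧
      (∀ a : k, φ (algebraMap k _ a) = algebraMap k _ a) ∧
      ∀ j, (φ (x j : KK k N d)).snd = (Pi.single i (1 : KK k N d) : Fin δ → KK k N d) j := by
    intro i
    apply exists_dual_ext (k := k) (fun j => (x j : KK k N d))
    intro F hF
    have h1 : aeval x F = 0 := by
      apply Subtype.ext
      have h2 := comp_aeval_apply x (BK f).val F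
      change (BK f).val (aeval x F) = 0
      rw [h2]
      exact hF
    rw [hx F h1]
    simp
  choose φ h1 h2 h3 using hphi
  have key : ∀ i j, Lam P Q (fun p => (φ i (em k N d (X p))).snd) j =
      (em k N d (Q j)) ^ 2 * (Pi.single i (1 : KK k N d) : Fin δ → KK k N d) j := by
    intro i j
    have e1 := congrArg (fun y => (φ i y).snd) (hPQ j).2
    simp only [map_mul, DualNumber.snd_mul, h1] at e1
    rw [h3, snd_em (h1 i) (h2 i) (P j), snd_em (h1 i) (h2 i) (Q j)] at e1
    rw [Lam_apply]
    have e2 : ∑ p, (φ i (em k N d (X p))).snd * em k N d (om (P j) (Q j) p) =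
        em k N d (Q j) * (∑ p, (φ i (em k N d (X p))).snd * em k N d (pderiv p (P j))) -
        em k N d (P j) * (∑ p, (φ i (em k N d (X p))).snd * em k N d (pderiv p (Q j))) := by
      rw [Finset.mul_sum, Finset.mul_sum, ← Finset.sum_sub_distrib]
      refine Finset.sum_congr rfl fun p _ => ?_
      unfold om
      rw [map_sub, map_mul, map_mul]
      ring
    rw [e2, ← e1, ← (hPQ j).2]
    ring
  have hsurj : Function.Surjective (Lam P Q) := by
    intro t
    refine ⟨∑ i, (t i * ((em k N d (Q i)) ^ 2)⁻¹) • fun p => (φ i (em k N d (X p))).snd, ?_⟩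
    rw [map_sum]
    funext j
    rw [Finset.sum_apply, Finset.sum_eq_single j]
    · rw [map_smul, Pi.smul_apply, key, Pi.single_eq_same, smul_eq_mul]
      have := hQ j
      field_simp
    · intro i _ hij
      rw [map_smul, Pi.smul_apply, key, Pi.single_eq_of_ne hij.symm, mul_zero, smul_zero]
    · simp
  have hr := LinearMap.finrank_range_add_finrank_ker (Lam P Q)
  rw [LinearMap.range_eq_top.mpr hsurj, finrank_top, Module.finrank_pi, Module.finrank_pi,
    Fintype.card_fin] at hr
  let G : Matrix (Fin (N + 1)) (Fin (N + 1)) (KK k N d) →ₗ[KK k N d]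
      LinearMap.ker (Lam P Q) :=
    (xiL (XL k N d)).codRestrict _ (fun Z => Lam_xi P Q (fun i => (hPQ i).1) Z)
  have hG : Function.Injective G := by
    rw [← LinearMap.ker_eq_bot, LinearMap.ker_eq_bot']
    intro Z hZ
    apply xi_XL_inj hd hf
    exact congrArg Subtype.val hZ
  have h5 := LinearMap.finrank_le_finrank_of_injective hG
  rw [Module.finrank_matrix, Module.finrank_self, Fintype.card_fin, mul_one] at h5
  omega

/-- Bound of the Krull dimension. -/
theorem dim_le (hd : 2 ≤ d) {f : Ix N d → k} (hf : NZ (tup f)) {δ : ℕ}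
    (hδ : (δ : WithBot ℕ∞) ≤ ringKrullDim (BK f)) :
    δ + (N + 1) * (N + 1) ≤ Fintype.card (Ix N d) := by
  obtain ⟨l, hl⟩ := (Order.le_krullDim_iff (α := PrimeSpectrum (BK f))).mp hδ
  subst hl
  obtain ⟨x, hx⟩ := Pool.Agent.Helper819.Zar.exists_indep (k := k) (R := BK f) l.length l.toFun
    l.strictMono
  apply indep_le hd hf x
  intro F hF
  apply hx
  rw [hF]
  exact Ideal.zero_mem _

end

end Pool.Agent.NH60
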