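import Pool.Agent.NH60.Noeth
import Pool.Agent.Helper819.Gr.Taylor

/-!
Leading forms of semi-invariants.
-/

open MvPolynomial

namespace Pool.Agent.NH60

open Pool.Agent.Helper819.Apolar Pool.Agent.Helper819.Dyn
open Pool.Agent.Helper819.Gr (DAct lf Ord tayl)

noncomputable section

set_option linter.unusedSectionVars false

/-- The action on coefficient vectors with its derivative. -/
def UA (N d : ℕ) : DAct Unit (N + 1) (Ix N d) where
  act A c := actT (A ()) c
  map_act φ A c p := map_actT φ (A ()) c p
  act_act A B c := actT_actT (A ()) (B ()) c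
  act_one c := actT_one c
  act_add A c c' := actT_add (A ()) c c'
  act_smul A r c := actT_smul (A ()) r c
  xi Y c := xi (Y ()) c
  xi_add Y Y' c := xi_add (Y ()) (Y' ()) c
  xi_smul r Y c := xi_smul r (Y ()) c
  map_xi φ Y c p := map_xi φ (Y ()) c p
  act_eps e he Y c p := actT_eps e he (Y ()) c p

variable {k : Type} [Field k] {N d : ℕ}

theorem semi_UA {w : ℕ} {P : SS k N d} (h : IsSemi w P) :
    Pool.Agent.Helper819.Gr.IsSemi (UA N d).toRAct (fun _ => w) P := by
  intro A c
  change eval (actT (A ()) c) P = (∏ s, (A s).det ^ w) * eval c P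
  rw [h (A ()) c, Fintype.prod_unique]

/-- Leading forms of semi-invariants are invariant under tangential translations. -/
theorem lf_trans [Infinite k] {w : ℕ} {P : SS k N d} (h : IsSemi w P) {j : ℕ} {c : Ix N d → k}
    (hc : Ord j P c) (Y : Matrix (Fin (N + 1)) (Fin (N + 1)) k) (v : Ix N d → k) :
    eval (v + xi Y c) (lf j P c) = eval v (lf j P c) :=
  Pool.Agent.Helper819.Gr.lf_xi (α := UA N d) (semi_UA h) hc (fun _ => Y) v

theorem aeval_mem_pow {σ R : Type} [CommRing R] [Algebra k R] [Fintype σ] {q : MvPolynomial σ k}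
    {i : ℕ} (hq : q.IsHomogeneous i) {I : Ideal R} {v : σ → R} (hv : ∀ p, v p ∈ I) :
    aeval v q ∈ I ^ i := by
  rw [aeval_def, eval₂_eq']
  refine Ideal.sum_mem _ fun m hm => ?_
  apply Ideal.mul_mem_left
  have hdeg : ∑ p, m p = i := by
    have := hq (mem_support_iff.mp hm)
    rw [← this]
    simp [Finsupp.weight_apply, Finsupp.sum_fintype]
  rw [← hdeg, ← Finset.prod_pow_eq_pow_sum]
  exact Ideal.prod_mem_prod fun p _ => Ideal.pow_mem_pow (hv p) _

theorem aeval_scale {σ R : Type} [CommRing R] [Algebra k R] [Fintype σ] {q : MvPolynomial σ k}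
    {i : ℕ} (hq : q.IsHomogeneous i) (s : R) (v : σ → R) :
    aeval (fun p => s * v p) q = s ^ i * aeval v q := by
  rw [aeval_def, aeval_def, eval₂_eq', eval₂_eq', Finset.mul_sum]
  refine Finset.sum_congr rfl fun m hm => ?_
  have hdeg : ∑ p, m p = i := by
    have := hq (mem_support_iff.mp hm)
    rw [← this]
    simp [Finsupp.weight_apply, Finsupp.sum_fintype]
  simp only [mul_pow]
  rw [Finset.prod_mul_distrib, Finset.prod_pow_eq_pow_sum, hdeg]
  ring

theorem aeval_mem_span {σ R : Type} [CommRing R] [Algebra k R] [Fintype σ]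
    {q : MvPolynomial σ k} {i : ℕ} (hq : q.IsHomogeneous i) (hi : 1 ≤ i) (v : σ → R) :
    aeval v q ∈ Ideal.span (Set.range v) := by
  have h1 := aeval_mem_pow hq (I := Ideal.span (Set.range v)) (v := v)
    (fun p => Ideal.subset_span ⟨p, rfl⟩)
  exact Ideal.pow_le_self (by omega) h1

/-- A polynomial vanishing to order `J` lies in the `J`-th power of the ideal of the point. -/
theorem mem_pow_of_ord [Infinite k] {f : Ix N d → k} {J : ℕ} {P : SS k N d} (h : Ord J P f) :
    P ∈ mf f ^ J := by
  have h1 : P = (tayl (fun p => (C (f p) : SS k N d)) (fun p => X p - C (f p)) P).eval 1 := by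
    rw [Pool.Agent.Helper819.Gr.eval_tayl]
    have h2 : (fun p => (C (f p) : SS k N d) + 1 * (X p - C (f p))) = X := by
      funext p
      ring
    rw [h2, aeval_X_left, AlgHom.id_apply]
  rw [h1, Polynomial.eval_eq_sum_range]
  refine Ideal.sum_mem _ fun i _ => ?_
  rw [one_pow, mul_one]
  have h3 := Pool.Agent.Helper819.Gr.aeval_lf (R := SS k N d) i P f (fun p => X p - C (f p))
  have h4 : (tayl (fun p => (C (f p) : SS k N d)) (fun p => X p - C (f p)) P).coeff i =
      aeval (fun p => (X p - C (f p) : SS k N d)) (lf i P f) := h3.symm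
  rw [h4]
  by_cases hi : i < J
  · rw [h i hi, map_zero]
    exact Ideal.zero_mem _
  · have h5 := aeval_mem_pow (Pool.Agent.Helper819.Gr.lf_homog i P f) (I := mf f)
      (v := fun p => (X p - C (f p) : SS k N d)) (by
      intro p
      rw [mem_mf, map_sub, eval_X, eval_C, sub_self])
    exact Ideal.pow_le_pow_right (by omega) h5

theorem tayl_coeff_one (f v : Ix N d → k) (P : SS k N d) :
    (tayl f v P).coeff 1 = dd P f v := by
  have h1 := coeff_one_line f v P
  change (aeval (fun p => Polynomial.C (f p) + Polynomial.X * Polynomial.C (v p)) P).coeff 1 = _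
  rw [h1]
  unfold dd
  refine Finset.sum_congr rfl fun p _ => ?_
  rw [← coe_aeval_eq_eval]
  rfl

/-- Taylor expansion of a form in functions vanishing at the point. -/
theorem tayl_comp {m i : ℕ} {f : Ix N d → k} {A : Fin m → SS k N d}
    (hA : ∀ l, eval f (A l) = 0) {g : MvPolynomial (Fin m) k} (hg : g.IsHomogeneous i)
    (v : Ix N d → k) :
    (∀ a < i, (tayl f v (aeval A g)).coeff a = 0) ∧
      (tayl f v (aeval A g)).coeff i = eval (fun l => dd (A l) f v) g := by
  have h1 : ∀ l, tayl f v (A l) = Polynomial.X * (tayl f v (A l)).divX := by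
    intro l
    have h2 := Polynomial.divX_mul_X_add (tayl f v (A l))
    have h3 : (tayl f v (A l)).coeff 0 = 0 := by
      rw [Pool.Agent.Helper819.Gr.tayl_coeff_zero, ← hA l, ← coe_aeval_eq_eval]
      rfl
    rw [h3, Polynomial.C_0, add_zero, mul_comm] at h2
    exact h2.symm
  have h2 : tayl f v (aeval A g) =
      Polynomial.X ^ i * aeval (fun l => (tayl f v (A l)).divX) g := by
    rw [comp_aeval_apply, ← aeval_scale hg]
    congr 2
    funext l
    exact h1 l
  rw [h2]
  constructor
  · intro a ha
    rw [Polynomial.coeff_X_pow_mul', if_neg (by omega)]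
  · rw [Polynomial.coeff_X_pow_mul', if_pos le_rfl, Nat.sub_self,
      Polynomial.coeff_zero_eq_eval_zero]
    have h3 := comp_aeval_apply (fun l => (tayl f v (A l)).divX)
      (Polynomial.aeval (0 : k) : Polynomial k →ₐ[k] k) g
    change (Polynomial.aeval (0 : k) : Polynomial k →ₐ[k] k) _ = _
    rw [h3, ← coe_aeval_eq_eval]
    have h4 : (fun l => (Polynomial.aeval (0 : k) : Polynomial k →ₐ[k] k)
        ((tayl f v (A l)).divX)) = fun l => dd (A l) f v := by
      funext l
      rw [← tayl_coeff_one]
      have h5 : (tayl f v (A l)).coeff 1 = (tayl f v (A l)).divX.coeff 0 := by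
        rw [Polynomial.coeff_divX]
      rw [h5, Polynomial.coeff_zero_eq_eval_zero]
      rfl
    rw [h4]
    rfl

theorem semi_comp {m i w : ℕ} {A : Fin m → SS k N d} (hA : ∀ l, IsSemi w (A l))
    {g : MvPolynomial (Fin m) k} (hg : g.IsHomogeneous i) : IsSemi (w * i) (aeval A g) := by
  intro B c
  have h1 : ∀ x : Ix N d → k, eval x (aeval A g) = aeval (fun l => eval x (A l)) g := by
    intro x
    have h2 := comp_aeval_apply A (aeval x : SS k N d →ₐ[k] k) g
    have h3 : ∀ q : SS k N d, aeval x q = eval x q := by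
      intro q
      rw [← coe_aeval_eq_eval]
      rfl
    simp_rw [h3] at h2
    exact h2
  rw [h1, h1]
  simp_rw [hA _ B c]
  rw [aeval_scale hg, pow_mul]

end

end Pool.Agent.NH60
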