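import Pool.Agent.NH60.Jac

/-!
At points with nontrivial stabiliser the ring of quotients of semi-invariants is not regular.
-/

open MvPolynomial

namespace Pool.Agent.NH60

open Pool.Agent.Helper819.Apolar Pool.Agent.Helper819.Dyn

noncomputable section

set_option linter.unusedSectionVars false

section lin

variable {k : Type} [Field k]

/-- A set of vectors with trivial annihilator contains a basis. -/
theorem exists_rows {m : ℕ} (L : Set (Fin m → k))
    (hL : ∀ t : Fin m → k, (∀ r ∈ L, r ⬝ᵥ t = 0) → t = 0) :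
    ∃ r : Fin m → (Fin m → k), (∀ i, r i ∈ L) ∧ (Matrix.of r).det ≠ 0 := by
  classical
  have hspan : Submodule.span k L = ⊤ := by
    by_contra hne
    obtain ⟨φ, hφ0, hφ⟩ := Submodule.exists_le_ker_of_lt_top _ (lt_top_iff_ne_top.mpr hne)
    apply hφ0
    have hφt : ∀ r : Fin m → k, φ r = r ⬝ᵥ (fun j => φ (Pi.single j 1)) := by
      intro r
      have h1 : r = ∑ j, r j • (Pi.single j (1 : k) : Fin m → k) := by
        funext q
        rw [Finset.sum_apply]
        simp [Pi.single_apply]
      conv_lhs => rw [h1]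
      rw [map_sum]
      refine Finset.sum_congr rfl fun j _ => ?_
      rw [map_smul, smul_eq_mul]
    have h2 := hL (fun j => φ (Pi.single j 1)) (by
      intro r hr
      rw [← hφt]
      exact hφ (Submodule.subset_span hr))
    apply LinearMap.ext
    intro r
    rw [hφt, h2, dotProduct_zero]
    rfl
  obtain ⟨b, hbL, hbs, hbi⟩ := exists_linearIndependent k L
  rw [hspan] at hbs
  let B : Module.Basis b k (Fin m → k) := Module.Basis.mk hbi (by
    rw [Subtype.range_coe, hbs])
  have hfin : Fintype b := FiniteDimensional.fintypeBasisIndex B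
  have hcard : Fintype.card b = m := by
    rw [← Module.finrank_eq_card_basis B, Module.finrank_pi, Fintype.card_fin]
  let e : Fin m ≃ b := (Fintype.equivFinOfCardEq hcard).symm
  refine ⟨fun i => (e i : Fin m → k), fun i => hbL (e i).2, ?_⟩
  have h1 : LinearIndependent k (Matrix.of (fun i => (e i : Fin m → k))).row := by
    change LinearIndependent k (fun i => (e i : Fin m → k))
    exact hbi.comp e e.injective
  rw [Matrix.linearIndependent_rows_iff_isUnit, Matrix.isUnit_iff_isUnit_det] at h1
  exact h1.ne_zero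

end lin

variable {k : Type} [Field k] {N d : ℕ}

/-- pairing of a covector of polynomials with a constant vector -/
def pa (w : Ix N d → SS k N d) (v : Ix N d → k) : SS k N d := ∑ p, C (v p) * w p

theorem pa_add (w w' : Ix N d → SS k N d) (v : Ix N d → k) :
    pa (w + w') v = pa w v + pa w' v := by
  unfold pa
  rw [← Finset.sum_add_distrib]
  refine Finset.sum_congr rfl fun p _ => ?_
  rw [Pi.add_apply, mul_add]

theorem pa_smul (r : SS k N d) (w : Ix N d → SS k N d) (v : Ix N d → k) :
    pa (r • w) v = r * pa w v := by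
  unfold pa
  rw [Finset.mul_sum]
  refine Finset.sum_congr rfl fun p _ => ?_
  rw [Pi.smul_apply, smul_eq_mul]
  ring

theorem pa_zero (v : Ix N d → k) : pa (0 : Ix N d → SS k N d) v = 0 := by
  unfold pa
  refine Finset.sum_eq_zero fun p _ => ?_
  rw [Pi.zero_apply, mul_zero]

theorem pa_sum {ι : Type} (s : Finset ι) (w : ι → Ix N d → SS k N d) (v : Ix N d → k) :
    pa (∑ i ∈ s, w i) v = ∑ i ∈ s, pa (w i) v := by
  unfold pa
  rw [Finset.sum_comm]
  refine Finset.sum_congr rfl fun p _ => ?_
  rw [Finset.sum_apply, Finset.mul_sum]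

theorem eval_pa_om (s : Ix N d → k) (P Q : SS k N d) (v : Ix N d → k) :
    eval s (pa (om P Q) v) = eval s Q * dd P s v - eval s P * dd Q s v := by
  unfold pa dd om
  rw [map_sum, Finset.mul_sum, Finset.mul_sum, ← Finset.sum_sub_distrib]
  refine Finset.sum_congr rfl fun p _ => ?_
  rw [map_mul, eval_C, map_sub, map_mul, map_mul]
  ring

/-- the combined index set -/
abbrev TT (N m : ℕ) : Type := (Fin (N + 1) × Fin (N + 1)) ⊕ Fin m

/-- orbit directions together with transversal directions -/
def FF {R : Type} [CommRing R] {m : ℕ} (s : Ix N d → R) (v : Fin m → Ix N d → R) :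
    TT N m → Ix N d → R :=
  Sum.elim (fun q => xi (Matrix.single q.1 q.2 1) s) v

/-- the determinant of transversality -/
def Del {R : Type} [CommRing R] {m : ℕ} (e : Ix N d ≃ TT N m) (s : Ix N d → R)
    (v : Fin m → Ix N d → R) : R :=
  (Matrix.of fun p q : Ix N d => FF s v (e p) q).det

theorem map_Del {R S : Type} [CommRing R] [CommRing S] (φ : R →+* S) {m : ℕ}
    (e : Ix N d ≃ TT N m) (s : Ix N d → R) (v : Fin m → Ix N d → R) :
    φ (Del e s v) = Del e (fun p => φ (s p)) (fun i p => φ (v i p)) := by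
  unfold Del
  rw [RingHom.map_det]
  congr 1
  ext p q
  rw [RingHom.mapMatrix_apply, Matrix.map_apply, Matrix.of_apply, Matrix.of_apply]
  unfold FF
  rcases e p with a | j
  · rw [Sum.elim_inl, Sum.elim_inl, map_xi, Matrix.map_single, map_one]
  · rfl

theorem Del_ne_iff {m : ℕ} (e : Ix N d ≃ TT N m) (s : Ix N d → k) (v : Fin m → Ix N d → k) :
    Del e s v ≠ 0 ↔ LinearIndependent k (FF s v) := by
  rw [← linearIndependent_equiv e, ← isUnit_iff_ne_zero]
  unfold Del
  rw [← Matrix.isUnit_iff_isUnit_det, ← Matrix.linearIndependent_rows_iff_isUnit]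
  rfl

theorem FF_sep {m : ℕ} {s : Ix N d → k} {v : Fin m → Ix N d → k}
    (h : LinearIndependent k (FF s v)) {Y : Matrix (Fin (N + 1)) (Fin (N + 1)) k}
    {t : Fin m → k} (ht : ∑ j, t j • v j = xi Y s) : t = 0 := by
  rw [Fintype.linearIndependent_iff] at h
  have h1 := h (Sum.elim (fun q => - Y q.1 q.2) t) (by
    rw [Fintype.sum_sum_type]
    have e1 : ∑ j : Fin m, (Sum.elim (fun q : Fin (N + 1) × Fin (N + 1) => - Y q.1 q.2) t
        (Sum.inr j) : k) • FF s v (Sum.inr j) = xi Y s := ht
    rw [e1]
    have e2 : xi Y s = ∑ q : Fin (N + 1) × Fin (N + 1),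
        Y q.1 q.2 • xi (Matrix.single q.1 q.2 (1 : k)) s := by
      have e3 : xi Y s = xiL s (∑ i, ∑ j, Matrix.single i j (Y i j)) := by
        rw [← Matrix.matrix_eq_sum_single Y]
        rfl
      rw [e3, Fintype.sum_prod_type, map_sum]
      refine Finset.sum_congr rfl fun i _ => ?_
      rw [map_sum]
      refine Finset.sum_congr rfl fun j _ => ?_
      have h2 : Matrix.single i j (Y i j) = Y i j • Matrix.single i j (1 : k) := by
        rw [Matrix.smul_single, smul_eq_mul, mul_one]
      rw [h2, map_smul]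
      rfl
    rw [e2, ← Finset.sum_add_distrib]
    refine Finset.sum_eq_zero fun q _ => ?_
    change (- Y q.1 q.2) • xi (Matrix.single q.1 q.2 (1 : k)) s + _ = 0
    rw [neg_smul, neg_add_cancel])
  funext j
  exact h1 (Sum.inr j)

variable [IsAlgClosed k] [CharZero k]

/-- existence of transversal directions -/
theorem exists_trans (hd : 2 ≤ d) {f : Ix N d → k} (hf : NZ (tup f)) {m : ℕ}
    (hm : m + (N + 1) * (N + 1) = Fintype.card (Ix N d)) :
    ∃ v : Fin m → Ix N d → k, LinearIndependent k (FF f v) ∧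
      ∀ w : Ix N d → k, ∃ (Y : Matrix (Fin (N + 1)) (Fin (N + 1)) k) (t : Fin m → k),
        w = xi Y f + ∑ j, t j • v j := by
  classical
  have hinj : Function.Injective (xiL f) := by
    rw [← LinearMap.ker_eq_bot, LinearMap.ker_eq_bot']
    intro Z hZ
    exact xi_inj hd hf hZ
  have hV0 : Module.finrank k (LinearMap.range (xiL f)) = (N + 1) * (N + 1) := by
    rw [LinearMap.finrank_range_of_inj hinj, Module.finrank_matrix, Module.finrank_self,
      Fintype.card_fin, mul_one]
  obtain ⟨V1, hV1⟩ := Submodule.exists_isCompl (LinearMap.range (xiL f))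
  have hV1f : Module.finrank k V1 = m := by
    have h1 := Submodule.finrank_add_eq_of_isCompl hV1
    rw [hV0, Module.finrank_pi] at h1
    omega
  let B := Module.finBasisOfFinrankEq k V1 hV1f
  refine ⟨fun j => (B j : Ix N d → k), ?_, ?_⟩
  · unfold FF
    have h1 : LinearIndependent k (fun q : Fin (N + 1) × Fin (N + 1) =>
        xi (Matrix.single q.1 q.2 (1 : k)) f) := by
      have h2 := (Matrix.stdBasis k (Fin (N + 1)) (Fin (N + 1))).linearIndependent.map'
        (xiL f) (LinearMap.ker_eq_bot.mpr hinj)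
      have h3 : (fun q : Fin (N + 1) × Fin (N + 1) => xi (Matrix.single q.1 q.2 (1 : k)) f) =
          (xiL f) ∘ (Matrix.stdBasis k (Fin (N + 1)) (Fin (N + 1))) := by
        funext q
        rw [Function.comp_apply, Matrix.stdBasis_eq_single]
        rfl
      rw [h3]
      exact h2
    have h2 : LinearIndependent k (fun j => (B j : Ix N d → k)) :=
      B.linearIndependent.map' V1.subtype (Submodule.ker_subtype V1)
    refine h1.sum_type h2 ?_
    refine hV1.disjoint.mono ?_ ?_
    · rw [Submodule.span_le]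
      rintro _ ⟨q, rfl⟩
      exact ⟨_, rfl⟩
    · rw [Submodule.span_le]
      rintro _ ⟨j, rfl⟩
      exact (B j).2
  · intro w
    have h1 : w ∈ LinearMap.range (xiL f) ⊔ V1 := by
      rw [hV1.sup_eq_top]; trivial
    obtain ⟨_, ⟨Y, rfl⟩, y, hy, hw⟩ := Submodule.mem_sup.mp h1
    refine ⟨Y, fun j => B.repr ⟨y, hy⟩ j, ?_⟩
    rw [← hw]
    congr 1
    have h2 := congrArg Subtype.val (B.sum_repr ⟨y, hy⟩)
    rw [Submodule.coe_sum] at h2
    exact h2.symm

end

end Pool.Agent.NH60
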