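import Pool.Agent.NH60.Main1

/-!
At points with nontrivial stabiliser the ring of quotients of semi-invariants is not regular.
-/

open MvPolynomial

namespace Pool.Agent.NH60

open Pool.Agent.Helper819.Apolar Pool.Agent.Helper819.Dyn

noncomputable section

set_option linter.unusedSectionVars false

variable {k : Type} [Field k] {N d : ℕ}

/-- A polynomial vanishing at a point has a prime divisor vanishing at this point. -/
theorem exists_prime_dvd {σ : Type} [Nonempty σ] (f : σ → k) {u : MvPolynomial σ k}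
    (hu : eval f u = 0) : ∃ π, Prime π ∧ eval f π = 0 ∧ π ∣ u := by
  classical
  obtain ⟨u', hu'0, hu'f, hu'd⟩ : ∃ u' : MvPolynomial σ k, u' ≠ 0 ∧ eval f u' = 0 ∧ u' ∣ u := by
    by_cases h : u = 0
    · obtain ⟨p⟩ := ‹Nonempty σ›
      refine ⟨X p - C (f p), ?_, ?_, ?_⟩
      · intro h0
        have h1 := congrArg (eval (fun _ => f p + 1)) h0
        simp at h1
      · rw [map_sub, eval_X, eval_C, sub_self]
      · rw [h]; exact dvd_zero _
    · exact ⟨u, h, hu, dvd_rfl⟩
  obtain ⟨F, hF, hFp⟩ := UniqueFactorizationMonoid.exists_prime_factors u' hu'0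
  have h1 : eval f F.prod = 0 := by
    obtain ⟨c, hc⟩ := hFp
    rw [← hc, map_mul, mul_eq_zero] at hu'f
    refine hu'f.resolve_right ?_
    exact (c.isUnit.map (eval f)).ne_zero
  rw [map_multiset_prod, Multiset.prod_eq_zero_iff, Multiset.mem_map] at h1
  obtain ⟨π, hπF, hπ⟩ := h1
  refine ⟨π, hF π hπF, hπ, ?_⟩
  exact ((Multiset.dvd_prod hπF).trans hFp.dvd).trans hu'd

theorem eval_pa (s : Ix N d → k) (w : Ix N d → SS k N d) (v : Ix N d → k) :
    eval s (pa w v) = ∑ p, v p * eval s (w p) := by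
  unfold pa
  rw [map_sum]
  refine Finset.sum_congr rfl fun p _ => ?_
  rw [map_mul, eval_C]

theorem eval_pa_sum (s : Ix N d → k) (w : Ix N d → SS k N d) {m : ℕ} (v : Fin m → Ix N d → k)
    (t : Fin m → k) :
    ∑ j, eval s (pa w (v j)) * t j = eval s (pa w (∑ j, t j • v j)) := by
  rw [eval_pa]
  simp_rw [eval_pa, Finset.sum_apply, Finset.sum_mul]
  rw [Finset.sum_comm]
  refine Finset.sum_congr rfl fun p _ => ?_
  refine Finset.sum_congr rfl fun j _ => ?_
  rw [Pi.smul_apply, smul_eq_mul]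
  ring

variable [IsAlgClosed k] [CharZero k]

/-- The ring at a point with nontrivial stabiliser is not regular. -/
theorem not_regular (hN : 2 ≤ N) (hd : 2 ≤ d) {f : Ix N d → k} (hf : NZ (tup f))
    (hnt : ¬ Triv f) : ¬ IsRegularLocalRing (BK f) := by
  classical
  intro hreg
  have hinf : Infinite k := inferInstance
  -- generators of the maximal ideal
  have hfg : (IsLocalRing.maximalIdeal (BK f)).FG := IsNoetherian.noetherian _
  obtain ⟨S, hSc, hSs⟩ := Submodule.FG.exists_span_finset_card_eq_spanFinrank hfg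
  have hδ : ((S.card : ℕ) : WithBot ℕ∞) = ringKrullDim (BK f) := by
    rw [hSc]
    exact hreg.spanFinrank_maximalIdeal
  have hle := dim_le hd hf hδ.le
  let b : Fin S.card → BK f := fun i => (S.equivFin.symm i : BK f)
  have hbr : Set.range b = (S : Set (BK f)) := by
    ext x
    constructor
    · rintro ⟨i, rfl⟩
      exact (S.equivFin.symm i).2
    · intro hx
      exact ⟨S.equivFin ⟨x, hx⟩, by simp [b]⟩
  have hb : Ideal.span (Set.range b) = IsLocalRing.maximalIdeal (BK f) := by
    rw [hbr]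
    exact hSs
  choose P Q hr using fun i => exists_rep (b i)
  obtain ⟨H, hHf, hH⟩ := exists_H b hb P Q hr
  obtain ⟨m, hm⟩ : ∃ m, m + (N + 1) * (N + 1) = Fintype.card (Ix N d) :=
    ⟨Fintype.card (Ix N d) - (N + 1) * (N + 1), by omega⟩
  have hδm : S.card ≤ m := by omega
  obtain ⟨v, hv1, hv2⟩ := exists_trans hd hf hm
  let W : Fin m → Ix N d → SS k N d := fun i =>
    if h : (i : ℕ) < S.card then om (P ⟨i, h⟩) (Q ⟨i, h⟩) else 0
  have hW : ∀ A D, Adm f A D → H • om A D ∈ Submodule.span (SS k N d) (Set.range W) := by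
    intro A D hAD
    refine Submodule.span_mono ?_ (hH A D hAD)
    rintro _ ⟨i, rfl⟩
    refine ⟨⟨i, lt_of_lt_of_le i.2 hδm⟩, ?_⟩
    change (if h : (i : ℕ) < S.card then om (P ⟨i, h⟩) (Q ⟨i, h⟩) else 0) = _
    rw [dif_pos i.2]
  let U0 : Matrix (Fin m) (Fin m) (SS k N d) := Matrix.of fun i j => pa (W i) (v j)
  have hu0 : eval f U0.det = 0 := by
    by_contra hne
    obtain ⟨w, hw1, hw2⟩ := not_span hN hd hf hnt
    obtain ⟨Y, t, hwt⟩ := hv2 w
    have hdet : (U0.map (eval f)).det ≠ 0 := by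
      rw [RingHom.map_det] at hne
      exact hne
    have ht : t = 0 := by
      apply Matrix.eq_zero_of_mulVec_eq_zero hdet
      funext i
      have h1 : (U0.map (eval f)).mulVec t i = ∑ j, eval f (pa (W i) (v j)) * t j := rfl
      rw [h1, eval_pa_sum, Pi.zero_apply]
      change eval f (pa (if h : (i : ℕ) < S.card then om (P ⟨i, h⟩) (Q ⟨i, h⟩) else 0) _) = 0
      split_ifs with hi
      · obtain ⟨wt, hP, hQ, hQf⟩ := (hr ⟨i, hi⟩).1
        rw [eval_pa_om]
        have e1 : ∑ j, t j • v j = w + (-1 : k) • xi Y f := by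
          rw [hwt]
          simp
        rw [e1, dd_vadd, dd_vadd, dd_vsmul, dd_vsmul, hw2 wt _ _ hP hQ hQf,
          hw2 wt _ _ hQ hQ hQf, semi_lie hP, semi_lie hQ]
        ring
      · rw [pa_zero, map_zero]
    apply hw1 Y
    rw [hwt, ht]
    simp
  -- a hypersurface through `f`
  have hne : Nonempty (Ix N d) := by
    rw [← Fintype.card_pos_iff]
    rw [← hm]
    positivity
  obtain ⟨π, hπ, hπf, hπu⟩ := exists_prime_dvd f hu0
  obtain ⟨w, R, hR, hRf, hRN⟩ := exists_semi_NZ hd hf
  have hcard : Fintype.card (Ix N d) = Fintype.card (TT N m) := by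
    have h1 : Fintype.card (TT N m) = (N + 1) * (N + 1) + m := by
      rw [Fintype.card_sum, Fintype.card_prod, Fintype.card_fin, Fintype.card_fin]
    rw [h1, ← hm, add_comm]
  let e : Ix N d ≃ TT N m := Fintype.equivOfCardEq hcard
  let Δ : SS k N d := Del e (X : Ix N d → SS k N d) (fun i p => C (v i p))
  have hΔ : ∀ s, eval s Δ = Del e s v := by
    intro s
    change eval s (Del e (X : Ix N d → SS k N d) (fun i p => C (v i p))) = _
    rw [map_Del]
    congr 1
    · funext p
      exact eval_X p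
    · funext i p
      exact eval_C _
  have hg : ¬ π ∣ R * Δ := by
    intro h
    have h1 : eval f (R * Δ) = 0 := by
      obtain ⟨c, hc⟩ := h
      rw [hc, map_mul, hπf, zero_mul]
    rw [map_mul, hΔ, mul_eq_zero] at h1
    rcases h1 with h1 | h1
    · exact hRf h1
    · exact (Del_ne_iff e f v).mpr hv1 h1
  obtain ⟨s, hs1, hs2, hs3⟩ := codim hN hd hπ hg (by
    intro c hc
    rw [map_mul] at hc
    exact hRN c (left_ne_zero_of_mul hc))
  rw [map_mul, hΔ] at hs2
  have hRs := left_ne_zero_of_mul hs2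
  have hFs := (Del_ne_iff e s v).mp (right_ne_zero_of_mul hs2)
  obtain ⟨r, hr1, hr2⟩ := exists_rows
    {r : Fin m → k | ∃ (j : ℕ) (P : SS k N d), IsSemi (w * j) P ∧
      r = fun i => eval s (pa (om P (R ^ j)) (v i))} (by
    intro t ht
    obtain ⟨Y, hY⟩ := tang_sep hd (hRN s hRs) hs3 hR hRs hRN (∑ j, t j • v j) (by
      intro j P hP
      have h1 := ht _ ⟨j, P, hP, rfl⟩
      have h2 : (fun i => eval s (pa (om P (R ^ j)) (v i))) ⬝ᵥ t =
          ∑ i, eval s (pa (om P (R ^ j)) (v i)) * t i := rfl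
      rw [h2, eval_pa_sum, eval_pa_om, sub_eq_zero] at h1
      exact h1)
    exact FF_sep hFs hY)
  choose jj PP hPP hrr using hr1
  let U1 : Matrix (Fin m) (Fin m) (SS k N d) :=
    Matrix.of fun i j => pa (om (PP i) (R ^ jj i)) (v j)
  have hU1 : eval s U1.det ≠ 0 := by
    rw [RingHom.map_det]
    convert hr2 using 2
    ext i j
    rw [RingHom.mapMatrix_apply, Matrix.map_apply]
    change _ = r i j
    rw [hrr i]
    rfl
  have hcoef : ∀ i, ∃ c : Fin m → SS k N d,
      ∑ l, c l • W l = H • om (PP i) (R ^ jj i) := by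
    intro i
    have h1 := hW (PP i) (R ^ jj i) ⟨w * jj i, hPP i, hR.pow (jj i), by
      rw [map_pow]; exact pow_ne_zero _ hRf⟩
    exact (Submodule.mem_span_range_iff_exists_fun _).mp h1
  choose c hc using hcoef
  have hmat : H • U1 = Matrix.of c * U0 := by
    ext1 i j
    rw [Matrix.smul_apply, Matrix.mul_apply, smul_eq_mul]
    change H * pa (om (PP i) (R ^ jj i)) (v j) = ∑ l, c i l * pa (W l) (v j)
    rw [← pa_smul, ← hc i, pa_sum]
    refine Finset.sum_congr rfl fun l _ => ?_
    rw [pa_smul]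
  have hdet := congrArg Matrix.det hmat
  rw [Matrix.det_smul, Matrix.det_mul, Fintype.card_fin] at hdet
  have h1 : π ∣ H ^ m * U1.det := by
    rw [hdet]
    exact hπu.mul_left _
  rcases hπ.dvd_or_dvd h1 with h2 | h2
  · have h3 := hπ.dvd_of_dvd_pow h2
    apply hHf
    obtain ⟨c, hc⟩ := h3
    rw [hc, map_mul, hπf, zero_mul]
  · apply hU1
    obtain ⟨c, hc⟩ := h2
    rw [hc, map_mul, hs1, zero_mul]

end

end Pool.Agent.NH60
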