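import Pool.Agent.NH60.Bk

/-!
Differentials of quotients of semi-invariants and generators of the maximal ideal.
-/

open MvPolynomial

namespace Pool.Agent.NH60

open Pool.Agent.Helper819.Apolar Pool.Agent.Helper819.Dyn

noncomputable section

set_option linter.unusedSectionVars false

variable {k : Type} [Field k] {N d : ℕ}

/-- numerator of the differential of `P / Q` -/
def om (P Q : SS k N d) : Ix N d → SS k N d := fun p => Q * pderiv p P - P * pderiv p Q

theorem om_add (P Q P' Q' : SS k N d) :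
    om (P * Q' + P' * Q) (Q * Q') = Q' ^ 2 • om P Q + Q ^ 2 • om P' Q' := by
  funext p
  simp only [om, Pi.add_apply, Pi.smul_apply, smul_eq_mul, Derivation.leibniz, map_add]
  ring

theorem om_mul (P Q P' Q' : SS k N d) :
    om (P * P') (Q * Q') = (P' * Q') • om P Q + (P * Q) • om P' Q' := by
  funext p
  simp only [om, Pi.add_apply, Pi.smul_apply, smul_eq_mul, Derivation.leibniz]
  ring

theorem om_equiv {P Q P' Q' : SS k N d} (h : P * Q' = P' * Q) :
    Q' ^ 2 • om P Q = Q ^ 2 • om P' Q' := by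
  funext p
  have h1 := congrArg (pderiv p) h
  simp only [Derivation.leibniz, smul_eq_mul] at h1
  simp only [om, Pi.smul_apply, smul_eq_mul]
  linear_combination (Q' * Q) * h1 - (Q' * pderiv p Q + Q * pderiv p Q') * h

theorem om_const (r : k) : om (C r) (1 : SS k N d) = 0 := by
  funext p
  simp [om]

/-- span of all differentials -/
def MS (f : Ix N d → k) : Submodule (SS k N d) (Ix N d → SS k N d) :=
  Submodule.span _ {x | ∃ P Q, Adm f P Q ∧ x = om P Q}

/-- the ideal of the point -/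
def mf (f : Ix N d → k) : Ideal (SS k N d) := RingHom.ker (eval f)

theorem mem_mf {f : Ix N d → k} {P : SS k N d} : P ∈ mf f ↔ eval f P = 0 := RingHom.mem_ker

theorem om_mem {f : Ix N d → k} {P Q : SS k N d} (h : Adm f P Q) : om P Q ∈ MS f :=
  Submodule.subset_span ⟨P, Q, h, rfl⟩

/-- the element has a representation with differential in `M` -/
def Good (f : Ix N d → k) (M : Submodule (SS k N d) (Ix N d → SS k N d)) (b : BK f) : Prop :=
  ∃ P Q, Rep f b P Q ∧ om P Q ∈ M

theorem Good.add {f : Ix N d → k} {M : Submodule (SS k N d) (Ix N d → SS k N d)} {b b' : BK f}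
    (h : Good f M b) (h' : Good f M b') : Good f M (b + b') := by
  obtain ⟨P, Q, h1, h2⟩ := h
  obtain ⟨P', Q', h1', h2'⟩ := h'
  refine ⟨_, _, h1.add h1', ?_⟩
  rw [om_add]
  exact M.add_mem (M.smul_mem _ h2) (M.smul_mem _ h2')

theorem Good.const (f : Ix N d → k) (M : Submodule (SS k N d) (Ix N d → SS k N d)) (r : k) :
    Good f M (algebraMap k (BK f) r) := by
  refine ⟨_, _, Rep.const f r, ?_⟩
  rw [om_const]
  exact M.zero_mem

theorem Good.smul {f : Ix N d → k} {M : Submodule (SS k N d) (Ix N d → SS k N d)}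
    (hM : mf f • MS f ≤ M) {b : BK f} (h : Good f M b)
    (hb : b ∈ IsLocalRing.maximalIdeal (BK f)) (c : BK f) : Good f M (c * b) := by
  obtain ⟨P, Q, h1, h2⟩ := h
  obtain ⟨A, D, h3⟩ := exists_rep c
  refine ⟨_, _, h3.mul h1, ?_⟩
  rw [om_mul]
  refine M.add_mem (hM ?_) (M.smul_mem _ h2)
  apply Submodule.smul_mem_smul _ (om_mem h3.1)
  rw [mem_mf, map_mul, (h1.mem_iff).mp hb, zero_mul]

/-- If `s` generates the maximal ideal then every differential is generated by those of `s` up to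
`mf f • MS f`. -/
theorem om_mem_sup {f : Ix N d → k} {ι : Type} (b : ι → BK f)
    (hb : Ideal.span (Set.range b) = IsLocalRing.maximalIdeal (BK f))
    (P Q : ι → SS k N d) (hr : ∀ i, Rep f (b i) (P i) (Q i)) {A D : SS k N d}
    (h : Adm f A D) :
    om A D ∈ Submodule.span _ (Set.range (fun i => om (P i) (Q i))) ⊔ mf f • MS f := by
  set M := Submodule.span (SS k N d) (Set.range (fun i => om (P i) (Q i))) ⊔ mf f • MS f with hMdef
  have hM : mf f • MS f ≤ M := le_sup_right
  have h1 : ∀ x ∈ IsLocalRing.maximalIdeal (BK f), Good f M x := by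
    intro x hx
    have hx' := hx
    rw [← hb] at hx
    refine (Submodule.span_induction
      (p := fun x _ => Good f M x ∧ x ∈ IsLocalRing.maximalIdeal (BK f)) ?_ ?_ ?_ ?_ hx).1
    · rintro _ ⟨i, rfl⟩
      refine ⟨⟨P i, Q i, hr i, Submodule.mem_sup_left (Submodule.subset_span ⟨i, rfl⟩)⟩, ?_⟩
      rw [← hb]
      exact Ideal.subset_span ⟨i, rfl⟩
    · refine ⟨?_, Ideal.zero_mem _⟩
      have := Good.const f M 0
      rwa [map_zero] at this
    · rintro x y _ _ ⟨hx1, hx2⟩ ⟨hy1, hy2⟩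
      exact ⟨hx1.add hy1, Ideal.add_mem _ hx2 hy2⟩
    · rintro a x _ ⟨hx1, hx2⟩
      exact ⟨hx1.smul hM hx2 a, Ideal.mul_mem_left _ _ hx2⟩
  have h2 : ∀ x : BK f, Good f M x := by
    intro x
    obtain ⟨A, D, hAD⟩ := exists_rep x
    obtain ⟨r, hr⟩ := hAD.sub_const
    have h3 := (h1 _ hr).add (Good.const f M r)
    rwa [sub_add_cancel] at h3
  obtain ⟨P', Q', h3, h4⟩ := h2 (mk f A D h)
  have h5 := om_equiv ((rep_mk f A D h).unique h3)
  have h6 : Q' ^ 2 • om A D ∈ M := by
    rw [h5]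
    exact M.smul_mem _ h4
  have h7 : (Q' ^ 2 - C (eval f Q' ^ 2)) • om A D ∈ M := by
    apply hM
    apply Submodule.smul_mem_smul _ (om_mem h)
    rw [mem_mf, map_sub, map_pow, eval_C, sub_self]
  have h8 : (C (eval f Q' ^ 2) : SS k N d) • om A D ∈ M := by
    have h9 := M.sub_mem h6 h7
    rwa [← sub_smul, sub_sub_cancel] at h9
  have h9 := M.smul_mem (C ((eval f Q' ^ 2)⁻¹) : SS k N d) h8
  rw [smul_smul, ← C_mul, inv_mul_cancel₀ (pow_ne_zero _ h3.1.eval_ne), C_1, one_smul] at h9
  exact h9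

/-- Nakayama. -/
theorem exists_H {f : Ix N d → k} {ι : Type} (b : ι → BK f)
    (hb : Ideal.span (Set.range b) = IsLocalRing.maximalIdeal (BK f))
    (P Q : ι → SS k N d) (hr : ∀ i, Rep f (b i) (P i) (Q i)) :
    ∃ H : SS k N d, eval f H ≠ 0 ∧ ∀ A D, Adm f A D →
      H • om A D ∈ Submodule.span (SS k N d) (Set.range (fun i => om (P i) (Q i))) := by
  have hle : MS f ≤ Submodule.span (SS k N d) (Set.range (fun i => om (P i) (Q i))) ⊔
      mf f • MS f := by
    unfold MS
    rw [Submodule.span_le]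
    rintro _ ⟨A, D, h, rfl⟩
    exact om_mem_sup b hb P Q hr h
  obtain ⟨r, hr1, hr2⟩ := Submodule.exists_sub_one_mem_and_smul_le_of_fg_of_le_sup
    (I := mf f) (N' := MS f) (IsNoetherian.noetherian _) le_rfl hle
  refine ⟨r, ?_, ?_⟩
  · rw [mem_mf, map_sub, map_one, sub_eq_zero] at hr1
    rw [hr1]
    exact one_ne_zero
  · intro A D h
    apply hr2
    exact Submodule.smul_mem_pointwise_smul _ _ _ (om_mem h)

end

end Pool.Agent.NH60
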