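import Pool.Agent.NH60.Germ

/-!
Contraction of ideals and the Noetherian property.
-/

open MvPolynomial

namespace Pool.Agent.NH60

open Pool.Agent.Helper819.Apolar Pool.Agent.Helper819.Dyn

noncomputable section

set_option linter.unusedSectionVars false

variable {k : Type} [Field k] {N d : ℕ}

theorem rho_dt_mul [CharZero k] (v w : ℕ) (p : KA k N) :
    rho (v + w) (dt (N + 1) k ^ w * p) = rho v p := by
  induction w with
  | zero => rw [pow_zero, one_mul, add_zero]
  | succ w ih => rw [pow_succ', mul_assoc, ← add_assoc, rho_det_mul, ih]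

theorem orb_semi [Infinite k] {w : ℕ} {P : SS k N d} (hP : IsSemi w P) (c : Ix N d → k) :
    aeval (orb c) P = C (eval c P) * dt (N + 1) k ^ w := by
  apply poly_ext
  intro B _
  rw [eval_aeval_orb, hP B, map_mul, eval_C, map_pow, eval_dt, mul_comm]

theorem sharp_semi_mul [CharZero k] {v w : ℕ} {P : SS k N d} (hP : IsSemi w P) (U : SS k N d)
    (c : Ix N d → k) : rho (v + w) (aeval (orb c) (U * P)) = eval c (sharp v U) * eval c P := by
  have hinf : Infinite k := inferInstance
  rw [eval_sharp, map_mul, orb_semi hP]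
  have h1 : aeval (orb c) U * (C (eval c P) * dt (N + 1) k ^ w) =
      C (eval c P) * (dt (N + 1) k ^ w * aeval (orb c) U) := by ring
  rw [h1, rho_smul, rho_dt_mul, mul_comm]

theorem compT_semi [Infinite k] {w : ℕ} {P : SS k N d} (hP : IsSemi w P)
    (A : Matrix (Fin (N + 1)) (Fin (N + 1)) k) : compT A P = C (A.det ^ w) * P := by
  apply MvPolynomial.funext
  intro c
  rw [eval_compT, map_mul, eval_C]
  exact hP A c

variable [IsAlgClosed k] [CharZero k]

/-- Semi-invariant multiples. -/
theorem exists_semi_coeff (hd : 2 ≤ d) {f : Ix N d → k} (hf : NZ (tup f)) {ι : Type} [Fintype ι]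
    {w : ℕ} {P : SS k N d} (hP : IsSemi w P) {p : ι → SS k N d} (hp : ∀ i, IsSemi w (p i))
    {H : SS k N d} (hH : eval f H ≠ 0) {U : ι → SS k N d} (h : H * P = ∑ i, U i * p i) :
    ∃ (v : ℕ) (R : SS k N d) (V : ι → SS k N d), IsSemi v R ∧ (∀ i, IsSemi v (V i)) ∧
      eval f R ≠ 0 ∧ R * P = ∑ i, V i * p i := by
  have hinf : Infinite k := inferInstance
  let J : Ideal (SS k N d) :=
    { carrier := {X | ∃ U : ι → SS k N d, X * P = ∑ i, U i * p i}
      add_mem' := by
        rintro a b ⟨U, hU⟩ ⟨U', hU'⟩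
        refine ⟨U + U', ?_⟩
        rw [add_mul, hU, hU', ← Finset.sum_add_distrib]
        exact Finset.sum_congr rfl fun i _ => by rw [Pi.add_apply, add_mul]
      zero_mem' := ⟨0, by simp⟩
      smul_mem' := by
        rintro c b ⟨U, hU⟩
        refine ⟨fun i => c * U i, ?_⟩
        rw [smul_eq_mul, mul_assoc, hU, Finset.mul_sum]
        exact Finset.sum_congr rfl fun i _ => by rw [mul_assoc] }
  have hJ : ∀ X, X ∈ J ↔ ∃ U : ι → SS k N d, X * P = ∑ i, U i * p i := fun X => Iff.rfl
  let Z : Set (Ix N d → k) := {c | ∀ Q ∈ J, eval c Q = 0}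
  obtain ⟨w', R, hR, hRf, hRZ⟩ := exists_semi hd hf Z (by
    intro c hc Q hQ
    apply hc
    intro z hz
    exact hz Q hQ) (by
    intro A hA z hz Q hQ
    rw [← eval_compT]
    apply hz
    rw [hJ] at hQ ⊢
    obtain ⟨U, hU⟩ := hQ
    refine ⟨fun i => compT A (U i), ?_⟩
    have h1 := congrArg (compT A) hU
    rw [map_mul, map_sum, compT_semi hP] at h1
    simp_rw [map_mul (compT A), compT_semi (hp _)] at h1
    have h2 : C (A.det ^ w) * (compT A Q * P) =
        C (A.det ^ w) * ∑ i, compT A (U i) * p i := by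
      rw [Finset.mul_sum]
      calc C (A.det ^ w) * (compT A Q * P) = compT A Q * (C (A.det ^ w) * P) := by ring
        _ = ∑ i, compT A (U i) * (C (A.det ^ w) * p i) := h1
        _ = _ := Finset.sum_congr rfl fun i _ => by ring
    refine mul_left_cancel₀ ?_ h2
    rw [Ne, C_eq_zero]
    exact pow_ne_zero _ hA) (by
    intro hfZ
    exact hH (hfZ H ⟨U, h⟩))
  have hrad : R ∈ J.radical := by
    rw [← vanishingIdeal_zeroLocus_eq_radical (K := k), mem_vanishingIdeal_iff]
    intro c hc
    have hc' : c ∈ Z := by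
      intro Q hQ
      have := (mem_zeroLocus_iff.mp hc) Q hQ
      rw [← coe_aeval_eq_eval]
      exact this
    have goal := hRZ c hc'
    rw [← coe_aeval_eq_eval] at goal
    exact goal
  obtain ⟨j, hj⟩ := hrad
  rw [hJ] at hj
  obtain ⟨V, hV⟩ := hj
  have hRj := hR.pow j
  refine ⟨w' * j, R ^ j, fun i => sharp (w' * j) (V i), hRj, fun i => isSemi_sharp _ _, by
    rw [map_pow]; exact pow_ne_zero _ hRf, ?_⟩
  apply MvPolynomial.funext
  intro c
  have h1 : rho (w' * j + w) (aeval (orb c) (R ^ j * P)) =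
      rho (w' * j + w) (aeval (orb c) (∑ i, V i * p i)) := by rw [hV]
  rw [orb_semi (hRj.mul hP), rho_smul, rho_dt, mul_one, map_sum, rho_sum] at h1
  rw [h1, map_sum]
  refine Finset.sum_congr rfl fun i _ => ?_
  rw [sharp_semi_mul (hp i), map_mul]

theorem IsSemi.prod' {ι : Type} (s : Finset ι) (Q : ι → SS k N d) (w : ι → ℕ)
    (h : ∀ i, IsSemi (w i) (Q i)) : IsSemi (∑ i ∈ s, w i) (∏ i ∈ s, Q i) := by
  classical
  induction s using Finset.induction_on with
  | empty => rw [Finset.sum_empty, Finset.prod_empty]; exact IsSemi.one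
  | insert a s ha ih =>
    rw [Finset.sum_insert ha, Finset.prod_insert ha]
    exact (h a).mul ih

/-- Ideals of the ring of quotients of semi-invariants are contracted. -/
theorem contract (hd : 2 ≤ d) {f : Ix N d → k} (hf : NZ (tup f)) {ι : Type} [Fintype ι]
    {a : BK f} {b : ι → BK f} {H : SS k N d} (hH : eval f H ≠ 0) {U : ι → SS k N d}
    (h : em k N d H * (a : KK k N d) = ∑ i, em k N d (U i) * (b i : KK k N d)) :
    a ∈ Ideal.span (Set.range b) := by
  classical
  have hinf : Infinite k := inferInstance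
  obtain ⟨P, Q, ⟨⟨w0, hP, hQ, hQf⟩, hPQ⟩⟩ := exists_rep a
  choose p q hpq using fun i => exists_rep (b i)
  have hpq1 := fun i => (hpq i).1
  choose w hp hq hqf using hpq1
  have hpq2 := fun i => (hpq i).2
  set D : SS k N d := Q * ∏ i, q i with hD
  have hDsemi : IsSemi (w0 + ∑ i, w i) D := hQ.mul (IsSemi.prod' _ _ _ hq)
  have hDf : eval f D ≠ 0 := by
    rw [hD, map_mul, map_prod]
    exact mul_ne_zero hQf (Finset.prod_ne_zero_iff.mpr fun i _ => hqf i)
  have hD0 : D ≠ 0 := by
    intro h0
    rw [h0, map_zero] at hDf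
    exact hDf rfl
  have hA : IsSemi (w0 + ∑ i, w i) (P * ∏ i, q i) := hP.mul (IsSemi.prod' _ _ _ hq)
  have hAe : em k N d (P * ∏ i, q i) = em k N d D * (a : KK k N d) := by
    rw [map_mul, ← hPQ, hD, map_mul]
    ring
  have hB : ∀ i, IsSemi (w0 + ∑ i, w i) (p i * (Q * ∏ j ∈ Finset.univ.erase i, q j)) := by
    intro i
    have h1 := (hp i).mul (hQ.mul (IsSemi.prod' (Finset.univ.erase i) _ _ hq))
    have h2 : w i + (w0 + ∑ j ∈ Finset.univ.erase i, w j) = w0 + ∑ i, w i := by
      rw [← Finset.add_sum_erase _ _ (Finset.mem_univ i)]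
      ring
    rwa [h2] at h1
  have hBe : ∀ i, em k N d (p i * (Q * ∏ j ∈ Finset.univ.erase i, q j)) =
      em k N d D * (b i : KK k N d) := by
    intro i
    have h1 : D = q i * (Q * ∏ j ∈ Finset.univ.erase i, q j) := by
      rw [hD, ← Finset.mul_prod_erase _ _ (Finset.mem_univ i)]
      ring
    rw [map_mul, ← hpq2 i, h1, map_mul _ (q i)]
    ring
  have h1 : H * (P * ∏ i, q i) =
      ∑ i, U i * (p i * (Q * ∏ j ∈ Finset.univ.erase i, q j)) := by
    apply em_inj
    rw [map_mul, hAe, map_sum]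
    simp_rw [map_mul _ (U _), hBe]
    calc em k N d H * (em k N d D * (a : KK k N d)) =
        em k N d D * (em k N d H * (a : KK k N d)) := by ring
      _ = ∑ i, em k N d (U i) * (em k N d D * (b i : KK k N d)) := by
        rw [h, Finset.mul_sum]
        exact Finset.sum_congr rfl fun i _ => by ring
  obtain ⟨v, R, V, hR, hV, hRf, hRP⟩ := exists_semi_coeff hd hf hA hB hH h1
  have hadm : ∀ i, Adm f (V i) R := fun i => ⟨v, hV i, hR, hRf⟩
  have hR0 : R ≠ 0 := by
    rintro rfl
    exact hRf (map_zero _)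
  have h2 : a = ∑ i, mk f (V i) R (hadm i) * b i := by
    apply Subtype.ext
    apply mul_left_cancel₀ (mul_ne_zero (em_ne hR0) (em_ne hD0))
    have h3 := congrArg (em k N d) hRP
    rw [map_mul, hAe, map_sum] at h3
    simp_rw [map_mul _ (V _), hBe] at h3
    rw [mul_assoc, h3, AddSubmonoidClass.coe_finsetSum, Finset.mul_sum]
    refine Finset.sum_congr rfl fun i _ => ?_
    rw [Subalgebra.coe_mul, ← (rep_mk f (V i) R (hadm i)).2]
    ring
  rw [h2]
  refine Ideal.sum_mem _ fun i _ => ?_
  exact Ideal.mul_mem_left _ _ (Ideal.subset_span ⟨i, rfl⟩)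

/-- The ring of quotients of semi-invariants is Noetherian. -/
theorem noeth (hd : 2 ≤ d) {f : Ix N d → k} (hf : NZ (tup f)) : IsNoetherianRing (BK f) := by
  classical
  rw [isNoetherianRing_iff_ideal_fg]
  intro I
  let G : Set (SS k N d) := {P | ∃ a ∈ I, ∃ Q, Rep f a P Q}
  have hG : (Submodule.span (SS k N d) G).FG := IsNoetherian.noetherian _
  rw [Submodule.fg_span_iff_fg_span_finset_subset] at hG
  obtain ⟨T, hT, hspan⟩ := hG
  choose a ha Q hQ using fun t : T => hT t.2
  refine ⟨Finset.univ.image a, ?_⟩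
  apply le_antisymm
  · rw [Ideal.span_le]
    intro x hx
    rw [Finset.coe_image, Finset.coe_univ, Set.image_univ] at hx
    obtain ⟨t, rfl⟩ := hx
    exact ha t
  · intro x hx
    obtain ⟨P, Q', hPQ⟩ := exists_rep x
    have h1 : P ∈ Submodule.span (SS k N d) G := Submodule.subset_span ⟨x, hx, Q', hPQ⟩
    rw [hspan] at h1
    have h2 : P ∈ Submodule.span (SS k N d) (Set.range (fun t : T => (t : SS k N d))) := by
      have h3 : Set.range (fun t : T => (t : SS k N d)) = (T : Set (SS k N d)) :=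
        Subtype.range_coe
      rw [h3]
      exact h1
    obtain ⟨U, hU⟩ := (Submodule.mem_span_range_iff_exists_fun _).mp h2
    have h3 := contract hd hf (a := x) (b := a) (H := Q') hPQ.1.eval_ne
      (U := fun t => U t * Q t) (by
      rw [mul_comm, hPQ.2, ← hU, map_sum]
      refine Finset.sum_congr rfl fun t _ => ?_
      rw [smul_eq_mul, map_mul, map_mul, ← (hQ t).2]
      ring)
    rw [Finset.coe_image, Finset.coe_univ, Set.image_univ]
    exact h3

end

end Pool.Agent.NH60
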