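import Pool.Agent.NH60.Ext

/-!
Tangential separation: at a point with trivial stabiliser the differentials of quotients of
semi-invariants cut out the tangent space of the orbit.
-/

open MvPolynomial

namespace Pool.Agent.NH60

open Pool.Agent.Helper819.Apolar Pool.Agent.Helper819.Dyn

noncomputable section

set_option linter.unusedSectionVars false

variable {k : Type} [Field k] {N d : ℕ}

theorem snd_orb {L : Type} [Field L] [Algebra k L] (g : Matrix (Fin (N + 1)) (Fin (N + 1)) L)
    (hg : g.det ≠ 0) (φ : L →+* DualNumber L) (h1 : ∀ a, (φ a).fst = a)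
    (h2 : ∀ a : k, φ (algebraMap k L a) = algebraMap k (DualNumber L) a) :
    ∃ Z : Matrix (Fin (N + 1)) (Fin (N + 1)) L, (∀ i j, (φ (g i j)).snd = (Z * g) i j) ∧
      ∀ (s : Ix N d → k) (p : Ix N d), (φ (actT g (up L s) p)).snd =
        actT g (xi Z (up L s)) p := by
  have hgu : IsUnit g.det := isUnit_iff_ne_zero.mpr hg
  let D : Matrix (Fin (N + 1)) (Fin (N + 1)) L := Matrix.of fun i j => (φ (g i j)).snd
  have hD : D = D * g⁻¹ * g := by
    rw [Matrix.mul_assoc, Matrix.nonsing_inv_mul _ hgu, Matrix.mul_one]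
  refine ⟨D * g⁻¹, ?_, ?_⟩
  · intro i j
    rw [← hD]
    rfl
  · intro s p
    have e1 : φ (actT g (up L s) p) = actT (g.map φ) (fun q => φ (up L s q)) p :=
      map_actT φ g (up L s) p
    have e2 : (fun q => φ (up L s q)) = fun q => algebraMap L (DualNumber L) (up L s q) := by
      funext q
      unfold up
      rw [h2]
      rfl
    have e3 : g.map φ = oneEps (DualNumber.eps : DualNumber L) (D * g⁻¹) *
        g.map (algebraMap L (DualNumber L)) := by
      unfold oneEps
      rw [add_mul, one_mul, Matrix.smul_mul, ← Matrix.map_mul, ← hD]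
      ext i j
      · change (φ (g i j)).fst = _
        rw [h1, Matrix.add_apply, Matrix.smul_apply, smul_eq_mul, Matrix.map_apply,
          Matrix.map_apply, fst_form]
      · change (φ (g i j)).snd = _
        rw [Matrix.add_apply, Matrix.smul_apply, smul_eq_mul, Matrix.map_apply,
          Matrix.map_apply, snd_form]
        rfl
    have e4 : actT (oneEps (DualNumber.eps : DualNumber L) (D * g⁻¹))
        (fun q => algebraMap L (DualNumber L) (up L s q)) =
        (fun q => algebraMap L (DualNumber L) (up L s q)) +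
          (DualNumber.eps : DualNumber L) •
            (fun q => algebraMap L (DualNumber L) (xi (D * g⁻¹) (up L s) q)) := by
      funext q
      exact actT_eps _ DualNumber.eps_mul_eps _ _ _
    rw [e1, e2, e3, ← actT_actT, e4, actT_add, actT_smul, Pi.add_apply, Pi.smul_apply,
      smul_eq_mul, ← map_actT, ← map_actT, snd_form]

/-- the generic matrix over the function field -/
def gL (k : Type) [Field k] (N : ℕ) :
    Matrix (Fin (N + 1)) (Fin (N + 1)) (FractionRing (KA k N)) :=
  (gm k N).map (algebraMap (KA k N) (FractionRing (KA k N)))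

theorem gL_det (k : Type) [Field k] (N : ℕ) : (gL k N).det ≠ 0 := by
  have h1 : (gL k N).det = algebraMap (KA k N) (FractionRing (KA k N)) (gm k N).det := by
    rw [RingHom.map_det]; rfl
  rw [h1]
  intro h
  have h2 := (map_eq_zero_iff _ (IsFractionRing.injective (KA k N)
    (FractionRing (KA k N)))).mp h
  exact Matrix.det_mvPolynomialX_ne_zero _ _ h2

theorem alg_orb (s : Ix N d → k) (p : Ix N d) :
    algebraMap (KA k N) (FractionRing (KA k N)) (orb s p) =
      actT (gL k N) (up (FractionRing (KA k N)) s) p := by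
  unfold orb
  rw [map_actT]
  rfl

theorem hom_alg {Ω : Type} [Field Ω] [Algebra k Ω] (τ : FractionRing (KA k N) →+* Ω)
    (hτ : ∀ a : k, τ (algebraMap k _ a) = algebraMap k Ω a) (q : KA k N) :
    τ (algebraMap (KA k N) (FractionRing (KA k N)) q) =
      aeval (ent ((gL k N).map τ)) q := by
  let τ' : KA k N →ₐ[k] Ω :=
    { τ.comp (algebraMap (KA k N) (FractionRing (KA k N))) with
      commutes' := by
        intro a
        change τ (algebraMap (KA k N) (FractionRing (KA k N)) (algebraMap k (KA k N) a)) = _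
        rw [← IsScalarTower.algebraMap_apply, hτ] }
  have h1 : τ' = aeval (ent ((gL k N).map τ)) := by
    apply MvPolynomial.algHom_ext
    rintro ⟨i, j⟩
    rw [aeval_X]
    change τ (algebraMap (KA k N) (FractionRing (KA k N)) (X (i, j))) = _
    simp [ent, gL, gm, Matrix.mvPolynomialX]
  exact congrFun (congrArg DFunLike.coe h1) q

theorem aeval_qq {Ω : Type} [Field Ω] [Algebra k Ω] (M : Matrix (Fin (N + 1)) (Fin (N + 1)) Ω)
    (s v : Ix N d → k) (V : SS k N d) :
    aeval (ent M) (qq s v V) =
      ∑ p, actT M (up Ω v) p * aeval (actT M (up Ω s)) (pderiv p V) := by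
  unfold qq
  rw [map_sum]
  refine Finset.sum_congr rfl fun p _ => ?_
  rw [map_mul, aeval_orb_S, aeval_aeval_orb_S]
  rfl

theorem actT_cancel {K : Type} [Field K] {g : Matrix (Fin (N + 1)) (Fin (N + 1)) K}
    (hg : g.det ≠ 0) {c c' : Ix N d → K} (h : actT g c = actT g c') : c = c' := by
  have hgu : IsUnit g.det := isUnit_iff_ne_zero.mpr hg
  have h1 := congrArg (actT g⁻¹) h
  rwa [actT_actT, actT_actT, Matrix.mul_nonsing_inv _ hgu, actT_one, actT_one] at h1

theorem actT_zero' {K : Type} [Field K] (g : Matrix (Fin (N + 1)) (Fin (N + 1)) K) :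
    actT g (0 : Ix N d → K) = 0 := by
  have h := actT_smul g (0 : K) (0 : Ix N d → K)
  rwa [zero_smul, zero_smul] at h

theorem ne_zero_of_NZ {K : Type} [Field K] {s : Ix N d → K} (hs : NZ (tup s)) : s ≠ 0 := by
  rintro rfl
  have h := hs (fun _ => 1) (by
    intro i
    simp [tup])
  have h1 := congrFun h 0
  simp at h1

instance : Algebra.EssFiniteType k (FractionRing (KA k N)) :=
  Algebra.EssFiniteType.comp k (KA k N) (FractionRing (KA k N))

variable [IsAlgClosed k] [CharZero k]

theorem sep_orb (hd : 2 ≤ d) {s : Ix N d → k} (hs : NZ (tup s)) :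
    Algebra.IsSeparable (IntermediateField.adjoin k (Set.range
      (fun p => algebraMap (KA k N) (FractionRing (KA k N)) (orb s p))))
      (FractionRing (KA k N)) := by
  apply sep_of_unram
  intro φ h1 h2 h3 a
  obtain ⟨Z, hZ1, hZ2⟩ := snd_orb (d := d) (gL k N) (gL_det k N) φ h1 h2
  have h4 : xi Z (up (FractionRing (KA k N)) s) = 0 := by
    apply actT_cancel (gL_det k N)
    rw [actT_zero']
    funext p
    have h5 := h3 p
    rw [alg_orb, hZ2] at h5
    exact h5
  have hZ : Z = 0 := xi_up_inj hd hs h4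
  have h6 : φ = algebraMap (FractionRing (KA k N)) (DualNumber (FractionRing (KA k N))) := by
    apply IsLocalization.ringHom_ext (nonZeroDivisors (KA k N))
    apply MvPolynomial.ringHom_ext
    · intro r
      change φ (algebraMap (KA k N) (FractionRing (KA k N)) (C r)) = _
      have e : algebraMap (KA k N) (FractionRing (KA k N)) (C r) =
          algebraMap k (FractionRing (KA k N)) r :=
        (IsScalarTower.algebraMap_apply k (KA k N) (FractionRing (KA k N)) r).symm
      rw [e, h2]
      change _ = algebraMap (FractionRing (KA k N)) (DualNumber (FractionRing (KA k N)))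
        (algebraMap (KA k N) (FractionRing (KA k N)) (C r))
      rw [e]
      rfl
    · rintro ⟨i, j⟩
      change φ (algebraMap (KA k N) (FractionRing (KA k N)) (X (i, j))) =
        algebraMap (FractionRing (KA k N)) (DualNumber (FractionRing (KA k N)))
          (algebraMap (KA k N) (FractionRing (KA k N)) (X (i, j)))
      have e : algebraMap (KA k N) (FractionRing (KA k N)) (X (i, j)) = gL k N i j := by
        simp [gL, gm, Matrix.mvPolynomialX]
      rw [e]
      apply TrivSqZeroExt.ext
      · rw [h1]; rfl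
      · rw [hZ1, hZ, Matrix.zero_mul]; rfl
  rw [h6]
  rfl

theorem frac_qq (hd : 2 ≤ d) {s : Ix N d → k} (hs : NZ (tup s)) (ht : Triv s)
    (v : Ix N d → k) (V : SS k N d) : ∃ P Q : SS k N d, aeval (orb s) Q ≠ 0 ∧
      qq s v V * aeval (orb s) Q = aeval (orb s) P := by
  have hsep := sep_orb (k := k) hd hs
  obtain ⟨P, Q, hQ, hPQ⟩ := mem_of_embeddings (k := k)
    (fun p => algebraMap (KA k N) (FractionRing (KA k N)) (orb s p))
    (algebraMap (KA k N) (FractionRing (KA k N)) (qq s v V)) (by
    intro σ hσ1 hσ2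
    set Ω := AlgebraicClosure (FractionRing (KA k N)) with hΩ
    have e1 := hom_alg σ hσ1 (qq s v V)
    have e2 := hom_alg (algebraMap (FractionRing (KA k N)) Ω) (fun a => rfl) (qq s v V)
    rw [e1, e2, aeval_qq, aeval_qq]
    have d1 : ((gL k N).map σ).det ≠ 0 := by
      have h1 : ((gL k N).map σ).det = σ (gL k N).det := by
        rw [RingHom.map_det]; rfl
      rw [h1]
      exact (map_ne_zero σ).mpr (gL_det k N)
    have d2 : ((gL k N).map (algebraMap (FractionRing (KA k N)) Ω)).det ≠ 0 := by
      have h1 : ((gL k N).map (algebraMap (FractionRing (KA k N)) Ω)).det =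
          algebraMap (FractionRing (KA k N)) Ω (gL k N).det := by
        rw [RingHom.map_det]; rfl
      rw [h1]
      exact (map_ne_zero _).mpr (gL_det k N)
    have u2 : IsUnit ((gL k N).map (algebraMap (FractionRing (KA k N)) Ω)).det :=
      isUnit_iff_ne_zero.mpr d2
    have h3 : actT ((gL k N).map σ) (up Ω s) =
        actT ((gL k N).map (algebraMap (FractionRing (KA k N)) Ω)) (up Ω s) := by
      funext p
      have h4 := hσ2 p
      rw [hom_alg σ hσ1, hom_alg (algebraMap (FractionRing (KA k N)) Ω) (fun a => rfl),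
        aeval_orb_S, aeval_orb_S] at h4
      exact h4
    have h5 : actT ((gL k N).map σ * ((gL k N).map (algebraMap (FractionRing (KA k N)) Ω))⁻¹)
        (up Ω s) = up Ω s := by
      rw [← actT_actT, h3, actT_actT, Matrix.mul_nonsing_inv _ u2, actT_one]
    have h6 := ht.up (K := Ω) (by
      rw [Matrix.det_mul, Matrix.det_nonsing_inv, Ring.inverse_eq_inv']
      exact mul_ne_zero d1 (inv_ne_zero d2)) h5
    obtain ⟨r, hr⟩ : ∃ r : Ω, (gL k N).map σ *
        ((gL k N).map (algebraMap (FractionRing (KA k N)) Ω))⁻¹ = r • 1 := ⟨_, h6⟩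
    have h7 : r ^ (N + d) = 1 := by
      rw [hr] at h5
      exact scal_pow (ne_zero_of_NZ (NZ_up hs)) h5
    have h8 : (gL k N).map σ = r • (gL k N).map (algebraMap (FractionRing (KA k N)) Ω) := by
      have h9 := congrArg (fun M => M * (gL k N).map (algebraMap (FractionRing (KA k N)) Ω)) hr
      simp only [Matrix.mul_assoc, Matrix.nonsing_inv_mul _ u2, Matrix.mul_one,
        Matrix.smul_mul, Matrix.one_mul] at h9
      exact h9
    rw [h8, actT_smul_mat, actT_smul_mat, h7, one_smul, one_smul])
  have hinj := IsFractionRing.injective (KA k N) (FractionRing (KA k N))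
  have e3 : ∀ q : SS k N d, aeval (fun p => algebraMap (KA k N) (FractionRing (KA k N))
      (orb s p)) q = algebraMap (KA k N) (FractionRing (KA k N)) (aeval (orb s) q) := by
    intro q
    exact (comp_aeval_apply (orb s)
      (IsScalarTower.toAlgHom k (KA k N) (FractionRing (KA k N))) q).symm
  rw [e3] at hQ hPQ
  rw [e3] at hPQ
  refine ⟨P, Q, ?_, ?_⟩
  · intro h0
    apply hQ
    rw [h0, map_zero]
  · apply hinj
    rw [map_mul]
    exact hPQ

theorem tang_orb (hd : 2 ≤ d) {s : Ix N d → k} (v : Ix N d → k)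
    (h : ∀ V : SS k N d, aeval (orb s) V = 0 → qq s v V = 0) : ∃ Y, v = xi Y s := by
  let L := FractionRing (KA k N)
  have e3 : ∀ q : SS k N d, aeval (fun p => algebraMap (KA k N) L
      (orb s p)) q = algebraMap (KA k N) L (aeval (orb s) q) := by
    intro q
    exact (comp_aeval_apply (orb s) (IsScalarTower.toAlgHom k (KA k N) L) q).symm
  obtain ⟨φ, h1, h2, h3⟩ := exists_dual_ext (k := k) (L := L)
    (fun p => algebraMap (KA k N) L (orb s p)) (fun p => algebraMap (KA k N) L (orb v p)) (by
    intro P hP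
    rw [e3] at hP
    have hP' : aeval (orb s) P = 0 :=
      (map_eq_zero_iff _ (IsFractionRing.injective (KA k N) L)).mp hP
    have h4 := h P hP'
    have h5 := congrArg (algebraMap (KA k N) L) h4
    rw [map_zero] at h5
    rw [← h5]
    unfold qq
    rw [map_sum]
    refine Finset.sum_congr rfl fun p _ => ?_
    rw [e3, map_mul])
  obtain ⟨Z, hZ1, hZ2⟩ := snd_orb (d := d) (gL k N) (gL_det k N) φ h1 h2
  have h4 : xi Z (up L s) = up L v := by
    apply actT_cancel (gL_det k N)
    funext p
    have h5 := h3 p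
    rw [alg_orb, hZ2, alg_orb] at h5
    exact h5
  exact xi_descend h4

theorem weight_pos (hd : 2 ≤ d) {s : Ix N d → k} {w : ℕ} {R : SS k N d}
    (hR : IsSemi w R) (hRs : eval s R ≠ 0) (hRv : ∀ c, eval c R ≠ 0 → NZ (tup c)) : w ≠ 0 := by
  rintro rfl
  have h1 := hR ((0 : k) • (1 : Matrix (Fin (N + 1)) (Fin (N + 1)) k)) s
  rw [actT_scalar, zero_pow (by omega), zero_smul, pow_zero, one_mul] at h1
  have h2 := hRv 0 (by rw [h1]; exact hRs)
  exact ne_zero_of_NZ h2 rfl

/-- Tangential separation. -/
theorem tang_sep (hd : 2 ≤ d) {s : Ix N d → k} (hs : NZ (tup s)) (ht : Triv s) {w : ℕ}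
    {R : SS k N d} (hR : IsSemi w R) (hRs : eval s R ≠ 0)
    (hRv : ∀ c, eval c R ≠ 0 → NZ (tup c)) (v : Ix N d → k)
    (hv : ∀ (j : ℕ) (P : SS k N d), IsSemi (w * j) P →
      eval s (R ^ j) * dd P s v = eval s P * dd (R ^ j) s v) : ∃ Y, v = xi Y s := by
  have hinf : Infinite k := inferInstance
  have hw : (w : k) ≠ 0 := by exact_mod_cast weight_pos hd hR hRs hRv
  have hN : ((N : k) + 1) ≠ 0 := by exact_mod_cast Nat.succ_ne_zero N
  -- remove the radial direction
  obtain ⟨c, hc⟩ : ∃ c : k, dd R s v = c * (w * ((N : k) + 1) * eval s R) :=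
    ⟨dd R s v / (w * ((N : k) + 1) * eval s R), by
      rw [div_mul_cancel₀]
      exact mul_ne_zero (mul_ne_zero hw hN) hRs⟩
  let v' : Ix N d → k := v + (-c) • xi 1 s
  have htr : (1 : Matrix (Fin (N + 1)) (Fin (N + 1)) k).trace = (N : k) + 1 := by
    rw [Matrix.trace_one, Fintype.card_fin]; push_cast; ring
  have hR0 : dd R s v' = 0 := by
    rw [dd_vadd, dd_vsmul, semi_lie hR, hc, htr]
    ring
  have hv' : ∀ (j : ℕ) (P : SS k N d), IsSemi (w * j) P → dd P s v' = 0 := by
    intro j P hP
    have h1 := hv j P hP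
    have h2 : eval s (R ^ j) * dd P s v' = eval s P * dd (R ^ j) s v' := by
      rw [dd_vadd, dd_vadd, dd_vsmul, dd_vsmul, semi_lie hP, semi_lie (hR.pow j)]
      linear_combination h1
    rw [dd_pow_zero R s v' hR0, mul_zero, map_pow] at h2
    exact (mul_eq_zero.mp h2).resolve_left (pow_ne_zero _ hRs)
  obtain ⟨Y, hY⟩ := tang_orb hd (s := s) v' (by
    intro V hV
    by_contra hne
    obtain ⟨P, Q, hQ, hPQ⟩ := frac_qq hd hs ht v' V
    have hP : aeval (orb s) P ≠ 0 := by
      rw [← hPQ]
      exact mul_ne_zero hne hQ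
    apply hP
    apply ortho hd hs hR hRs hRv
    intro U j
    have h1 : aeval (orb s) (U * P) = qq s v' (U * Q * V) := by
      rw [qq_mul, hV, zero_mul, add_zero, map_mul, map_mul, ← hPQ]
      ring
    rw [h1, ← dd_sharp]
    exact hv' j _ (isSemi_sharp _ _))
  refine ⟨Y + c • 1, ?_⟩
  rw [xi_add, xi_smul, ← hY]
  change v = v + (-c) • xi 1 s + c • xi 1 s
  rw [neg_smul, neg_add_cancel_right]

end

end Pool.Agent.NH60
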